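import Pool.Agent.Lib.MP_709218_gt.Lor2

/-! The geometric core of the crossing lemma. -/

namespace SBA

open Real Set

/-- determinant of three vectors -/
def dt (x y z : V3) : ℝ :=
  x 0 * (y 1 * z 2 - y 2 * z 1) - x 1 * (y 0 * z 2 - y 2 * z 0) + x 2 * (y 0 * z 1 - y 1 * z 0)

theorem dt_gram (u1 u2 u3 c1 c2 c3 : V3) :
    lor u1 c1 * (lor u2 c2 * lor u3 c3 - lor u2 c3 * lor u3 c2)
      - lor u1 c2 * (lor u2 c1 * lor u3 c3 - lor u2 c3 * lor u3 c1)
      + lor u1 c3 * (lor u2 c1 * lor u3 c2 - lor u2 c2 * lor u3 c1) = -(dt u1 u2 u3 * dt c1 c2 c3) := by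
  unfold lor dt; ring

/-- a past timelike sum of two unit vectors is positive on the future cone -/
theorem past_pos {a b ζ : V3} (ha : lor a a = 1) (hb : lor b b = 1) (hab : lor a b < -1)
    (h2 : a 2 + b 2 < 0) (hζ : ζ ∈ Fut) (hζ2 : 0 < ζ 2) : 0 < lor ζ a + lor ζ b := by
  have hn : lor (a + b) (a + b) < 0 := by
    rw [lor_add_left, lor_add_right, lor_add_right, ha, hb, lor_comm b a]; linarith
  set s := √(-lor (a + b) (a + b)) with hs
  have hs0 : 0 < s := Real.sqrt_pos.2 (by linarith)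
  have hs2 : s * s = -lor (a + b) (a + b) := Real.mul_self_sqrt (by linarith)
  have hH : (-(1 / s)) • (a + b) ∈ Hyp := by
    constructor
    · rw [lor_smul_left, lor_smul_right]
      have : lor (a + b) (a + b) = -(s * s) := by linarith
      rw [this]; field_simp
    · have : ((-(1 / s)) • (a + b)) 2 = (1 / s) * (-(a 2 + b 2)) := by
        simp only [Pi.smul_apply, Pi.add_apply, smul_eq_mul]; ring
      rw [this]
      have : 0 < -(a 2 + b 2) := by linarith
      positivity
  have h := lor_hyp_fut_neg hH hζ hζ2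
  rw [lor_smul_left, lor_comm, lor_add_right] at h
  have h' : 0 < (1 / s) * (lor ζ a + lor ζ b) := by linarith
  exact (pos_iff_pos_of_mul_pos h').1 (by positivity)

/-- sign lemma -/
theorem sign_lemma {u1 u2 u3 c1 c2 c3 : V3}
    (h11 : lor u1 c1 < 0) (h22 : lor u2 c2 < 0) (h33 : lor u3 c3 < 0)
    (h12 : 0 < lor u1 c1 + lor u1 c2) (h13 : 0 < lor u1 c1 + lor u1 c3)
    (h21 : 0 < lor u2 c2 + lor u2 c1) (h23 : 0 < lor u2 c2 + lor u2 c3)
    (h31 : 0 < lor u3 c3 + lor u3 c1) (h32 : 0 < lor u3 c3 + lor u3 c2) :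
    dt u1 u2 u3 * dt c1 c2 c3 < 0 := by
  have h := dt_gram u1 u2 u3 c1 c2 c3
  set p1 := -lor u1 c1 with hp1
  set p2 := -lor u2 c2 with hp2
  set p3 := -lor u3 c3 with hp3
  have e1 : lor u1 c1 = -p1 := by rw [hp1]; ring
  have e2 : lor u2 c2 = -p2 := by rw [hp2]; ring
  have e3 : lor u3 c3 = -p3 := by rw [hp3]; ring
  rw [e1, e2, e3] at h
  have P1 : 0 < p1 := by linarith
  have P2 : 0 < p2 := by linarith
  have P3 : 0 < p3 := by linarith
  have Q12 : p1 < lor u1 c2 := by linarith
  have Q13 : p1 < lor u1 c3 := by linarith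
  have Q21 : p2 < lor u2 c1 := by linarith
  have Q23 : p2 < lor u2 c3 := by linarith
  have Q31 : p3 < lor u3 c1 := by linarith
  have Q32 : p3 < lor u3 c2 := by linarith
  have g12 : 0 < lor u1 c2 := by linarith
  have g13 : 0 < lor u1 c3 := by linarith
  have g21 : 0 < lor u2 c1 := by linarith
  have g23 : 0 < lor u2 c3 := by linarith
  have g31 : 0 < lor u3 c1 := by linarith
  have g32 : 0 < lor u3 c2 := by linarith
  have key : p1 * p2 * p3 < lor u1 c2 * lor u2 c3 * lor u3 c1 := by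
    apply mul_lt_mul'' (mul_lt_mul'' Q12 Q23 P1.le P2.le) Q31 (by positivity) P3.le
  have k1 : 0 < p1 * (lor u2 c3 * lor u3 c2) := by positivity
  have k2 : 0 < p2 * (lor u1 c3 * lor u3 c1) := by positivity
  have k3 : 0 < p3 * (lor u1 c2 * lor u2 c1) := by positivity
  have k4 : 0 < lor u1 c3 * lor u2 c1 * lor u3 c2 := by positivity
  nlinarith

theorem lor_cross_dt (x y z : V3) : lor (cross x y) z = dt x y z := by
  unfold lor cross dt; simp; ring

theorem nrm_dt (y : V3 × V3) (z : V3) : 2 * lor (nrm y) z = dt (y.1 - y.2) (y.1 + y.2) z := by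
  unfold nrm; rw [lor_cross_dt]; unfold dt; simp only [Pi.add_apply, Pi.sub_apply]; ring

/-- the quadratic form in the orthonormal frame of a unit vector -/
theorem frame_norm {y : V3 × V3} (hy : y ∈ UT) (m : V3) :
    lor (nrm y) m ^ 2 = lor m m + lor m (y.1 - y.2) * lor m (y.1 + y.2) := by
  have h1 := hy.1.1
  have h2 := hy.2.1
  have h3 := hy.2.2
  have h : lor (nrm y) m ^ 2 = -(lor m m * (lor y.1 y.1 * lor y.2 y.2 - lor y.1 y.2 ^ 2)
      - lor m y.1 * (lor m y.1 * lor y.2 y.2 - lor y.1 y.2 * lor m y.2)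
      + lor m y.2 * (lor m y.1 * lor y.1 y.2 - lor y.1 y.1 * lor m y.2)) := by
    unfold nrm; rw [lor_cross_dt]; unfold lor dt; ring
  rw [h, h1, h2, h3, lor_sub_right, lor_add_right]; ring

theorem null_of_UT {y : V3 × V3} (hy : y ∈ UT) :
    lor (y.1 + y.2) (y.1 + y.2) = 0 ∧ lor (y.1 - y.2) (y.1 - y.2) = 0 := by
  have h1 := hy.1.1
  have h2 := hy.2.1
  have h3 := hy.2.2
  constructor
  · rw [lor_add_left, lor_add_right, lor_add_right, lor_comm y.2 y.1, h1, h2, h3]; ring
  · rw [lor_sub_left, lor_sub_right, lor_sub_right, lor_comm y.2 y.1, h1, h2, h3]; ring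

theorem abs_lt_of_UT {y : V3 × V3} (hy : y ∈ UT) : |y.2 2| < y.1 2 := by
  obtain ⟨⟨h1, h4⟩, h2, h3⟩ := hy
  apply abs_lt_of_sq_lt_sq _ h4.le
  unfold lor at h1 h2 h3
  have e : (y.1 2) ^ 2 * (y.2 2) ^ 2 = (y.1 0 * y.2 0 + y.1 1 * y.2 1) ^ 2 := by
    have : y.1 0 * y.2 0 + y.1 1 * y.2 1 = y.1 2 * y.2 2 := by linarith
    rw [this]; ring
  have e2 : (y.1 0 * y.2 0 + y.1 1 * y.2 1) ^ 2 ≤
      (y.1 0 * y.1 0 + y.1 1 * y.1 1) * (y.2 0 * y.2 0 + y.2 1 * y.2 1) := by
    nlinarith [sq_nonneg (y.1 0 * y.2 1 - y.1 1 * y.2 0)]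
  have e3 : y.1 0 * y.1 0 + y.1 1 * y.1 1 = (y.1 2) ^ 2 - 1 := by linarith
  have e4 : y.2 0 * y.2 0 + y.2 1 * y.2 1 = (y.2 2) ^ 2 + 1 := by linarith
  rw [e3, e4] at e2
  nlinarith

theorem fut_of_UT {y : V3 × V3} (hy : y ∈ UT) :
    (y.1 + y.2 ∈ Fut ∧ 0 < (y.1 + y.2) 2) ∧ (y.1 - y.2 ∈ Fut ∧ 0 < (y.1 - y.2) 2) := by
  have h := abs_lt.1 (abs_lt_of_UT hy)
  have hn := null_of_UT hy
  have h1 : 0 < (y.1 + y.2) 2 := by rw [Pi.add_apply]; linarith
  have h2 : 0 < (y.1 - y.2) 2 := by rw [Pi.sub_apply]; linarith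
  exact ⟨⟨⟨hn.1.le, h1.le⟩, h1⟩, ⟨⟨hn.2.le, h2.le⟩, h2⟩⟩

/-- reflections preserve the future cone -/
theorem refl_fut {n ζ : V3} (hn : lor n n = 1) (hζ : ζ ∈ Fut) (h2 : 0 < ζ 2) :
    refl n ζ ∈ Fut ∧ 0 < (refl n ζ) 2 := by
  have hF : lor (refl n ζ) (refl n ζ) ≤ 0 := by rw [lor_refl hn]; exact hζ.1
  have hx : refl n e2 ∈ Hyp := (refl_isIso hn).hyp _ e2_mem
  have h3 : lor (refl n e2) (refl n ζ) < 0 := by
    rw [lor_refl hn]; exact lor_hyp_fut_neg e2_mem hζ h2
  rcases lt_trichotomy 0 ((refl n ζ) 2) with h | h | h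
  · exact ⟨⟨hF, h.le⟩, h⟩
  · exfalso
    have := lor_fut_nonpos (Hyp_sub_Fut hx) (y := refl n ζ) ⟨hF, h.le⟩
    have h4 : refl n ζ = 0 := by
      by_contra h0
      have := fut_pos_of_ne ⟨hF, h.le⟩ h0
      linarith
    rw [h4] at h3; simp at h3
  · exfalso
    have h4 : -(refl n ζ) ∈ Fut := by
      refine ⟨by rw [lor_neg_left, lor_neg_right, neg_neg]; exact hF, by rw [Pi.neg_apply]; linarith⟩
    have := lor_fut_nonpos (Hyp_sub_Fut hx) h4
    rw [lor_neg_right] at this
    linarith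

/-- Core of the crossing lemma: `a, b, c` are the normals of three alternate sides of a hexagon. -/
theorem cross_core {y : V3 × V3} (hy : y ∈ UT) {a b c : V3} (ha : lor a a = 1) (hb : lor b b = 1)
    (hc : lor c c = 1) (hab : lor a b = -2) (hbc : lor b c = -2) (hac : lor a c = -2)
    (ha2 : a 2 < 0) (hb2 : b 2 < 0) (hc2 : c 2 < 0)
    (h1 : lor (y.1 - y.2) a < 0)
    (h3 : lor (refl b (y.1 + y.2)) c < 0)
    (h6 : lor (refl b (refl a (refl c (refl b (y.1 + y.2))))) c < 0) :
    |lor (nrm y) (refl b (refl a (refl c (refl b (nrm y)))))| < 1 := by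
  obtain ⟨⟨hpF, hp2⟩, hmF, hm2⟩ := fut_of_UT hy
  set p := y.1 + y.2 with hp
  set m := y.1 - y.2 with hm
  have hba : lor b a = -2 := by rw [lor_comm]; exact hab
  have hcb : lor c b = -2 := by rw [lor_comm]; exact hbc
  have hca : lor c a = -2 := by rw [lor_comm]; exact hac
  -- the images of m
  obtain ⟨m1F, m12⟩ := refl_fut hb hmF hm2
  obtain ⟨m2F, m22⟩ := refl_fut hc m1F m12
  obtain ⟨m3F, m32⟩ := refl_fut ha m2F m22
  obtain ⟨m4F, m42⟩ := refl_fut hb m3F m32
  obtain ⟨p1F, p12⟩ := refl_fut hb hpF hp2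
  obtain ⟨p2F, p22⟩ := refl_fut hc p1F p12
  obtain ⟨p3F, p32⟩ := refl_fut ha p2F p22
  obtain ⟨p4F, p42⟩ := refl_fut hb p3F p32
  -- m beyond a, so not beyond b
  have s1 : 0 < lor m b := by
    have := past_pos ha hb (by linarith) (by linarith) hmF hm2; linarith
  have s2 : lor (refl b m) b < 0 := by
    rw [lor_refl_left hb, refl_self hb, lor_neg_right]; linarith
  have s3 : 0 < lor (refl b m) c := by
    have := past_pos hb hc (by linarith) (by linarith) m1F m12; linarith
  have s4 : lor (refl c (refl b m)) c < 0 := by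
    rw [lor_refl_left hc, refl_self hc, lor_neg_right]; linarith
  have s5 : 0 < lor (refl c (refl b m)) a := by
    have := past_pos ha hc (by linarith) (by linarith) m2F m22; linarith
  have s6 : lor (refl a (refl c (refl b m))) a < 0 := by
    rw [lor_refl_left ha, refl_self ha, lor_neg_right]; linarith
  set M := refl b (refl a (refl c (refl b m))) with hM
  set P := refl b (refl a (refl c (refl b p))) with hP
  -- the three walls
  have eba : refl b a = a + (4 : ℝ) • b := by rw [refl_apply, hab]; module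
  have ebc : refl b c = c + (4 : ℝ) • b := by rw [refl_apply, hcb]; module
  have hM' : lor M (refl b a) < 0 := by rw [hM, lor_refl hb]; exact s6
  have hp' : lor p (refl b c) < 0 := by rw [← lor_refl_left hb]; exact h3
  have uba : lor (refl b a) (refl b a) = 1 := by rw [lor_refl hb]; exact ha
  have ubc : lor (refl b c) (refl b c) = 1 := by rw [lor_refl hb]; exact hc
  have zba : (refl b a) 2 < 0 := by rw [eba]; simp only [Pi.add_apply, Pi.smul_apply, smul_eq_mul]; linarith
  have zbc : (refl b c) 2 < 0 := by rw [ebc]; simp only [Pi.add_apply, Pi.smul_apply, smul_eq_mul]; linarith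
  have g1 : lor a (refl b c) = -10 := by
    rw [ebc, lor_add_right, lor_smul_right, hac, hab]; norm_num
  have g2 : lor a (refl b a) = -7 := by
    rw [eba, lor_add_right, lor_smul_right, ha, hab]; norm_num
  have g3 : lor (refl b c) (refl b a) = -2 := by rw [lor_refl hb]; exact hca
  have g4 : lor (refl b c) c = -7 := by
    rw [ebc, lor_add_left, lor_smul_left, hc, hbc]; norm_num
  -- first triple
  have A : dt m p M * dt a (refl b c) (refl b a) < 0 := by
    apply sign_lemma h1 hp' hM'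
    · exact past_pos ha ubc (by linarith) (by linarith) hmF hm2
    · exact past_pos ha uba (by linarith) (by linarith) hmF hm2
    · exact past_pos ubc ha (by rw [lor_comm]; linarith) (by linarith) hpF hp2
    · exact past_pos ubc uba (by linarith) (by linarith) hpF hp2
    · exact past_pos uba ha (by rw [lor_comm]; linarith) (by linarith) m4F m42
    · exact past_pos uba ubc (by rw [lor_comm]; linarith) (by linarith) m4F m42
  have B : dt m p P * dt a (refl b c) c < 0 := by
    apply sign_lemma h1 hp' h6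
    · exact past_pos ha ubc (by linarith) (by linarith) hmF hm2
    · exact past_pos ha hc (by linarith) (by linarith) hmF hm2
    · exact past_pos ubc ha (by rw [lor_comm]; linarith) (by linarith) hpF hp2
    · exact past_pos ubc hc (by linarith) (by linarith) hpF hp2
    · exact past_pos hc ha (by linarith) (by linarith) p4F p42
    · exact past_pos hc ubc (by rw [lor_comm]; linarith) (by linarith) p4F p42
  have dA : dt a (refl b c) (refl b a) = -(4 * dt a b c) := by
    rw [eba, ebc]; unfold dt; simp only [Pi.add_apply, Pi.smul_apply, smul_eq_mul]; ring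
  have dB : dt a (refl b c) c = 4 * dt a b c := by
    rw [ebc]; unfold dt; simp only [Pi.add_apply, Pi.smul_apply, smul_eq_mul]; ring
  rw [dA] at A
  rw [dB] at B
  have hneg : dt m p M * dt m p P < 0 := by
    have h := mul_pos_of_neg_of_neg A B
    have h' : 0 < -(dt m p M * dt m p P) * (16 * dt a b c ^ 2) := by nlinarith
    have h'' : 0 ≤ 16 * dt a b c ^ 2 := by positivity
    by_contra hcon
    push Not at hcon
    nlinarith
  -- the normal
  set q := refl b (refl c (refl a (refl b (nrm y)))) with hq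
  have eM : lor q m = lor (nrm y) M := by
    rw [hq, hM, lor_refl_left hb, lor_refl_left hc, lor_refl_left ha, lor_refl_left hb]
  have eP : lor q p = lor (nrm y) P := by
    rw [hq, hP, lor_refl_left hb, lor_refl_left hc, lor_refl_left ha, lor_refl_left hb]
  have eN : lor q (nrm y) = lor (nrm y) (refl b (refl a (refl c (refl b (nrm y))))) := by
    rw [hq, lor_refl_left hb, lor_refl_left hc, lor_refl_left ha, lor_refl_left hb]
  have uq : lor q q = 1 := by
    rw [hq, lor_refl hb, lor_refl hc, lor_refl ha, lor_refl hb]; exact nrm_unit hy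
  have hfr := frame_norm hy q
  rw [uq, ← hm, ← hp, eM, eP] at hfr
  have hMd := nrm_dt y M
  have hPd := nrm_dt y P
  rw [← hm, ← hp] at hMd hPd
  rw [← eN, lor_comm]
  have h4 : lor (nrm y) M * lor (nrm y) P < 0 := by
    rw [← hMd, ← hPd] at hneg; nlinarith
  rw [abs_lt]
  constructor <;> nlinarith
end SBA
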