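import Pool.Agent.Lib.MP_709218_gt.Defs

/-! Complexification of real three dimensional representations (shared by D3Rho, D3Soft,
D3NonAn). -/

namespace SBA

open Matrix

namespace D3

/-- complexification -/
noncomputable def cplx {G : Type*} [Group G] (ρ : G →* SpecialLinearGroup (Fin 3) ℝ) :
    G →* SpecialLinearGroup (Fin 3) ℂ :=
  (SpecialLinearGroup.map Complex.ofRealHom).comp ρ

end D3

end SBA
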