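import Pool.Agent.Lib.MP_709218_gt.Lor2
import Pool.Agent.Lib.MP_709218_gt.D3Cplx

/-! Module `D3NonAn.lean`: a representation is not `1`-Anosov if some element translates along an
axis and the inverse of its image has only real eigenvalues of modulus less than one. -/

namespace SBA
open Matrix Set

namespace NA

/-- the complexification of a real matrix -/
noncomputable def cm (A : Matrix (Fin 3) (Fin 3) ℝ) : Matrix (Fin 3) (Fin 3) ℂ :=
  A.map (fun x : ℝ => (x : ℂ))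

theorem sl_mul (A B : SpecialLinearGroup (Fin 3) ℂ) : (A * B).1 = A.1 * B.1 := rfl

theorem sl_one : (1 : SpecialLinearGroup (Fin 3) ℂ).1 = 1 := rfl

theorem sl_pow (A : SpecialLinearGroup (Fin 3) ℂ) (n : ℕ) : (A ^ n).1 = A.1 ^ n :=
  Matrix.SpecialLinearGroup.coe_pow A n

theorem cm_mulVec_real (A : Matrix (Fin 3) (Fin 3) ℝ) (u : Fin 3 → ℝ) :
    cm A *ᵥ (fun i => ((u i : ℝ) : ℂ)) = fun i => (((A *ᵥ u) i : ℝ) : ℂ) := by
  ext i
  simp only [cm, Matrix.mulVec, dotProduct, Matrix.map_apply, Complex.ofReal_sum,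
    Complex.ofReal_mul]

theorem cm_star (A : Matrix (Fin 3) (Fin 3) ℝ) (v : Fin 3 → ℂ) :
    cm A *ᵥ star v = star (cm A *ᵥ v) := by
  ext i
  simp only [cm, Matrix.mulVec, dotProduct, Matrix.map_apply, Pi.star_apply, star_sum, star_mul',
    Complex.star_def, Complex.conj_ofReal]

/-- `B ^ n` cannot tend to zero in a norm if its determinant is one -/
theorem no_contraction {B : Matrix (Fin 3) (Fin 3) ℂ} (hdet : B.det = 1)
    {N : (Fin 3 → ℂ) → ℝ} (hc : Continuous N) (h0 : ∀ v, 0 ≤ N v) (h1 : ∀ v, N v = 0 → v = 0)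
    (h2 : ∀ (a : ℂ) v, N (a • v) = ‖a‖ * N v)
    (ht : ∀ v, Filter.Tendsto (fun n : ℕ => N ((B ^ n) *ᵥ v)) Filter.atTop (nhds 0)) : False := by
  -- lower bound of `N`
  obtain ⟨v0, hv0, hmin⟩ := (isCompact_sphere (0 : Fin 3 → ℂ) 1).exists_isMinOn
    (NormedSpace.sphere_nonempty.2 zero_le_one) hc.continuousOn
  have hv0' : ‖v0‖ = 1 := by simpa using hv0
  have hm : 0 < N v0 := by
    rcases (h0 v0).lt_or_eq with h | h
    · exact h
    · have := h1 v0 h.symm
      rw [this, norm_zero] at hv0'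
      norm_num at hv0'
  have hlow : ∀ v, N v0 * ‖v‖ ≤ N v := by
    intro v
    rcases eq_or_ne v 0 with rfl | hv
    · simpa using h0 0
    · have hn : 0 < ‖v‖ := norm_pos_iff.2 hv
      have hs : ((‖v‖⁻¹ : ℝ) : ℂ) • v ∈ Metric.sphere (0 : Fin 3 → ℂ) 1 := by
        rw [mem_sphere_zero_iff_norm, norm_smul, Complex.norm_real, norm_inv, norm_norm,
          inv_mul_cancel₀ hn.ne']
      have := isMinOn_iff.1 hmin _ hs
      rw [h2, Complex.norm_real, norm_inv, norm_norm] at this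
      have := mul_le_mul_of_nonneg_right this hn.le
      calc N v0 * ‖v‖ ≤ ‖v‖⁻¹ * N v * ‖v‖ := this
        _ = N v := by field_simp
  -- entries tend to zero
  have hent : ∀ i j, Filter.Tendsto (fun n : ℕ => (B ^ n) i j) Filter.atTop (nhds 0) := by
    intro i j
    rw [tendsto_zero_iff_norm_tendsto_zero]
    have hj := (ht (Pi.single j 1)).const_mul (N v0)⁻¹
    rw [mul_zero] at hj
    refine squeeze_zero (fun _ => norm_nonneg _) (fun n => ?_) hj
    have e1 : (B ^ n) i j = ((B ^ n) *ᵥ (Pi.single j 1)) i := by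
      rw [Matrix.mulVec_single_one]; rfl
    have e2 := norm_le_pi_norm ((B ^ n) *ᵥ (Pi.single j 1 : Fin 3 → ℂ)) i
    have e3 := hlow ((B ^ n) *ᵥ (Pi.single j 1 : Fin 3 → ℂ))
    rw [e1]
    refine e2.trans ?_
    rw [← mul_le_mul_iff_right₀ hm, ← mul_assoc, mul_inv_cancel₀ hm.ne', one_mul]
    exact e3
  have hB : Filter.Tendsto (fun n : ℕ => B ^ n) Filter.atTop (nhds 0) :=
    tendsto_pi_nhds.2 fun i => tendsto_pi_nhds.2 fun j => hent i j
  have hd : Filter.Tendsto (fun n : ℕ => (B ^ n).det) Filter.atTop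
      (nhds (0 : Matrix (Fin 3) (Fin 3) ℂ).det) :=
    ((continuous_id.matrix_det).tendsto (0 : Matrix (Fin 3) (Fin 3) ℂ)).comp hB
  rw [Matrix.det_zero] at hd
  have h1' : (fun n : ℕ => (B ^ n).det) = fun _ => (1 : ℂ) := by
    funext n; rw [Matrix.det_pow, hdet, one_pow]
  rw [h1'] at hd
  exact one_ne_zero (tendsto_nhds_unique tendsto_const_nhds hd)

theorem exp_tendsto {c T : ℝ} (hc : 0 < c) (hT : 0 < T) (C : ℝ) :
    Filter.Tendsto (fun n : ℕ => C * Real.exp (-c * (n * T))) Filter.atTop (nhds 0) := by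
  have h1 : Filter.Tendsto (fun n : ℕ => Real.exp (-(c * T) * (n : ℝ))) Filter.atTop (nhds 0) := by
    have e : ∀ n : ℕ, Real.exp (-(c * T) * (n : ℝ)) = Real.exp (-(c * T)) ^ n := by
      intro n; rw [← Real.exp_nat_mul]; ring_nf
    simp_rw [e]
    apply tendsto_pow_atTop_nhds_zero_of_lt_one (Real.exp_pos _).le
    rw [Real.exp_lt_one_iff]
    have := mul_pos hc hT
    linarith
  have h2 := h1.const_mul C
  rw [mul_zero] at h2
  refine h2.congr fun n => ?_
  congr 2; ring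

/-- linear algebra core -/
theorem core {Br : Matrix (Fin 3) (Fin 3) ℝ} {P : Matrix (Fin 3) (Fin 3) ℂ}
    (hdet : Br.det = 1) (hPP : P * P = P) (hrank : P.rank = 1) (hcomm : P * cm Br = cm Br * P)
    {N : (Fin 3 → ℂ) → ℝ} (hcN : Continuous N) (h0 : ∀ v, 0 ≤ N v) (h1 : ∀ v, N v = 0 → v = 0)
    (h2 : ∀ (a : ℂ) v, N (a • v) = ‖a‖ * N v) (h3 : ∀ v w, N (v + w) ≤ N v + N w)
    {C c T : ℝ} (hc : 0 < c) (hT : 0 < T)
    (hdom : ∀ n : ℕ, ∀ v w, P *ᵥ v = 0 → P *ᵥ w = w →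
      N ((cm Br ^ n) *ᵥ v) * N w ≤ C * Real.exp (-c * (n * T)) * (N ((cm Br ^ n) *ᵥ w) * N v))
    (hev : ∀ (κ : ℝ) (v : Fin 3 → ℝ), v ≠ 0 → Br *ᵥ v = κ • v → |κ| < 1) : False := by
  set B := cm Br with hB
  have hBdet : B.det = 1 := by
    have : B = (Complex.ofRealHom.mapMatrix) Br := rfl
    rw [this, ← RingHom.map_det, hdet, map_one]
  -- a generator of the image
  obtain ⟨w, hw0, hPw, hspan⟩ : ∃ w : Fin 3 → ℂ, w ≠ 0 ∧ P *ᵥ w = w ∧
      ∀ v, P *ᵥ v = v → ∃ a : ℂ, v = a • w := by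
    obtain ⟨w, hw, hall⟩ := finrank_eq_one_iff'.1 (show Module.finrank ℂ
      (LinearMap.range P.mulVecLin) = 1 from hrank)
    have hmem : ∀ v : Fin 3 → ℂ, v ∈ LinearMap.range P.mulVecLin ↔ P *ᵥ v = v := by
      intro v
      constructor
      · rintro ⟨u, rfl⟩
        simp only [Matrix.mulVecLin_apply, Matrix.mulVec_mulVec, hPP]
      · intro h; exact ⟨v, h⟩
    refine ⟨w.1, fun h => hw (Subtype.ext h), (hmem _).1 w.2, fun v hv => ?_⟩
    obtain ⟨a, ha⟩ := hall ⟨v, (hmem v).2 hv⟩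
    exact ⟨a, (congrArg Subtype.val ha).symm⟩
  have hNw : 0 < N w := lt_of_le_of_ne (h0 w) fun h => hw0 (h1 w h.symm)
  -- eigenvalue
  obtain ⟨k, hk⟩ : ∃ k : ℂ, B *ᵥ w = k • w := by
    apply hspan
    rw [Matrix.mulVec_mulVec, hcomm, ← Matrix.mulVec_mulVec, hPw]
  have hk0 : k ≠ 0 := by
    rintro rfl
    rw [zero_smul] at hk
    have : B.det = 0 := Matrix.exists_mulVec_eq_zero_iff.1 ⟨w, hw0, hk⟩
    rw [hBdet] at this
    exact one_ne_zero this
  have hpow : ∀ (a : ℂ) (v : Fin 3 → ℂ), B *ᵥ v = a • v → ∀ n : ℕ, (B ^ n) *ᵥ v = a ^ n • v := by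
    intro a v hv n
    induction n with
    | zero => simp
    | succ n ih =>
      rw [pow_succ, ← Matrix.mulVec_mulVec, hv, Matrix.mulVec_smul, ih, smul_smul, pow_succ,
        mul_comm]
  have hker : ∀ n : ℕ, ∀ v, P *ᵥ v = 0 →
      N ((B ^ n) *ᵥ v) ≤ C * Real.exp (-c * (n * T)) * (‖k‖ ^ n * N v) := by
    intro n v hv
    have := hdom n v w hv hPw
    rw [hpow k w hk, h2, norm_pow] at this
    have h' : N ((B ^ n) *ᵥ v) * N w ≤ (C * Real.exp (-c * (n * T)) * (‖k‖ ^ n * N v)) * N w := by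
      calc _ ≤ _ := this
        _ = _ := by ring
    exact le_of_mul_le_mul_right h' hNw
  by_cases hconj : P *ᵥ star w = star w
  · -- real eigenvector
    obtain ⟨a, ha⟩ := hspan _ hconj
    -- real and imaginary parts are multiples of w
    have hre : ∃ u : Fin 3 → ℝ, u ≠ 0 ∧ ∃ b : ℂ, (fun i => ((u i : ℝ) : ℂ)) = b • w := by
      by_cases hr : (fun i => (w i).re) = (0 : Fin 3 → ℝ)
      · refine ⟨fun i => (w i).im, ?_, (1 - a) / (2 * Complex.I), ?_⟩
        · intro him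
          apply hw0
          funext i
          apply Complex.ext
          · simpa using congrFun hr i
          · simpa using congrFun him i
        · funext i
          have e := congrFun ha i
          simp only [Pi.star_apply, Complex.star_def, Pi.smul_apply, smul_eq_mul] at e
          simp only [Pi.smul_apply, smul_eq_mul]
          have h4 : (w i) - (starRingEnd ℂ) (w i) = ((2 * (w i).im : ℝ) : ℂ) * Complex.I :=
            Complex.sub_conj (w i)
          rw [e] at h4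
          have hI : (2 : ℂ) * Complex.I ≠ 0 := by simp
          rw [div_mul_eq_mul_div, eq_div_iff hI, sub_mul, one_mul, h4]
          push_cast; ring
      · refine ⟨fun i => (w i).re, hr, (1 + a) / 2, ?_⟩
        funext i
        have e := congrFun ha i
        simp only [Pi.star_apply, Complex.star_def, Pi.smul_apply, smul_eq_mul] at e
        simp only [Pi.smul_apply, smul_eq_mul]
        have h4 : (w i) + (starRingEnd ℂ) (w i) = ((2 * (w i).re : ℝ) : ℂ) :=
          Complex.add_conj (w i)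
        rw [e] at h4
        rw [div_mul_eq_mul_div, eq_div_iff two_ne_zero, add_mul, one_mul, h4]
        push_cast; ring
    obtain ⟨u, hu0, b, hb⟩ := hre
    have hBu : B *ᵥ (fun i => ((u i : ℝ) : ℂ)) = k • (fun i => ((u i : ℝ) : ℂ)) := by
      rw [hb, Matrix.mulVec_smul, hk, smul_comm]
    rw [hB, cm_mulVec_real] at hBu
    obtain ⟨i, hi⟩ : ∃ i, u i ≠ 0 := by
      by_contra hcon; push Not at hcon; exact hu0 (funext hcon)
    have hkre : k = (((Br *ᵥ u) i / u i : ℝ) : ℂ) := by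
      have := congrFun hBu i
      simp only [Pi.smul_apply, smul_eq_mul] at this
      have hi' : ((u i : ℝ) : ℂ) ≠ 0 := by exact_mod_cast hi
      rw [Complex.ofReal_div, this, mul_div_assoc, div_self hi', mul_one]
    set κ : ℝ := (Br *ᵥ u) i / u i with hκ
    have hκu : Br *ᵥ u = κ • u := by
      funext j
      have := congrFun hBu j
      rw [hkre] at this
      simp only [Pi.smul_apply, smul_eq_mul] at this ⊢
      exact_mod_cast this
    have hκ1 := hev κ u hu0 hκu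
    have hk1 : ‖k‖ < 1 := by rw [hkre, Complex.norm_real]; exact hκ1
    apply no_contraction hBdet hcN h0 h1 h2
    intro v
    have hPv : P *ᵥ (P *ᵥ v) = P *ᵥ v := by rw [Matrix.mulVec_mulVec, hPP]
    obtain ⟨b', hb'⟩ := hspan _ hPv
    have hv2 : P *ᵥ (v - P *ᵥ v) = 0 := by rw [Matrix.mulVec_sub, hPv, sub_self]
    have ht1 : Filter.Tendsto (fun n : ℕ => ‖k‖ ^ n) Filter.atTop (nhds 0) :=
      tendsto_pow_atTop_nhds_zero_of_lt_one (norm_nonneg _) hk1
    have ht2 := exp_tendsto hc hT C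
    have ht : Filter.Tendsto (fun n : ℕ => ‖k‖ ^ n * (‖b'‖ * N w) +
        C * Real.exp (-c * (n * T)) * (‖k‖ ^ n * N (v - P *ᵥ v))) Filter.atTop (nhds 0) := by
      have := (ht1.mul_const (‖b'‖ * N w)).add (ht2.mul (ht1.mul_const (N (v - P *ᵥ v))))
      simpa using this
    refine squeeze_zero (fun _ => h0 _) (fun n => ?_) ht
    have e : (B ^ n) *ᵥ v = k ^ n • (b' • w) + (B ^ n) *ᵥ (v - P *ᵥ v) := by
      rw [smul_comm, ← hpow k w hk n, ← Matrix.mulVec_smul, ← hb', ← Matrix.mulVec_add]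
      congr 1; abel
    rw [e]
    refine (h3 _ _).trans (add_le_add ?_ (hker n _ hv2))
    rw [h2, h2, norm_pow]
  · -- complex conjugate eigenvector
    set v : Fin 3 → ℂ := star w - P *ᵥ star w with hv
    have hv0 : v ≠ 0 := fun h => hconj (sub_eq_zero.1 h).symm
    have hPv : P *ᵥ v = 0 := by
      rw [hv, Matrix.mulVec_sub, Matrix.mulVec_mulVec, hPP, sub_self]
    have hsw : B *ᵥ star w = (starRingEnd ℂ k) • star w := by
      rw [hB, cm_star, ← hB, hk, star_smul]; rfl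
    have hBv : B *ᵥ v = (starRingEnd ℂ k) • v := by
      rw [hv, Matrix.mulVec_sub, Matrix.mulVec_mulVec, ← hcomm, ← Matrix.mulVec_mulVec, hsw,
        Matrix.mulVec_smul, smul_sub]
    have hNv : 0 < N v := lt_of_le_of_ne (h0 v) fun h => hv0 (h1 v h.symm)
    have hle : ∀ n : ℕ, 1 ≤ C * Real.exp (-c * (n * T)) := by
      intro n
      have := hker n v hPv
      rw [hpow _ v hBv n, h2, norm_pow, RCLike.norm_conj] at this
      have hpos : 0 < ‖k‖ ^ n * N v := mul_pos (pow_pos (norm_pos_iff.2 hk0) n) hNv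
      have h' : 1 * (‖k‖ ^ n * N v) ≤ (C * Real.exp (-c * (n * T))) * (‖k‖ ^ n * N v) := by
        rw [one_mul]; exact this
      exact le_of_mul_le_mul_right h' hpos
    have := ge_of_tendsto' (exp_tendsto hc hT C) hle
    linarith

end NA

namespace D3

theorem flow_nat {Γ : Subgroup (SpecialLinearGroup (Fin 3) ℝ)} {y : V3 × V3} {T : ℝ} (g : Γ)
    (hg : flow T y = mact g.1 y) (n : ℕ) : flow (n * T) y = mact (g ^ n).1 y := by
  induction n with
  | zero =>
    simp only [Nat.cast_zero, zero_mul, pow_zero]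
    rw [flow_zero]
    simp [mact]
  | succ n ih =>
    have e1 : ((n + 1 : ℕ) : ℝ) * T = n * T + T := by push_cast; ring
    have e2 : flow (n * T) (mact g.1 y) = mact g.1 (flow (n * T) y) := by
      simp only [flow, mact, Matrix.mulVec_add, Matrix.mulVec_smul]
    rw [e1, flow_add, hg, e2, ih, pow_succ']
    simp [mact]

/-- general criterion: if every real eigenvalue of `ρ(g)⁻¹` has modulus `< 1` and `g` translates
along an axis then `ρ` is not `1`-Anosov -/
theorem not_anosov_of_axis {Γ : Subgroup (SpecialLinearGroup (Fin 3) ℝ)}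
    (ρ : Γ →* SpecialLinearGroup (Fin 3) ℝ) {y : V3 × V3} (hy : y ∈ UT) {T : ℝ} (hT : 0 < T) (g : Γ)
    (hg : flow T y = mact g.1 y)
    (hev : ∀ (κ : ℝ) (v : Fin 3 → ℝ), v ≠ 0 → (ρ g⁻¹).1 *ᵥ v = κ • v → |κ| < 1) :
    ¬ KAnosovOn Γ (cplx ρ) 1 UT := by
  rintro ⟨P, N, C, c, hc, -, hP, hPf, hPe, hNc, hN, hNe, hdom⟩
  have hcm : ∀ x : Γ, ((cplx ρ) x).1 = NA.cm (ρ x).1 := fun x => rfl
  have hinv : ∀ x : Γ, (((cplx ρ) x)⁻¹).1 = NA.cm (ρ x⁻¹).1 := by
    intro x; rw [← map_inv, hcm]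
  have hmul : ∀ x : Γ, NA.cm (ρ x).1 * NA.cm (ρ x⁻¹).1 = 1 := by
    intro x
    rw [← hcm, ← hcm, ← NA.sl_mul, ← map_mul, mul_inv_cancel, map_one, NA.sl_one]
  have hmul' : ∀ x : Γ, NA.cm (ρ x⁻¹).1 * NA.cm (ρ x).1 = 1 := by
    intro x
    rw [← hcm, ← hcm, ← NA.sl_mul, ← map_mul, inv_mul_cancel, map_one, NA.sl_one]
  have hcomm : P y * NA.cm (ρ g⁻¹).1 = NA.cm (ρ g⁻¹).1 * P y := by
    have h1 := hPe y hy g
    rw [← hg, hPf y hy T, hcm, hinv] at h1
    calc P y * NA.cm (ρ g⁻¹).1 = 1 * P y * NA.cm (ρ g⁻¹).1 := by rw [Matrix.one_mul]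
      _ = NA.cm (ρ g⁻¹).1 * (NA.cm (ρ g).1 * P y * NA.cm (ρ g⁻¹).1) := by
          rw [← hmul' g]; simp only [Matrix.mul_assoc]
      _ = _ := by rw [← h1]
  have hNy : Continuous (N y) := by
    have h1 : Continuous fun v : Fin 3 → ℂ => ((y, v) : (V3 × V3) × (Fin 3 → ℂ)) := by fun_prop
    exact hNc.comp_continuous h1 (fun v => ⟨hy, mem_univ _⟩)
  have hpown : ∀ n : ℕ, NA.cm (ρ (g ^ n)⁻¹).1 = NA.cm (ρ g⁻¹).1 ^ n := by
    intro n
    rw [← hcm, ← hcm, ← inv_pow, map_pow, NA.sl_pow]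
  have hNn : ∀ (n : ℕ) (v : Fin 3 → ℂ), N (flow (n * T) y) v = N y (NA.cm (ρ g⁻¹).1 ^ n *ᵥ v) := by
    intro n v
    rw [flow_nat g hg n, ← hpown, ← hNe y hy (g ^ n), hcm, Matrix.mulVec_mulVec, hmul,
      Matrix.one_mulVec]
  refine NA.core (Br := (ρ g⁻¹).1) (P := P y) (N := N y) (C := C) (ρ g⁻¹).2 (hP y hy).1 (hP y hy).2
    hcomm hNy (hN y hy).1 (hN y hy).2.1 (hN y hy).2.2.1 (hN y hy).2.2.2 hc hT ?_ hev
  intro n v w hv hw
  have := hdom y hy (n * T) (by positivity) v w hv hw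
  rw [hNn, hNn] at this
  exact this

end D3
end SBA
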