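import Pool.Agent.Lib.MP_709218_gt.D3Rho
import Pool.Agent.Lib.MP_709218_gt.D3NonAn

/-! The axis of `(r0 r1 r2)²` and the eigenvalues of its matrix. -/

namespace SBA

namespace D3

open Letter Matrix

theorem ax_gram (i j : Fin 3) : lor (hn (r i)) (hn (r j)) = if i = j then 1 else -2 := by
  rw [hn_gram]
  by_cases h : i = j
  · simp [h]
  · simp [h, adjB]

/-- combination of the three normals -/
noncomputable def cmb (a b c : ℝ) : V3 := a • hn (r 0) + b • hn (r 1) + c • hn (r 2)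

theorem f20 : ¬ ((2 : Fin 3) = 0) := by decide
theorem f02 : ¬ ((0 : Fin 3) = 2) := by decide
theorem f21 : ¬ ((2 : Fin 3) = 1) := by decide
theorem f12 : ¬ ((1 : Fin 3) = 2) := by decide
theorem f10 : ¬ ((1 : Fin 3) = 0) := by decide
theorem f01 : ¬ ((0 : Fin 3) = 1) := by decide

theorem lor_cmb0 (a b c : ℝ) : lor (cmb a b c) (hn (r 0)) = a - 2 * b - 2 * c := by
  unfold cmb
  simp only [lor_add_left, lor_smul_left, ax_gram, f20, f10, if_true, if_false]
  ring

theorem lor_cmb1 (a b c : ℝ) : lor (cmb a b c) (hn (r 1)) = b - 2 * a - 2 * c := by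
  unfold cmb
  simp only [lor_add_left, lor_smul_left, ax_gram, f21, f01, if_true, if_false]
  ring

theorem lor_cmb2 (a b c : ℝ) : lor (cmb a b c) (hn (r 2)) = c - 2 * a - 2 * b := by
  unfold cmb
  simp only [lor_add_left, lor_smul_left, ax_gram, f02, f12, if_true, if_false]
  ring

theorem refl0_cmb (a b c : ℝ) : refl (hn (r 0)) (cmb a b c) = cmb (-a + 4 * b + 4 * c) b c := by
  rw [refl_apply, lor_cmb0]; unfold cmb; module

theorem refl1_cmb (a b c : ℝ) : refl (hn (r 1)) (cmb a b c) = cmb a (-b + 4 * a + 4 * c) c := by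
  rw [refl_apply, lor_cmb1]; unfold cmb; module

theorem refl2_cmb (a b c : ℝ) : refl (hn (r 2)) (cmb a b c) = cmb a b (-c + 4 * a + 4 * b) := by
  rw [refl_apply, lor_cmb2]; unfold cmb; module

theorem lor_cmb (a b c a' b' c' : ℝ) : lor (cmb a b c) (cmb a' b' c') =
    a' * (a - 2 * b - 2 * c) + b' * (b - 2 * a - 2 * c) + c' * (c - 2 * a - 2 * b) := by
  rw [show cmb a' b' c' = a' • hn (r 0) + b' • hn (r 1) + c' • hn (r 2) from rfl,
    lor_add_right, lor_add_right, lor_smul_right, lor_smul_right, lor_smul_right, lor_cmb0,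
    lor_cmb1, lor_cmb2]

theorem cmb_two (a b c : ℝ) : cmb a b c 2 = -(a + b + c) := by
  simp [cmb, hn]; ring

theorem smul_cmb (t a b c : ℝ) : t • cmb a b c = cmb (t * a) (t * b) (t * c) := by
  unfold cmb; module

/-- the eigenvectors -/
theorem glide {q q' : ℝ} (h1 : q * q' = 1) (h2 : q + q' = 5) :
    refl (hn (r 0)) (refl (hn (r 1)) (refl (hn (r 2)) (cmb (-q) (-1) (-q')))) =
      (q ^ 3) • cmb (-q) (-1) (-q') := by
  have h3 : q ^ 2 = 5 * q - 1 := by
    have : q' = 5 - q := by linarith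
    rw [this] at h1; nlinarith
  have h4 : q' = 5 - q := by linarith
  rw [refl2_cmb, refl1_cmb, refl0_cmb, smul_cmb]
  have e3 : q ^ 3 = 24 * q - 5 := by
    have : q ^ 3 = q * q ^ 2 := by ring
    rw [this, h3]; nlinarith
  have e4 : q ^ 3 * q = 115 * q - 24 := by rw [e3]; nlinarith
  have e2 : q ^ 3 * q' = 5 * q - 1 := by
    have : q ^ 3 * q' = q ^ 2 * (q * q') := by ring
    rw [this, h1, mul_one, h3]
  congr 1 <;> linarith

/-- the word `(r0 r1 r2)²` -/
noncomputable def gw : H.W := (H.gen (r 0) * H.gen (r 1) * H.gen (r 2)) ^ 2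

theorem rep_gw (v : V3) : hex.rep gw v =
    refl (hn (r 0)) (refl (hn (r 1)) (refl (hn (r 2)) (refl (hn (r 0)) (refl (hn (r 1))
      (refl (hn (r 2)) v))))) := by
  unfold gw
  rw [pow_two, hex.rep_mul, hex.rep_mul, hex.rep_mul, hex.rep_mul, hex.rep_mul, hex.rep_gen,
    hex.rep_gen, hex.rep_gen]
  rfl

theorem exists_axis_rep : ∃ y ∈ UT, ∃ T : ℝ, 0 < T ∧ flow T y = pact (hex.rep gw) y := by
  set q : ℝ := (5 + √21) / 2 with hq
  set q' : ℝ := (5 - √21) / 2 with hq'
  have hs : √21 * √21 = 21 := Real.mul_self_sqrt (by norm_num)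
  have hs4 : 4 < √21 := by
    rw [Real.lt_sqrt (by norm_num)]; norm_num
  have h1 : q * q' = 1 := by rw [hq, hq']; nlinarith
  have h2 : q + q' = 5 := by rw [hq, hq']; ring
  have hq4 : 4 < q := by rw [hq]; linarith
  have h1' : q' * q = 1 := by rw [mul_comm]; exact h1
  have h2' : q' + q = 5 := by rw [add_comm]; exact h2
  set zp := cmb (-q) (-1) (-q') with hzp
  set zm := cmb (-q') (-1) (-q) with hzm
  have gp := glide h1 h2
  have gm := glide h1' h2'
  have hsq : q ^ 2 + q' ^ 2 = 23 := by nlinarith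
  have lpp : lor zp zp = 0 := by rw [hzp, lor_cmb]; nlinarith
  have lmm : lor zm zm = 0 := by rw [hzm, lor_cmb]; nlinarith
  have lpm : lor zp zm = -63 := by rw [hzp, hzm, lor_cmb]; nlinarith
  have lmp : lor zm zp = -63 := by rw [lor_comm]; exact lpm
  have z2p : zp 2 = 6 := by rw [hzp, cmb_two]; linarith
  have z2m : zm 2 = 6 := by rw [hzm, cmb_two]; linarith
  set c : ℝ := (√126)⁻¹ with hc
  have hc2 : c * c = 1 / 126 := by
    rw [hc, ← mul_inv, Real.mul_self_sqrt (by norm_num)]; norm_num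
  have hcpos : 0 < c := by rw [hc]; positivity
  refine ⟨(c • (zp + zm), c • (zp - zm)), ⟨⟨?_, ?_⟩, ?_, ?_⟩, Real.log (q ^ 6), ?_, ?_⟩
  · simp only [lor_smul_left, lor_smul_right, lor_add_left, lor_add_right, lpp, lmm, lpm, lmp]
    linear_combination (-126) * hc2
  · simp only [Pi.smul_apply, Pi.add_apply, z2p, z2m, smul_eq_mul]; positivity
  · simp only [lor_smul_left, lor_smul_right, lor_add_left, lor_sub_right, lpp, lmm, lpm, lmp]
    ring
  · simp only [lor_smul_left, lor_smul_right, lor_sub_left, lor_sub_right, lpp, lmm, lpm, lmp]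
    linear_combination 126 * hc2
  · apply Real.log_pos
    exact one_lt_pow₀ (by linarith) (by norm_num)
  · have hq6 : 0 < q ^ 6 := by positivity
    have hinv : (q ^ 6)⁻¹ = q' ^ 6 := by
      apply inv_eq_of_mul_eq_one_right
      rw [← mul_pow, h1, one_pow]
    have ech : Real.cosh (Real.log (q ^ 6)) = (q ^ 6 + q' ^ 6) / 2 := by
      rw [Real.cosh_eq, Real.exp_neg, Real.exp_log hq6, hinv]
    have esh : Real.sinh (Real.log (q ^ 6)) = (q ^ 6 - q' ^ 6) / 2 := by
      rw [Real.sinh_eq, Real.exp_neg, Real.exp_log hq6, hinv]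
    have rp : hex.rep gw zp = (q ^ 6) • zp := by
      rw [rep_gw, hzp, gp, map_smul, map_smul, map_smul, gp, smul_smul]; congr 1; ring
    have rm : hex.rep gw zm = (q' ^ 6) • zm := by
      rw [rep_gw, hzm, gm, map_smul, map_smul, map_smul, gm, smul_smul]; congr 1; ring
    unfold flow pact
    simp only [ech, esh, map_smul, map_add, map_sub, rp, rm]
    ext1
    · module
    · module

/-- the inverse matrix -/
theorem X_gw_inv : X gw⁻¹ = (XR (r 2) * XR (r 1) * XR (r 0)) * (XR (r 2) * XR (r 1) * XR (r 0)) := by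
  unfold gw
  rw [pow_two, _root_.mul_inv_rev, _root_.mul_inv_rev, _root_.mul_inv_rev, H.gen_inv, H.gen_inv,
    H.gen_inv]
  simp only [map_mul, X_gen, Matrix.mul_assoc]

theorem eig_gw {κ : ℝ} {v : Fin 3 → ℝ} (hv : v ≠ 0) (h : X gw⁻¹ *ᵥ v = κ • v) : |κ| < 1 := by
  have h1 : (X gw⁻¹ - κ • (1 : Matrix (Fin 3) (Fin 3) ℝ)) *ᵥ v = 0 := by
    rw [Matrix.sub_mulVec, h, Matrix.smul_mulVec, Matrix.one_mulVec, sub_self]
  have h2 : (X gw⁻¹ - κ • (1 : Matrix (Fin 3) (Fin 3) ℝ)).det = 0 :=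
    Matrix.exists_mulVec_eq_zero_iff.1 ⟨v, hv, h1⟩
  have h3 : κ ^ 3 + 1761 * κ ^ 2 + 1692659 * κ - 1 = 0 := by
    rw [X_gw_inv] at h2
    simp [XR, XZ, Matrix.det_fin_three, Matrix.mul_apply, Fin.sum_univ_three] at h2
    linarith
  have h4 : 1 < κ ^ 2 + 1761 * κ + 1692659 := by nlinarith [sq_nonneg (κ + 1761 / 2)]
  have h5 : κ * (κ ^ 2 + 1761 * κ + 1692659) = 1 := by linarith
  have h6 : 0 < κ := by
    by_contra hcon
    push Not at hcon
    nlinarith
  rw [abs_of_pos h6]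
  by_contra hcon
  push Not at hcon
  nlinarith

theorem gw_mem (n : ℕ) [NeZero n] : gw ∈ (hexS n).K := by
  change gw ∈ (typ n).ker
  unfold gw
  rw [MonoidHom.mem_ker, map_pow, map_mul, map_mul, typ_r, typ_r, typ_r, pow_two]
  simp [Prod.mk_mul_mk]

theorem not_anosov (n : ℕ) [NeZero n] : ¬ KAnosovOn (hexS n).Γ (cplx (rhoR n)) 1 UT := by
  obtain ⟨y, hy, T, hT, hfl⟩ := exists_axis_rep
  set u : (hexS n).K := ⟨gw, gw_mem n⟩ with hu
  set g : (hexS n).Γ := ⟨(hexS n).j1 u, u, rfl⟩ with hg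
  refine not_anosov_of_axis (rhoR n) hy hT g ?_ ?_
  · rw [hfl]
    exact ((hexS n).mact_j1 u y).symm
  · intro κ v hv h
    have h1 : (rhoR n g⁻¹).1 = X (u⁻¹).1 := rhoR_spec n u⁻¹ g⁻¹ (by
      change ((hexS n).j1 u)⁻¹ = _
      rw [map_inv])
    rw [h1] at h
    exact eig_gw hv h

end D3

end SBA
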