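import Pool.Agent.Lib.MP_709218_gt.Tile

/-! The letters (sides of the right-angled hexagon), the integral projective reflections, and
admissible words. -/

namespace SBA

open Matrix Set

/-- The six sides of a right-angled hexagon, in cyclic order `r0, z2, r1, z0, r2, z1`:
`z i` is opposite to `r i`, and `r i`, `z j` are adjacent exactly when `i ≠ j`. -/
inductive Letter
  | r (i : Fin 3)
  | z (i : Fin 3)
  deriving DecidableEq, Fintype

namespace D3

open Letter

/-- adjacency of sides -/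
def adjB : Letter → Letter → Bool
  | r i, z j => decide (i ≠ j)
  | z i, r j => decide (i ≠ j)
  | _, _ => false

/-- the right-angled hexagon graph -/
def H : RA Letter where
  adj x y := adjB x y = true
  symm := by intro i j h; cases i <;> cases j <;> simp_all [adjB, ne_comm]
  irrefl := by intro i h; cases i <;> simp_all [adjB]

/-- The integral projective reflections. -/
def XZ : Letter → Matrix (Fin 3) (Fin 3) ℤ
  | r 0 => !![-1, 0, 0; -1, 1, 0; -11, 0, 1]
  | r 1 => !![1, -11, 0; 0, -1, 0; 0, -1, 1]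
  | r 2 => !![1, 0, -1; 0, 1, -11; 0, 0, -1]
  | z 0 => !![-1, -6, 34; 0, 1, 0; 0, 0, 1]
  | z 1 => !![1, 0, 0; 34, -1, -6; 0, 0, 1]
  | z 2 => !![1, 0, 0; 0, 1, 0; -6, 34, -1]

theorem XZ_sq : ∀ x, XZ x * XZ x = 1 := by decide

theorem XZ_comm : ∀ x y, adjB x y = true → XZ x * XZ y = XZ y * XZ x := by decide

theorem XZ_det (x : Letter) : (XZ x).det = -1 := by
  rcases x with i | i <;> fin_cases i <;> simp [XZ, Matrix.det_fin_three]

/-- real version -/
def XR (x : Letter) : Matrix (Fin 3) (Fin 3) ℝ := (XZ x).map (fun a : ℤ => (a : ℝ))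

theorem XR_eq (x : Letter) : XR x = (Int.castRingHom ℝ).mapMatrix (XZ x) := rfl

theorem XR_sq (x : Letter) : XR x * XR x = 1 := by
  rw [XR_eq, ← map_mul, XZ_sq, map_one]

theorem XR_comm (x y : Letter) (h : H.adj x y) : XR x * XR y = XR y * XR x := by
  rw [XR_eq, XR_eq, ← map_mul, ← map_mul, XZ_comm x y h]

theorem XR_det (x : Letter) : (XR x).det = -1 := by
  rw [XR_eq, ← RingHom.map_det, XZ_det]; simp

/-- the representation of the hexagon group -/
noncomputable def X : H.W →* Matrix (Fin 3) (Fin 3) ℝ := H.lift XR XR_sq XR_comm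

theorem X_gen (x : Letter) : X (H.gen x) = XR x := H.lift_gen _ _ _ x

theorem X_mul_inv (w : H.W) : X w * X w⁻¹ = 1 := by rw [← map_mul, mul_inv_cancel, map_one]

theorem X_inv_mul (w : H.W) : X w⁻¹ * X w = 1 := by rw [← map_mul, inv_mul_cancel, map_one]

/-- admissible successions in canonical words -/
def ok : Letter → Letter → Bool
  | r i, r j => decide (i ≠ j)
  | r i, z j => decide (i = j)
  | z _, r _ => true
  | z i, z j => decide (i ≠ j)

/-- a forbidden run of six letters -/
def RunAt (x : ℕ → Letter) (k : ℕ) : Prop :=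
  ∃ i : Fin 3, x k = r i ∧ x (k + 1) = r (i + 2) ∧ x (k + 2) = r (i + 1) ∧
    x (k + 3) = r i ∧ x (k + 4) = r (i + 2) ∧ x (k + 5) = r (i + 1)

/-- products along a word -/
def NP (x : ℕ → Letter) : ℕ → Matrix (Fin 3) (Fin 3) ℝ
  | 0 => 1
  | k + 1 => NP x k * XR (x k)

/-- inverses of the products along a word -/
def NPi (x : ℕ → Letter) : ℕ → Matrix (Fin 3) (Fin 3) ℝ
  | 0 => 1
  | k + 1 => XR (x k) * NPi x k

theorem NPi_mul_NP (x : ℕ → Letter) (k : ℕ) : NPi x k * NP x k = 1 := by
  induction k with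
  | zero => simp [NP, NPi]
  | succ k ih =>
    rw [NP, NPi, Matrix.mul_assoc, ← Matrix.mul_assoc (NPi x k), ih, Matrix.one_mul, XR_sq]

theorem NP_mul_NPi (x : ℕ → Letter) (k : ℕ) : NP x k * NPi x k = 1 := by
  induction k with
  | zero => simp [NP, NPi]
  | succ k ih =>
    rw [NP, NPi, Matrix.mul_assoc, ← Matrix.mul_assoc (XR (x k)), XR_sq, Matrix.one_mul, ih]

theorem X_eq_NP {w : ℕ → H.W} {x : ℕ → Letter} (h : ∀ k, w (k + 1) = w k * H.gen (x k)) (k : ℕ) :
    X (w k) = X (w 0) * NP x k := by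
  induction k with
  | zero => simp [NP]
  | succ k ih => rw [h, map_mul, X_gen, ih, NP, Matrix.mul_assoc]

theorem X_inv_eq_NPi {w : ℕ → H.W} {x : ℕ → Letter} (h : ∀ k, w (k + 1) = w k * H.gen (x k))
    (k : ℕ) : X (w k)⁻¹ = NPi x k * X (w 0)⁻¹ := by
  induction k with
  | zero => simp [NPi]
  | succ k ih =>
    rw [h, _root_.mul_inv_rev, map_mul, H.gen_inv, X_gen, ih, NPi, Matrix.mul_assoc]

end D3

end SBA
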