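import Mathlib

/-! Abstract cone contraction: a sequence of linear maps mapping cones strictly into each other
gives a dominated splitting. -/

namespace SBA

namespace D3

/-- three-space -/
abbrev E3 := Fin 3 → ℝ

/-- A convex cone `C` on which the norm is given by the linear functional `lam`, containing the
ball of radius `δ` around the unit vector `u`. -/
structure IsBCone (δ : ℝ) (C : Set E3) (lam : E3 →ₗ[ℝ] ℝ) (u : E3) : Prop where
  add : ∀ v ∈ C, ∀ w ∈ C, v + w ∈ C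
  smul : ∀ a : ℝ, 0 ≤ a → ∀ v ∈ C, a • v ∈ C
  lam_eq : ∀ v ∈ C, lam v = ‖v‖
  ball : ∀ x : E3, ‖x‖ ≤ δ → u + x ∈ C
  norm_u : ‖u‖ = 1

namespace IsBCone

variable {δ : ℝ} {C : Set E3} {lam : E3 →ₗ[ℝ] ℝ} {u : E3}

theorem u_mem (h : IsBCone δ C lam u) (hδ : 0 < δ) : u ∈ C := by
  simpa using h.ball 0 (by simpa using hδ.le)

theorem zero_mem (h : IsBCone δ C lam u) (hδ : 0 < δ) : (0 : E3) ∈ C := by
  simpa using h.smul 0 le_rfl u (h.u_mem hδ)

theorem lam_nonneg (h : IsBCone δ C lam u) {v : E3} (hv : v ∈ C) : 0 ≤ lam v := by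
  rw [h.lam_eq v hv]; exact norm_nonneg v

/-- every vector is below a multiple of `u` -/
theorem above (h : IsBCone δ C lam u) (hδ : 0 < δ) (x : E3) : (‖x‖ / δ) • u + x ∈ C := by
  rcases eq_or_ne x 0 with rfl | hx
  · simpa using h.zero_mem hδ
  have hx' : 0 < ‖x‖ := norm_pos_iff.2 hx
  have h1 : u + (δ / ‖x‖) • x ∈ C := by
    apply h.ball
    rw [norm_smul, Real.norm_of_nonneg (by positivity)]
    field_simp; exact le_rfl
  have h2 := h.smul (‖x‖ / δ) (by positivity) _ h1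
  rw [smul_add, smul_smul] at h2
  have : ‖x‖ / δ * (δ / ‖x‖) = 1 := by field_simp
  rwa [this, one_smul] at h2

theorem above' (h : IsBCone δ C lam u) (hδ : 0 < δ) (x : E3) : (‖x‖ / δ) • u - x ∈ C := by
  have := h.above hδ (-x)
  rwa [norm_neg, ← sub_eq_add_neg] at this

/-- for `b ∈ C`: `‖b‖ u - δ b ∈ C` -/
theorem dom_u (h : IsBCone δ C lam u) (hδ : 0 < δ) (b : E3) : ‖b‖ • u - δ • b ∈ C := by
  have h1 := h.smul δ hδ.le _ (h.above' hδ b)
  rw [smul_sub, smul_smul] at h1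
  have : δ * (‖b‖ / δ) = ‖b‖ := by field_simp
  rwa [this] at h1

end IsBCone

/-- One step of the contraction. -/
theorem osc_step {δ : ℝ} (hδ : 0 < δ) {C C' : Set E3} {lam' : E3 →ₗ[ℝ] ℝ} {u' : E3}
    (hC' : IsBCone δ C' lam' u') (M : E3 →ₗ[ℝ] E3)
    (hM : ∀ v ∈ C, M v - (δ * ‖M v‖) • u' ∈ C') {a b : E3} {m m' : ℝ} (hb : b ∈ C) (hmm : m ≤ m')
    (h1 : m' • b - a ∈ C) (h2 : a - m • b ∈ C) :
    ∃ p p' : ℝ, p ≤ p' ∧ p' - p ≤ (1 - δ ^ 2 / 2) * (m' - m) ∧ p' • M b - M a ∈ C' ∧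
      M a - p • M b ∈ C' := by
  have hδ' : 0 ≤ δ := hδ.le
  have mapC : ∀ v ∈ C, M v ∈ C' := by
    intro v hv
    have e : M v = (M v - (δ * ‖M v‖) • u') + (δ * ‖M v‖) • u' := by abel
    rw [e]
    exact hC'.add _ (hM v hv) _ (hC'.smul _ (by positivity) _ (hC'.u_mem hδ))
  have hbM := mapC b hb
  have hp := mapC _ h1
  have hq := mapC _ h2
  have hsum : ‖M (m' • b - a)‖ + ‖M (a - m • b)‖ = (m' - m) * ‖M b‖ := by
    rw [← hC'.lam_eq _ hp, ← hC'.lam_eq _ hq, ← hC'.lam_eq _ hbM, ← map_add, ← map_add]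
    have : m' • b - a + (a - m • b) = (m' - m) • b := by rw [sub_smul]; abel
    rw [this, map_smul, map_smul, smul_eq_mul]
  have key : ∀ v ∈ C, (m' - m) * ‖M b‖ / 2 ≤ ‖M v‖ →
      M v - (δ ^ 2 / 2 * (m' - m)) • M b ∈ C' := by
    intro v hv hle
    have k1 := hM v hv
    have k2 := hC'.smul (δ * (m' - m) / 2) (by have : 0 ≤ m' - m := by linarith
                                               positivity) _ (hC'.dom_u hδ (M b))
    have k3 := hC'.smul (δ * (‖M v‖ - (m' - m) * ‖M b‖ / 2)) (by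
      apply mul_nonneg hδ'; linarith) _ (hC'.u_mem hδ)
    have k4 := hC'.add _ (hC'.add _ k1 _ k2) _ k3
    have e : M v - (δ * ‖M v‖) • u' + (δ * (m' - m) / 2) • (‖M b‖ • u' - δ • M b) +
        (δ * (‖M v‖ - (m' - m) * ‖M b‖ / 2)) • u' = M v - (δ ^ 2 / 2 * (m' - m)) • M b := by
      module
    rwa [e] at k4
  rcases le_total ((m' - m) * ‖M b‖ / 2) (‖M (m' • b - a)‖) with hcase | hcase
  · have k := key _ h1 hcase
    refine ⟨m, m' - δ ^ 2 / 2 * (m' - m), ?_, ?_, ?_, ?_⟩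
    · by_contra hcon
      push Not at hcon
      -- then m' - δ²/2 (m'-m) < m, i.e. δ²/2 > 1; handle via cone membership
      have hδ1 : δ ≤ 1 := by
        have g1 := hC'.ball (-(δ • u')) (by rw [norm_neg, norm_smul, hC'.norm_u, Real.norm_of_nonneg hδ']; simp)
        have g2 := hC'.lam_nonneg g1
        have g3 := hC'.lam_eq u' (hC'.u_mem hδ)
        rw [hC'.norm_u] at g3
        rw [map_add, map_neg, map_smul, g3, smul_eq_mul] at g2
        linarith
      have h3 : 0 ≤ (1 - δ ^ 2 / 2) * (m' - m) := mul_nonneg (by nlinarith) (by linarith)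
      linarith
    · apply le_of_eq; ring
    · have e : (m' - δ ^ 2 / 2 * (m' - m)) • M b - M a =
        M (m' • b - a) - (δ ^ 2 / 2 * (m' - m)) • M b := by
        rw [map_sub, map_smul]; module
      rw [e]; exact k
    · have e : M a - m • M b = M (a - m • b) := by rw [map_sub, map_smul]
      rw [e]; exact hq
  · have hcase' : (m' - m) * ‖M b‖ / 2 ≤ ‖M (a - m • b)‖ := by linarith
    have k := key _ h2 hcase'
    refine ⟨m + δ ^ 2 / 2 * (m' - m), m', ?_, ?_, ?_, ?_⟩
    · by_contra hcon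
      push Not at hcon
      have hδ1 : δ ≤ 1 := by
        have g1 := hC'.ball (-(δ • u')) (by rw [norm_neg, norm_smul, hC'.norm_u, Real.norm_of_nonneg hδ']; simp)
        have g2 := hC'.lam_nonneg g1
        have g3 := hC'.lam_eq u' (hC'.u_mem hδ)
        rw [hC'.norm_u] at g3
        rw [map_add, map_neg, map_smul, g3, smul_eq_mul] at g2
        linarith
      have h3 : 0 ≤ (1 - δ ^ 2 / 2) * (m' - m) := mul_nonneg (by nlinarith) (by linarith)
      linarith
    · apply le_of_eq; ring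
    · have e : m' • M b - M a = M (m' • b - a) := by rw [map_sub, map_smul]
      rw [e]; exact hp
    · have e : M a - (m + δ ^ 2 / 2 * (m' - m)) • M b =
        M (a - m • b) - (δ ^ 2 / 2 * (m' - m)) • M b := by
        rw [map_sub, map_smul]; module
      rw [e]; exact k

/-- product `M i ∘ M (i+1) ∘ ⋯ ∘ M (i+l-1)` -/
def PM (M : ℕ → (E3 →ₗ[ℝ] E3)) : ℕ → ℕ → (E3 →ₗ[ℝ] E3)
  | _, 0 => LinearMap.id
  | i, l + 1 => (PM M i l).comp (M (i + l))

theorem PM_succ' (M : ℕ → (E3 →ₗ[ℝ] E3)) (i l : ℕ) :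
    PM M i (l + 1) = (M i).comp (PM M (i + 1) l) := by
  induction l with
  | zero => simp [PM]
  | succ l ih =>
    rw [PM, ih, PM, LinearMap.comp_assoc]
    congr 3
    omega

theorem PM_add (M : ℕ → (E3 →ₗ[ℝ] E3)) (i l l' : ℕ) :
    PM M i (l + l') = (PM M i l).comp (PM M (i + l) l') := by
  induction l' with
  | zero => simp [PM]
  | succ l' ih =>
    rw [← add_assoc, PM, ih, PM, LinearMap.comp_assoc, add_assoc]

/-- The chain lemma. -/
theorem chain {δ : ℝ} (hδ : 0 < δ) (C : ℕ → Set E3) (lam : ℕ → (E3 →ₗ[ℝ] ℝ))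
    (u : ℕ → E3) (M : ℕ → (E3 →ₗ[ℝ] E3)) (hC : ∀ j, IsBCone δ (C j) (lam j) (u j))
    (hM : ∀ j, ∀ v ∈ C (j + 1), M j v - (δ * ‖M j v‖) • u j ∈ C j)
    (hinj : ∀ j v, M j v = 0 → v = 0) (n : ℕ) :
    ∃ (e : ℕ → E3) (η : ℕ → (E3 →ₗ[ℝ] ℝ)),
      (∀ i l, i + l ≤ n → e i = PM M i l (e (i + l))) ∧
      (∀ j, η j = (η 0).comp (PM M 0 j)) ∧
      (∀ j ≤ n, 0 < η j (e j)) ∧
      (∀ j ≤ n, ∀ x, |η j x| * ‖e j‖ ≤ (δ ^ 2)⁻¹ * ‖x‖ * η j (e j)) ∧
      ∀ i l, i + l ≤ n → ∀ x, η (i + l) x = 0 →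
        ‖PM M i l x‖ * ‖e (i + l)‖ ≤ 4 / δ ^ 2 * (1 - δ ^ 2 / 2) ^ l * (‖x‖ * ‖e i‖) := by
  have hδ' : 0 ≤ δ := hδ.le
  have mapC : ∀ j, ∀ v ∈ C (j + 1), M j v ∈ C j := by
    intro j v hv
    have e : M j v = (M j v - (δ * ‖M j v‖) • u j) + (δ * ‖M j v‖) • u j := by abel
    rw [e]
    exact (hC j).add _ (hM j v hv) _ ((hC j).smul _ (by positivity) _ ((hC j).u_mem hδ))
  have mapP : ∀ l i, ∀ v ∈ C (i + l), PM M i l v ∈ C i := by
    intro l
    induction l with
    | zero => intro i v hv; simpa [PM] using hv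
    | succ l ih =>
      intro i v hv
      rw [PM, LinearMap.comp_apply]
      exact ih i _ (mapC (i + l) v hv)
  have injP : ∀ l i v, PM M i l v = 0 → v = 0 := by
    intro l
    induction l with
    | zero => intro i v hv; simpa [PM] using hv
    | succ l ih =>
      intro i v hv
      rw [PM, LinearMap.comp_apply] at hv
      exact hinj _ _ (ih i _ hv)
  have hu0 : ∀ j, u j ≠ 0 := fun j h => by
    have := (hC j).norm_u
    rw [h] at this; simp at this
  have hδ1 : δ ≤ 1 := by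
    have g1 := (hC 0).ball (-(δ • u 0)) (by rw [norm_neg, norm_smul, (hC 0).norm_u, Real.norm_of_nonneg hδ']; simp)
    have g2 := (hC 0).lam_nonneg g1
    have g3 := (hC 0).lam_eq (u 0) ((hC 0).u_mem hδ)
    rw [(hC 0).norm_u] at g3
    rw [map_add, map_neg, map_smul, g3, smul_eq_mul] at g2
    linarith
  set e : ℕ → E3 := fun j => PM M j (n - j) (u n) with he
  set η : ℕ → (E3 →ₗ[ℝ] ℝ) := fun j => (lam 0).comp (PM M 0 j) with hη
  have he1 : ∀ i l, i + l ≤ n → e i = PM M i l (e (i + l)) := by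
    intro i l hil
    simp only [he]
    have : n - i = l + (n - (i + l)) := by omega
    rw [this, PM_add, LinearMap.comp_apply]
  have heC : ∀ j ≤ n, e j ∈ C j := by
    intro j hj
    apply mapP
    rw [Nat.add_sub_cancel' hj]
    exact (hC n).u_mem hδ
  -- `e j` is well inside the cone
  have hein : ∀ j ≤ n, e j - (δ * ‖e j‖) • u j ∈ C j := by
    intro j hj
    rcases hj.eq_or_lt with rfl | hlt
    · have : e j = u j := by simp [he, PM]
      rw [this, (hC j).norm_u, mul_one]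
      have : u j - δ • u j = (1 - δ) • u j := by module
      rw [this]
      exact (hC j).smul _ (by linarith) _ ((hC j).u_mem hδ)
    · have h1 := he1 j 1 (by omega)
      have h2 : PM M j 1 (e (j + 1)) = M j (e (j + 1)) := by simp [PM]
      rw [h1, h2]
      exact hM j _ (heC (j + 1) (by omega))
  have hej : ∀ j ≤ n, 0 < ‖e j‖ := by
    intro j hj
    rw [norm_pos_iff]
    intro h0
    exact hu0 n (injP _ _ _ h0)
  have hηC : ∀ j, ∀ v ∈ C j, 0 ≤ η j v := by
    intro j v hv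
    simp only [hη, LinearMap.comp_apply]
    exact (hC 0).lam_nonneg (mapP j 0 v (by simpa using hv))
  have hηu : ∀ j, 0 < η j (u j) := by
    intro j
    simp only [hη, LinearMap.comp_apply]
    rw [(hC 0).lam_eq _ (mapP j 0 _ (by simpa using (hC j).u_mem hδ)), norm_pos_iff]
    intro h0
    exact hu0 j (injP _ _ _ h0)
  have hηe : ∀ j ≤ n, δ * ‖e j‖ * η j (u j) ≤ η j (e j) := by
    intro j hj
    have := hηC j _ (hein j hj)
    rw [map_sub, map_smul, smul_eq_mul] at this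
    linarith
  have hηx : ∀ j x, |η j x| ≤ ‖x‖ / δ * η j (u j) := by
    intro j x
    have h1 := hηC j _ ((hC j).above hδ x)
    have h2 := hηC j _ ((hC j).above' hδ x)
    rw [map_add, map_smul, smul_eq_mul] at h1
    rw [map_sub, map_smul, smul_eq_mul] at h2
    rw [abs_le]
    constructor <;> linarith
  refine ⟨e, η, he1, ?_, ?_, ?_, ?_⟩
  · intro j
    simp only [hη]
    have : PM M 0 0 = LinearMap.id := rfl
    rw [this, LinearMap.comp_id]
  · intro j hj
    have h1 := hηe j hj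
    have h2 := hηu j
    have h3 := hej j hj
    have : 0 < δ * ‖e j‖ * η j (u j) := by positivity
    linarith
  · intro j hj x
    have h1 := hηe j hj
    have h2 := hηx j x
    have h3 := hej j hj
    have h4 := hηu j
    calc |η j x| * ‖e j‖ ≤ (‖x‖ / δ * η j (u j)) * ‖e j‖ := by gcongr
      _ = (δ ^ 2)⁻¹ * ‖x‖ * (δ * ‖e j‖ * η j (u j)) := by field_simp
      _ ≤ (δ ^ 2)⁻¹ * ‖x‖ * η j (e j) := by gcongr
  · intro i l hil x hx
    -- oscillation
    have hosc : ∀ l' ≤ l, ∃ m m' : ℝ, m ≤ m' ∧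
        m' - m ≤ (1 - δ ^ 2 / 2) ^ l' * (2 * (‖x‖ / δ)) ∧
        m' • PM M (i + l - l') l' (u (i + l)) - PM M (i + l - l') l' x ∈ C (i + l - l') ∧
        PM M (i + l - l') l' x - m • PM M (i + l - l') l' (u (i + l)) ∈ C (i + l - l') := by
      intro l'
      induction l' with
      | zero =>
        intro _
        refine ⟨-(‖x‖ / δ), ‖x‖ / δ, ?_, ?_, ?_, ?_⟩
        · have : 0 ≤ ‖x‖ / δ := by positivity
          linarith
        · apply le_of_eq; ring
        · simpa [PM] using (hC (i + l)).above' hδ x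
        · have := (hC (i + l)).above hδ x
          simp only [PM, Nat.sub_zero, LinearMap.id_apply, neg_smul, sub_neg_eq_add]
          rwa [add_comm ((‖x‖ / δ) • u (i + l)) x] at this
      | succ l' ih =>
        intro hl'
        obtain ⟨m, m', hmm, hle, h1, h2⟩ := ih (by omega)
        have ei : i + l - l' = (i + l - (l' + 1)) + 1 := by omega
        rw [ei] at h1 h2
        have hb : PM M ((i + l - (l' + 1)) + 1) l' (u (i + l)) ∈ C ((i + l - (l' + 1)) + 1) := by
          apply mapP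
          have : i + l - (l' + 1) + 1 + l' = i + l := by omega
          rw [this]
          exact (hC _).u_mem hδ
        obtain ⟨p, p', q1, q2, q3, q4⟩ := osc_step hδ (hC (i + l - (l' + 1)))
          (M (i + l - (l' + 1))) (hM (i + l - (l' + 1))) hb hmm h1 h2
        refine ⟨p, p', q1, ?_, ?_, ?_⟩
        · refine q2.trans ?_
          rw [pow_succ' (1 - δ ^ 2 / 2) l']
          have : 0 ≤ 1 - δ ^ 2 / 2 := by nlinarith
          calc (1 - δ ^ 2 / 2) * (m' - m) ≤ (1 - δ ^ 2 / 2) * ((1 - δ ^ 2 / 2) ^ l' * (2 * (‖x‖ / δ))) := by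
                gcongr
            _ = _ := by ring
        · rw [PM_succ', LinearMap.comp_apply, LinearMap.comp_apply]; exact q3
        · rw [PM_succ', LinearMap.comp_apply, LinearMap.comp_apply]; exact q4
    obtain ⟨m, m', hmm, hle, h1, h2⟩ := hosc l le_rfl
    have ei : i + l - l = i := by omega
    rw [ei] at h1 h2
    set a := PM M i l x with ha
    set b := PM M i l (u (i + l)) with hb
    have hbC : b ∈ C i := mapP _ _ _ ((hC _).u_mem hδ)
    -- signs of `m`, `m'`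
    have hcomp : (η (i + l)) = (η i).comp (PM M i l) := by
      simp only [hη]
      rw [PM_add, LinearMap.comp_assoc, Nat.zero_add]
    have hηa : η i a = 0 := by
      rw [ha, ← LinearMap.comp_apply, ← hcomp]; exact hx
    have hηb : 0 < η i b := by
      rw [hb, ← LinearMap.comp_apply, ← hcomp]; exact hηu _
    have s1 : 0 ≤ m' := by
      have := hηC i _ h1
      rw [map_sub, map_smul, smul_eq_mul, hηa, sub_zero] at this
      by_contra hcon
      push Not at hcon
      nlinarith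
    have s2 : m ≤ 0 := by
      have := hηC i _ h2
      rw [map_sub, map_smul, smul_eq_mul, hηa] at this
      by_contra hcon
      push Not at hcon
      nlinarith
    have hna : ‖a‖ ≤ 2 * (m' - m) * ‖b‖ := by
      have t1 : ‖a - m • b‖ ≤ (m' - m) * ‖b‖ := by
        rw [← (hC i).lam_eq _ h2, ← (hC i).lam_eq _ hbC]
        have := (hC i).lam_nonneg h1
        rw [map_sub, map_smul, smul_eq_mul] at this ⊢
        linarith
      have t2 : ‖a‖ ≤ ‖a - m • b‖ + ‖m • b‖ := by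
        have := norm_add_le (a - m • b) (m • b)
        rwa [sub_add_cancel] at this
      rw [norm_smul, Real.norm_of_nonpos s2] at t2
      have t3 : -m * ‖b‖ ≤ (m' - m) * ‖b‖ := by
        apply mul_le_mul_of_nonneg_right _ (norm_nonneg b); linarith
      linarith
    have hne : δ * ‖e (i + l)‖ * ‖b‖ ≤ ‖e i‖ := by
      have t1 := mapP l i _ (hein (i + l) hil)
      have t2 := (hC i).lam_nonneg t1
      rw [map_sub, map_smul, map_sub, map_smul, smul_eq_mul, ← he1 i l hil,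
        (hC i).lam_eq _ (heC i (by omega)), ← hb, (hC i).lam_eq _ hbC] at t2
      linarith
    have hθ : 0 ≤ 1 - δ ^ 2 / 2 := by nlinarith
    have hp : 0 ≤ (1 - δ ^ 2 / 2) ^ l := pow_nonneg hθ l
    calc ‖a‖ * ‖e (i + l)‖ ≤ (2 * (m' - m) * ‖b‖) * ‖e (i + l)‖ := by gcongr
      _ ≤ (2 * ((1 - δ ^ 2 / 2) ^ l * (2 * (‖x‖ / δ))) * ‖b‖) * ‖e (i + l)‖ := by gcongr
      _ = 4 / δ ^ 2 * (1 - δ ^ 2 / 2) ^ l * (‖x‖ * (δ * ‖e (i + l)‖ * ‖b‖)) := by
        field_simp; ring
      _ ≤ 4 / δ ^ 2 * (1 - δ ^ 2 / 2) ^ l * (‖x‖ * ‖e i‖) := by gcongr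

end D3

end SBA
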