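import Pool.Agent.Lib.MP_709218_gt.D3Check
import Pool.Agent.Lib.MP_709218_gt.D3Cone

/-! The box cones as real cones; strict inclusions from the integer certificates. -/

namespace SBA

namespace D3

open Letter Matrix

/-- real vector of an integer triple -/
def castV (t : Tri) : E3 := ![(t.1 : ℝ), (t.2.1 : ℝ), (t.2.2 : ℝ)]

theorem castV_apL (x : Letter) (t : Tri) : castV (apL x t) = XR x *ᵥ castV t := by
  obtain ⟨a, b, c⟩ := t
  rcases x with i | i <;> fin_cases i <;> ext k <;> fin_cases k <;>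
    simp [castV, apL, XR, XZ, Matrix.mulVec, dotProduct, Fin.sum_univ_three] <;> ring

/-- product of the matrices of a word -/
def PL (l : List Letter) : Matrix (Fin 3) (Fin 3) ℝ := (l.map XR).prod

theorem PL_cons (x : Letter) (l : List Letter) : PL (x :: l) = XR x * PL l := by
  simp [PL]

theorem castV_apW (l : List Letter) (t : Tri) : castV (apW l t) = PL l *ᵥ castV t := by
  induction l with
  | nil => simp [apW, PL]
  | cons x l ih =>
    rw [PL_cons, ← Matrix.mulVec_mulVec, ← ih, ← castV_apL]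
    rfl

/-- the norm bound for letters -/
theorem norm_XR_mulVec (x : Letter) (v : E3) : ‖XR x *ᵥ v‖ ≤ 41 * ‖v‖ := by
  have h0 := norm_le_pi_norm v 0
  have h1 := norm_le_pi_norm v 1
  have h2 := norm_le_pi_norm v 2
  have hn := norm_nonneg v
  rw [Real.norm_eq_abs, abs_le] at h0 h1 h2
  rw [pi_norm_le_iff_of_nonneg (by positivity)]
  intro k
  rw [Real.norm_eq_abs, abs_le]
  rcases x with i | i <;> fin_cases i <;> fin_cases k <;>
    simp [XR, XZ, Matrix.mulVec, dotProduct, Fin.sum_univ_three] <;> constructor <;> linarith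

theorem norm_PL_mulVec (l : List Letter) (v : E3) : ‖PL l *ᵥ v‖ ≤ 41 ^ l.length * ‖v‖ := by
  induction l with
  | nil => simp [PL]
  | cons x l ih =>
    rw [PL_cons, ← Matrix.mulVec_mulVec, List.length_cons, pow_succ']
    calc _ ≤ 41 * ‖PL l *ᵥ v‖ := norm_XR_mulVec _ _
      _ ≤ 41 * (41 ^ l.length * ‖v‖) := by gcongr
      _ = _ := by ring

/-- facet functionals -/
noncomputable def fctR (b : Box) (i j : Bool) : E3 →ₗ[ℝ] ℝ :=
  if i then
    (if j then (b.u1 : ℝ) • LinearMap.proj b.m - (10000 : ℝ) • LinearMap.proj (b.m + 1)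
      else (10000 : ℝ) • LinearMap.proj (b.m + 1) - (b.l1 : ℝ) • LinearMap.proj b.m)
  else
    (if j then (b.u2 : ℝ) • LinearMap.proj b.m - (10000 : ℝ) • LinearMap.proj (b.m + 2)
      else (10000 : ℝ) • LinearMap.proj (b.m + 2) - (b.l2 : ℝ) • LinearMap.proj b.m)

theorem gt3_cast (m : Fin 3) (t : Tri) : castV t m = (gt3 m t : ℝ) := by
  fin_cases m <;> simp [castV, gt3]

theorem fctR_castV (b : Box) (i j : Bool) (t : Tri) : fctR b i j (castV t) = (fct b i j t : ℝ) := by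
  cases i <;> cases j <;> simp [fctR, fct, gt3_cast]

/-- the box cone -/
def CB (b : Box) : Set E3 := {v | ∀ i j, 0 ≤ fctR b i j v}

theorem mem_CB {b : Box} {v : E3} : v ∈ CB b ↔
    (0 ≤ 10000 * v (b.m + 1) - b.l1 * v b.m ∧ 0 ≤ b.u1 * v b.m - 10000 * v (b.m + 1)) ∧
    (0 ≤ 10000 * v (b.m + 2) - b.l2 * v b.m ∧ 0 ≤ b.u2 * v b.m - 10000 * v (b.m + 2)) := by
  constructor
  · intro h
    have h1 := h true false
    have h2 := h true true
    have h3 := h false false
    have h4 := h false true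
    simp only [fctR, LinearMap.sub_apply, LinearMap.smul_apply, LinearMap.proj_apply, smul_eq_mul, if_true, Bool.false_eq_true, if_false] at h1 h2 h3 h4
    exact ⟨⟨h1, h2⟩, h3, h4⟩
  · rintro ⟨⟨h1, h2⟩, h3, h4⟩ i j
    cases i <;> cases j <;>
      simp only [fctR, LinearMap.sub_apply, LinearMap.smul_apply, LinearMap.proj_apply, smul_eq_mul, if_true, Bool.false_eq_true, if_false] <;> assumption

/-- admissible boxes -/
def valid (b : Box) : Bool :=
  decide (-10000 < b.l1 ∧ b.l1 + 16 ≤ b.u1 ∧ b.u1 < 10000 ∧ -10000 < b.l2 ∧ b.l2 + 16 ≤ b.u2 ∧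
    b.u2 < 10000)

theorem bx_valid : ∀ x y, valid (bx x y) = true := by decide

theorem valid_real {b : Box} (h : valid b = true) : (-10000 : ℝ) < b.l1 ∧ (b.l1 : ℝ) + 16 ≤ b.u1 ∧
    (b.u1 : ℝ) < 10000 ∧ (-10000 : ℝ) < b.l2 ∧ (b.l2 : ℝ) + 16 ≤ b.u2 ∧ (b.u2 : ℝ) < 10000 := by
  simp only [valid, decide_eq_true_eq] at h
  exact_mod_cast h

/-- centre of the box -/
noncomputable def uB (b : Box) : E3 := fun k => if k = b.m then 1 else
  if k = b.m + 1 then ((b.l1 : ℝ) + b.u1) / 20000 else ((b.l2 : ℝ) + b.u2) / 20000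

theorem fin3_cases (m k : Fin 3) : k = m ∨ k = m + 1 ∨ k = m + 2 := by
  revert m k; decide

theorem m1_ne (m : Fin 3) : m + 1 ≠ m := by revert m; decide
theorem m2_ne (m : Fin 3) : m + 2 ≠ m := by revert m; decide
theorem m2_ne1 (m : Fin 3) : m + 2 ≠ m + 1 := by revert m; decide

theorem uB_m (b : Box) : uB b b.m = 1 := by simp [uB]
theorem uB_m1 (b : Box) : uB b (b.m + 1) = ((b.l1 : ℝ) + b.u1) / 20000 := by
  simp [uB]
theorem uB_m2 (b : Box) : uB b (b.m + 2) = ((b.l2 : ℝ) + b.u2) / 20000 := by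
  simp [uB]

theorem CB_norm {b : Box} (hb : valid b = true) {v : E3} (hv : v ∈ CB b) : v b.m = ‖v‖ := by
  obtain ⟨a1, a2, a3, a4, a5, a6⟩ := valid_real hb
  obtain ⟨⟨h1, h2⟩, h3, h4⟩ := mem_CB.1 hv
  have h0 : 0 ≤ v b.m := by
    by_contra hcon
    push Not at hcon
    nlinarith
  apply le_antisymm
  · have := norm_le_pi_norm v b.m
    rw [Real.norm_eq_abs] at this
    exact (le_abs_self _).trans this
  · rw [pi_norm_le_iff_of_nonneg h0]
    intro k
    rw [Real.norm_eq_abs, abs_le]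
    rcases fin3_cases b.m k with rfl | rfl | rfl
    · constructor <;> linarith
    · constructor <;> nlinarith
    · constructor <;> nlinarith

/-- the universal constant -/
noncomputable def δ0 : ℝ := 1 / 10 ^ 20

theorem δ0_pos : 0 < δ0 := by unfold δ0; positivity

theorem isBCone_CB {b : Box} (hb : valid b = true) :
    IsBCone δ0 (CB b) (LinearMap.proj b.m) (uB b) where
  add := by
    intro v hv w hw i j
    rw [map_add]; exact add_nonneg (hv i j) (hw i j)
  smul := by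
    intro a ha v hv i j
    rw [map_smul, smul_eq_mul]; exact mul_nonneg ha (hv i j)
  lam_eq := by
    intro v hv
    rw [LinearMap.proj_apply]; exact CB_norm hb hv
  ball := by
    intro x hx
    obtain ⟨a1, a2, a3, a4, a5, a6⟩ := valid_real hb
    have h0 := norm_le_pi_norm x b.m
    have h1 := norm_le_pi_norm x (b.m + 1)
    have h2 := norm_le_pi_norm x (b.m + 2)
    rw [Real.norm_eq_abs, abs_le] at h0 h1 h2
    have hd : δ0 ≤ 1 / 2500 := by unfold δ0; norm_num
    have g0 : -(1 / 2500) ≤ x b.m ∧ x b.m ≤ 1 / 2500 := ⟨by linarith, by linarith⟩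
    have g1 : -(1 / 2500) ≤ x (b.m + 1) ∧ x (b.m + 1) ≤ 1 / 2500 := ⟨by linarith, by linarith⟩
    have g2 : -(1 / 2500) ≤ x (b.m + 2) ∧ x (b.m + 2) ≤ 1 / 2500 := ⟨by linarith, by linarith⟩
    obtain ⟨g0, g0'⟩ := g0
    obtain ⟨g1, g1'⟩ := g1
    obtain ⟨g2, g2'⟩ := g2
    rw [mem_CB]
    simp only [Pi.add_apply, uB_m, uB_m1, uB_m2]
    have e1 : |(b.l1 : ℝ) * x b.m| ≤ 4 := by
      rw [abs_mul]
      have : |(b.l1 : ℝ)| ≤ 10000 := abs_le.2 ⟨by linarith, by linarith⟩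
      have : |x b.m| ≤ 1 / 2500 := abs_le.2 ⟨by linarith, by linarith⟩
      calc |(b.l1 : ℝ)| * |x b.m| ≤ 10000 * (1 / 2500) := by gcongr
        _ = 4 := by norm_num
    have e2 : |(b.u1 : ℝ) * x b.m| ≤ 4 := by
      rw [abs_mul]
      have : |(b.u1 : ℝ)| ≤ 10000 := abs_le.2 ⟨by linarith, by linarith⟩
      have : |x b.m| ≤ 1 / 2500 := abs_le.2 ⟨by linarith, by linarith⟩
      calc |(b.u1 : ℝ)| * |x b.m| ≤ 10000 * (1 / 2500) := by gcongr
        _ = 4 := by norm_num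
    have e3 : |(b.l2 : ℝ) * x b.m| ≤ 4 := by
      rw [abs_mul]
      have : |(b.l2 : ℝ)| ≤ 10000 := abs_le.2 ⟨by linarith, by linarith⟩
      have : |x b.m| ≤ 1 / 2500 := abs_le.2 ⟨by linarith, by linarith⟩
      calc |(b.l2 : ℝ)| * |x b.m| ≤ 10000 * (1 / 2500) := by gcongr
        _ = 4 := by norm_num
    have e4 : |(b.u2 : ℝ) * x b.m| ≤ 4 := by
      rw [abs_mul]
      have : |(b.u2 : ℝ)| ≤ 10000 := abs_le.2 ⟨by linarith, by linarith⟩
      have : |x b.m| ≤ 1 / 2500 := abs_le.2 ⟨by linarith, by linarith⟩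
      calc |(b.u2 : ℝ)| * |x b.m| ≤ 10000 * (1 / 2500) := by gcongr
        _ = 4 := by norm_num
    rw [abs_le] at e1 e2 e3 e4
    refine ⟨⟨?_, ?_⟩, ?_, ?_⟩ <;> linarith
  norm_u := by
    have h : uB b ∈ CB b := by
      obtain ⟨a1, a2, a3, a4, a5, a6⟩ := valid_real hb
      rw [mem_CB]
      simp only [uB_m, uB_m1, uB_m2]
      refine ⟨⟨?_, ?_⟩, ?_, ?_⟩ <;> linarith
    rw [← CB_norm hb h, uB_m]

theorem fctR_uB_le {b : Box} (hb : valid b = true) (i j : Bool) : fctR b i j (uB b) ≤ 10000 := by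
  obtain ⟨a1, a2, a3, a4, a5, a6⟩ := valid_real hb
  cases i <;> cases j <;>
    simp only [fctR, LinearMap.sub_apply, LinearMap.smul_apply, LinearMap.proj_apply, smul_eq_mul,
      if_true, Bool.false_eq_true, if_false, uB_m, uB_m1, uB_m2] <;> linarith

/-- linear functionals on a box: positivity at the vertices -/
theorem box_pos {l1 u1 l2 u2 α β γ w p q : ℝ} (h1 : l1 < u1) (h2 : l2 < u2) (hw : 0 ≤ w)
    (ha1 : 0 ≤ 10000 * p - l1 * w) (hb1 : 0 ≤ u1 * w - 10000 * p)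
    (ha2 : 0 ≤ 10000 * q - l2 * w) (hb2 : 0 ≤ u2 * w - 10000 * q)
    (hll : 1 ≤ 10000 * α + l1 * β + l2 * γ) (hlu : 1 ≤ 10000 * α + l1 * β + u2 * γ)
    (hul : 1 ≤ 10000 * α + u1 * β + l2 * γ) (huu : 1 ≤ 10000 * α + u1 * β + u2 * γ) :
    w ≤ 10000 * (α * w + β * p + γ * q) := by
  rcases hw.eq_or_lt with rfl | hw
  · have hp : p = 0 := by linarith
    have hq : q = 0 := by linarith
    simp [hp, hq]
  have key : (u1 - l1) * (u2 - l2) * w * (10000 * (α * w + β * p + γ * q) - w) =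
      (u1 * w - 10000 * p) * (u2 * w - 10000 * q) * (10000 * α + l1 * β + l2 * γ - 1) +
      (u1 * w - 10000 * p) * (10000 * q - l2 * w) * (10000 * α + l1 * β + u2 * γ - 1) +
      (10000 * p - l1 * w) * (u2 * w - 10000 * q) * (10000 * α + u1 * β + l2 * γ - 1) +
      (10000 * p - l1 * w) * (10000 * q - l2 * w) * (10000 * α + u1 * β + u2 * γ - 1) := by
    ring
  have hpos : 0 < (u1 - l1) * (u2 - l2) * w := by
    have : 0 < u1 - l1 := by linarith
    have : 0 < u2 - l2 := by linarith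
    positivity
  have hr : 0 ≤ (u1 - l1) * (u2 - l2) * w * (10000 * (α * w + β * p + γ * q) - w) := by
    rw [key]
    have := mul_nonneg (mul_nonneg hb1 hb2) (sub_nonneg.2 hll)
    have := mul_nonneg (mul_nonneg hb1 ha2) (sub_nonneg.2 hlu)
    have := mul_nonneg (mul_nonneg ha1 hb2) (sub_nonneg.2 hul)
    have := mul_nonneg (mul_nonneg ha1 ha2) (sub_nonneg.2 huu)
    linarith
  have := nonneg_of_mul_nonneg_right hr hpos
  linarith

/-- decomposition of a linear functional in the coordinates of a box -/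
theorem lin_decomp (F : E3 →ₗ[ℝ] ℝ) (m : Fin 3) (v : E3) :
    F v = F (Pi.single m 1) * v m + F (Pi.single (m + 1) 1) * v (m + 1) +
      F (Pi.single (m + 2) 1) * v (m + 2) := by
  have : v = v m • Pi.single m (1 : ℝ) + v (m + 1) • Pi.single (m + 1) (1 : ℝ) +
      v (m + 2) • Pi.single (m + 2) (1 : ℝ) := by
    funext k
    fin_cases m <;> fin_cases k <;> simp
  conv_lhs => rw [this]
  simp only [map_add, map_smul, smul_eq_mul]
  ring

theorem castV_vtx (b : Box) (i j : Bool) :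
    castV (vtx b i j) b.m = 10000 ∧ castV (vtx b i j) (b.m + 1) = (if i then (b.u1 : ℝ) else b.l1) ∧
    castV (vtx b i j) (b.m + 2) = (if j then (b.u2 : ℝ) else b.l2) := by
  obtain ⟨m, l1, u1, l2, u2⟩ := b
  fin_cases m <;> cases i <;> cases j <;> simp [castV, vtx, mk3]

theorem good_sign {b b' : Box} {w : List Letter} (h : good b b' w = true) :
    ∃ s : ℝ, (s = 1 ∨ s = -1) ∧ ∀ i j i' j' : Bool,
      1 ≤ s * fctR b i j (PL w *ᵥ castV (vtx b' i' j')) := by
  unfold good at h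
  rw [Bool.or_eq_true] at h
  rcases h with h | h
  · refine ⟨1, Or.inl rfl, ?_⟩
    intro i j i' j'
    rw [← castV_apW, fctR_castV, one_mul]
    have : 0 < fct b i j (apW w (vtx b' i' j')) := by
      simp only [vals, List.all_eq_true, List.mem_flatMap, decide_eq_true_eq] at h
      apply h
      refine ⟨i', by cases i' <;> simp, j', by cases j' <;> simp, ?_⟩
      cases i <;> cases j <;> simp
    exact_mod_cast this
  · refine ⟨-1, Or.inr rfl, ?_⟩
    intro i j i' j'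
    rw [← castV_apW, fctR_castV]
    have : fct b i j (apW w (vtx b' i' j')) < 0 := by
      simp only [vals, List.all_eq_true, List.mem_flatMap, decide_eq_true_eq] at h
      apply h
      refine ⟨i', by cases i' <;> simp, j', by cases j' <;> simp, ?_⟩
      cases i <;> cases j <;> simp
    have h2 : fct b i j (apW w (vtx b' i' j')) ≤ -1 := by omega
    have h3 : (fct b i j (apW w (vtx b' i' j')) : ℝ) ≤ -1 := by exact_mod_cast h2
    linarith

/-- strict inclusion -/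
theorem strict_of_good {b b' : Box} (hb : valid b = true) (hb' : valid b' = true) {w : List Letter}
    (hg : good b b' w = true) (hlen : w.length ≤ 5) :
    ∃ s : ℝ, (s = 1 ∨ s = -1) ∧ ∀ v ∈ CB b',
      s • (PL w *ᵥ v) - (δ0 * ‖s • (PL w *ᵥ v)‖) • uB b ∈ CB b := by
  obtain ⟨s, hs, h⟩ := good_sign hg
  refine ⟨s, hs, ?_⟩
  intro v hv i j
  have hs1 : |s| = 1 := by rcases hs with rfl | rfl <;> simp
  obtain ⟨a1, a2, a3, a4, a5, a6⟩ := valid_real hb'
  have hvn := CB_norm hb' hv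
  obtain ⟨⟨h1, h2⟩, h3, h4⟩ := mem_CB.1 hv
  set F : E3 →ₗ[ℝ] ℝ := s • (fctR b i j).comp (Matrix.toLin' (PL w)) with hF
  have hFv : ∀ x, F x = s * fctR b i j (PL w *ᵥ x) := by
    intro x; simp [hF, Matrix.toLin'_apply]
  have hVs : ∀ i' j', 1 ≤ F (castV (vtx b' i' j')) := by
    intro i' j'; rw [hFv]; exact h i j i' j'
  have hdec : ∀ i' j', F (castV (vtx b' i' j')) = 10000 * F (Pi.single b'.m 1) +
      (if i' then (b'.u1 : ℝ) else b'.l1) * F (Pi.single (b'.m + 1) 1) +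
      (if j' then (b'.u2 : ℝ) else b'.l2) * F (Pi.single (b'.m + 2) 1) := by
    intro i' j'
    obtain ⟨c1, c2, c3⟩ := castV_vtx b' i' j'
    rw [lin_decomp F b'.m, c1, c2, c3]; ring
  have v1 := hVs false false
  have v2 := hVs false true
  have v3 := hVs true false
  have v4 := hVs true true
  rw [hdec] at v1 v2 v3 v4
  simp only [if_true, Bool.false_eq_true, if_false] at v1 v2 v3 v4
  have hFv0 : v b'.m ≤ 10000 * F v := by
    rw [lin_decomp F b'.m v]
    exact box_pos (by linarith) (by linarith) (by rw [hvn]; exact norm_nonneg v) h1 h2 h3 h4 v1 v2 v3 v4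
  rw [hvn] at hFv0
  have hnorm : ‖s • (PL w *ᵥ v)‖ ≤ 41 ^ 5 * ‖v‖ := by
    rw [norm_smul, Real.norm_eq_abs, hs1, one_mul]
    calc _ ≤ 41 ^ w.length * ‖v‖ := norm_PL_mulVec w v
      _ ≤ 41 ^ 5 * ‖v‖ := by gcongr; norm_num
  rw [map_sub, map_smul, map_smul, smul_eq_mul, smul_eq_mul, ← hFv]
  have hu := fctR_uB_le hb i j
  have hv0 := norm_nonneg v
  have hs0 := norm_nonneg (s • (PL w *ᵥ v))
  have : δ0 * ‖s • (PL w *ᵥ v)‖ * fctR b i j (uB b) ≤ δ0 * (41 ^ 5 * ‖v‖) * 10000 := by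
    have hδ := δ0_pos
    calc δ0 * ‖s • (PL w *ᵥ v)‖ * fctR b i j (uB b) ≤ δ0 * ‖s • (PL w *ᵥ v)‖ * 10000 := by
          gcongr
      _ ≤ δ0 * (41 ^ 5 * ‖v‖) * 10000 := by gcongr
  have h5 : δ0 * (41 ^ 5 * ‖v‖) * 10000 ≤ ‖v‖ / 10000 := by
    unfold δ0
    have : (1 : ℝ) / 10 ^ 20 * (41 ^ 5 * ‖v‖) * 10000 = (41 ^ 5 / 10 ^ 16) * ‖v‖ := by ring
    rw [this]
    have h6 : (41 : ℝ) ^ 5 / 10 ^ 16 ≤ 1 / 10000 := by norm_num
    calc (41 ^ 5 / 10 ^ 16 : ℝ) * ‖v‖ ≤ 1 / 10000 * ‖v‖ := by gcongr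
      _ = ‖v‖ / 10000 := by ring
  linarith

end D3

end SBA
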