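import Pool.Agent.Lib.MP_709218_gt.D3Hex

/-! Coding of geodesics by canonical words. `y : V3 × V3` is a unit vector, `ζ₊ = y.1 + y.2` and
`ζ₋ = y.1 - y.2` are its end points (future null vectors). Frames `w k`: `ζ₊` seen from frame `k` is
`hex.rep (w k)⁻¹ ζ₊`. -/

namespace SBA

open Matrix Set

/-- isometries preserve the future cone -/
theorem IsIso.fut {A : V3 →ₗ[ℝ] V3} (hA : IsIso A) {v : V3} (hv : v ∈ Fut) (h0 : 0 < v 2) :
    A v ∈ Fut ∧ 0 < (A v) 2 := by
  have h1 : lor (A v) (A v) ≤ 0 := by rw [hA.lor_eq]; exact hv.1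
  have h2 : lor (A e2) (A v) < 0 := by rw [hA.lor_eq]; exact lor_hyp_fut_neg e2_mem hv h0
  have h3 : A e2 ∈ Hyp := hA.hyp _ e2_mem
  have h4 : 0 < (A v) 2 := by
    by_contra hneg
    push Not at hneg
    have h5 : -(A v) ∈ Fut := ⟨by rw [lor_neg_left, lor_neg_right, neg_neg]; exact h1,
      by rw [Pi.neg_apply]; linarith⟩
    have h6 := lor_fut_nonpos (Hyp_sub_Fut h3) h5
    rw [lor_neg_right] at h6
    linarith
  exact ⟨⟨h1, h4.le⟩, h4⟩

theorem zeta_null_add {y : V3 × V3} (hy : y ∈ UT) : lor (y.1 + y.2) (y.1 + y.2) = 0 := by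
  simp only [lor_add_left, lor_add_right, hy.1.1, hy.2.1, hy.2.2, lor_comm y.2 y.1]
  norm_num

theorem zeta_null_sub {y : V3 × V3} (hy : y ∈ UT) : lor (y.1 - y.2) (y.1 - y.2) = 0 := by
  simp only [lor_sub_left, lor_sub_right, hy.1.1, hy.2.1, hy.2.2, lor_comm y.2 y.1]
  norm_num

theorem zeta_add_pos {y : V3 × V3} (hy : y ∈ UT) : 0 < (y.1 + y.2) 2 := by
  have h1 : lor y.1 (y.1 + y.2) = -1 := by rw [lor_add_right, hy.1.1, hy.2.1]; ring
  by_contra hneg
  push Not at hneg
  have h5 : -(y.1 + y.2) ∈ Fut := ⟨by rw [lor_neg_left, lor_neg_right, neg_neg, zeta_null_add hy],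
    by rw [Pi.neg_apply]; linarith⟩
  have h6 := lor_fut_nonpos (Hyp_sub_Fut hy.1) h5
  rw [lor_neg_right, h1] at h6
  linarith

theorem zeta_sub_pos {y : V3 × V3} (hy : y ∈ UT) : 0 < (y.1 - y.2) 2 := by
  have := zeta_add_pos (rev_mem hy)
  simpa [rev, sub_eq_add_neg] using this

theorem zeta_add_fut {y : V3 × V3} (hy : y ∈ UT) : y.1 + y.2 ∈ Fut :=
  ⟨(zeta_null_add hy).le, (zeta_add_pos hy).le⟩

theorem zeta_sub_fut {y : V3 × V3} (hy : y ∈ UT) : y.1 - y.2 ∈ Fut :=
  ⟨(zeta_null_sub hy).le, (zeta_sub_pos hy).le⟩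

theorem flow_fst_eq (a : ℝ) (y : V3 × V3) :
    (flow a y).1 = (Real.exp a / 2) • (y.1 + y.2) + (Real.exp (-a) / 2) • (y.1 - y.2) := by
  simp only [flow, Real.cosh_eq, Real.sinh_eq]
  module

namespace D3

open Letter

/-- the forward end point of `y` seen from the frame `w` -/
noncomputable def zp (y : V3 × V3) (w : H.W) : V3 := hex.rep w⁻¹ (y.1 + y.2)
/-- the backward end point -/
noncomputable def zm (y : V3 × V3) (w : H.W) : V3 := hex.rep w⁻¹ (y.1 - y.2)

/-- `x` is the next letter of the coding at `v`: `v` is beyond the mirror `x`, and mirrors `z` have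
priority -/
def IsNext (v : V3) (x : Letter) : Prop :=
  lor v (hn x) < 0 ∧ ∀ i, x = r i → ∀ j, 0 ≤ lor v (hn (z j))

structure Code (y : V3 × V3) (w : ℕ → H.W) (x : ℕ → Letter) : Prop where
  step : ∀ k, w (k + 1) = w k * H.gen (x k)
  next : ∀ k, IsNext (zp y (w k)) (x k)
  ok : ∀ k, ok (x k) (x (k + 1)) = true
  back : ∀ k, 0 < lor (zm y (w k)) (hn (x k))

theorem zp_fut {y : V3 × V3} (hy : y ∈ UT) (w : H.W) : zp y w ∈ Fut ∧ 0 < zp y w 2 :=
  (hex.rep_isIso w⁻¹).fut (zeta_add_fut hy) (zeta_add_pos hy)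

theorem zm_fut {y : V3 × V3} (hy : y ∈ UT) (w : H.W) : zm y w ∈ Fut ∧ 0 < zm y w 2 :=
  (hex.rep_isIso w⁻¹).fut (zeta_sub_fut hy) (zeta_sub_pos hy)

theorem zp_null {y : V3 × V3} (hy : y ∈ UT) (w : H.W) : lor (zp y w) (zp y w) = 0 := by
  rw [zp, (hex.rep_isIso w⁻¹).lor_eq, zeta_null_add hy]

theorem zm_null {y : V3 × V3} (hy : y ∈ UT) (w : H.W) : lor (zm y w) (zm y w) = 0 := by
  rw [zm, (hex.rep_isIso w⁻¹).lor_eq, zeta_null_sub hy]

theorem hn_unit (x : Letter) : lor (hn x) (hn x) = 1 := by rw [hn_gram]; simp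

theorem hn_orth {x y : Letter} (h : H.adj x y) : lor (hn x) (hn y) = 0 := by
  have hne : x ≠ y := fun e => H.irrefl _ (e ▸ h)
  rw [hn_gram, if_neg hne, if_pos (show adjB x y = true from h)]

/-- a change of frame by one letter -/
theorem rep_step_inv (w : H.W) (x : Letter) (v : V3) :
    hex.rep (w * H.gen x)⁻¹ v = refl (hn x) (hex.rep w⁻¹ v) := by
  rw [_root_.mul_inv_rev, H.gen_inv, hex.rep_mul, hex.rep_gen]; rfl

theorem zp_step (y : V3 × V3) (w : H.W) (x : Letter) :
    zp y (w * H.gen x) = refl (hn x) (zp y w) := rep_step_inv w x _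

theorem zm_step (y : V3 × V3) (w : H.W) (x : Letter) :
    zm y (w * H.gen x) = refl (hn x) (zm y w) := rep_step_inv w x _

theorem exists_next {v : V3} (hv : lor v v = 0) (h0 : 0 < v 2) : ∃ x, IsNext v x := by
  by_cases hz : ∃ j, lor v (hn (z j)) < 0
  · obtain ⟨j, hj⟩ := hz
    exact ⟨z j, hj, fun i hi => by cases hi⟩
  · push Not at hz
    by_contra hcon
    have hr : ∀ i, 0 ≤ lor v (hn (r i)) := by
      intro i
      by_contra hneg
      push Not at hneg
      exact hcon ⟨r i, hneg, fun _ _ j => hz j⟩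
    have h := hex_bdd (v := v) (by intro x; cases x with | r i => exact hr i | z i => exact hz i)
    have h2 : v 0 ^ 2 + v 1 ^ 2 = v 2 ^ 2 := by unfold lor at hv; nlinarith
    rw [h2] at h
    nlinarith [pow_pos h0 2]

theorem refl_lor_self (x : Letter) (v : V3) : lor (refl (hn x) v) (hn x) = -lor v (hn x) := by
  rw [lor_refl_left (hn_unit x), refl_self (hn_unit x), lor_neg_right]

theorem refl_lor_adj {x l : Letter} (h : H.adj x l) (v : V3) :
    lor (refl (hn x) v) (hn l) = lor v (hn l) := by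
  rw [lor_refl_left (hn_unit x), refl_fix]
  rw [lor_comm]; exact hn_orth h

theorem not_adj_rr (i j : Fin 3) : ¬ H.adj (r i) (r j) := by simp [H, adjB]
theorem not_adj_zz (i j : Fin 3) : ¬ H.adj (z i) (z j) := by simp [H, adjB]
theorem not_adj_rz (i : Fin 3) : ¬ H.adj (r i) (z i) := by simp [H, adjB]
theorem not_adj_zr (i : Fin 3) : ¬ H.adj (z i) (r i) := by simp [H, adjB]
theorem adj_rz {i j : Fin 3} (h : i ≠ j) : H.adj (r i) (z j) := by simp [H, adjB, h]
theorem adj_zr {i j : Fin 3} (h : i ≠ j) : H.adj (z i) (r j) := by simp [H, adjB, h]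

/-- consecutive letters are admissible -/
theorem ok_of_next {v : V3} {x x' : Letter} (h : IsNext v x)
    (h' : IsNext (refl (hn x) v) x') : ok x x' = true := by
  have h1 : 0 < lor (refl (hn x) v) (hn x) := by rw [refl_lor_self]; linarith [h.1]
  have hne : x ≠ x' := by
    rintro rfl
    exact absurd h'.1 (not_lt.2 h1.le)
  cases x with
  | r i =>
    cases x' with
    | r j => simp only [ok, decide_eq_true_eq]; rintro rfl; exact hne rfl
    | z j =>
      simp only [ok, decide_eq_true_eq]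
      by_contra hij
      have h2 := h'.1
      rw [refl_lor_adj (adj_rz hij)] at h2
      exact absurd h2 (not_lt.2 (h.2 i rfl j))
  | z i =>
    cases x' with
    | r j => rfl
    | z j => simp only [ok, decide_eq_true_eq]; rintro rfl; exact hne rfl

/-- the invariant of the starting point along the coding -/
def Inv (q : V3) : Option Letter → Prop
  | none => ∀ x, 0 ≤ lor q (hn x)
  | some (r i) => lor q (hn (r i)) ≤ 0
  | some (z j) => lor q (hn (z j)) ≤ 0 ∧ ∀ i, i ≠ j → 0 ≤ lor q (hn (r i))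

/-- admissible next letter after an optional last letter -/
def okO : Option Letter → Letter → Prop
  | none, _ => True
  | some x, x' => ok x x' = true

theorem sep_lt {x y : Letter} (hxy : x ≠ y) (ha : ¬ H.adj x y) {q : V3} (hq : q ∈ Hyp)
    (h : lor q (hn x) ≤ 0) : 0 < lor q (hn y) := by
  have h1 := hex_sep hxy ha (Hyp_sub_Fut hq)
  have h2 : 0 < (2 - √2) * q 2 := by
    apply mul_pos _ hq.2
    have : √2 < 2 := by
      rw [Real.sqrt_lt' (by norm_num)]; norm_num
    linarith
  linarith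

theorem Inv.nonneg {q : V3} (hq : q ∈ Hyp) {p : Option Letter} {x : Letter} (h : Inv q p)
    (hok : okO p x) : 0 ≤ lor q (hn x) := by
  match p, x, h, hok with
  | none, x, h, _ => exact h x
  | some (r i), r j, h, hok =>
    simp only [okO, ok, decide_eq_true_eq] at hok
    exact (sep_lt (fun e => hok (by injection e)) (not_adj_rr i j) hq h).le
  | some (r i), z j, h, hok =>
    simp only [okO, ok, decide_eq_true_eq] at hok
    subst hok
    exact (sep_lt (by simp) (not_adj_rz i) hq h).le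
  | some (z i), z j, h, hok =>
    simp only [okO, ok, decide_eq_true_eq] at hok
    exact (sep_lt (fun e => hok (by injection e)) (not_adj_zz i j) hq h.1).le
  | some (z i), r j, h, hok =>
    by_cases hij : j = i
    · subst hij
      exact (sep_lt (by simp) (not_adj_zr j) hq h.1).le
    · exact h.2 j hij

theorem Inv.step {q : V3} (hq : q ∈ Hyp) {p : Option Letter} {x : Letter} (h : Inv q p)
    (hok : okO p x) : Inv (refl (hn x) q) (some x) := by
  have h0 := h.nonneg hq hok
  have h1 : lor (refl (hn x) q) (hn x) ≤ 0 := by rw [refl_lor_self]; linarith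
  cases x with
  | r i => exact h1
  | z j =>
    refine ⟨h1, fun l hl => ?_⟩
    rw [refl_lor_adj (adj_zr (Ne.symm hl))]
    match p, h, hok with
    | none, h, _ => exact h _
    | some (r m), h, hok =>
      simp only [okO, ok, decide_eq_true_eq] at hok
      subst hok
      exact (sep_lt (fun e => hl (by injection e with e; exact e.symm)) (not_adj_rr m l) hq h).le
    | some (z m), h, hok =>
      by_cases hlm : l = m
      · subst hlm
        exact (sep_lt (by simp) (not_adj_zr l) hq h.1).le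
      · exact h.2 l hlm

open Classical in
/-- a chosen next letter -/
noncomputable def nextL (v : V3) : Letter := if h : ∃ x, IsNext v x then h.choose else r 0

theorem nextL_spec {v : V3} (h : ∃ x, IsNext v x) : IsNext v (nextL v) := by
  rw [nextL, dif_pos h]; exact h.choose_spec

/-- the frames of the coding -/
noncomputable def codeW (y : V3 × V3) (w₀ : H.W) : ℕ → H.W
  | 0 => w₀
  | k + 1 => codeW y w₀ k * H.gen (nextL (zp y (codeW y w₀ k)))

/-- existence of the coding from any start tile -/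
theorem exists_code {y : V3 × V3} (hy : y ∈ UT) (a : ℝ) (w₀ : H.W)
    (h₀ : ∃ q ∈ hex.Q, (flow a y).1 = hex.rep w₀ q) :
    ∃ (w : ℕ → H.W) (x : ℕ → Letter), w 0 = w₀ ∧ Code y w x := by
  set w := codeW y w₀ with hw
  set x : ℕ → Letter := fun k => nextL (zp y (w k)) with hx
  have hstep : ∀ k, w (k + 1) = w k * H.gen (x k) := fun k => rfl
  have hnext : ∀ k, IsNext (zp y (w k)) (x k) := fun k =>
    nextL_spec (exists_next (zp_null hy _) (zp_fut hy _).2)
  have hok : ∀ k, ok (x k) (x (k + 1)) = true := by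
    intro k
    apply ok_of_next (hnext k)
    have := hnext (k + 1)
    rwa [hstep, zp_step] at this
  have hqH : ∀ k, hex.rep (w k)⁻¹ (flow a y).1 ∈ Hyp := fun k =>
    (hex.rep_isIso _).hyp _ (flow_mem hy a).1
  have hinv : ∀ k, ∃ p, Inv (hex.rep (w k)⁻¹ (flow a y).1) p ∧ okO p (x k) := by
    intro k
    induction k with
    | zero =>
      refine ⟨none, ?_, trivial⟩
      obtain ⟨q, hq, hq2⟩ := h₀
      have : hex.rep (w 0)⁻¹ (flow a y).1 = q := by
        rw [hq2]; exact hex.rep_inv_rep w₀ q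
      rw [this]
      exact hq.2
    | succ k ih =>
      obtain ⟨p, hp1, hp2⟩ := ih
      refine ⟨some (x k), ?_, hok k⟩
      rw [hstep, rep_step_inv]
      exact hp1.step (hqH k) hp2
  refine ⟨w, x, rfl, hstep, hnext, hok, ?_⟩
  intro k
  obtain ⟨p, hp1, hp2⟩ := hinv k
  have h1 := hp1.nonneg (hqH k) hp2
  rw [flow_fst_eq, map_add, map_smul, map_smul, lor_add_left, lor_smul_left, lor_smul_left] at h1
  have h2 := (hnext k).1
  change 0 < lor (hex.rep (w k)⁻¹ (y.1 - y.2)) (hn (x k))
  change lor (hex.rep (w k)⁻¹ (y.1 + y.2)) (hn (x k)) < 0 at h2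
  have e1 := Real.exp_pos a
  have e2 := Real.exp_pos (-a)
  by_contra hneg
  push Not at hneg
  have h3 : Real.exp a / 2 * lor (hex.rep (w k)⁻¹ (y.1 + y.2)) (hn (x k)) < 0 :=
    mul_neg_of_pos_of_neg (by positivity) h2
  have h4 : Real.exp (-a) / 2 * lor (hex.rep (w k)⁻¹ (y.1 - y.2)) (hn (x k)) ≤ 0 :=
    mul_nonpos_of_nonneg_of_nonpos (by positivity) hneg
  linarith

end D3

end SBA
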