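import Pool.Agent.Lib.MP_709218_gt.CrossCore
import Pool.Agent.Lib.MP_709218_gt.D3Coding

/-! A run of six letters makes a geodesic cross one of its translates. -/

namespace SBA

namespace D3

open Letter Real Set

theorem cx_hn_two (i : Fin 3) : hn (r i) 2 < 0 := by
  fin_cases i <;> simp [hn]

theorem cx_hn_gram {i j : Fin 3} (h : i ≠ j) : lor (hn (r i)) (hn (r j)) = -2 := by
  rw [hn_gram]
  simp [adjB, h]

theorem cx_hn_unit (x : Letter) : lor (hn x) (hn x) = 1 := by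
  rw [hn_gram]; simp

theorem cx_rep_gen (w : H.W) (x : Letter) (v : V3) :
    hex.rep (w * H.gen x)⁻¹ v = refl (hn x) (hex.rep w⁻¹ v) := by
  rw [mul_inv_rev, H.gen_inv, hex.rep_mul, hex.rep_gen]
  rfl

theorem cx_zp_step (y : V3 × V3) (w : H.W) (x : Letter) :
    zp y (w * H.gen x) = refl (hn x) (zp y w) := cx_rep_gen w x _

theorem cx_zm_step (y : V3 × V3) (w : H.W) (x : Letter) :
    zm y (w * H.gen x) = refl (hn x) (zm y w) := cx_rep_gen w x _

variable {n : ℕ} [NeZero n]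

theorem cx_four_mem (i j k : Fin 3) :
    H.gen (r j) * (H.gen (r i) * (H.gen (r k) * H.gen (r j))) ∈ (hexS n).K := by
  change typ n (H.gen (r j) * (H.gen (r i) * (H.gen (r k) * H.gen (r j)))) = 1
  rw [map_mul, map_mul, map_mul, typ_r, typ_r, typ_r]
  simp [Prod.mk_mul_mk]

theorem cx_no_run_aux {y : V3 × V3} (hy : y ∈ (hexS n).NCset) {i j k : Fin 3} (hij : i ≠ j) (hjk : j ≠ k)
    (hik : i ≠ k) (h1 : lor (y.1 - y.2) (hn (r i)) < 0)
    (h3 : lor (refl (hn (r j)) (y.1 + y.2)) (hn (r k)) < 0)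
    (h6 : lor (refl (hn (r j)) (refl (hn (r i)) (refl (hn (r k)) (refl (hn (r j))
      (y.1 + y.2))))) (hn (r k)) < 0) : False := by
  have hc := cross_core hy.1 (cx_hn_unit (r i)) (cx_hn_unit (r j)) (cx_hn_unit (r k)) (cx_hn_gram hij)
    (cx_hn_gram hjk) (cx_hn_gram hik) (cx_hn_two i) (cx_hn_two j) (cx_hn_two k) h1 h3 h6
  have h := hy.2 _ (cx_four_mem i j k)
  have e : (hexS n).S.rep (H.gen (r j) * (H.gen (r i) * (H.gen (r k) * H.gen (r j)))) (nrm y) =
      refl (hn (r j)) (refl (hn (r i)) (refl (hn (r k)) (refl (hn (r j)) (nrm y)))) := by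
    change hex.rep _ (nrm y) = _
    rw [hex.rep_mul, hex.rep_mul, hex.rep_mul, hex.rep_gen, hex.rep_gen, hex.rep_gen]
    rfl
  rw [e] at h
  linarith

theorem code_no_run {y : V3 × V3} (hy : y ∈ (hexS n).NCset) {w : ℕ → H.W} {x : ℕ → Letter}
    (h : Code y w x) (k : ℕ) : ¬ RunAt x k := by
  rintro ⟨i, e0, e1, e2', e3, e4, e5⟩
  have hy' := (hexS n).NCset_pact hy (w (k + 1))⁻¹
  have s := h.step
  have p1 : zp y (w (k + 2)) = refl (hn (r (i + 2))) (zp y (w (k + 1))) := by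
    rw [s (k + 1), cx_zp_step, e1]
  have p2 : zp y (w (k + 3)) = refl (hn (r (i + 1))) (zp y (w (k + 2))) := by
    rw [s (k + 2), cx_zp_step, e2']
  have p3 : zp y (w (k + 4)) = refl (hn (r i)) (zp y (w (k + 3))) := by
    rw [s (k + 3), cx_zp_step, e3]
  have p4 : zp y (w (k + 5)) = refl (hn (r (i + 2))) (zp y (w (k + 4))) := by
    rw [s (k + 4), cx_zp_step, e4]
  have q2 := (h.next (k + 2)).1
  have q5 := (h.next (k + 5)).1
  rw [e2', p1] at q2
  rw [e5, p4, p3, p2, p1] at q5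
  have b0 := h.back k
  have b1 : lor (zm y (w (k + 1))) (hn (r i)) < 0 := by
    rw [s k, cx_zm_step, e0, lor_refl_left (cx_hn_unit _), refl_self (cx_hn_unit _), lor_neg_right]
    rw [e0] at b0
    linarith
  have a1 : zp y (w (k + 1)) = (pact ((hexS n).S.rep (w (k + 1))⁻¹) y).1 +
      (pact ((hexS n).S.rep (w (k + 1))⁻¹) y).2 := by
    change hex.rep (w (k + 1))⁻¹ (y.1 + y.2) = hex.rep (w (k + 1))⁻¹ y.1 + hex.rep (w (k + 1))⁻¹ y.2
    rw [map_add]
  have a2 : zm y (w (k + 1)) = (pact ((hexS n).S.rep (w (k + 1))⁻¹) y).1 -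
      (pact ((hexS n).S.rep (w (k + 1))⁻¹) y).2 := by
    change hex.rep (w (k + 1))⁻¹ (y.1 - y.2) = hex.rep (w (k + 1))⁻¹ y.1 - hex.rep (w (k + 1))⁻¹ y.2
    rw [map_sub]
  rw [a2] at b1
  rw [a1] at q2 q5
  have n1 : i ≠ i + 2 := by omega
  have n2 : i + 2 ≠ i + 1 := by omega
  have n3 : i ≠ i + 1 := by omega
  exact cx_no_run_aux hy' n1 n2 n3 b1 q2 q5

end D3

end SBA
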