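import Pool.Agent.Lib.MP_709218_gt.D3Time
import Pool.Agent.Lib.MP_709218_gt.D3Cross

/-! Final form of the coding: frames along a geodesic, indexed by time. -/

namespace SBA

open Matrix Set

namespace D3

open Letter

theorem coding (n : ℕ) [NeZero n] : ∃ L r : ℝ, 0 < L ∧ 0 < r ∧ ∀ y ∈ (hexS n).NCset, ∀ a b : ℝ, a ≤ b →
    ∃ (w : ℕ → H.W) (x : ℕ → Letter) (τ : ℝ → ℕ),
      (∀ k, w (k + 1) = w k * H.gen (x k)) ∧ (∀ k, D3.ok (x k) (x (k + 1)) = true) ∧
      (∀ k, ¬ RunAt x k) ∧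
      (∀ s t, a ≤ s → s ≤ t → t ≤ b → τ s ≤ τ t ∧ (t - s) / L - 1 ≤ (τ t : ℝ) - τ s) ∧
      ∀ s, a ≤ s → s ≤ b → hd (hex.rep (w (τ s)) e2) (flow s y).1 ≤ r := by
  obtain ⟨r₀, hr₀, hnear⟩ := code_near
  set R := max 2 r₀ with hR
  have hR2 : 2 ≤ R := le_max_left _ _
  have hRr : r₀ ≤ R := le_max_right _ _
  refine ⟨R, r₀ + R, by linarith, by linarith, ?_⟩
  intro y hy a b _
  have hyU : y ∈ UT := hy.1
  obtain ⟨w₀, q, hq, hq2⟩ := hex.cover (flow_mem hyU a).1
  obtain ⟨w, x, hw0, hC⟩ := exists_code hyU a w₀ ⟨q, hq, hq2⟩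
  obtain ⟨hn0, hnk⟩ := hnear y hyU w x hC a ⟨q, hq, by rw [hw0]; exact hq2⟩
  have hex : ∀ s : ℝ, ∃ k, s ≤ tm y (w k) := by
    intro s
    obtain ⟨k, hk⟩ := (tm_tendsto hyU hC).eventually_ge_atTop s |>.exists
    exact ⟨k, hk⟩
  classical
  set τ : ℝ → ℕ := fun s => Nat.find (hex s) with hτ
  have hτs : ∀ s, s ≤ tm y (w (τ s)) := fun s => Nat.find_spec (hex s)
  have hτle : ∀ s, a ≤ s → tm y (w (τ s)) ≤ s + R := by
    intro s hs
    rcases Nat.eq_zero_or_pos (τ s) with h0 | h0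
    · rw [h0]
      have := (abs_le.1 hn0).2
      linarith
    · obtain ⟨k, hk⟩ : ∃ k, τ s = k + 1 := ⟨τ s - 1, by omega⟩
      have h1 : ¬ s ≤ tm y (w k) := Nat.find_min (hex s) (by
        have : τ s = Nat.find (hex s) := rfl
        omega)
      rw [hk]
      have h2 := (tm_mono hyU hC k).2
      push Not at h1
      linarith
  have hstep : ∀ k n, tm y (w (k + n)) ≤ tm y (w k) + 2 * n := by
    intro k n
    induction n with
    | zero => simp
    | succ n ih =>
      have := (tm_mono hyU hC (k + n)).2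
      rw [← add_assoc]
      push_cast
      linarith
  refine ⟨w, x, τ, hC.step, hC.ok, fun k => code_no_run hy hC k, ?_, ?_⟩
  · intro s t has hst _
    have hmono : τ s ≤ τ t := Nat.find_min' (hex s) (le_trans hst (hτs t))
    refine ⟨hmono, ?_⟩
    obtain ⟨n, hn⟩ := Nat.exists_eq_add_of_le hmono
    have h1 := hstep (τ s) n
    rw [← hn] at h1
    have h2 := hτs t
    have h3 := hτle s has
    rw [hn]
    push_cast
    have h4 : t - s ≤ R + 2 * n := by linarith
    have hRpos : 0 < R := by linarith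
    have h5 : (t - s) / R ≤ 1 + n := by
      rw [div_le_iff₀ hRpos]
      have : (2 : ℝ) * n ≤ n * R := by
        have : (0 : ℝ) ≤ n := Nat.cast_nonneg n
        nlinarith
      nlinarith
    linarith
  · intro s has _
    have h1 := hnk (τ s)
    have h2 : hd (flow (tm y (w (τ s))) y).1 (flow s y).1 ≤ R := by
      rw [hd_flow hyU, abs_of_nonneg (by linarith [hτs s])]
      linarith [hτle s has]
    have h3 := hd_triangle ((D3.hex.rep_isIso (w (τ s))).hyp _ e2_mem)
      (flow_mem hyU (tm y (w (τ s)))).1 (flow_mem hyU s).1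
    linarith

end D3

end SBA
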