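import Pool.Agent.Lib.MP_709218_gt.D3Norm
import Pool.Agent.Lib.MP_709218_gt.D3Cplx

/-! D3Soft: from finite time domination to `KAnosovOn` (general surface group). -/

namespace SBA

open Matrix Set Filter Topology

namespace D3

/-- finite time domination on the time interval `[a, b]` for the rank one projection `Q` (onto the
most contracted line, along the complementary plane) -/
structure GoodOn {Γ : Subgroup (SpecialLinearGroup (Fin 3) ℝ)}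
    (ρ : Γ →* SpecialLinearGroup (Fin 3) ℝ) (C c r : ℝ) (y : V3 × V3) (a b : ℝ)
    (Q : Matrix (Fin 3) (Fin 3) ℝ) : Prop where
  idem : Q * Q = Q
  tr : Q.trace = 1
  bdd : ∀ s, a ≤ s → s ≤ b → ∀ g : Γ, hd (g.1.1 *ᵥ e2) (flow s y).1 ≤ r →
    ∀ v, ‖((ρ g⁻¹).1 * Q * (ρ g).1) *ᵥ v‖ ≤ C * ‖v‖
  dom : ∀ s t, a ≤ s → s ≤ t → t ≤ b → ∀ g h : Γ,
    hd (g.1.1 *ᵥ e2) (flow s y).1 ≤ r → hd (h.1.1 *ᵥ e2) (flow t y).1 ≤ r → ∀ v w,
    ‖((ρ g⁻¹).1 * (1 - Q)) *ᵥ v‖ * ‖((ρ h⁻¹).1 * Q) *ᵥ w‖ ≤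
      C * Real.exp (-c * (t - s)) *
        (‖((ρ g⁻¹).1 * Q) *ᵥ w‖ * ‖((ρ h⁻¹).1 * (1 - Q)) *ᵥ v‖)

section

variable {Γ : Subgroup (SpecialLinearGroup (Fin 3) ℝ)} {ρ : Γ →* SpecialLinearGroup (Fin 3) ℝ}
  {C c r r' a b : ℝ} {y : V3 × V3} {Q Q' : Matrix (Fin 3) (Fin 3) ℝ}

theorem GoodOn.mono (h : GoodOn ρ C c r y a b Q) {a' b' : ℝ} (ha : a ≤ a') (hb : b' ≤ b) :
    GoodOn ρ C c r y a' b' Q :=
  ⟨h.idem, h.tr, fun s h1 h2 => h.bdd s (ha.trans h1) (h2.trans hb),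
    fun s t h1 h2 h3 => h.dom s t (ha.trans h1) h2 (h3.trans hb)⟩

end

namespace SM

section

variable {Γ : Subgroup (SpecialLinearGroup (Fin 3) ℝ)} {ρ : Γ →* SpecialLinearGroup (Fin 3) ℝ}
  {C c r r' a b : ℝ} {y : V3 × V3} {Q Q' : Matrix (Fin 3) (Fin 3) ℝ}

/-- closedness of domination -/
theorem good_limit {ι : Type*} {l : Filter ι} [l.NeBot] {yn : ι → V3 × V3}
    {Qn : ι → Matrix (Fin 3) (Fin 3) ℝ} (hQ : Tendsto Qn l (𝓝 Q))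
    (hn : ∀ᶠ n in l, GoodOn ρ C c r' (yn n) a b (Qn n))
    (hnear : ∀ s, a ≤ s → s ≤ b → ∀ g : Γ, hd (g.1.1 *ᵥ e2) (flow s y).1 ≤ r →
      ∀ᶠ n in l, hd (g.1.1 *ᵥ e2) (flow s (yn n)).1 ≤ r') :
    GoodOn ρ C c r y a b Q := by
  have hmv : ∀ (A B : Matrix (Fin 3) (Fin 3) ℝ) (v : Fin 3 → ℝ),
      Tendsto (fun n => ‖(A * Qn n * B) *ᵥ v‖) l (𝓝 ‖(A * Q * B) *ᵥ v‖) := by
    intro A B v
    have hc : Continuous fun Q : Matrix (Fin 3) (Fin 3) ℝ => ‖(A * Q * B) *ᵥ v‖ := by fun_prop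
    exact (hc.tendsto Q).comp hQ
  have hmv' : ∀ (A : Matrix (Fin 3) (Fin 3) ℝ) (v : Fin 3 → ℝ),
      Tendsto (fun n => ‖(A * Qn n) *ᵥ v‖) l (𝓝 ‖(A * Q) *ᵥ v‖) := by
    intro A v
    have hc : Continuous fun Q : Matrix (Fin 3) (Fin 3) ℝ => ‖(A * Q) *ᵥ v‖ := by fun_prop
    exact (hc.tendsto Q).comp hQ
  have hmv'' : ∀ (A : Matrix (Fin 3) (Fin 3) ℝ) (v : Fin 3 → ℝ),
      Tendsto (fun n => ‖(A * (1 - Qn n)) *ᵥ v‖) l (𝓝 ‖(A * (1 - Q)) *ᵥ v‖) := by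
    intro A v
    have hc : Continuous fun Q : Matrix (Fin 3) (Fin 3) ℝ => ‖(A * (1 - Q)) *ᵥ v‖ := by fun_prop
    exact (hc.tendsto Q).comp hQ
  refine ⟨?_, ?_, fun s h1 h2 g hg v => ?_, fun s t h1 h2 h3 g h hg hh v w => ?_⟩
  · have hc : Continuous fun Q : Matrix (Fin 3) (Fin 3) ℝ => Q * Q := by fun_prop
    refine tendsto_nhds_unique ((hc.tendsto Q).comp hQ) (hQ.congr' ?_)
    filter_upwards [hn] with n hn
    exact hn.idem.symm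
  · have hc : Continuous fun Q : Matrix (Fin 3) (Fin 3) ℝ => Q.trace := continuous_id.matrix_trace
    refine tendsto_nhds_unique ((hc.tendsto Q).comp hQ) (tendsto_const_nhds.congr' ?_)
    filter_upwards [hn] with n hn
    exact hn.tr.symm
  · refine le_of_tendsto (hmv _ _ v) ?_
    filter_upwards [hn, hnear s h1 h2 g hg] with n hn hn'
    exact hn.bdd s h1 h2 g hn' v
  · refine le_of_tendsto_of_tendsto ((hmv'' _ v).mul (hmv' _ w))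
      (((hmv' _ w).mul (hmv'' _ v)).const_mul _) ?_
    filter_upwards [hn, hnear s h1 (h2.trans h3) g hg, hnear t (h1.trans h2) h3 h hh]
      with n hn hn' hn''
    exact hn.dom s t h1 h2 h3 g h hn' hn'' v w

/-- operator bound for the sup norm -/
theorem exists_mulVec_boundR (A : Matrix (Fin 3) (Fin 3) ℝ) :
    ∃ c : ℝ, 0 ≤ c ∧ ∀ v : Fin 3 → ℝ, ‖A *ᵥ v‖ ≤ c * ‖v‖ := by
  refine ⟨∑ i, ∑ j, ‖A i j‖, by positivity, fun v => ?_⟩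
  rw [pi_norm_le_iff_of_nonneg (by positivity)]
  intro i
  calc ‖(A *ᵥ v) i‖ = ‖∑ j, A i j * v j‖ := rfl
    _ ≤ ∑ j, ‖A i j * v j‖ := norm_sum_le _ _
    _ ≤ ∑ j, ‖A i j‖ * ‖v‖ := by
        refine Finset.sum_le_sum fun j _ => ?_
        rw [norm_mul]
        exact mul_le_mul_of_nonneg_left (norm_le_pi_norm v j) (norm_nonneg _)
    _ = (∑ j, ‖A i j‖) * ‖v‖ := by rw [Finset.sum_mul]
    _ ≤ (∑ i, ∑ j, ‖A i j‖) * ‖v‖ := by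
        refine mul_le_mul_of_nonneg_right ?_ (norm_nonneg _)
        exact Finset.single_le_sum (f := fun i => ∑ j, ‖A i j‖)
          (fun i _ => Finset.sum_nonneg fun j _ => norm_nonneg _) (Finset.mem_univ i)

theorem rho_inv_mul (ρ : Γ →* SpecialLinearGroup (Fin 3) ℝ) (g : Γ) :
    (ρ g⁻¹).1 * (ρ g).1 = 1 := by
  have : (ρ g⁻¹) * (ρ g) = 1 := by rw [← map_mul, inv_mul_cancel, map_one]
  exact congrArg Subtype.val this

theorem rho_mul_inv (ρ : Γ →* SpecialLinearGroup (Fin 3) ℝ) (g : Γ) :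
    (ρ g).1 * (ρ g⁻¹).1 = 1 := by
  have : (ρ g) * (ρ g⁻¹) = 1 := by rw [← map_mul, mul_inv_cancel, map_one]
  exact congrArg Subtype.val this

/-- matrices with bounded entries -/
theorem isCompact_entries (M : ℝ) :
    IsCompact {Q : Matrix (Fin 3) (Fin 3) ℝ | ∀ i j, |Q i j| ≤ M} := by
  have h : IsCompact (Set.pi univ fun _ : Fin 3 => Set.pi univ fun _ : Fin 3 => Icc (-M) M) :=
    isCompact_univ_pi fun _ => isCompact_univ_pi fun _ => isCompact_Icc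
  have h2 : {Q : Fin 3 → Fin 3 → ℝ | ∀ i j, |Q i j| ≤ M} =
      Set.pi univ fun _ : Fin 3 => Set.pi univ fun _ : Fin 3 => Icc (-M) M := by
    ext Q
    simp only [mem_ofPred_eq, Set.mem_pi, mem_univ, forall_const, mem_Icc, abs_le]
  rw [← h2] at h
  exact h

/-- bounds for the projection near the base point -/
theorem entries_bound (ρ : Γ →* SpecialLinearGroup (Fin 3) ℝ) (C : ℝ) (g : Γ) :
    ∃ M : ℝ, ∀ Q : Matrix (Fin 3) (Fin 3) ℝ,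
      (∀ v, ‖((ρ g⁻¹).1 * Q * (ρ g).1) *ᵥ v‖ ≤ C * ‖v‖) → ∀ i j, |Q i j| ≤ M := by
  obtain ⟨b1, hb1, hb1'⟩ := exists_mulVec_boundR (ρ g).1
  obtain ⟨b2, hb2, hb2'⟩ := exists_mulVec_boundR (ρ g⁻¹).1
  refine ⟨b1 * (|C| * b2), fun Q hQ i j => ?_⟩
  have hi := rho_mul_inv ρ g
  generalize (ρ g).1 = A at *
  generalize (ρ g⁻¹).1 = B at *
  have h1 : Q *ᵥ Pi.single j 1 = A *ᵥ ((B * Q * A) *ᵥ (B *ᵥ Pi.single j 1)) := by
    rw [mulVec_mulVec, mulVec_mulVec]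
    congr 1
    calc Q = 1 * Q * 1 := by rw [one_mul, mul_one]
      _ = (A * B) * Q * (A * B) := by rw [hi]
      _ = A * (B * Q * A * B) := by simp only [mul_assoc]
      _ = A * (B * Q * A) * B := by simp only [mul_assoc]
  have h2 : Q i j = (Q *ᵥ Pi.single j 1) i := by
    rw [mulVec_single_one]; rfl
  have h3 : ‖(Pi.single j 1 : Fin 3 → ℝ)‖ = 1 := by
    rw [Pi.norm_single, norm_one]
  rw [h2, ← Real.norm_eq_abs]
  calc ‖(Q *ᵥ Pi.single j 1) i‖ ≤ ‖Q *ᵥ Pi.single j 1‖ := norm_le_pi_norm _ _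
    _ ≤ b1 * (|C| * (b2 * 1)) := by
        rw [h1]
        refine (hb1' _).trans ?_
        gcongr
        refine (hQ _).trans ?_
        refine (mul_le_mul_of_nonneg_right (le_abs_self C) (norm_nonneg _)).trans ?_
        gcongr
        have := hb2' (Pi.single j 1)
        rwa [h3] at this
    _ = _ := by ring

/-- domination for all times -/
def GoodR (ρ : Γ →* SpecialLinearGroup (Fin 3) ℝ) (C c r : ℝ) (y : V3 × V3)
    (Q : Matrix (Fin 3) (Fin 3) ℝ) : Prop := ∀ T : ℝ, 0 < T → GoodOn ρ C c r y (-T) T Q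

theorem GoodR.idem (h : GoodR ρ C c r y Q) : Q * Q = Q := (h 1 one_pos).idem
theorem GoodR.tr (h : GoodR ρ C c r y Q) : Q.trace = 1 := (h 1 one_pos).tr

theorem GoodR.bdd (h : GoodR ρ C c r y Q) (s : ℝ) (g : Γ)
    (hg : hd (g.1.1 *ᵥ e2) (flow s y).1 ≤ r) (v : Fin 3 → ℝ) :
    ‖((ρ g⁻¹).1 * Q * (ρ g).1) *ᵥ v‖ ≤ C * ‖v‖ :=
  (h (|s| + 1) (by positivity)).bdd s (by have := neg_abs_le s; linarith)
    (by have := le_abs_self s; linarith) g hg v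

theorem GoodR.dom (h : GoodR ρ C c r y Q) {s t : ℝ} (hst : s ≤ t) (g k : Γ)
    (hg : hd (g.1.1 *ᵥ e2) (flow s y).1 ≤ r) (hk : hd (k.1.1 *ᵥ e2) (flow t y).1 ≤ r)
    (v w : Fin 3 → ℝ) :
    ‖((ρ g⁻¹).1 * (1 - Q)) *ᵥ v‖ * ‖((ρ k⁻¹).1 * Q) *ᵥ w‖ ≤
      C * Real.exp (-c * (t - s)) *
        (‖((ρ g⁻¹).1 * Q) *ᵥ w‖ * ‖((ρ k⁻¹).1 * (1 - Q)) *ᵥ v‖) :=
  (h (|s| + |t| + 1) (by positivity)).dom s t
    (by have := neg_abs_le s; have := abs_nonneg t; linarith) hst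
    (by have := le_abs_self t; have := abs_nonneg s; linarith) g k hg hk v w

theorem goodR_of (h1 : Q * Q = Q) (h2 : Q.trace = 1)
    (h3 : ∀ (s : ℝ) (g : Γ), hd (g.1.1 *ᵥ e2) (flow s y).1 ≤ r →
      ∀ v, ‖((ρ g⁻¹).1 * Q * (ρ g).1) *ᵥ v‖ ≤ C * ‖v‖)
    (h4 : ∀ (s t : ℝ), s ≤ t → ∀ g k : Γ, hd (g.1.1 *ᵥ e2) (flow s y).1 ≤ r →
      hd (k.1.1 *ᵥ e2) (flow t y).1 ≤ r → ∀ v w,
      ‖((ρ g⁻¹).1 * (1 - Q)) *ᵥ v‖ * ‖((ρ k⁻¹).1 * Q) *ᵥ w‖ ≤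
        C * Real.exp (-c * (t - s)) *
          (‖((ρ g⁻¹).1 * Q) *ᵥ w‖ * ‖((ρ k⁻¹).1 * (1 - Q)) *ᵥ v‖)) :
    GoodR ρ C c r y Q := fun _ _ =>
  ⟨h1, h2, fun s _ _ => h3 s, fun s t _ h _ => h4 s t h⟩

/-- existence on the whole line by compactness -/
theorem exists_goodR (hr : ∀ x ∈ Hyp, ∃ g ∈ Γ, hd (g.1 *ᵥ e2) x ≤ r) (hy : y ∈ UT)
    (hgood : ∀ T : ℝ, 0 < T → ∃ Q, GoodOn ρ C c r y (-T) T Q) : ∃ Q, GoodR ρ C c r y Q := by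
  obtain ⟨g0, hg0, hg0'⟩ := hr _ hy.1
  obtain ⟨M, hM⟩ := entries_bound ρ C ⟨g0, hg0⟩
  choose! Qn hQn using fun n : ℕ => hgood ((n : ℝ) + 1) (by positivity)
  have hin : ∀ n, Qn n ∈ {Q : Matrix (Fin 3) (Fin 3) ℝ | ∀ i j, |Q i j| ≤ M} := by
    intro n
    refine hM _ ((hQn n).bdd 0 (by have : (0:ℝ) ≤ n := Nat.cast_nonneg n; linarith)
      (by positivity) ⟨g0, hg0⟩ ?_)
    rw [flow_zero]; exact hg0'
  have : FirstCountableTopology (Matrix (Fin 3) (Fin 3) ℝ) :=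
    inferInstanceAs (FirstCountableTopology (Fin 3 → Fin 3 → ℝ))
  obtain ⟨Q, -, φ, hφ, hlim⟩ := (isCompact_entries M).tendsto_subseq hin
  refine ⟨Q, fun T hT => ?_⟩
  refine good_limit (yn := fun _ => y) (r' := r) hlim ?_ (fun s _ _ g hg => Eventually.of_forall fun _ => hg)
  have h1 : ∀ᶠ n : ℕ in atTop, T ≤ (φ n : ℝ) + 1 := by
    have h2 : Tendsto (fun n => ((φ n : ℕ) : ℝ) + 1) atTop atTop :=
      tendsto_atTop_add_const_right _ _ (tendsto_natCast_atTop_atTop.comp hφ.tendsto_atTop)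
    exact h2.eventually_ge_atTop T
  filter_upwards [h1] with n hn
  exact (hQn (φ n)).mono (by linarith) hn


/-- a real idempotent of trace zero vanishes -/
theorem idem_trace_zero {M : Matrix (Fin 3) (Fin 3) ℝ} (h : M * M = M) (ht : M.trace = 0) :
    M = 0 := by
  have h1 : IsIdempotentElem (toLin' M) := by
    change (toLin' M).comp (toLin' M) = toLin' M
    rw [← toLin'_mul, h]
  have h2 : LinearMap.trace ℝ (Fin 3 → ℝ) (toLin' M) = 0 := by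
    rw [Matrix.trace_toLin'_eq, ht]
  have h3 := LinearMap.IsIdempotentElem.eq_zero_of_trace_eq_zero h1 h2
  exact (LinearEquiv.map_eq_zero_iff _).1 h3

theorem idem_left (h : Q * Q = Q) (h' : Q' * Q' = Q') (ht : Q.trace = 1) (ht' : Q'.trace = 1)
    (h0 : (1 - Q) * Q' = 0) : (1 - Q') * Q = 0 := by
  have e : Q * Q' = Q' := by
    have : (1 - Q) * Q' = Q' - Q * Q' := by noncomm_ring
    rw [this, sub_eq_zero] at h0
    exact h0.symm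
  apply idem_trace_zero
  · calc (1 - Q') * Q * ((1 - Q') * Q) = Q * Q - Q * Q' * Q - Q' * (Q * Q) + Q' * (Q * Q') * Q := by
          noncomm_ring
      _ = (1 - Q') * Q := by rw [h, e, h']; noncomm_ring
  · have e1 : (1 - Q') * Q = Q - Q' * Q := by noncomm_ring
    rw [e1, trace_sub, trace_mul_comm, e, ht, ht', sub_self]

theorem idem_right (h : Q * Q = Q) (h' : Q' * Q' = Q') (ht : Q.trace = 1) (ht' : Q'.trace = 1)
    (h0 : Q * (1 - Q') = 0) : Q' * (1 - Q) = 0 := by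
  have e : Q * Q' = Q := by
    have : Q * (1 - Q') = Q - Q * Q' := by noncomm_ring
    rw [this, sub_eq_zero] at h0
    exact h0.symm
  apply idem_trace_zero
  · calc Q' * (1 - Q) * (Q' * (1 - Q)) =
        Q' * Q' - (Q' * Q') * Q - Q' * (Q * Q') + Q' * (Q * Q') * Q := by noncomm_ring
      _ = Q' - Q' * Q - Q' * Q + Q' * (Q * Q) := by rw [h', e]; noncomm_ring
      _ = Q' * (1 - Q) := by rw [h]; noncomm_ring
  · have e1 : Q' * (1 - Q) = Q' - Q' * Q := by noncomm_ring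
    rw [e1, trace_sub, trace_mul_comm, e, ht, ht', sub_self]

theorem rho_pos (ρ : Γ →* SpecialLinearGroup (Fin 3) ℝ) (g : Γ) {v : Fin 3 → ℝ} (hv : v ≠ 0) :
    0 < ‖(ρ g⁻¹).1 *ᵥ v‖ := by
  rw [norm_pos_iff]
  intro h
  apply hv
  rw [← one_mulVec v, ← rho_mul_inv ρ g, ← mulVec_mulVec, h, mulVec_zero]

theorem ne_zero_of_mulVec {A : Matrix (Fin 3) (Fin 3) ℝ} {v : Fin 3 → ℝ} (h : A *ᵥ v ≠ 0) :
    v ≠ 0 := by
  rintro rfl
  exact h (mulVec_zero _)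

theorem GoodR.bdd' (h : GoodR ρ C c r y Q) (s : ℝ) (g : Γ)
    (hg : hd (g.1.1 *ᵥ e2) (flow s y).1 ≤ r) (v : Fin 3 → ℝ) :
    ‖((ρ g⁻¹).1 * Q) *ᵥ v‖ ≤ C * ‖(ρ g⁻¹).1 *ᵥ v‖ := by
  have h1 := h.bdd s g hg ((ρ g⁻¹).1 *ᵥ v)
  rwa [mulVec_mulVec, mul_assoc, rho_mul_inv, mul_one] at h1

theorem GoodR.bdd'' (h : GoodR ρ C c r y Q) (s : ℝ) (g : Γ)
    (hg : hd (g.1.1 *ᵥ e2) (flow s y).1 ≤ r) (v : Fin 3 → ℝ) :
    ‖((ρ g⁻¹).1 * (1 - Q)) *ᵥ v‖ ≤ (1 + C) * ‖(ρ g⁻¹).1 *ᵥ v‖ := by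
  have h1 := h.bdd' s g hg v
  have e : ((ρ g⁻¹).1 * (1 - Q)) *ᵥ v = (ρ g⁻¹).1 *ᵥ v - ((ρ g⁻¹).1 * Q) *ᵥ v := by
    rw [mul_sub, mul_one, sub_mulVec]
  rw [e]
  refine (norm_sub_le _ _).trans ?_
  linarith

/-- vectors of the image of `Q` are eventually smaller than the vectors outside -/
theorem GoodR.fwd (hr : ∀ x ∈ Hyp, ∃ g ∈ Γ, hd (g.1 *ᵥ e2) x ≤ r) (hy : y ∈ UT) (hc : 0 < c)
    (h : GoodR ρ C c r y Q) {w u : Fin 3 → ℝ} (hw : Q *ᵥ w = w) (hu : (1 - Q) *ᵥ u ≠ 0) :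
    ∀ᶠ t : ℝ in atTop, ∀ k : Γ, hd (k.1.1 *ᵥ e2) (flow t y).1 ≤ r →
      ‖(ρ k⁻¹).1 *ᵥ w‖ ≤ 1 / 2 * ‖(ρ k⁻¹).1 *ᵥ u‖ := by
  obtain ⟨g0, hg0, hg0'⟩ := hr _ hy.1
  set g : Γ := ⟨g0, hg0⟩
  have hg : hd (g.1.1 *ᵥ e2) (flow 0 y).1 ≤ r := by rw [flow_zero]; exact hg0'
  have hpos : 0 < ‖((ρ g⁻¹).1 * (1 - Q)) *ᵥ u‖ := by
    rw [← mulVec_mulVec]; exact rho_pos ρ g hu
  set a := ‖((ρ g⁻¹).1 * (1 - Q)) *ᵥ u‖ with ha
  set b := ‖((ρ g⁻¹).1 * Q) *ᵥ w‖ with hb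
  have hlim : Tendsto (fun t : ℝ => C * Real.exp (-c * (t - 0)) * (b * (1 + C))) atTop (𝓝 0) := by
    have h1 : Tendsto (fun t : ℝ => Real.exp (-c * (t - 0))) atTop (𝓝 0) := by
      apply Real.tendsto_exp_atBot.comp
      simp only [sub_zero]
      exact tendsto_id.const_mul_atTop_of_neg (by linarith)
    simpa using (h1.const_mul C).mul_const (b * (1 + C))
  have hev : ∀ᶠ t : ℝ in atTop, C * Real.exp (-c * (t - 0)) * (b * (1 + C)) < 1 / 2 * a :=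
    hlim.eventually_lt_const (by positivity)
  filter_upwards [hev, eventually_ge_atTop 0] with t h1 h2 k hk
  have h3 := h.dom h2 g k hg hk u w
  have h4 := h.bdd'' t k hk u
  rw [← mulVec_mulVec w _ Q, hw] at h3
  have hC : 0 ≤ C * Real.exp (-c * (t - 0)) * b ∨ C < 0 := by
    rcases lt_or_ge C 0 with hC | hC
    · exact Or.inr hC
    · left; positivity
  rcases hC with hC | hC
  · have h5 : a * ‖(ρ k⁻¹).1 *ᵥ w‖ ≤ 1 / 2 * a * ‖(ρ k⁻¹).1 *ᵥ u‖ := by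
      calc a * ‖(ρ k⁻¹).1 *ᵥ w‖ ≤ C * Real.exp (-c * (t - 0)) * (b * ‖((ρ k⁻¹).1 * (1 - Q)) *ᵥ u‖) := h3
        _ = C * Real.exp (-c * (t - 0)) * b * ‖((ρ k⁻¹).1 * (1 - Q)) *ᵥ u‖ := by ring
        _ ≤ C * Real.exp (-c * (t - 0)) * b * ((1 + C) * ‖(ρ k⁻¹).1 *ᵥ u‖) :=
            mul_le_mul_of_nonneg_left h4 hC
        _ = (C * Real.exp (-c * (t - 0)) * (b * (1 + C))) * ‖(ρ k⁻¹).1 *ᵥ u‖ := by ring
        _ ≤ 1 / 2 * a * ‖(ρ k⁻¹).1 *ᵥ u‖ := mul_le_mul_of_nonneg_right h1.le (norm_nonneg _)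
    have h6 : a * ‖(ρ k⁻¹).1 *ᵥ w‖ ≤ a * (1 / 2 * ‖(ρ k⁻¹).1 *ᵥ u‖) := by linarith
    exact le_of_mul_le_mul_left h6 hpos
  · have h5 := h.bdd' t k hk w
    rw [← mulVec_mulVec w _ Q, hw] at h5
    have h6 : C * ‖(ρ k⁻¹).1 *ᵥ w‖ ≤ 0 := mul_nonpos_of_nonpos_of_nonneg hC.le (norm_nonneg _)
    have h7 := norm_nonneg ((ρ k⁻¹).1 *ᵥ u)
    linarith

/-- vectors of the kernel of `Q` are eventually smaller in the past -/
theorem GoodR.bwd (hr : ∀ x ∈ Hyp, ∃ g ∈ Γ, hd (g.1 *ᵥ e2) x ≤ r) (hy : y ∈ UT) (hc : 0 < c)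
    (h : GoodR ρ C c r y Q) {v u : Fin 3 → ℝ} (hv : (1 - Q) *ᵥ v = v) (hu : Q *ᵥ u ≠ 0) :
    ∀ᶠ s : ℝ in atBot, ∀ k : Γ, hd (k.1.1 *ᵥ e2) (flow s y).1 ≤ r →
      ‖(ρ k⁻¹).1 *ᵥ v‖ ≤ 1 / 2 * ‖(ρ k⁻¹).1 *ᵥ u‖ := by
  obtain ⟨g0, hg0, hg0'⟩ := hr _ hy.1
  set g : Γ := ⟨g0, hg0⟩
  have hg : hd (g.1.1 *ᵥ e2) (flow 0 y).1 ≤ r := by rw [flow_zero]; exact hg0'
  have hpos : 0 < ‖((ρ g⁻¹).1 * Q) *ᵥ u‖ := by
    rw [← mulVec_mulVec]; exact rho_pos ρ g hu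
  set a := ‖((ρ g⁻¹).1 * Q) *ᵥ u‖ with ha
  set b := ‖((ρ g⁻¹).1 * (1 - Q)) *ᵥ v‖ with hb
  have hlim : Tendsto (fun s : ℝ => C * Real.exp (-c * (0 - s)) * (b * C)) atBot (𝓝 0) := by
    have h1 : Tendsto (fun s : ℝ => Real.exp (-c * (0 - s))) atBot (𝓝 0) := by
      apply Real.tendsto_exp_atBot.comp
      have e : (fun s : ℝ => -c * (0 - s)) = fun s => c * s := by funext s; ring
      rw [e]
      exact tendsto_id.const_mul_atBot hc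
    simpa using (h1.const_mul C).mul_const (b * C)
  have hev : ∀ᶠ s : ℝ in atBot, C * Real.exp (-c * (0 - s)) * (b * C) < 1 / 2 * a :=
    hlim.eventually_lt_const (by positivity)
  filter_upwards [hev, eventually_le_atBot 0] with s h1 h2 k hk
  have h3 := h.dom h2 k g hk hg v u
  have h4 := h.bdd' s k hk u
  rw [← mulVec_mulVec v _ (1 - Q), hv] at h3
  have hC : 0 ≤ C := by
    rcases lt_or_ge C 0 with hC | hC
    · exfalso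
      have h5 := h.bdd' 0 g hg u
      have h6 : C * ‖(ρ g⁻¹).1 *ᵥ u‖ ≤ 0 := mul_nonpos_of_nonpos_of_nonneg hC.le (norm_nonneg _)
      linarith
    · exact hC
  have h5 : ‖(ρ k⁻¹).1 *ᵥ v‖ * a ≤ 1 / 2 * ‖(ρ k⁻¹).1 *ᵥ u‖ * a := by
    calc ‖(ρ k⁻¹).1 *ᵥ v‖ * a ≤ C * Real.exp (-c * (0 - s)) * (‖((ρ k⁻¹).1 * Q) *ᵥ u‖ * b) := h3
      _ = C * Real.exp (-c * (0 - s)) * b * ‖((ρ k⁻¹).1 * Q) *ᵥ u‖ := by ring
      _ ≤ C * Real.exp (-c * (0 - s)) * b * (C * ‖(ρ k⁻¹).1 *ᵥ u‖) :=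
          mul_le_mul_of_nonneg_left h4 (by positivity)
      _ = (C * Real.exp (-c * (0 - s)) * (b * C)) * ‖(ρ k⁻¹).1 *ᵥ u‖ := by ring
      _ ≤ 1 / 2 * a * ‖(ρ k⁻¹).1 *ᵥ u‖ := mul_le_mul_of_nonneg_right h1.le (norm_nonneg _)
      _ = _ := by ring
  exact le_of_mul_le_mul_right h5 hpos

/-- uniqueness of the dominated splitting -/
theorem goodR_unique (hr : ∀ x ∈ Hyp, ∃ g ∈ Γ, hd (g.1 *ᵥ e2) x ≤ r) (hy : y ∈ UT) (hc : 0 < c)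
    (h : GoodR ρ C c r y Q) (h' : GoodR ρ C c r y Q') : Q = Q' := by
  have key : ∀ (t : ℝ) (w u : Fin 3 → ℝ), w ≠ 0 →
      (∀ k : Γ, hd (k.1.1 *ᵥ e2) (flow t y).1 ≤ r →
        ‖(ρ k⁻¹).1 *ᵥ w‖ ≤ 1 / 2 * ‖(ρ k⁻¹).1 *ᵥ u‖) →
      (∀ k : Γ, hd (k.1.1 *ᵥ e2) (flow t y).1 ≤ r →
        ‖(ρ k⁻¹).1 *ᵥ u‖ ≤ 1 / 2 * ‖(ρ k⁻¹).1 *ᵥ w‖) → False := by
    intro t w u hw h1 h2
    obtain ⟨k0, hk0, hk0'⟩ := hr _ (flow_mem hy t).1
    have h3 := h1 ⟨k0, hk0⟩ hk0'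
    have h4 := h2 ⟨k0, hk0⟩ hk0'
    have h5 := rho_pos ρ ⟨k0, hk0⟩ hw
    linarith
  have clA : (1 - Q') * Q = 0 := by
    by_contra hne
    have hne' : (1 - Q) * Q' ≠ 0 := fun h0 =>
      hne (idem_left h.idem h'.idem h.tr h'.tr h0)
    obtain ⟨w, hw⟩ : ∃ w : Fin 3 → ℝ, ((1 - Q') * Q) *ᵥ w ≠ 0 := by
      by_contra hcon
      push Not at hcon
      exact hne (ext_of_mulVec_single fun i => by rw [hcon, zero_mulVec])
    obtain ⟨w', hw'⟩ : ∃ w : Fin 3 → ℝ, ((1 - Q) * Q') *ᵥ w ≠ 0 := by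
      by_contra hcon
      push Not at hcon
      exact hne' (ext_of_mulVec_single fun i => by rw [hcon, zero_mulVec])
    rw [← mulVec_mulVec] at hw hw'
    have e1 : Q *ᵥ (Q *ᵥ w) = Q *ᵥ w := by rw [mulVec_mulVec, h.idem]
    have e2 : Q' *ᵥ (Q' *ᵥ w') = Q' *ᵥ w' := by rw [mulVec_mulVec, h'.idem]
    obtain ⟨t, h1, h2⟩ := ((h.fwd hr hy hc e1 hw').and (h'.fwd hr hy hc e2 hw)).exists
    exact key t _ _ (ne_zero_of_mulVec hw) h1 h2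
  have clB : Q' * (1 - Q) = 0 := by
    by_contra hne
    have hne' : Q * (1 - Q') ≠ 0 := fun h0 =>
      hne (idem_right h.idem h'.idem h.tr h'.tr h0)
    obtain ⟨w, hw⟩ : ∃ w : Fin 3 → ℝ, (Q' * (1 - Q)) *ᵥ w ≠ 0 := by
      by_contra hcon
      push Not at hcon
      exact hne (ext_of_mulVec_single fun i => by rw [hcon, zero_mulVec])
    obtain ⟨w', hw'⟩ : ∃ w : Fin 3 → ℝ, (Q * (1 - Q')) *ᵥ w ≠ 0 := by
      by_contra hcon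
      push Not at hcon
      exact hne' (ext_of_mulVec_single fun i => by rw [hcon, zero_mulVec])
    rw [← mulVec_mulVec] at hw hw'
    have i1 : (1 - Q) * (1 - Q) = 1 - Q := by
      calc (1 - Q) * (1 - Q) = 1 - Q - Q + Q * Q := by noncomm_ring
        _ = 1 - Q := by rw [h.idem]; noncomm_ring
    have i2 : (1 - Q') * (1 - Q') = 1 - Q' := by
      calc (1 - Q') * (1 - Q') = 1 - Q' - Q' + Q' * Q' := by noncomm_ring
        _ = 1 - Q' := by rw [h'.idem]; noncomm_ring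
    have e1 : (1 - Q) *ᵥ ((1 - Q) *ᵥ w) = (1 - Q) *ᵥ w := by rw [mulVec_mulVec, i1]
    have e2 : (1 - Q') *ᵥ ((1 - Q') *ᵥ w') = (1 - Q') *ᵥ w' := by rw [mulVec_mulVec, i2]
    obtain ⟨t, h1, h2⟩ := ((h.bwd hr hy hc e1 hw').and (h'.bwd hr hy hc e2 hw)).exists
    exact key t _ _ (ne_zero_of_mulVec hw) h1 h2
  have e1 : (1 - Q') * Q = Q - Q' * Q := by noncomm_ring
  have e2 : Q' * (1 - Q) = Q' - Q' * Q := by noncomm_ring
  rw [e1, sub_eq_zero] at clA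
  rw [e2, sub_eq_zero] at clB
  rw [clA, ← clB]

/-- transport along the flow -/
theorem GoodR.flow (h : GoodR ρ C c r y Q) (τ : ℝ) : GoodR ρ C c r (flow τ y) Q := by
  refine goodR_of h.idem h.tr (fun s g hg v => ?_) (fun s t hst g k hg hk v w => ?_)
  · rw [← flow_add] at hg
    exact h.bdd _ g hg v
  · rw [← flow_add] at hg hk
    have h1 := h.dom (by linarith) g k hg hk v w
    rwa [add_sub_add_right_eq_sub] at h1

/-- transport by a group element -/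
theorem GoodR.mact (hΓ : IsSurfaceGroup Γ) (h : GoodR ρ C c r y Q) (γ : Γ) :
    GoodR ρ C c r (mact γ.1 y) ((ρ γ).1 * Q * (ρ γ⁻¹).1) := by
  have hnear : ∀ (s : ℝ) (g : Γ), hd (g.1.1 *ᵥ e2) (SBA.flow s (SBA.mact γ.1 y)).1 ≤ r →
      hd ((γ⁻¹ * g).1.1 *ᵥ e2) (SBA.flow s y).1 ≤ r := by
    intro s g hg
    rw [← mact_flow] at hg
    have h1 := hd_mulVec hΓ γ ((γ⁻¹ * g).1.1 *ᵥ e2) (SBA.flow s y).1
    have h2 : γ.1.1 *ᵥ ((γ⁻¹ * g).1.1 *ᵥ e2) = g.1.1 *ᵥ e2 := by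
      rw [mulVec_mulVec]
      have : γ.1.1 * (γ⁻¹ * g).1.1 = g.1.1 := congrArg (fun k : Γ => k.1.1) (mul_inv_cancel_left γ g)
      rw [this]
    rw [h2] at h1
    rw [← h1]
    exact hg
  have hinv : ∀ g : Γ, (ρ (γ⁻¹ * g)⁻¹).1 = (ρ g⁻¹).1 * (ρ γ).1 := by
    intro g
    have : ρ (γ⁻¹ * g)⁻¹ = ρ g⁻¹ * ρ γ := by rw [← map_mul]; congr 1; group
    rw [this]; rfl
  have hm : ∀ g : Γ, (ρ (γ⁻¹ * g)).1 = (ρ γ⁻¹).1 * (ρ g).1 := by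
    intro g; rw [map_mul]; rfl
  have k1 := rho_inv_mul ρ γ
  have k2 := rho_mul_inv ρ γ
  have e1 : ∀ (g : Γ) (v : Fin 3 → ℝ), ((ρ g⁻¹).1 * ((ρ γ).1 * Q * (ρ γ⁻¹).1)) *ᵥ v =
      ((ρ (γ⁻¹ * g)⁻¹).1 * Q) *ᵥ ((ρ γ⁻¹).1 *ᵥ v) := by
    intro g v
    rw [hinv, mulVec_mulVec]
    simp only [mul_assoc]
  have e2 : ∀ (g : Γ) (v : Fin 3 → ℝ), ((ρ g⁻¹).1 * (1 - (ρ γ).1 * Q * (ρ γ⁻¹).1)) *ᵥ v =
      ((ρ (γ⁻¹ * g)⁻¹).1 * (1 - Q)) *ᵥ ((ρ γ⁻¹).1 *ᵥ v) := by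
    intro g v
    rw [hinv, mulVec_mulVec]
    congr 1
    have : (1 : Matrix (Fin 3) (Fin 3) ℝ) - (ρ γ).1 * Q * (ρ γ⁻¹).1 =
        (ρ γ).1 * (1 - Q) * (ρ γ⁻¹).1 := by
      calc (1 : Matrix (Fin 3) (Fin 3) ℝ) - (ρ γ).1 * Q * (ρ γ⁻¹).1 =
          (ρ γ).1 * (ρ γ⁻¹).1 - (ρ γ).1 * Q * (ρ γ⁻¹).1 := by rw [k2]
        _ = _ := by noncomm_ring
    rw [this]
    simp only [mul_assoc]
  refine goodR_of ?_ ?_ (fun s g hg v => ?_) (fun s t hst g k hg hk v w => ?_)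
  · calc (ρ γ).1 * Q * (ρ γ⁻¹).1 * ((ρ γ).1 * Q * (ρ γ⁻¹).1) =
        (ρ γ).1 * Q * ((ρ γ⁻¹).1 * (ρ γ).1) * Q * (ρ γ⁻¹).1 := by simp only [mul_assoc]
      _ = (ρ γ).1 * (Q * Q) * (ρ γ⁻¹).1 := by rw [k1, mul_one]; simp only [mul_assoc]
      _ = _ := by rw [h.idem]
  · rw [trace_mul_comm, ← mul_assoc, k1, one_mul, h.tr]
  · have h1 := h.bdd s _ (hnear s g hg) v
    rw [hinv, hm] at h1
    have e3 : (ρ g⁻¹).1 * ((ρ γ).1 * Q * (ρ γ⁻¹).1) * (ρ g).1 =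
        (ρ g⁻¹).1 * (ρ γ).1 * Q * ((ρ γ⁻¹).1 * (ρ g).1) := by simp only [mul_assoc]
    rw [e3]
    exact h1
  · rw [e1, e1, e2, e2]
    exact h.dom hst _ _ (hnear s g hg) (hnear t k hk) _ _


theorem GoodR.radius (h : GoodR ρ C c r' y Q) (hrr : r ≤ r') : GoodR ρ C c r y Q :=
  goodR_of h.idem h.tr (fun s g hg => h.bdd s g (hg.trans hrr))
    (fun _ _ hst g k hg hk => h.dom hst g k (hg.trans hrr) (hk.trans hrr))

/-- the dominated splitting as a function on `Y` -/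
theorem exists_Qf (hΓ : IsSurfaceGroup Γ) {Y : Set (V3 × V3)} (hY : Y ⊆ UT)
    (hYf : ∀ y ∈ Y, ∀ t : ℝ, flow t y ∈ Y) (hYg : ∀ y ∈ Y, ∀ g ∈ Γ, mact g y ∈ Y)
    (hr : ∀ x ∈ Hyp, ∃ g ∈ Γ, hd (g.1 *ᵥ e2) x ≤ r) (hc : 0 < c)
    (hgood : ∀ y ∈ Y, ∀ T : ℝ, 0 < T → ∃ Q, GoodOn ρ C c (r + 1) y (-T) T Q) :
    ∃ Qf : V3 × V3 → Matrix (Fin 3) (Fin 3) ℝ, (∀ y ∈ Y, GoodR ρ C c r y (Qf y)) ∧
      (∀ y ∈ Y, ∀ t : ℝ, Qf (flow t y) = Qf y) ∧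
      (∀ y ∈ Y, ∀ γ : Γ, Qf (mact γ.1 y) = (ρ γ).1 * Qf y * (ρ γ⁻¹).1) ∧
      ContinuousOn Qf Y := by
  have hr' : ∀ x ∈ Hyp, ∃ g ∈ Γ, hd (g.1 *ᵥ e2) x ≤ r + 1 := by
    intro x hx
    obtain ⟨g, hg, h⟩ := hr x hx
    exact ⟨g, hg, by linarith⟩
  have hex : ∀ y ∈ Y, ∃ Q, GoodR ρ C c (r + 1) y Q := fun y hy =>
    exists_goodR hr' (hY hy) (hgood y hy)
  choose! Qf hQf using hex
  have hQr : ∀ y ∈ Y, GoodR ρ C c r y (Qf y) := fun y hy => (hQf y hy).radius (by linarith)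
  have uniq : ∀ y ∈ Y, ∀ Q, GoodR ρ C c r y Q → Q = Qf y := fun y hy Q h =>
    goodR_unique hr (hY hy) hc h (hQr y hy)
  refine ⟨Qf, hQr, fun y hy t => ?_, fun y hy γ => ?_, fun y0 hy0 => ?_⟩
  · exact (uniq _ (hYf y hy t) _ ((hQr y hy).flow t)).symm
  · exact (uniq _ (hYg y hy γ.1 γ.2) _ ((hQr y hy).mact hΓ γ)).symm
  · refine tendsto_of_subseq_tendsto fun xs hxs => ?_
    have hxsY : ∀ᶠ n in atTop, xs n ∈ Y := (tendsto_nhdsWithin_iff.1 hxs).2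
    have near : ∀ (s : ℝ) (g : Γ), hd (g.1.1 *ᵥ e2) (flow s y0).1 ≤ r →
        ∀ᶠ n in atTop, hd (g.1.1 *ᵥ e2) (flow s (xs n)).1 ≤ r + 1 := by
      intro s g hg
      have hcf : Continuous fun y : V3 × V3 => (flow s y).1 := by
        unfold flow; fun_prop
      have h1 : ContinuousOn (fun y : V3 × V3 => hd (g.1.1 *ᵥ e2) (flow s y).1) Y := by
        refine continuousOn_hd.comp (g := fun p : V3 × V3 => hd p.1 p.2)
          (f := fun y : V3 × V3 => (g.1.1 *ᵥ e2, (flow s y).1)) ?_ ?_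
        · exact (continuous_const.prodMk hcf).continuousOn
        · intro y hy
          exact ⟨hΓ.maps_hyp _ g.2 _ e2_mem, (flow_mem (hY hy) s).1⟩
      have h2 := (h1 y0 hy0).tendsto.comp hxs
      filter_upwards [h2.eventually_lt_const (show _ < r + 1 by linarith)] with n hn
      exact hn.le
    obtain ⟨g0, hg0, hg0'⟩ := hr _ (hY hy0).1
    obtain ⟨M, hM⟩ := entries_bound ρ C ⟨g0, hg0⟩
    have hin : ∀ᶠ n in atTop, Qf (xs n) ∈ {Q : Matrix (Fin 3) (Fin 3) ℝ | ∀ i j, |Q i j| ≤ M} := by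
      filter_upwards [hxsY, near 0 ⟨g0, hg0⟩ (by rw [flow_zero]; exact hg0')] with n h1 h2
      exact hM _ fun v => (hQf _ h1).bdd 0 ⟨g0, hg0⟩ h2 v
    have : FirstCountableTopology (Matrix (Fin 3) (Fin 3) ℝ) :=
      inferInstanceAs (FirstCountableTopology (Fin 3 → Fin 3 → ℝ))
    obtain ⟨Q, -, φ, hφ, hlim⟩ := (isCompact_entries M).tendsto_subseq' hin.frequently
    refine ⟨φ, ?_⟩
    have hg : GoodR ρ C c r y0 Q := by
      intro T hT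
      refine good_limit (yn := fun n => xs (φ n)) (r' := r + 1) hlim ?_
        (fun s _ _ g hg => hφ.tendsto_atTop.eventually (near s g hg))
      filter_upwards [hφ.tendsto_atTop.eventually hxsY] with n hn
      exact hQf _ hn T hT
    rw [← uniq y0 hy0 Q hg]
    exact hlim

end

/-- complexification of a real matrix -/
noncomputable def cm (A : Matrix (Fin 3) (Fin 3) ℝ) : Matrix (Fin 3) (Fin 3) ℂ :=
  A.map (fun x : ℝ => (x : ℂ))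

theorem cm_eq (A : Matrix (Fin 3) (Fin 3) ℝ) : cm A = Complex.ofRealHom.mapMatrix A := rfl

theorem cm_mul (A B : Matrix (Fin 3) (Fin 3) ℝ) : cm (A * B) = cm A * cm B := by
  rw [cm_eq, cm_eq, cm_eq, map_mul]

theorem cm_one : cm 1 = 1 := by rw [cm_eq, map_one]

theorem cm_sub (A B : Matrix (Fin 3) (Fin 3) ℝ) : cm (A - B) = cm A - cm B := by
  rw [cm_eq, cm_eq, cm_eq, map_sub]

theorem cm_trace (A : Matrix (Fin 3) (Fin 3) ℝ) : (cm A).trace = ((A.trace : ℝ) : ℂ) := by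
  simp [cm, trace, Complex.ofReal_sum]

theorem cm_continuous : Continuous cm := by
  unfold cm
  exact continuous_id.matrix_map Complex.continuous_ofReal

theorem cm_mulVec (A : Matrix (Fin 3) (Fin 3) ℝ) (v : Fin 3 → ℂ) (i : Fin 3) :
    (cm A *ᵥ v) i = ⟨(A *ᵥ fun j => (v j).re) i, (A *ᵥ fun j => (v j).im) i⟩ := by
  apply Complex.ext
  · simp [cm, mulVec, dotProduct, Complex.re_sum]
  · simp [cm, mulVec, dotProduct, Complex.im_sum]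

theorem norm_re_le (A : Matrix (Fin 3) (Fin 3) ℝ) (v : Fin 3 → ℂ) :
    ‖A *ᵥ fun j => (v j).re‖ ≤ ‖cm A *ᵥ v‖ := by
  rw [pi_norm_le_iff_of_nonneg (norm_nonneg _)]
  intro i
  refine le_trans ?_ (norm_le_pi_norm _ i)
  rw [cm_mulVec, Real.norm_eq_abs]
  exact Complex.abs_re_le_norm ⟨_, _⟩

theorem norm_im_le (A : Matrix (Fin 3) (Fin 3) ℝ) (v : Fin 3 → ℂ) :
    ‖A *ᵥ fun j => (v j).im‖ ≤ ‖cm A *ᵥ v‖ := by
  rw [pi_norm_le_iff_of_nonneg (norm_nonneg _)]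
  intro i
  refine le_trans ?_ (norm_le_pi_norm _ i)
  rw [cm_mulVec, Real.norm_eq_abs]
  exact Complex.abs_im_le_norm ⟨_, _⟩

theorem norm_le_add (A : Matrix (Fin 3) (Fin 3) ℝ) (v : Fin 3 → ℂ) :
    ‖cm A *ᵥ v‖ ≤ ‖A *ᵥ fun j => (v j).re‖ + ‖A *ᵥ fun j => (v j).im‖ := by
  rw [pi_norm_le_iff_of_nonneg (by positivity)]
  intro i
  rw [cm_mulVec]
  refine (Complex.norm_le_abs_re_add_abs_im _).trans ?_
  exact add_le_add (norm_le_pi_norm (A *ᵥ fun j => (v j).re) i)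
    (norm_le_pi_norm (A *ᵥ fun j => (v j).im) i)

/-- product inequalities pass to complex vectors with a factor four -/
theorem cm_dom {M1 M2 M3 M4 : Matrix (Fin 3) (Fin 3) ℝ} {K : ℝ} (hK : 0 ≤ K)
    (h : ∀ v w : Fin 3 → ℝ, ‖M1 *ᵥ v‖ * ‖M2 *ᵥ w‖ ≤ K * (‖M3 *ᵥ w‖ * ‖M4 *ᵥ v‖))
    (v w : Fin 3 → ℂ) :
    ‖cm M1 *ᵥ v‖ * ‖cm M2 *ᵥ w‖ ≤ 4 * K * (‖cm M3 *ᵥ w‖ * ‖cm M4 *ᵥ v‖) := by
  have key : ∀ a b : Fin 3 → ℝ, ‖M3 *ᵥ b‖ ≤ ‖cm M3 *ᵥ w‖ → ‖M4 *ᵥ a‖ ≤ ‖cm M4 *ᵥ v‖ →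
      ‖M1 *ᵥ a‖ * ‖M2 *ᵥ b‖ ≤ K * (‖cm M3 *ᵥ w‖ * ‖cm M4 *ᵥ v‖) := by
    intro a b h1 h2
    refine (h a b).trans ?_
    gcongr
  have h11 := key _ _ (norm_re_le M3 w) (norm_re_le M4 v)
  have h12 := key _ _ (norm_im_le M3 w) (norm_re_le M4 v)
  have h21 := key _ _ (norm_re_le M3 w) (norm_im_le M4 v)
  have h22 := key _ _ (norm_im_le M3 w) (norm_im_le M4 v)
  calc ‖cm M1 *ᵥ v‖ * ‖cm M2 *ᵥ w‖ ≤
      (‖M1 *ᵥ fun j => (v j).re‖ + ‖M1 *ᵥ fun j => (v j).im‖) *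
        (‖M2 *ᵥ fun j => (w j).re‖ + ‖M2 *ᵥ fun j => (w j).im‖) :=
        mul_le_mul (norm_le_add M1 v) (norm_le_add M2 w) (norm_nonneg _) (by positivity)
    _ ≤ _ := by nlinarith

/-- the rank of an idempotent is its trace -/
theorem rank_eq {P : Matrix (Fin 3) (Fin 3) ℂ} (h : P * P = P) {k : ℕ} (ht : P.trace = k) :
    P.rank = k := by
  have h1 : IsIdempotentElem (toLin' P) := by
    change (toLin' P).comp (toLin' P) = toLin' P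
    rw [← toLin'_mul, h]
  have h2 := (LinearMap.IsIdempotentElem.isProj_range (toLin' P) h1).trace
  rw [Matrix.trace_toLin'_eq, ht] at h2
  have h3 : P.rank = Module.finrank ℂ (LinearMap.range (toLin' P)) := by
    rw [Matrix.rank, toLin'_apply']
  rw [h3]
  exact_mod_cast h2.symm

end SM

open SM in
theorem kAnosov_of_goodOn {Γ : Subgroup (SpecialLinearGroup (Fin 3) ℝ)} (hΓ : IsSurfaceGroup Γ)
    (ρ : Γ →* SpecialLinearGroup (Fin 3) ℝ) (Y : Set (V3 × V3)) (hY : Y ⊆ UT)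
    (hYf : ∀ y ∈ Y, ∀ t : ℝ, flow t y ∈ Y) (hYg : ∀ y ∈ Y, ∀ g ∈ Γ, mact g y ∈ Y)
    (hYr : ∀ y ∈ Y, rev y ∈ Y) (r : ℝ) (hr : ∀ x ∈ Hyp, ∃ g ∈ Γ, hd (g.1 *ᵥ e2) x ≤ r)
    (C c : ℝ) (hc : 0 < c)
    (hgood : ∀ y ∈ Y, ∀ T : ℝ, 0 < T → ∃ Q, GoodOn ρ C c (r + 1) y (-T) T Q) :
    KAnosovOn Γ (cplx ρ) 1 Y ∧ KAnosovOn Γ (cplx ρ) 2 Y := by
  obtain ⟨Qf, hQg, hQflow, hQe, hQc⟩ := exists_Qf hΓ hY hYf hYg hr hc hgood
  obtain ⟨N, C1, hC1, hNc, hN, hNe, hNb⟩ := exists_norm hΓ (cplx ρ) r hr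
  have hcm : ∀ x : Γ, ((cplx ρ) x).1 = cm (ρ x).1 := fun x => rfl
  have hinv : ∀ x : Γ, (((cplx ρ) x)⁻¹).1 = cm (ρ x⁻¹).1 := by
    intro x; rw [← map_inv, hcm]
  have hNcY : ContinuousOn (fun q : (V3 × V3) × (Fin 3 → ℂ) => N q.1 q.2) (Y ×ˢ Set.univ) :=
    hNc.mono (Set.prod_mono hY subset_rfl)
  -- the estimate for complex vectors
  have hdomC : ∀ y ∈ Y, ∀ s t : ℝ, s ≤ t → ∀ z1 ∈ UT, ∀ z2 ∈ UT, z1.1 = (flow s y).1 →
      z2.1 = (flow t y).1 → ∀ v w : Fin 3 → ℂ, cm (Qf y) *ᵥ v = 0 →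
      cm (Qf y) *ᵥ w = w → N z1 v * N z2 w ≤
        C1 ^ 4 * (4 * |C|) * Real.exp (-c * (t - s)) * (N z1 w * N z2 v) := by
    intro y hy s t hst z1 hz1 z2 hz2 ez1 ez2 v w hv hw
    obtain ⟨g, hg, hg'⟩ := hr _ (flow_mem (hY hy) s).1
    obtain ⟨k, hk, hk'⟩ := hr _ (flow_mem (hY hy) t).1
    have hb1 := hNb _ hz1 ⟨g, hg⟩ (by rw [ez1]; exact hg')
    have hb2 := hNb _ hz2 ⟨k, hk⟩ (by rw [ez2]; exact hk')
    have hn1 := (hN _ hz1).1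
    have hn2 := (hN _ hz2).1
    set G : Γ := ⟨g, hg⟩
    set K : Γ := ⟨k, hk⟩
    rw [hcm] at hb1 hb2
    have hE : 0 < Real.exp (-c * (t - s)) := Real.exp_pos _
    have h1 := cm_dom (K := |C| * Real.exp (-c * (t - s))) (by positivity)
      (M1 := (ρ G⁻¹).1 * (1 - Qf y)) (M2 := (ρ K⁻¹).1 * Qf y) (M3 := (ρ G⁻¹).1 * Qf y)
      (M4 := (ρ K⁻¹).1 * (1 - Qf y)) (fun v w => by
        refine ((hQg y hy).dom hst G K hg' hk' v w).trans ?_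
        have := le_abs_self C
        gcongr) v w
    have e1 : ∀ A : Matrix (Fin 3) (Fin 3) ℝ, cm (A * (1 - Qf y)) *ᵥ v = cm A *ᵥ v := by
      intro A
      rw [cm_mul, ← mulVec_mulVec, cm_sub, cm_one, sub_mulVec, hv, one_mulVec, sub_zero]
    have e2 : ∀ A : Matrix (Fin 3) (Fin 3) ℝ, cm (A * Qf y) *ᵥ w = cm A *ᵥ w := by
      intro A
      rw [cm_mul, ← mulVec_mulVec, hw]
    rw [e1, e1, e2, e2] at h1
    calc N z1 v * N z2 w ≤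
        (C1 * ‖cm (ρ G⁻¹).1 *ᵥ v‖) * (C1 * ‖cm (ρ K⁻¹).1 *ᵥ w‖) :=
          mul_le_mul (hb1 v).1 (hb2 w).1 (hn2 w) (by positivity)
      _ = C1 ^ 2 * (‖cm (ρ G⁻¹).1 *ᵥ v‖ * ‖cm (ρ K⁻¹).1 *ᵥ w‖) := by ring
      _ ≤ C1 ^ 2 * (4 * (|C| * Real.exp (-c * (t - s))) *
          (‖cm (ρ G⁻¹).1 *ᵥ w‖ * ‖cm (ρ K⁻¹).1 *ᵥ v‖)) :=
          mul_le_mul_of_nonneg_left h1 (by positivity)
      _ ≤ C1 ^ 2 * (4 * (|C| * Real.exp (-c * (t - s))) *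
          ((C1 * N z1 w) * (C1 * N z2 v))) := by
          have h5 := (hb1 w).2
          have h6 := (hb2 v).2
          have h7 := hn1 w
          gcongr
      _ = _ := by ring
  have hidem : ∀ y ∈ Y, cm (Qf y) * cm (Qf y) = cm (Qf y) := by
    intro y hy
    rw [← cm_mul, (hQg y hy).idem]
  constructor
  · refine ⟨fun y => cm (Qf (rev y)), N, C1 ^ 4 * (4 * |C|), c, hc, ?_, fun y hy => ⟨?_, ?_⟩,
      fun y hy t => ?_, fun y hy g => ?_, hNcY, fun y hy => hN y (hY hy),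
      fun y hy => hNe y (hY hy), fun y hy t ht v w hv hw => ?_⟩
    · have hrev : Continuous rev := by unfold rev; fun_prop
      exact cm_continuous.comp_continuousOn (hQc.comp hrev.continuousOn hYr)
    · exact hidem _ (hYr y hy)
    · apply rank_eq (hidem _ (hYr y hy))
      rw [cm_trace, (hQg _ (hYr y hy)).tr]; norm_num
    · have e : rev (flow t y) = flow (-t) (rev y) := by rw [flow_rev, neg_neg]
      show cm (Qf (rev (flow t y))) = cm (Qf (rev y))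
      rw [e, hQflow _ (hYr y hy)]
    · have e : rev (mact g.1 y) = mact g.1 (rev y) := by
        simp only [rev, mact, mulVec_neg]
      show cm (Qf (rev (mact g.1 y))) = _
      rw [e, hQe _ (hYr y hy), hinv, hcm, cm_mul, cm_mul]
    · have h2 : flow (-t) (rev y) = rev (flow t y) := by rw [flow_rev, neg_neg]
      have h1 := hdomC _ (hYr y hy) (-t) 0 (by linarith) (flow t y) (flow_mem (hY hy) t) y (hY hy)
        (by rw [h2]; rfl) (by rw [flow_zero]; rfl) v w hv hw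
      rw [sub_neg_eq_add, zero_add] at h1
      exact h1
  · refine ⟨fun y => 1 - cm (Qf y), N, C1 ^ 4 * (4 * |C|), c, hc, ?_, fun y hy => ⟨?_, ?_⟩,
      fun y hy t => ?_, fun y hy g => ?_, hNcY, fun y hy => hN y (hY hy),
      fun y hy => hNe y (hY hy), fun y hy t ht v w hv hw => ?_⟩
    · exact continuousOn_const.sub (cm_continuous.comp_continuousOn hQc)
    · have := hidem y hy
      calc (1 - cm (Qf y)) * (1 - cm (Qf y)) = 1 - cm (Qf y) - cm (Qf y) + cm (Qf y) * cm (Qf y) := by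
            noncomm_ring
        _ = 1 - cm (Qf y) := by rw [this]; noncomm_ring
    · apply rank_eq
      · have := hidem y hy
        calc (1 - cm (Qf y)) * (1 - cm (Qf y)) =
            1 - cm (Qf y) - cm (Qf y) + cm (Qf y) * cm (Qf y) := by noncomm_ring
          _ = 1 - cm (Qf y) := by rw [this]; noncomm_ring
      · rw [trace_sub, trace_one, cm_trace, (hQg y hy).tr]; norm_num
    · show 1 - cm (Qf (flow t y)) = 1 - cm (Qf y)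
      rw [hQflow y hy]
    · show 1 - cm (Qf (mact g.1 y)) = _
      rw [hQe y hy, hinv, hcm, cm_mul, cm_mul]
      have h1 : cm (ρ g).1 * cm (ρ g⁻¹).1 = 1 := by
        rw [← cm_mul, rho_mul_inv, cm_one]
      calc 1 - cm (ρ g).1 * cm (Qf y) * cm (ρ g⁻¹).1 =
          cm (ρ g).1 * cm (ρ g⁻¹).1 - cm (ρ g).1 * cm (Qf y) * cm (ρ g⁻¹).1 := by rw [h1]
        _ = _ := by noncomm_ring
    · have hv' : cm (Qf y) *ᵥ v = v := by
        have h1 : (1 - cm (Qf y)) *ᵥ v = v - cm (Qf y) *ᵥ v := by rw [sub_mulVec, one_mulVec]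
        have h2 : v - cm (Qf y) *ᵥ v = 0 := by rw [← h1]; exact hv
        exact (sub_eq_zero.1 h2).symm
      have hw' : cm (Qf y) *ᵥ w = 0 := by
        have h1 : (1 - cm (Qf y)) *ᵥ w = w - cm (Qf y) *ᵥ w := by rw [sub_mulVec, one_mulVec]
        have h2 : w - cm (Qf y) *ᵥ w = w := by rw [← h1]; exact hw
        exact sub_eq_self.1 h2
      have h1 := hdomC y hy 0 t ht y (hY hy) (flow t y) (flow_mem (hY hy) t)
        (by rw [flow_zero]) rfl w v hw' hv'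
      rw [sub_zero] at h1
      linarith

end D3

end SBA
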