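import Pool.Agent.Lib.MP_709218_gt.D3Box

/-! Dominated splittings along admissible words without long runs. -/

namespace SBA

namespace D3

open Letter Matrix

/-- exit positions -/
def Ex (x : ℕ → Letter) (j : ℕ) : Prop := ex (x j) (x (j + 1)) = true

instance (x : ℕ → Letter) (j : ℕ) : Decidable (Ex x j) := by unfold Ex; infer_instance

theorem ex_of_ok_z : ∀ (k : Fin 3) (y : Letter), ok (z k) y = true → ex (z k) y = true := by decide

theorem not_ex {a b : Letter} (h : ok a b = true) (h' : ¬ ex a b = true) :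
    ∃ i, a = r i ∧ b = r (i + 2) := by
  revert h h'
  revert a b
  decide

/-- letters between exits -/
theorem seg_letters {x : ℕ → Letter} (hok : ∀ k, ok (x k) (x (k + 1)) = true) :
    ∀ (m a : ℕ) (k : Fin 3), x a = r k → (∀ j < m, ¬ Ex x (a + j)) →
      ∀ j ≤ m, x (a + j) = r (dn k j) := by
  intro m
  induction m with
  | zero =>
    intro a k hk _ j hj
    obtain rfl : j = 0 := by omega
    simpa [dn] using hk
  | succ m ih =>
    intro a k hk hne j hj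
    obtain ⟨i, hi, hi'⟩ := not_ex (hok a) (hne 0 (by omega))
    rw [hk] at hi
    obtain rfl : k = i := by simpa using hi
    rcases j with _ | j
    · simpa [dn] using hk
    · have := ih (a + 1) (k + 2) hi' (fun j hj => by
        have := hne (j + 1) (by omega)
        rwa [show a + 1 + j = a + (j + 1) by omega]) j (by omega)
      rw [show a + (j + 1) = a + 1 + j by omega, this]
      rfl

theorem exit_within {x : ℕ → Letter} (hok : ∀ k, ok (x k) (x (k + 1)) = true)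
    (hrun : ∀ k, ¬ RunAt x k) (k : ℕ) : ∃ m, Ex x (k + m) ∧ m ≤ 4 := by
  by_contra hcon
  push Not at hcon
  have hne : ∀ j < 5, ¬ Ex x (k + j) := fun j hj h => by
    have := hcon j h
    omega
  obtain ⟨i, hi, -⟩ := not_ex (hok k) (hne 0 (by omega))
  have h := seg_letters hok 5 k i hi hne
  apply hrun k
  refine ⟨i, hi, h 1 (by omega), ?_, ?_, ?_, ?_⟩
  · rw [h 2 (by omega)]; congr 1; simp only [dn]; clear hi h; revert i; decide
  · rw [h 3 (by omega)]; congr 1; simp only [dn]; clear hi h; revert i; decide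
  · rw [h 4 (by omega)]; congr 1; simp only [dn]; clear hi h; revert i; decide
  · rw [h 5 (by omega)]; congr 1; simp only [dn]; clear hi h; revert i; decide

/-- the word `x a, x (a+1), …` of length `l` -/
def wd (x : ℕ → Letter) : ℕ → ℕ → List Letter
  | _, 0 => []
  | a, l + 1 => x a :: wd x (a + 1) l

theorem length_wd (x : ℕ → Letter) (a l : ℕ) : (wd x a l).length = l := by
  induction l generalizing a with
  | zero => rfl
  | succ l ih => simp [wd, ih]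

theorem NP_wd (x : ℕ → Letter) (a l : ℕ) : NP x (a + l) = NP x a * PL (wd x a l) := by
  induction l generalizing a with
  | zero => simp [wd, PL]
  | succ l ih =>
    rw [show a + (l + 1) = (a + 1) + l by omega, ih (a + 1), NP, wd, PL_cons, Matrix.mul_assoc]

theorem wd_seg {x : ℕ → Letter} : ∀ (m a : ℕ) (k : Fin 3),
    (∀ j < m, x (a + j) = r (dn k j)) → wd x a m = seg k m := by
  intro m
  induction m with
  | zero => intro a k _; rfl
  | succ m ih =>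
    intro a k h
    rw [wd, seg, ih (a + 1) (k + 2) (fun j hj => by
      have := h (j + 1) (by omega)
      rw [show a + 1 + j = a + (j + 1) by omega, this]; rfl)]
    have := h 0 (by omega)
    rw [show x a = r k from this]

/-- the transition between consecutive exits is certified -/
theorem transition {x : ℕ → Letter} (hok : ∀ k, ok (x k) (x (k + 1)) = true) {a m : ℕ} (hm : m ≤ 4)
    (ha : Ex x a) (hb : Ex x (a + 1 + m)) (hne : ∀ j < m, ¬ Ex x (a + 1 + j)) :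
    good (bx (x a) (x (a + 1))) (bx (x (a + 1 + m)) (x (a + 1 + m + 1))) (wd x a (m + 1)) = true := by
  rw [wd]
  unfold Ex at ha hb
  rcases h : x (a + 1) with k | k
  · have h1 := seg_letters hok m (a + 1) k h hne
    rw [wd_seg m (a + 1) k (fun j hj => h1 j hj.le), h1 m le_rfl]
    rw [h1 m le_rfl] at hb
    rw [h] at ha
    have := chkR ⟨m, by omega⟩ (x a) k ha (x (a + 1 + m + 1)) hb
    exact this
  · have hm0 : m = 0 := by
      by_contra hcon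
      apply hne 0 (by omega)
      unfold Ex
      have := hok (a + 1)
      simp only [Nat.add_zero]
      rw [h] at this ⊢
      exact ex_of_ok_z _ _ this
    subst hm0
    rw [h] at ha
    simp only [Nat.add_zero] at hb ⊢
    rw [h] at hb ⊢
    have := chkZ (x a) k ha (x (a + 1 + 1)) hb
    simpa [wd] using this

/-- norms along a word: forward -/
theorem norm_NPi_le (x : ℕ → Letter) (a l : ℕ) (v : E3) :
    ‖NPi x (a + l) *ᵥ v‖ ≤ 41 ^ l * ‖NPi x a *ᵥ v‖ := by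
  induction l with
  | zero => simp
  | succ l ih =>
    rw [← add_assoc, NPi, ← Matrix.mulVec_mulVec, pow_succ']
    calc _ ≤ 41 * ‖NPi x (a + l) *ᵥ v‖ := norm_XR_mulVec _ _
      _ ≤ 41 * (41 ^ l * ‖NPi x a *ᵥ v‖) := by gcongr
      _ = _ := by ring

/-- norms along a word: backward -/
theorem norm_NPi_le' (x : ℕ → Letter) (a l : ℕ) (v : E3) :
    ‖NPi x a *ᵥ v‖ ≤ 41 ^ l * ‖NPi x (a + l) *ᵥ v‖ := by
  induction l with
  | zero => simp
  | succ l ih =>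
    have h : NPi x (a + l) *ᵥ v = XR (x (a + l)) *ᵥ (NPi x (a + (l + 1)) *ᵥ v) := by
      rw [← add_assoc, NPi, Matrix.mulVec_mulVec, ← Matrix.mul_assoc, XR_sq, Matrix.one_mul]
    rw [pow_succ]
    calc _ ≤ 41 ^ l * ‖NPi x (a + l) *ᵥ v‖ := ih
      _ ≤ 41 ^ l * (41 * ‖NPi x (a + (l + 1)) *ᵥ v‖) := by
        rw [h]; gcongr; exact norm_XR_mulVec _ _
      _ = _ := by ring

theorem norm_NPi_near {x : ℕ → Letter} {a b : ℕ} (h1 : a ≤ b) (h2 : b ≤ a + 4) (v : E3) :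
    ‖NPi x b *ᵥ v‖ ≤ 41 ^ 4 * ‖NPi x a *ᵥ v‖ ∧ ‖NPi x a *ᵥ v‖ ≤ 41 ^ 4 * ‖NPi x b *ᵥ v‖ := by
  obtain ⟨l, rfl⟩ := Nat.exists_eq_add_of_le h1
  have hl : (41 : ℝ) ^ l ≤ 41 ^ 4 := pow_le_pow_right₀ (by norm_num) (by omega)
  constructor
  · calc _ ≤ 41 ^ l * ‖NPi x a *ᵥ v‖ := norm_NPi_le x a l v
      _ ≤ _ := by gcongr
  · calc _ ≤ 41 ^ l * ‖NPi x (a + l) *ᵥ v‖ := norm_NPi_le' x a l v
      _ ≤ _ := by gcongr

/-- Splitting at the exits. -/
theorem exits_good {x : ℕ → Letter} (hok : ∀ k, ok (x k) (x (k + 1)) = true) (p : ℕ → ℕ)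
    (hp : ∀ t, Ex x (p t)) (hstep : ∀ t, ∃ m ≤ 4, p (t + 1) = p t + 1 + m ∧
      ∀ j < m, ¬ Ex x (p t + 1 + j)) (n : ℕ) :
    ∃ Q : Matrix (Fin 3) (Fin 3) ℝ, Q * Q = Q ∧ Q.trace = 1 ∧
      (∀ t ≤ n, ∀ v, ‖(NPi x (p t) * Q * NP x (p t)) *ᵥ v‖ ≤ (δ0 ^ 2)⁻¹ * ‖v‖) ∧
      (∀ i l, i + l ≤ n → ∀ v w,
        ‖(NPi x (p i) * (1 - Q)) *ᵥ v‖ * ‖(NPi x (p (i + l)) * Q) *ᵥ w‖ ≤
          4 / δ0 ^ 2 * (1 - δ0 ^ 2 / 2) ^ l *
            (‖(NPi x (p i) * Q) *ᵥ w‖ * ‖(NPi x (p (i + l)) * (1 - Q)) *ᵥ v‖)) := by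
  classical
  -- data
  have hdata : ∀ t, ∃ (s : ℝ) (w : List Letter), (s = 1 ∨ s = -1) ∧
      NP x (p (t + 1)) = NP x (p t) * PL w ∧
      ∀ v ∈ CB (bx (x (p (t + 1))) (x (p (t + 1) + 1))),
        s • (PL w *ᵥ v) - (δ0 * ‖s • (PL w *ᵥ v)‖) • uB (bx (x (p t)) (x (p t + 1))) ∈
          CB (bx (x (p t)) (x (p t + 1))) := by
    intro t
    obtain ⟨m, hm, h1, h2⟩ := hstep t
    have hE := hp (t + 1)
    rw [h1] at hE
    have hg := transition hok hm (hp t) hE h2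
    obtain ⟨s, hs, hs'⟩ := strict_of_good (bx_valid _ _) (bx_valid _ _) hg (by
      rw [length_wd]; omega)
    refine ⟨s, wd x (p t) (m + 1), hs, ?_, ?_⟩
    · rw [h1, ← NP_wd]; congr 1; omega
    · rw [h1]; exact hs'
  choose s w hs hNP hstrict using hdata
  have hs1 : ∀ t, s t * s t = 1 := fun t => by rcases hs t with h | h <;> rw [h] <;> norm_num
  have hs0 : ∀ t, s t ≠ 0 := fun t => by rcases hs t with h | h <;> rw [h] <;> norm_num
  set C : ℕ → Set E3 := fun t => CB (bx (x (p t)) (x (p t + 1))) with hC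
  set u : ℕ → E3 := fun t => uB (bx (x (p t)) (x (p t + 1))) with hu
  set lam : ℕ → (E3 →ₗ[ℝ] ℝ) := fun t => LinearMap.proj (bx (x (p t)) (x (p t + 1))).m with hlam
  set M : ℕ → (E3 →ₗ[ℝ] E3) := fun t => s t • Matrix.toLin' (PL (w t)) with hM
  have hMv : ∀ t v, M t v = s t • (PL (w t) *ᵥ v) := by
    intro t v; simp [hM, Matrix.toLin'_apply]
  -- signed frames
  set S : ℕ → ℝ := fun t => ∏ j ∈ Finset.range t, s j with hS
  have hS1 : ∀ t, S t * S t = 1 := by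
    intro t
    simp only [hS]
    rw [← Finset.prod_mul_distrib]
    exact Finset.prod_eq_one fun j _ => hs1 j
  have hSn : ∀ t, |S t| = 1 := by
    intro t
    have h := hS1 t
    have h2 : |S t| * |S t| = 1 := by rw [← abs_mul, h, abs_one]
    nlinarith [abs_nonneg (S t)]
  set G : ℕ → (E3 →ₗ[ℝ] E3) := fun t => S t • Matrix.toLin' (NP x (p t)) with hG
  set Gi : ℕ → (E3 →ₗ[ℝ] E3) := fun t => S t • Matrix.toLin' (NPi x (p t)) with hGi
  have hGv : ∀ t v, G t v = S t • (NP x (p t) *ᵥ v) := by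
    intro t v; simp [hG, Matrix.toLin'_apply]
  have hGiv : ∀ t v, Gi t v = S t • (NPi x (p t) *ᵥ v) := by
    intro t v; simp [hGi, Matrix.toLin'_apply]
  have hGGi : ∀ t v, G t (Gi t v) = v := by
    intro t v
    rw [hGv, hGiv, Matrix.mulVec_smul, smul_smul, hS1, one_smul, Matrix.mulVec_mulVec,
      NP_mul_NPi, Matrix.one_mulVec]
  have hGiG : ∀ t v, Gi t (G t v) = v := by
    intro t v
    rw [hGiv, hGv, Matrix.mulVec_smul, smul_smul, hS1, one_smul, Matrix.mulVec_mulVec,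
      NPi_mul_NP, Matrix.one_mulVec]
  have hGM : ∀ t v, G (t + 1) v = G t (M t v) := by
    intro t v
    rw [hGv, hGv, hMv, Matrix.mulVec_smul, smul_smul, Matrix.mulVec_mulVec, ← hNP]
    congr 1
    simp only [hS]
    rw [Finset.prod_range_succ]
  have hPM : ∀ l i v, PM M i l v = Gi i (G (i + l) v) := by
    intro l
    induction l with
    | zero => intro i v; simp [PM, hGiG]
    | succ l ih =>
      intro i v
      rw [PM, LinearMap.comp_apply, ih, ← add_assoc, hGM]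
  have hGin : ∀ t v, ‖Gi t v‖ = ‖NPi x (p t) *ᵥ v‖ := by
    intro t v
    rw [hGiv, norm_smul, Real.norm_eq_abs, hSn, one_mul]
  have hMinj : ∀ t v, M t v = 0 → v = 0 := by
    intro t v h
    have h1 := hGM t v
    rw [h, map_zero] at h1
    have h2 := hGiG (t + 1) v
    rw [h1, map_zero] at h2
    exact h2.symm
  obtain ⟨e, η, he, hη, hpos, hbd, hdom⟩ := chain δ0_pos C lam u M
    (fun t => isBCone_CB (bx_valid _ _))
    (fun t v hv => by rw [hMv]; exact hstrict t v hv) hMinj n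
  -- the invariant line and functional
  set E : E3 := G 0 (e 0) with hE
  set φ : E3 →ₗ[ℝ] ℝ := (η 0).comp (Gi 0) with hφ
  have hEt : ∀ t ≤ n, Gi t E = e t := by
    intro t ht
    have h1 := he 0 t (by omega)
    rw [hPM, Nat.zero_add] at h1
    rw [hE, h1, hGGi, hGiG]
  have hφt : ∀ t v, η t (Gi t v) = φ v := by
    intro t v
    rw [hη t, LinearMap.comp_apply, hPM, Nat.zero_add, hGGi]
    rfl
  have hφE : 0 < φ E := by
    have := hpos 0 (Nat.zero_le n)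
    rwa [← hEt 0 (Nat.zero_le n), hφt] at this
  set f : E3 := fun i => φ (Pi.single i 1) with hf
  have hfv : ∀ v, f ⬝ᵥ v = φ v := by
    intro v
    have : v = ∑ i, v i • (Pi.single i (1 : ℝ) : E3) := by
      funext k; simp [Finset.sum_apply, Pi.single_apply]
    conv_rhs => rw [this]
    rw [map_sum]
    simp only [map_smul, smul_eq_mul, dotProduct, hf]
    exact Finset.sum_congr rfl fun i _ => mul_comm _ _
  set Q : Matrix (Fin 3) (Fin 3) ℝ := (φ E)⁻¹ • Matrix.vecMulVec E f with hQ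
  have hQv : ∀ v, Q *ᵥ v = ((φ E)⁻¹ * φ v) • E := by
    intro v
    rw [hQ, Matrix.smul_mulVec, Matrix.vecMulVec_mulVec, hfv]
    ext k
    simp [mul_comm, mul_assoc, mul_left_comm]
  have hQE : Q *ᵥ E = E := by rw [hQv, inv_mul_cancel₀ hφE.ne', one_smul]
  have hφQ : ∀ v, φ (Q *ᵥ v) = φ v := by
    intro v
    rw [hQv, map_smul, smul_eq_mul]
    field_simp
  refine ⟨Q, ?_, ?_, ?_, ?_⟩
  · -- idempotent
    apply Matrix.ext_of_mulVec_single
    intro i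
    rw [← Matrix.mulVec_mulVec, hQv (Pi.single i 1), Matrix.mulVec_smul, hQE]
  · rw [hQ, Matrix.trace_smul, Matrix.trace_vecMulVec, dotProduct_comm, hfv, smul_eq_mul,
      inv_mul_cancel₀ hφE.ne']
  · intro t ht v
    have h1 : (NPi x (p t) * Q * NP x (p t)) *ᵥ v = S t • S t • (NPi x (p t) *ᵥ (Q *ᵥ (NP x (p t) *ᵥ v))) := by
      rw [smul_smul, hS1, one_smul, Matrix.mulVec_mulVec, Matrix.mulVec_mulVec, Matrix.mul_assoc]
    have h2 : (NPi x (p t) * Q * NP x (p t)) *ᵥ v = Gi t (Q *ᵥ (G t v)) := by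
      rw [h1, hGiv, hGv, Matrix.mulVec_smul, Matrix.mulVec_smul]
    rw [h2, hQv, map_smul, hEt t ht, norm_smul]
    have h3 : φ (G t v) = η t v := by rw [← hφt t, hGiG]
    have h4 : φ E = η t (e t) := by rw [← hφt t, hEt t ht]
    rw [h3, h4, norm_mul, norm_inv, Real.norm_of_nonneg (hpos t ht).le, Real.norm_eq_abs]
    have h5 := hbd t ht v
    have h6 := hpos t ht
    rw [mul_assoc, inv_mul_le_iff₀ h6]
    linarith
  · intro i l hil v w'
    rw [← Matrix.mulVec_mulVec, ← Matrix.mulVec_mulVec, ← Matrix.mulVec_mulVec,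
      ← Matrix.mulVec_mulVec, ← hGin, ← hGin, ← hGin, ← hGin]
    set y := (1 - Q) *ᵥ v with hy
    have hφy : φ y = 0 := by
      rw [hy, Matrix.sub_mulVec, Matrix.one_mulVec, map_sub, hφQ, sub_self]
    have h1 := hdom i l hil (Gi (i + l) y) (by rw [hφt, hφy])
    rw [hPM, hGGi] at h1
    rw [hQv, map_smul, map_smul, hEt i (by omega), hEt (i + l) hil, norm_smul, norm_smul]
    calc ‖Gi i y‖ * (‖(φ E)⁻¹ * φ w'‖ * ‖e (i + l)‖)
        = ‖(φ E)⁻¹ * φ w'‖ * (‖Gi i y‖ * ‖e (i + l)‖) := by ring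
      _ ≤ ‖(φ E)⁻¹ * φ w'‖ * (4 / δ0 ^ 2 * (1 - δ0 ^ 2 / 2) ^ l * (‖Gi (i + l) y‖ * ‖e i‖)) := by
          gcongr
      _ = _ := by ring

/-- Main theorem of the linear part. -/
theorem word_good : ∃ κ θ : ℝ, 0 < κ ∧ 0 < θ ∧ θ < 1 ∧ ∀ (x : ℕ → Letter) (n : ℕ),
    (∀ k, ok (x k) (x (k + 1)) = true) → (∀ k, ¬ RunAt x k) →
    ∃ Q : Matrix (Fin 3) (Fin 3) ℝ, Q * Q = Q ∧ Q.trace = 1 ∧
      (∀ k ≤ n, ∀ v, ‖(NPi x k * Q * NP x k) *ᵥ v‖ ≤ κ * ‖v‖) ∧
      (∀ i k, i ≤ k → k ≤ n → ∀ v w,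
        ‖(NPi x i * (1 - Q)) *ᵥ v‖ * ‖(NPi x k * Q) *ᵥ w‖ ≤
          κ * θ ^ (k - i) * (‖(NPi x i * Q) *ᵥ w‖ * ‖(NPi x k * (1 - Q)) *ᵥ v‖)) := by
  have hδ := δ0_pos
  have hδ1 : δ0 ≤ 1 := by unfold δ0; norm_num
  have hθ0 : 0 < 1 - δ0 ^ 2 / 2 := by nlinarith
  have hθ1 : 1 - δ0 ^ 2 / 2 < 1 := by nlinarith [sq_pos_of_pos hδ]
  set θ : ℝ := (1 - δ0 ^ 2 / 2) ^ ((1 : ℝ) / 5) with hθ
  have hθpos : 0 < θ := Real.rpow_pos_of_pos hθ0 _
  have hθlt : θ < 1 := Real.rpow_lt_one hθ0.le hθ1 (by norm_num)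
  have hθ5 : θ ^ 5 = 1 - δ0 ^ 2 / 2 := by
    rw [hθ, ← Real.rpow_natCast, ← Real.rpow_mul hθ0.le]; norm_num
  refine ⟨41 ^ 16 * (4 / δ0 ^ 2) * (θ ^ 4)⁻¹, θ, by positivity, hθpos, hθlt, ?_⟩
  intro x n hok hrun
  classical
  have hex := exit_within hok hrun
  set nx : ℕ → ℕ := fun k => k + Nat.find (hex k) with hnx
  have hnxE : ∀ k, Ex x (nx k) := fun k => (Nat.find_spec (hex k)).1
  have hnx4 : ∀ k, nx k ≤ k + 4 := fun k => by
    have := (Nat.find_spec (hex k)).2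
    simp only [hnx]; omega
  have hnxk : ∀ k, k ≤ nx k := fun k => by simp only [hnx]; omega
  have hnxmin : ∀ k j, j < Nat.find (hex k) → ¬ Ex x (k + j) := by
    intro k j hj hE
    have h1 := (Nat.find_spec (hex k)).2
    exact Nat.find_min (hex k) hj ⟨hE, by omega⟩
  obtain ⟨p, hp0, hps⟩ : ∃ p : ℕ → ℕ, p 0 = nx 0 ∧ ∀ t, p (t + 1) = nx (p t + 1) :=
    ⟨fun t => Nat.rec (nx 0) (fun _ q => nx (q + 1)) t, rfl, fun t => rfl⟩
  have hpE : ∀ t, Ex x (p t) := by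
    intro t
    cases t with
    | zero => rw [hp0]; exact hnxE 0
    | succ t => rw [hps]; exact hnxE _
  have hstep : ∀ t, ∃ m ≤ 4, p (t + 1) = p t + 1 + m ∧ ∀ j < m, ¬ Ex x (p t + 1 + j) := by
    intro t
    refine ⟨Nat.find (hex (p t + 1)), (Nat.find_spec (hex (p t + 1))).2, hps t, ?_⟩
    intro j hj
    exact hnxmin _ j hj
  have hpt : ∀ t, t ≤ p t := by
    intro t
    induction t with
    | zero => omega
    | succ t ih =>
      have := hnxk (p t + 1)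
      rw [hps]; omega
  have hp5 : ∀ t l, p (t + l) ≤ p t + 5 * l := by
    intro t l
    induction l with
    | zero => simp
    | succ l ih =>
      have := hnx4 (p (t + l) + 1)
      rw [← add_assoc, hps]; omega
  -- index of the next exit
  have hτex : ∀ i, ∃ t, i ≤ p t := fun i => ⟨i, hpt i⟩
  set τ : ℕ → ℕ := fun i => Nat.find (hτex i) with hτ
  have hτ1 : ∀ i, i ≤ p (τ i) := fun i => Nat.find_spec (hτex i)
  have hτ4 : ∀ i, p (τ i) ≤ i + 4 := by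
    intro i
    rcases h : τ i with _ | t
    · rw [hp0]; have := hnx4 0; omega
    · have h0 : t < τ i := by omega
      have h1 : ¬ i ≤ p t := fun hle => by
        have : τ i ≤ t := Nat.find_min' (hτex i) hle
        omega
      have := hnx4 (p t + 1)
      rw [hps]; omega
  have hτm : ∀ i k, i ≤ k → τ i ≤ τ k := by
    intro i k hik
    exact Nat.find_min' (hτex i) (hik.trans (hτ1 k))
  obtain ⟨Q, hQ1, hQ2, hQ3, hQ4⟩ := exits_good hok p hpE hstep (τ n)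
  refine ⟨Q, hQ1, hQ2, ?_, ?_⟩
  · intro k hk v
    have h1 := hQ3 (τ k) (hτm k n hk) (NPi x (p (τ k)) *ᵥ (NP x k *ᵥ v))
    have e1 : (NPi x (p (τ k)) * Q * NP x (p (τ k))) *ᵥ (NPi x (p (τ k)) *ᵥ (NP x k *ᵥ v)) =
        NPi x (p (τ k)) *ᵥ (Q *ᵥ (NP x k *ᵥ v)) := by
      rw [Matrix.mulVec_mulVec, Matrix.mul_assoc (NPi x (p (τ k)) * Q), NP_mul_NPi, Matrix.mul_one,
        ← Matrix.mulVec_mulVec]
    rw [e1] at h1
    have h2 := (norm_NPi_near (x := x) (hτ1 k) (hτ4 k) (Q *ᵥ (NP x k *ᵥ v))).2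
    have h3 := (norm_NPi_near (x := x) (hτ1 k) (hτ4 k) (NP x k *ᵥ v)).1
    have e2 : NPi x k *ᵥ (NP x k *ᵥ v) = v := by
      rw [Matrix.mulVec_mulVec, NPi_mul_NP, Matrix.one_mulVec]
    rw [e2] at h3
    have e3 : (NPi x k * Q * NP x k) *ᵥ v = NPi x k *ᵥ (Q *ᵥ (NP x k *ᵥ v)) := by
      rw [Matrix.mulVec_mulVec, Matrix.mulVec_mulVec]
    rw [e3]
    have hth : (1 : ℝ) ≤ (θ ^ 4)⁻¹ := by
      rw [one_le_inv₀ (by positivity)]
      exact pow_le_one₀ hθpos.le hθlt.le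
    calc ‖NPi x k *ᵥ (Q *ᵥ (NP x k *ᵥ v))‖ ≤ 41 ^ 4 * ‖NPi x (p (τ k)) *ᵥ (Q *ᵥ (NP x k *ᵥ v))‖ := h2
      _ ≤ 41 ^ 4 * ((δ0 ^ 2)⁻¹ * ‖NPi x (p (τ k)) *ᵥ (NP x k *ᵥ v)‖) := by gcongr
      _ ≤ 41 ^ 4 * ((δ0 ^ 2)⁻¹ * (41 ^ 4 * ‖v‖)) := by gcongr
      _ = (41 ^ 8 * (1 / δ0 ^ 2)) * 1 * ‖v‖ := by ring
      _ ≤ (41 ^ 16 * (4 / δ0 ^ 2)) * (θ ^ 4)⁻¹ * ‖v‖ := by
          gcongr <;> norm_num
  · intro i k hik hkn v w
    have hil : τ i + (τ k - τ i) = τ k := by have := hτm i k hik; omega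
    have h1 := hQ4 (τ i) (τ k - τ i) (by rw [hil]; exact hτm k n hkn) v w
    rw [hil] at h1
    simp only [← Matrix.mulVec_mulVec] at h1 ⊢
    have a1 := (norm_NPi_near (x := x) (hτ1 i) (hτ4 i) ((1 - Q) *ᵥ v)).2
    have a2 := (norm_NPi_near (x := x) (hτ1 k) (hτ4 k) (Q *ᵥ w)).2
    have a3 := (norm_NPi_near (x := x) (hτ1 i) (hτ4 i) (Q *ᵥ w)).1
    have a4 := (norm_NPi_near (x := x) (hτ1 k) (hτ4 k) ((1 - Q) *ᵥ v)).1
    have hpow : (1 - δ0 ^ 2 / 2) ^ (τ k - τ i) ≤ (θ ^ 4)⁻¹ * θ ^ (k - i) := by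
      rw [← hθ5, ← pow_mul, le_inv_mul_iff₀ (by positivity), ← pow_add]
      apply pow_le_pow_of_le_one hθpos.le hθlt.le
      have b1 := hp5 (τ i) (τ k - τ i)
      rw [hil] at b1
      have b2 := hτ1 k
      have b3 := hτ4 i
      omega
    calc ‖NPi x i *ᵥ ((1 - Q) *ᵥ v)‖ * ‖NPi x k *ᵥ (Q *ᵥ w)‖
        ≤ (41 ^ 4 * ‖NPi x (p (τ i)) *ᵥ ((1 - Q) *ᵥ v)‖) * (41 ^ 4 * ‖NPi x (p (τ k)) *ᵥ (Q *ᵥ w)‖) := by
          gcongr
      _ = 41 ^ 8 * (‖NPi x (p (τ i)) *ᵥ ((1 - Q) *ᵥ v)‖ * ‖NPi x (p (τ k)) *ᵥ (Q *ᵥ w)‖) := by ring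
      _ ≤ 41 ^ 8 * (4 / δ0 ^ 2 * (1 - δ0 ^ 2 / 2) ^ (τ k - τ i) *
            (‖NPi x (p (τ i)) *ᵥ (Q *ᵥ w)‖ * ‖NPi x (p (τ k)) *ᵥ ((1 - Q) *ᵥ v)‖)) := by gcongr
      _ ≤ 41 ^ 8 * (4 / δ0 ^ 2 * ((θ ^ 4)⁻¹ * θ ^ (k - i)) *
            ((41 ^ 4 * ‖NPi x i *ᵥ (Q *ᵥ w)‖) * (41 ^ 4 * ‖NPi x k *ᵥ ((1 - Q) *ᵥ v)‖))) := by
          gcongr
      _ = _ := by ring

end D3

end SBA
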