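import Pool.Agent.Lib.MP_709218_gt.Lor

/-! Segments, lines and the geodesic flow of the hyperboloid. -/

namespace SBA
open Matrix Set

/-- the base point -/
def e2 : V3 := ![0, 0, 1]

/-- `z` lies on the geodesic segment from `x` to `y`. -/
def Btw (x z y : V3) : Prop := z ∈ Hyp ∧ ∃ a b : ℝ, 0 ≤ a ∧ 0 ≤ b ∧ z = a • x + b • y

/-- reversal of a unit vector -/
def rev (y : V3 × V3) : V3 × V3 := (y.1, -y.2)

/-- action of a linear map on pairs -/
def pact (A : V3 →ₗ[ℝ] V3) (y : V3 × V3) : V3 × V3 := (A y.1, A y.2)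

/-- Lorentzian cross product: `lor (cross x y) z = det (x,y,z)` -/
def cross (x y : V3) : V3 :=
  ![x 1 * y 2 - x 2 * y 1, x 2 * y 0 - x 0 * y 2, -(x 0 * y 1 - x 1 * y 0)]

/-- unit normal of the geodesic through `y` -/
def nrm (y : V3 × V3) : V3 := cross y.1 y.2

theorem e2_mem : e2 ∈ Hyp := by
  constructor
  · simp [lor, e2]
  · simp [e2]

theorem lor_e2 (x : V3) : lor e2 x = -x 2 := by simp [lor, e2]

theorem Btw.symm {x z y : V3} (h : Btw x z y) : Btw y z x := by
  obtain ⟨hz, a, b, ha, hb, e⟩ := h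
  exact ⟨hz, b, a, hb, ha, by rw [e, add_comm]⟩

theorem Btw.left {x y : V3} (hx : x ∈ Hyp) : Btw x x y :=
  ⟨hx, 1, 0, zero_le_one, le_rfl, by simp⟩

theorem Btw.right {x y : V3} (hy : y ∈ Hyp) : Btw x y y :=
  ⟨hy, 0, 1, le_rfl, zero_le_one, by simp⟩

theorem Btw.map {x z y : V3} {A : V3 →ₗ[ℝ] V3} (hA : IsIso A) (h : Btw x z y) :
    Btw (A x) (A z) (A y) := by
  obtain ⟨hz, a, b, ha, hb, e⟩ := h
  exact ⟨hA.hyp _ hz, a, b, ha, hb, by rw [e, map_add, map_smul, map_smul]⟩

theorem Btw.hd_add {x z y : V3} (hx : x ∈ Hyp) (hy : y ∈ Hyp) (h : Btw x z y) :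
    hd x y = hd x z + hd z y := by
  obtain ⟨hz, a, b, ha, hb, e⟩ := h
  have n := hd_nonneg hx hy
  have n1 := hd_nonneg hx hz
  have n2 := hd_nonneg hz hy
  have hc := cosh_hd hx hy
  have hc1 := cosh_hd hx hz
  have hc2 := cosh_hd hz hy
  have hzz := hz.1
  have e1 : lor x z = -a + b * lor x y := by
    rw [e, lor_add_right, lor_smul_right, lor_smul_right, hx.1]; ring
  have e2 : lor z y = a * lor x y - b := by
    rw [e, lor_add_left, lor_smul_left, lor_smul_left, hy.1]; ring
  have e3 : a ^ 2 + b ^ 2 + 2 * a * b * (-lor x y) = 1 := by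
    have : lor z z = -(a ^ 2 + b ^ 2 + 2 * a * b * (-lor x y)) := by
      rw [e]
      simp only [lor_add_left, lor_add_right, lor_smul_left, lor_smul_right, hx.1, hy.1,
        lor_comm y x]
      ring
    linarith
  rw [← hc] at e3
  have e1' : Real.cosh (hd x z) = a + b * Real.cosh (hd x y) := by rw [hc1, e1, hc]; ring
  have e2' : Real.cosh (hd z y) = a * Real.cosh (hd x y) + b := by rw [hc2, e2, hc]; ring
  have s0 : 0 ≤ Real.sinh (hd x y) := Real.sinh_nonneg_iff.2 n
  have s1 : 0 ≤ Real.sinh (hd x z) := Real.sinh_nonneg_iff.2 n1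
  have s2 : 0 ≤ Real.sinh (hd z y) := Real.sinh_nonneg_iff.2 n2
  have f1 : Real.sinh (hd x z) = b * Real.sinh (hd x y) := by
    have h1 : Real.sinh (hd x z) ^ 2 = (b * Real.sinh (hd x y)) ^ 2 := by
      rw [mul_pow, Real.sinh_sq, Real.sinh_sq, e1']
      nlinarith
    exact (pow_left_inj₀ s1 (mul_nonneg hb s0) two_ne_zero).1 h1
  have f2 : Real.sinh (hd z y) = a * Real.sinh (hd x y) := by
    have h1 : Real.sinh (hd z y) ^ 2 = (a * Real.sinh (hd x y)) ^ 2 := by
      rw [mul_pow, Real.sinh_sq, Real.sinh_sq, e2']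
      nlinarith
    exact (pow_left_inj₀ s2 (mul_nonneg ha s0) two_ne_zero).1 h1
  have key : Real.cosh (hd x z + hd z y) = Real.cosh (hd x y) := by
    rw [Real.cosh_add, e1', e2', f1, f2]
    have : Real.sinh (hd x y) ^ 2 = Real.cosh (hd x y) ^ 2 - 1 := Real.sinh_sq _
    have h2 : b * Real.sinh (hd x y) * (a * Real.sinh (hd x y)) =
        a * b * (Real.cosh (hd x y) ^ 2 - 1) := by rw [← this]; ring
    rw [h2]
    linear_combination (Real.cosh (hd x y)) * e3
  have h1 := le_antisymm (Real.cosh_le_cosh.1 key.le) (Real.cosh_le_cosh.1 key.ge)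
  rw [abs_of_nonneg n, abs_of_nonneg (add_nonneg n1 n2)] at h1
  exact h1.symm

/-- nested segments -/
theorem Btw.trans_left {x z y u : V3} (h : Btw x z y) (h' : Btw x u z) : Btw x u y := by
  obtain ⟨-, a, b, ha, hb, e⟩ := h
  obtain ⟨hu, a', b', ha', hb', e'⟩ := h'
  refine ⟨hu, a' + b' * a, b' * b, by positivity, by positivity, ?_⟩
  rw [e', e]; module

theorem Btw.trans_right {x z y u : V3} (h : Btw x z y) (h' : Btw z u y) : Btw x u y :=
  (h.symm.trans_left h'.symm).symm

/-- nonnegative combinations of norm `-1` stay in the upper sheet -/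
theorem mem_Hyp_comb {x y : V3} (hx : x ∈ Hyp) (hy : y ∈ Hyp) {a b : ℝ} (ha : 0 ≤ a) (hb : 0 ≤ b)
    (h : lor (a • x + b • y) (a • x + b • y) = -1) : a • x + b • y ∈ Hyp := by
  refine ⟨h, ?_⟩
  have h2 : (a • x + b • y) 2 = a * x 2 + b * y 2 := by simp
  rw [h2]
  have hx2 := hx.2
  have hy2 := hy.2
  rcases ha.lt_or_eq with h1 | h1
  · have := mul_pos h1 hx2
    have := mul_nonneg hb hy2.le
    linarith
  · rcases hb.lt_or_eq with h3 | h3
    · have := mul_pos h3 hy2
      rw [← h1]; linarith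
    · rw [← h1, ← h3] at h
      simp at h

/-- a unit timelike vector on the future side -/
theorem mem_Hyp_of_lor_neg {x w : V3} (hx : x ∈ Hyp) (hw : lor w w = -1) (h : lor x w < 0) :
    w ∈ Hyp := by
  refine ⟨hw, ?_⟩
  by_contra hneg
  push Not at hneg
  have h4 : -w ∈ Fut := by
    refine ⟨?_, by simpa using hneg⟩
    rw [lor_neg_left, lor_neg_right, hw]; norm_num
  have h5 := lor_fut_nonpos (Hyp_sub_Fut hx) h4
  rw [lor_neg_right] at h5
  linarith

theorem lor_comb (x y : V3) (hx : x ∈ Hyp) (hy : y ∈ Hyp) (a b : ℝ) :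
    lor (a • x + b • y) (a • x + b • y) = -(a ^ 2 + b ^ 2 + 2 * a * b * (-lor x y)) := by
  simp only [lor_add_left, lor_add_right, lor_smul_left, lor_smul_right, hx.1, hy.1,
    lor_comm y x]
  ring

/-- intermediate values along segments -/
theorem exists_btw_zero {x y n : V3} (hx : x ∈ Hyp) (hy : y ∈ Hyp) (h1 : 0 ≤ lor x n)
    (h2 : lor y n ≤ 0) : ∃ z, Btw x z y ∧ lor z n = 0 := by
  rcases eq_or_ne (lor x n) 0 with h0 | h0
  · exact ⟨x, Btw.left hx, h0⟩
  have hα : 0 < lor x n := lt_of_le_of_ne h1 (Ne.symm h0)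
  set α := lor x n with hαdef
  set β := -lor y n with hβdef
  have hβ : 0 ≤ β := by linarith
  have hg := one_le_N hx hy
  have hs : 0 < β ^ 2 + α ^ 2 + 2 * β * α * (-lor x y) := by
    have : 0 ≤ 2 * β * α * (-lor x y) := by
      have : 0 ≤ -lor x y := by linarith
      positivity
    have : 0 < α ^ 2 := by positivity
    nlinarith [sq_nonneg β]
  set s := β ^ 2 + α ^ 2 + 2 * β * α * (-lor x y) with hsdef
  set r := Real.sqrt s with hrdef
  have hr : 0 < r := Real.sqrt_pos.2 hs
  have hr2 : r ^ 2 = s := Real.sq_sqrt hs.le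
  have hn : lor ((β / r) • x + (α / r) • y) ((β / r) • x + (α / r) • y) = -1 := by
    rw [lor_comb x y hx hy]
    have : (β / r) ^ 2 + (α / r) ^ 2 + 2 * (β / r) * (α / r) * (-lor x y) = s / r ^ 2 := by
      rw [hsdef]; field_simp
    rw [this, hr2, div_self hs.ne']
  refine ⟨(β / r) • x + (α / r) • y, ⟨mem_Hyp_comb hx hy (by positivity) (by positivity) hn,
    β / r, α / r, by positivity, by positivity, rfl⟩, ?_⟩
  rw [lor_add_left, lor_smul_left, lor_smul_left, ← hαdef]
  have : lor y n = -β := by rw [hβdef]; ring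
  rw [this]; ring

/-- points at prescribed distance on a segment -/
theorem exists_btw_dist {x y : V3} (hx : x ∈ Hyp) (hy : y ∈ Hyp) {t : ℝ} (h0 : 0 ≤ t)
    (h1 : t ≤ hd x y) : ∃ z, Btw x z y ∧ hd x z = t := by
  rcases eq_or_ne (hd x y) 0 with hD | hD
  · refine ⟨x, Btw.left hx, ?_⟩
    rw [hd_self hx]; linarith
  have hDpos : 0 < hd x y := lt_of_le_of_ne (hd_nonneg hx hy) (Ne.symm hD)
  have hc := cosh_hd hx hy
  set D := hd x y with hDdef
  have hS : 0 < Real.sinh D := Real.sinh_pos_iff.2 hDpos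
  have ha : 0 ≤ Real.sinh (D - t) / Real.sinh D :=
    div_nonneg (Real.sinh_nonneg_iff.2 (by linarith)) hS.le
  have hb : 0 ≤ Real.sinh t / Real.sinh D := div_nonneg (Real.sinh_nonneg_iff.2 h0) hS.le
  have hS2 : Real.sinh D ^ 2 = Real.cosh D ^ 2 - 1 := Real.sinh_sq D
  have ht2 : Real.sinh t ^ 2 = Real.cosh t ^ 2 - 1 := Real.sinh_sq t
  have hn : lor ((Real.sinh (D - t) / Real.sinh D) • x + (Real.sinh t / Real.sinh D) • y)
      ((Real.sinh (D - t) / Real.sinh D) • x + (Real.sinh t / Real.sinh D) • y) = -1 := by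
    rw [lor_comb x y hx hy, ← hc]
    have : (Real.sinh (D - t) / Real.sinh D) ^ 2 + (Real.sinh t / Real.sinh D) ^ 2 +
        2 * (Real.sinh (D - t) / Real.sinh D) * (Real.sinh t / Real.sinh D) * Real.cosh D =
        (Real.sinh (D - t) ^ 2 + Real.sinh t ^ 2 +
          2 * Real.sinh (D - t) * Real.sinh t * Real.cosh D) / Real.sinh D ^ 2 := by
      field_simp
    rw [this, Real.sinh_sub]
    rw [show (Real.sinh D * Real.cosh t - Real.cosh D * Real.sinh t) ^ 2 + Real.sinh t ^ 2 +
      2 * (Real.sinh D * Real.cosh t - Real.cosh D * Real.sinh t) * Real.sinh t * Real.cosh D =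
      Real.sinh D ^ 2 from ?_]
    · rw [div_self (by positivity)]
    · linear_combination (Real.cosh t ^ 2 - 1 - Real.sinh t ^ 2) * 0 +
        (Real.sinh t ^ 2) * hS2 * 1 + (-Real.sinh D ^ 2) * ht2
  refine ⟨_, ⟨mem_Hyp_comb hx hy ha hb hn, _, _, ha, hb, rfl⟩, ?_⟩
  unfold hd
  rw [lor_add_right, lor_smul_right, lor_smul_right, hx.1]
  have : -(Real.sinh (D - t) / Real.sinh D * -1 + Real.sinh t / Real.sinh D * lor x y) =
      Real.cosh t := by
    have h2 : lor x y = -Real.cosh D := by rw [hc]; ring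
    rw [h2, Real.sinh_sub]
    field_simp
    ring
  rw [this, Real.arcosh_cosh h0]

/-- Gram inequality for a point and two unit normals or two points and one normal -/
theorem gram_det (x y z : V3) :
    0 ≤ -(lor x x * (lor y y * lor z z - lor y z * lor y z)
        - lor x y * (lor x y * lor z z - lor y z * lor x z)
        + lor x z * (lor x y * lor y z - lor y y * lor x z)) := by
  have hdet : 0 ≤ (x 0 * (y 1 * z 2 - y 2 * z 1) - x 1 * (y 0 * z 2 - y 2 * z 0)
      + x 2 * (y 0 * z 1 - y 1 * z 0)) ^ 2 := sq_nonneg _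
  have key : (x 0 * (y 1 * z 2 - y 2 * z 1) - x 1 * (y 0 * z 2 - y 2 * z 0)
      + x 2 * (y 0 * z 1 - y 1 * z 0)) ^ 2 =
      -(lor x x * (lor y y * lor z z - lor y z * lor y z)
        - lor x y * (lor x y * lor z z - lor y z * lor x z)
        + lor x z * (lor x y * lor y z - lor y y * lor x z)) := by
    unfold lor; ring
  rw [← key]; exact hdet

/-- signed distance to a line is 1-Lipschitz -/
theorem arsinh_lip {x y n : V3} (hx : x ∈ Hyp) (hy : y ∈ Hyp) (hn : lor n n = 1) :
    |Real.arsinh (lor x n) - Real.arsinh (lor y n)| ≤ hd x y := by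
  have hG := gram_det x y n
  rw [hx.1, hy.1, hn] at hG
  set p := lor x n with hp
  set q := lor y n with hq
  set g := lor x y with hg
  -- sign: g - p q ≤ 0
  have hsign : g - p * q ≤ 0 := by
    have hx' : x - p • n ∈ Fut := by
      have h1 : lor (x - p • n) (x - p • n) = -1 - p ^ 2 := by
        simp only [lor_sub_left, lor_sub_right, lor_smul_left, lor_smul_right, hx.1, hn,
          lor_comm n x, ← hp]
        ring
      have h2 : lor x (x - p • n) = -1 - p ^ 2 := by
        simp only [lor_sub_right, lor_smul_right, hx.1, ← hp]; ring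
      refine ⟨by rw [h1]; nlinarith [sq_nonneg p], ?_⟩
      by_contra hneg
      push Not at hneg
      have h4 : -(x - p • n) ∈ Fut := by
        refine ⟨?_, ?_⟩
        · rw [lor_neg_left, lor_neg_right, h1]; nlinarith [sq_nonneg p]
        · rw [Pi.neg_apply]; linarith
      have h5 := lor_fut_nonpos (Hyp_sub_Fut hx) h4
      rw [lor_neg_right, h2] at h5
      nlinarith [sq_nonneg p]
    have h6 := lor_fut_nonpos hx' (Hyp_sub_Fut hy)
    have h7 : lor (x - p • n) y = g - p * q := by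
      simp only [lor_sub_left, lor_smul_left, lor_comm n y, ← hq, ← hg]
    rw [h7] at h6; exact h6
  have hsq : (1 + p ^ 2) * (1 + q ^ 2) ≤ (p * q - g) ^ 2 := by nlinarith
  have hcosh : Real.cosh (Real.arsinh p - Real.arsinh q) ≤ Real.cosh (hd x y) := by
    rw [cosh_hd hx hy, Real.cosh_sub, Real.cosh_arsinh, Real.cosh_arsinh, Real.sinh_arsinh,
      Real.sinh_arsinh, ← Real.sqrt_mul (by positivity)]
    have : Real.sqrt ((1 + p ^ 2) * (1 + q ^ 2)) ≤ p * q - g := by
      rw [← Real.sqrt_sq (show 0 ≤ p * q - g by linarith)]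
      exact Real.sqrt_le_sqrt hsq
    linarith
  have := Real.cosh_le_cosh.1 hcosh
  rwa [abs_of_nonneg (hd_nonneg hx hy)] at this

/-- a point on the line `n^⊥` is at distance at least `D` from the line `m^⊥` -/
theorem sinh_le_of_lines {x n m : V3} (hx : x ∈ Hyp) (hn : lor n n = 1) (hm : lor m m = 1)
    {D : ℝ} (hD : 0 ≤ D) (h : lor n m ≤ -Real.cosh D ∨ Real.cosh D ≤ lor n m) (hxn : lor x n = 0) :
    Real.sinh D ≤ |lor x m| := by
  have hG := gram_det x n m
  rw [hx.1, hn, hm, hxn] at hG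
  have hc : 1 ≤ Real.cosh D := Real.one_le_cosh D
  have h2 : Real.cosh D ^ 2 ≤ lor n m ^ 2 := by
    rcases h with h | h <;> nlinarith
  have h3 : Real.sinh D ^ 2 ≤ lor x m ^ 2 := by
    rw [Real.sinh_sq]; nlinarith
  exact abs_le_abs_of_sq_le_sq' hD h3
where
  abs_le_abs_of_sq_le_sq' {D q : ℝ} (hD : 0 ≤ D) (h : Real.sinh D ^ 2 ≤ q ^ 2) :
      Real.sinh D ≤ |q| := by
    have := sq_le_sq.1 h
    rwa [abs_of_nonneg (Real.sinh_nonneg_iff.2 hD)] at this

/-- distance between points of two disjoint lines -/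
theorem le_hd_of_lines {x y n m : V3} (hx : x ∈ Hyp) (hy : y ∈ Hyp) (hn : lor n n = 1)
    (hm : lor m m = 1) {D : ℝ} (hD : 0 ≤ D) (h : lor n m ≤ -Real.cosh D ∨ Real.cosh D ≤ lor n m)
    (hxn : lor x n = 0) (hym : lor y m = 0) : D ≤ hd x y := by
  have h1 := sinh_le_of_lines hx hn hm hD h hxn
  have h2 := arsinh_lip hx hy hm
  rw [hym, Real.arsinh_zero, sub_zero] at h2
  refine le_trans ?_ h2
  rcases le_total 0 (lor x m) with h3 | h3
  · rw [abs_of_nonneg h3] at h1
    rw [abs_of_nonneg (Real.arsinh_nonneg_iff.2 h3)]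
    rw [← Real.arsinh_sinh D]
    exact Real.arsinh_le_arsinh.2 h1
  · rw [abs_of_nonpos h3] at h1
    rw [abs_of_nonpos (Real.arsinh_nonpos_iff.2 h3), ← Real.arsinh_neg]
    rw [← Real.arsinh_sinh D]
    exact Real.arsinh_le_arsinh.2 h1

/-- disjoint half planes -/
theorem sep_pos {o x n m : V3} (ho : o ∈ Hyp) (hx : x ∈ Hyp) (hn : lor n n = 1) (hm : lor m m = 1)
    (h : lor n m ≤ -1) (h1 : 0 < lor o n) (h2 : 0 < lor o m) (hxn : lor x n ≤ 0) :
    0 < lor x m := by
  have hc : lor (n + m) (n + m) ≤ 0 := by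
    simp only [lor_add_left, lor_add_right, hn, hm]; rw [lor_comm m n]; linarith
  have hc0 : n + m ≠ 0 := by
    intro h0
    have : lor o n + lor o m = 0 := by rw [← lor_add_right, h0]; simp
    linarith
  rcases le_total 0 ((n + m) 2) with h3 | h3
  · exfalso
    have hF : n + m ∈ Fut := ⟨hc, h3⟩
    have := lor_hyp_fut_neg ho hF (fut_pos_of_ne hF hc0)
    rw [lor_add_right] at this; linarith
  · have hF : -(n + m) ∈ Fut := by
      refine ⟨?_, by rw [Pi.neg_apply]; linarith⟩
      rw [lor_neg_left, lor_neg_right, neg_neg]; exact hc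
    have := lor_hyp_fut_neg hx hF (fut_pos_of_ne hF (neg_ne_zero.2 hc0))
    rw [lor_neg_right, lor_add_right] at this; linarith

theorem Hyp_one_le {x : V3} (hx : x ∈ Hyp) : 1 ≤ x 2 := by
  have h1 := hx.1
  have h2 := hx.2
  unfold lor at h1
  nlinarith [sq_nonneg (x 0), sq_nonneg (x 1)]

theorem isClosed_Hyp : IsClosed Hyp := by
  have : Hyp = {x : V3 | lor x x = -1} ∩ {x | 1 ≤ x 2} := by
    ext x
    constructor
    · intro h; exact ⟨h.1, Hyp_one_le h⟩
    · rintro ⟨h1, h2⟩
      exact ⟨h1, lt_of_lt_of_le one_pos h2⟩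
  rw [this]
  exact (isClosed_eq (continuous_lor continuous_id continuous_id) continuous_const).inter
    (isClosed_le continuous_const (continuous_apply 2))

/-- sets with bounded distance to `e2` are compact -/
theorem isCompact_ball (r : ℝ) : IsCompact {x : V3 | x ∈ Hyp ∧ hd e2 x ≤ r} := by
  rcases lt_or_ge r 0 with hr | hr
  · have : {x : V3 | x ∈ Hyp ∧ hd e2 x ≤ r} = ∅ := by
      ext x
      simp only [mem_ofPred_eq, mem_empty_iff_false, iff_false, not_and, not_le]
      intro hx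
      exact lt_of_lt_of_le hr (hd_nonneg e2_mem hx)
    rw [this]; exact isCompact_empty
  have : {x : V3 | x ∈ Hyp ∧ hd e2 x ≤ r} = Hyp ∩ {x | x 2 ≤ Real.cosh r} := by
    ext x
    constructor
    · rintro ⟨h1, h2⟩
      refine ⟨h1, ?_⟩
      have := (hd_le_iff e2_mem h1 hr).1 h2
      rw [lor_e2] at this
      simpa using this
    · rintro ⟨h1, h2⟩
      refine ⟨h1, (hd_le_iff e2_mem h1 hr).2 ?_⟩
      rw [lor_e2]
      simpa using h2
  rw [this]
  apply Metric.isCompact_of_isClosed_isBounded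
  · exact isClosed_Hyp.inter (isClosed_le (continuous_apply 2) continuous_const)
  · refine (Metric.isBounded_closedBall (x := (0 : V3)) (r := Real.cosh r)).subset ?_
    rintro x ⟨h1, h2⟩
    rw [mem_closedBall_zero_iff, pi_norm_le_iff_of_nonneg (Real.cosh_pos r).le]
    have h3 := h1.1
    have h4 := h1.2
    simp only [mem_ofPred_eq] at h2
    unfold lor at h3
    have h5 : x 2 * x 2 ≤ Real.cosh r * Real.cosh r := mul_self_le_mul_self h4.le h2
    intro i
    rw [Real.norm_eq_abs]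
    apply abs_le_of_sq_le_sq _ (Real.cosh_pos r).le
    fin_cases i
    · simp only [Fin.zero_eta]; nlinarith [sq_nonneg (x 1)]
    · simp only [Fin.mk_one]; nlinarith [sq_nonneg (x 0)]
    · simp only [Fin.reduceFinMk]; nlinarith

theorem isClosed_UT : IsClosed UT := by
  have : UT = {p : V3 × V3 | p.1 ∈ Hyp} ∩ ({p | lor p.1 p.2 = 0} ∩ {p | lor p.2 p.2 = 1}) := rfl
  rw [this]
  exact (isClosed_Hyp.preimage continuous_fst).inter
    ((isClosed_eq (continuous_lor continuous_fst continuous_snd) continuous_const).inter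
      (isClosed_eq (continuous_lor continuous_snd continuous_snd) continuous_const))

theorem continuousOn_hd : ContinuousOn (fun p : V3 × V3 => hd p.1 p.2) (Hyp ×ˢ Hyp) := by
  unfold hd
  refine Real.continuousOn_arcosh.comp
    (continuous_lor continuous_fst continuous_snd).neg.continuousOn ?_
  rintro ⟨x, y⟩ ⟨hx, hy⟩
  exact one_le_N hx hy

theorem flow_mem {y : V3 × V3} (hy : y ∈ UT) (t : ℝ) : flow t y ∈ UT := by
  obtain ⟨h1, h2, h3⟩ := hy
  have hcs : Real.cosh t ^ 2 - Real.sinh t ^ 2 = 1 := Real.cosh_sq_sub_sinh_sq t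
  refine ⟨?_, ?_, ?_⟩
  · apply mem_Hyp_of_lor_neg h1
    · simp only [flow, lor_add_left, lor_add_right, lor_smul_left, lor_smul_right, h1.1, h2, h3,
        lor_comm y.2 y.1]
      linarith
    · simp only [flow, lor_add_right, lor_smul_right, h1.1, h2]
      have := Real.cosh_pos t
      linarith
  · simp only [flow, lor_add_left, lor_add_right, lor_smul_left, lor_smul_right, h1.1, h2, h3,
      lor_comm y.2 y.1]
    ring
  · simp only [flow, lor_add_left, lor_add_right, lor_smul_left, lor_smul_right, h1.1, h2, h3,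
      lor_comm y.2 y.1]
    linarith

theorem flow_add (s t : ℝ) (y : V3 × V3) : flow (s + t) y = flow s (flow t y) := by
  simp only [flow, Real.cosh_add, Real.sinh_add]
  ext1
  · module
  · module

theorem flow_zero (y : V3 × V3) : flow 0 y = y := by
  simp [flow]

theorem pact_flow (A : V3 →ₗ[ℝ] V3) (t : ℝ) (y : V3 × V3) : pact A (flow t y) = flow t (pact A y) := by
  simp [flow, pact, map_add, map_smul]

theorem pact_mem {A : V3 →ₗ[ℝ] V3} (hA : IsIso A) {y : V3 × V3} (hy : y ∈ UT) : pact A y ∈ UT := by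
  obtain ⟨h1, h2, h3⟩ := hy
  exact ⟨hA.hyp _ h1, by simp only [pact, hA.lor_eq, h2], by simp only [pact, hA.lor_eq, h3]⟩

theorem rev_mem {y : V3 × V3} (hy : y ∈ UT) : rev y ∈ UT := by
  obtain ⟨h1, h2, h3⟩ := hy
  exact ⟨h1, by simp only [rev, lor_neg_right, h2, neg_zero],
    by simp only [rev, lor_neg_right, lor_neg_left, h3, neg_neg]⟩

theorem flow_rev (t : ℝ) (y : V3 × V3) : flow t (rev y) = rev (flow (-t) y) := by
  simp only [flow, rev, Real.cosh_neg, Real.sinh_neg]
  ext1
  · module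
  · module

theorem hd_flow {y : V3 × V3} (hy : y ∈ UT) (s t : ℝ) : hd (flow s y).1 (flow t y).1 = |s - t| := by
  obtain ⟨h1, h2, h3⟩ := hy
  have : -lor (flow s y).1 (flow t y).1 = Real.cosh |s - t| := by
    rw [Real.cosh_abs, Real.cosh_sub]
    simp only [flow, lor_add_left, lor_add_right, lor_smul_left, lor_smul_right, h1.1, h2, h3,
      lor_comm y.2 y.1]
    ring
  unfold hd
  rw [this, Real.arcosh_cosh (abs_nonneg _)]

theorem btw_flow {y : V3 × V3} (hy : y ∈ UT) {r s t : ℝ} (h1 : r ≤ s) (h2 : s ≤ t) :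
    Btw (flow r y).1 (flow s y).1 (flow t y).1 := by
  refine ⟨(flow_mem hy s).1, ?_⟩
  rcases eq_or_lt_of_le (h1.trans h2) with h3 | h3
  · have : s = r := by linarith
    subst this
    exact ⟨1, 0, zero_le_one, le_rfl, by simp⟩
  have hS : 0 < Real.sinh (t - r) := Real.sinh_pos_iff.2 (by linarith)
  refine ⟨Real.sinh (t - s) / Real.sinh (t - r), Real.sinh (s - r) / Real.sinh (t - r),
    div_nonneg (Real.sinh_nonneg_iff.2 (by linarith)) hS.le,
    div_nonneg (Real.sinh_nonneg_iff.2 (by linarith)) hS.le, ?_⟩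
  have e1 : Real.cosh s = Real.sinh (t - s) / Real.sinh (t - r) * Real.cosh r +
      Real.sinh (s - r) / Real.sinh (t - r) * Real.cosh t := by
    rw [div_mul_eq_mul_div, div_mul_eq_mul_div, ← add_div, eq_div_iff hS.ne']
    rw [Real.sinh_sub, Real.sinh_sub, Real.sinh_sub]; ring
  have e2 : Real.sinh s = Real.sinh (t - s) / Real.sinh (t - r) * Real.sinh r +
      Real.sinh (s - r) / Real.sinh (t - r) * Real.sinh t := by
    rw [div_mul_eq_mul_div, div_mul_eq_mul_div, ← add_div, eq_div_iff hS.ne']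
    rw [Real.sinh_sub, Real.sinh_sub, Real.sinh_sub]; ring
  simp only [flow]
  rw [e1, e2]
  module

theorem nrm_unit {y : V3 × V3} (hy : y ∈ UT) : lor (nrm y) (nrm y) = 1 := by
  obtain ⟨h1, h2, h3⟩ := hy
  have : lor (nrm y) (nrm y) = lor y.1 y.2 ^ 2 - lor y.1 y.1 * lor y.2 y.2 := by
    simp only [nrm, cross, lor, Matrix.cons_val_zero, Matrix.cons_val_one, Matrix.cons_val]
    ring
  rw [this, h1.1, h2, h3]; ring

theorem nrm_orth (y : V3 × V3) : lor y.1 (nrm y) = 0 ∧ lor y.2 (nrm y) = 0 := by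
  constructor <;>
  · simp only [nrm, cross, lor, Matrix.cons_val_zero, Matrix.cons_val_one, Matrix.cons_val]
    ring

theorem nrm_flow {y : V3 × V3} (t : ℝ) : nrm (flow t y) = nrm y := by
  have hcs : Real.cosh t ^ 2 - Real.sinh t ^ 2 = 1 := Real.cosh_sq_sub_sinh_sq t
  funext i
  fin_cases i
  · simp only [nrm, cross, flow, Pi.add_apply, Pi.smul_apply, smul_eq_mul, Fin.zero_eta,
      Matrix.cons_val_zero]
    linear_combination (y.1 1 * y.2 2 - y.1 2 * y.2 1) * hcs
  · simp only [nrm, cross, flow, Pi.add_apply, Pi.smul_apply, smul_eq_mul, Fin.mk_one,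
      Matrix.cons_val]
    linear_combination (y.1 2 * y.2 0 - y.1 0 * y.2 2) * hcs
  · simp only [nrm, cross, flow, Pi.add_apply, Pi.smul_apply, smul_eq_mul, Fin.reduceFinMk,
      Matrix.cons_val]
    linear_combination (-(y.1 0 * y.2 1 - y.1 1 * y.2 0)) * hcs

theorem continuous_nrm : Continuous nrm := by
  apply continuous_pi
  intro i
  fin_cases i
  · simp only [nrm, cross, Fin.zero_eta, Matrix.cons_val_zero]; fun_prop
  · simp only [nrm, cross, Fin.mk_one, Matrix.cons_val_one]; fun_prop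
  · simp only [nrm, cross, Fin.reduceFinMk, Matrix.cons_val]; fun_prop

/-- the cross product is the determinant -/
theorem lor_cross (x y z : V3) : lor (cross x y) z = (Matrix.of ![x, y, z]).det := by
  rw [Matrix.det_fin_three]
  simp only [cross, lor, Matrix.of_apply, Matrix.cons_val_zero, Matrix.cons_val_one,
    Matrix.cons_val]
  ring

theorem mulVec_inj_SL (g : SpecialLinearGroup (Fin 3) ℝ) (w : V3) :
    g.1 *ᵥ (g⁻¹.1 *ᵥ w) = w := by
  have h : g.1 * g⁻¹.1 = 1 := congrArg Subtype.val (mul_inv_cancel g)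
  rw [Matrix.mulVec_mulVec, h, Matrix.one_mulVec]

/-- matrices of determinant one commute with the cross product -/
theorem nrm_mact {g : SpecialLinearGroup (Fin 3) ℝ}
    (hg : ∀ x y : V3, lor (g.1 *ᵥ x) (g.1 *ᵥ y) = lor x y) (y : V3 × V3) :
    nrm (mact g y) = g.1 *ᵥ nrm y := by
  have key : ∀ z, lor (nrm (mact g y)) (g.1 *ᵥ z) = lor (g.1 *ᵥ nrm y) (g.1 *ᵥ z) := by
    intro z
    rw [hg]
    simp only [nrm, mact]
    rw [lor_cross, lor_cross]
    have : (Matrix.of ![g.1 *ᵥ y.1, g.1 *ᵥ y.2, g.1 *ᵥ z] : Matrix (Fin 3) (Fin 3) ℝ) =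
        (Matrix.of ![y.1, y.2, z]) * g.1ᵀ := by
      ext i j
      rw [Matrix.mul_apply]
      fin_cases i <;>
        simp [Matrix.mulVec, dotProduct, Matrix.transpose_apply, mul_comm]
    rw [this, Matrix.det_mul, Matrix.det_transpose, g.2, mul_one]
  have : nrm (mact g y) - g.1 *ᵥ nrm y = 0 := by
    apply lor_nondeg
    intro w
    have h := key (g⁻¹.1 *ᵥ w)
    rw [mulVec_inj_SL] at h
    rw [lor_sub_left, h, sub_self]
  exact sub_eq_zero.1 this

theorem continuous_mulVec (A : Matrix (Fin 3) (Fin 3) ℝ) : Continuous fun v : V3 => A *ᵥ v :=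
  (Matrix.mulVecLin A).continuous_of_finiteDimensional

/-- vectors orthogonal to an orthonormal frame vanish -/
theorem eq_zero_of_orth {y : V3 × V3} (hy : y ∈ UT) {w : V3} (h1 : lor w y.1 = 0)
    (h2 : lor w y.2 = 0) (h3 : lor w (nrm y) = 0) : w = 0 := by
  have hdet : (Matrix.of ![y.1, y.2, nrm y] : Matrix (Fin 3) (Fin 3) ℝ).det = 1 := by
    rw [← lor_cross]
    exact nrm_unit hy
  have hz : (Matrix.of ![y.1, y.2, nrm y] : Matrix (Fin 3) (Fin 3) ℝ) *ᵥ
      ![w 0, w 1, -w 2] = 0 := by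
    funext i
    unfold lor at h1 h2 h3
    fin_cases i
    · simp only [Matrix.mulVec, dotProduct, Fin.sum_univ_three, Matrix.of_apply, Fin.zero_eta,
        Matrix.cons_val_zero, Matrix.cons_val_one, Matrix.cons_val, Pi.zero_apply]
      linarith
    · simp only [Matrix.mulVec, dotProduct, Fin.sum_univ_three, Matrix.of_apply, Fin.mk_one,
        Matrix.cons_val_zero, Matrix.cons_val_one, Matrix.cons_val, Pi.zero_apply]
      linarith
    · simp only [Matrix.mulVec, dotProduct, Fin.sum_univ_three, Matrix.of_apply,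
        Fin.reduceFinMk,
        Matrix.cons_val_zero, Matrix.cons_val_one, Matrix.cons_val, Pi.zero_apply]
      linarith
  have h4 := Matrix.eq_zero_of_mulVec_eq_zero (by rw [hdet]; exact one_ne_zero) hz
  funext i
  have h50 := congrFun h4 0
  have h51 := congrFun h4 1
  have h52 := congrFun h4 2
  simp at h50 h51 h52
  fin_cases i <;> simp [h50, h51, h52]

/-- a point on the geodesic through `y` is reached by the flow -/
theorem exists_flow_eq {y : V3 × V3} (hy : y ∈ UT) {x : V3} (hx : x ∈ Hyp)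
    (h : lor x (nrm y) = 0) : ∃ t : ℝ, x = (flow t y).1 := by
  obtain ⟨hy1, hy2, hy3⟩ := hy
  have hw : x + (lor x y.1) • y.1 - (lor x y.2) • y.2 = 0 := by
    apply eq_zero_of_orth ⟨hy1, hy2, hy3⟩
    · simp only [lor_add_left, lor_sub_left, lor_smul_left, hy1.1, lor_comm y.2 y.1, hy2]; ring
    · simp only [lor_add_left, lor_sub_left, lor_smul_left, hy3, hy2]; ring
    · simp only [lor_add_left, lor_sub_left, lor_smul_left, (nrm_orth y).1, (nrm_orth y).2, h]
      ring
  have hxe : x = (-lor x y.1) • y.1 + (lor x y.2) • y.2 := by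
    have := sub_eq_zero.1 hw
    rw [← this]; module
  set c := -lor x y.1 with hc
  set s := lor x y.2 with hs
  have hc1 : 1 ≤ c := one_le_N hx hy1
  have hcs : c ^ 2 - s ^ 2 = 1 := by
    have h1 := hx.1
    rw [hxe] at h1
    simp only [lor_add_left, lor_add_right, lor_smul_left, lor_smul_right, hy1.1, hy2, hy3,
      lor_comm y.2 y.1] at h1
    linarith
  refine ⟨Real.arsinh s, ?_⟩
  have h1 : Real.cosh (Real.arsinh s) = c := by
    rw [Real.cosh_arsinh]
    rw [show 1 + s ^ 2 = c ^ 2 by linarith]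
    exact Real.sqrt_sq (by linarith)
  simp only [flow, h1, Real.sinh_arsinh]
  exact hxe

/-- points of a segment of a flow line lie on the flow line -/
theorem btw_flow_exists {y : V3 × V3} (hy : y ∈ UT) {r t : ℝ} (h1 : r ≤ t) {z : V3}
    (hz : Btw (flow r y).1 z (flow t y).1) : ∃ s, r ≤ s ∧ s ≤ t ∧ z = (flow s y).1 := by
  have hadd := hz.hd_add (flow_mem hy r).1 (flow_mem hy t).1
  obtain ⟨hzH, a, b, _, _, hzab⟩ := hz
  have hn : lor z (nrm y) = 0 := by
    have e1 : lor (flow r y).1 (nrm y) = 0 := by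
      rw [← nrm_flow r]; exact (nrm_orth _).1
    have e2 : lor (flow t y).1 (nrm y) = 0 := by
      rw [← nrm_flow t]; exact (nrm_orth _).1
    rw [hzab, lor_add_left, lor_smul_left, lor_smul_left, e1, e2]; ring
  obtain ⟨s, hs⟩ := exists_flow_eq hy hzH hn
  rw [hs, hd_flow hy, hd_flow hy, hd_flow hy, abs_of_nonpos (by linarith : r - t ≤ 0)] at hadd
  refine ⟨s, ?_, ?_, hs⟩
  · by_contra h
    push Not at h
    rw [abs_of_pos (by linarith : 0 < r - s), abs_of_neg (by linarith : s - t < 0)] at hadd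
    linarith
  · by_contra h
    push Not at h
    rw [abs_of_neg (by linarith : r - s < 0), abs_of_pos (by linarith : 0 < s - t)] at hadd
    linarith

/-- every pair of points lies on a flow line -/
theorem exists_flow_line {x z : V3} (hx : x ∈ Hyp) (hz : z ∈ Hyp) :
    ∃ y ∈ UT, y.1 = x ∧ (flow (hd x z) y).1 = z := by
  have hN := one_le_N hx hz
  have hch : Real.cosh (hd x z) = -lor x z := Real.cosh_arcosh hN
  have hcs : Real.cosh (hd x z) ^ 2 - Real.sinh (hd x z) ^ 2 = 1 :=
    Real.cosh_sq_sub_sinh_sq (hd x z)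
  by_cases h0 : hd x z = 0
  · have hxz : x = z := by
      rw [h0, Real.cosh_zero] at hch
      have h2 : lor (x - z) (x - z) = 0 := by
        simp only [lor_sub_left, lor_sub_right, hx.1, hz.1, lor_comm z x]; linarith
      have h3 : lor x (x - z) = 0 := by
        simp only [lor_sub_right, hx.1]; linarith
      have h4 := hx.1
      have h5 := hx.2
      set v := x - z with hv
      unfold lor at h2 h3 h4
      have hpos : 0 < x 2 := h5
      have h6 : (x 0 * v 1 - x 1 * v 0) ^ 2 + v 0 ^ 2 + v 1 ^ 2 = 0 := by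
        have e : x 0 * v 0 + x 1 * v 1 = x 2 * v 2 := by linarith
        have e' : (x 0 * v 0 + x 1 * v 1) ^ 2 = (x 2) ^ 2 * (v 2) ^ 2 := by rw [e]; ring
        have e'' : x 2 ^ 2 = 1 + x 0 ^ 2 + x 1 ^ 2 := by linarith
        have e3 : v 2 ^ 2 = v 0 ^ 2 + v 1 ^ 2 := by linarith
        rw [e'', e3] at e'
        linarith
      have h70 : v 0 = 0 := by
        have : v 0 ^ 2 = 0 := by
          nlinarith [sq_nonneg (x 0 * v 1 - x 1 * v 0), sq_nonneg (v 0), sq_nonneg (v 1)]
        exact pow_eq_zero_iff two_ne_zero |>.1 this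
      have h71 : v 1 = 0 := by
        have : v 1 ^ 2 = 0 := by
          nlinarith [sq_nonneg (x 0 * v 1 - x 1 * v 0), sq_nonneg (v 0), sq_nonneg (v 1)]
        exact pow_eq_zero_iff two_ne_zero |>.1 this
      have h72 : v 2 = 0 := by
        rw [h70, h71] at h3
        have : x 2 * v 2 = 0 := by linarith
        rcases mul_eq_zero.1 this with h | h
        · exact absurd h hpos.ne'
        · exact h
      have : x - z = 0 := by
        rw [← hv]
        funext i
        fin_cases i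
        · exact h70
        · exact h71
        · exact h72
      exact sub_eq_zero.1 this
    have hq : 0 < 1 + x 1 ^ 2 := by positivity
    have hs2 : Real.sqrt (1 + x 1 ^ 2) ^ 2 = 1 + x 1 ^ 2 := Real.sq_sqrt hq.le
    have hs0 : 0 < Real.sqrt (1 + x 1 ^ 2) := Real.sqrt_pos.2 hq
    refine ⟨(x, (Real.sqrt (1 + x 1 ^ 2))⁻¹ • ![x 2, 0, x 0]), ⟨hx, ?_, ?_⟩, rfl, ?_⟩
    · simp only [lor_smul_right]
      simp only [lor, Matrix.cons_val_zero, Matrix.cons_val_one, Matrix.cons_val]
      ring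
    · simp only [lor_smul_right, lor_smul_left]
      simp only [lor, Matrix.cons_val_zero, Matrix.cons_val_one, Matrix.cons_val]
      have h4 := hx.1
      unfold lor at h4
      have : x 2 * x 2 + 0 * 0 - x 0 * x 0 = Real.sqrt (1 + x 1 ^ 2) ^ 2 := by
        rw [hs2]; linarith
      rw [this]
      field_simp
    · rw [h0, flow_zero]
      exact hxz
  · have hs : Real.sinh (hd x z) ≠ 0 := by
      rwa [Ne, Real.sinh_eq_zero]
    refine ⟨(x, (Real.sinh (hd x z))⁻¹ • (z - Real.cosh (hd x z) • x)), ⟨hx, ?_, ?_⟩, rfl, ?_⟩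
    · simp only [lor_smul_right, lor_sub_right, hx.1, hch]
      ring
    · simp only [lor_smul_right, lor_sub_right, lor_smul_left, lor_sub_left, hx.1, hz.1,
        lor_comm z x]
      have e : lor x z = -Real.cosh (hd x z) := by rw [hch]; ring
      rw [e]
      field_simp
      linarith
    · simp only [flow]
      rw [smul_smul, mul_inv_cancel₀ hs, one_smul]
      module

theorem mact_flow (g : SpecialLinearGroup (Fin 3) ℝ) (t : ℝ) (y : V3 × V3) :
    mact g (flow t y) = flow t (mact g y) := by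
  simp [flow, mact, Matrix.mulVec_add, Matrix.mulVec_smul]

theorem mact_mul (g h : SpecialLinearGroup (Fin 3) ℝ) (y : V3 × V3) :
    mact (g * h) y = mact g (mact h y) := by
  simp [mact, Matrix.mulVec_mulVec]

theorem mact_one (y : V3 × V3) : mact 1 y = y := by
  simp [mact]

theorem flow_nat_period {g : SpecialLinearGroup (Fin 3) ℝ} {T : ℝ} {y : V3 × V3}
    (h : flow T y = mact g y) (n : ℕ) : flow (n * T) y = mact (g ^ n) y := by
  induction n with
  | zero => simp [flow_zero, mact_one]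
  | succ n ih =>
    rw [show ((n + 1 : ℕ) : ℝ) * T = n * T + T by push_cast; ring, flow_add, h, ← mact_flow, ih,
      pow_succ', mact_mul]

theorem flow_int_period {g : SpecialLinearGroup (Fin 3) ℝ} {T : ℝ} {y : V3 × V3}
    (h : flow T y = mact g y) (n : ℤ) : flow (n * T) y = mact (g ^ n) y := by
  obtain ⟨m, rfl | rfl⟩ := n.eq_nat_or_neg
  · rw [zpow_natCast]; exact_mod_cast flow_nat_period h m
  · have h1 := flow_nat_period h m
    have h2 : flow (-(m * T)) (mact (g ^ m) y) = y := by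
      rw [← h1, ← flow_add]; simp [flow_zero]
    rw [← mact_flow] at h2
    have h3 : mact (g ^ m)⁻¹ (mact (g ^ m) (flow (-(m * T)) y)) = mact (g ^ m)⁻¹ y := by rw [h2]
    rw [← mact_mul, inv_mul_cancel, mact_one] at h3
    rw [_root_.zpow_neg, zpow_natCast, ← h3]
    congr 1
    push_cast; ring

theorem mact_mem_UT {Γ : Subgroup (SpecialLinearGroup (Fin 3) ℝ)} (hΓ : IsSurfaceGroup Γ)
    {g : SpecialLinearGroup (Fin 3) ℝ} (hg : g ∈ Γ) {y : V3 × V3} (hy : y ∈ UT) :
    mact g y ∈ UT := by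
  obtain ⟨h1, h2, h3⟩ := hy
  exact ⟨hΓ.maps_hyp g hg _ h1, by simp only [mact, hΓ.lor_eq g hg, h2],
    by simp only [mact, hΓ.lor_eq g hg, h3]⟩

/-- two transversal lines meet -/
theorem exists_meet {n m : V3} (hn : lor n n = 1) (hm : lor m m = 1) (h : |lor n m| < 1) :
    ∃ x ∈ Hyp, lor x n = 0 ∧ lor x m = 0 := by
  have hq : lor (cross n m) (cross n m) = lor n m ^ 2 - 1 := by
    have : lor (cross n m) (cross n m) = lor n m ^ 2 - lor n n * lor m m := by
      simp only [cross, lor, Matrix.cons_val_zero, Matrix.cons_val_one, Matrix.cons_val]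
      ring
    rw [this, hn, hm]; ring
  have hlt : lor n m ^ 2 < 1 := by
    rw [← sq_abs]; nlinarith [abs_nonneg (lor n m)]
  have o1 : lor (cross n m) n = 0 := by
    simp only [cross, lor, Matrix.cons_val_zero, Matrix.cons_val_one, Matrix.cons_val]; ring
  have o2 : lor (cross n m) m = 0 := by
    simp only [cross, lor, Matrix.cons_val_zero, Matrix.cons_val_one, Matrix.cons_val]; ring
  set r := Real.sqrt (1 - lor n m ^ 2) with hr
  have hrpos : 0 < r := Real.sqrt_pos.2 (by linarith)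
  have hr2 : r ^ 2 = 1 - lor n m ^ 2 := Real.sq_sqrt (by linarith)
  have hu : ∀ ε : ℝ, ε ^ 2 = 1 → lor ((ε / r) • cross n m) ((ε / r) • cross n m) = -1 := by
    intro ε hε
    rw [lor_smul_left, lor_smul_right, hq]
    have : ε / r * (ε / r * (lor n m ^ 2 - 1)) = -(ε ^ 2 * (1 - lor n m ^ 2) / r ^ 2) := by
      field_simp; ring
    rw [this, hε, ← hr2, one_mul, div_self (by positivity)]
  have hne : lor e2 (cross n m) ≠ 0 := by
    intro h0
    rw [lor_e2] at h0
    have h0' : cross n m 2 = 0 := by linarith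
    have h1 : lor (cross n m) (cross n m) < 0 := by rw [hq]; linarith
    unfold lor at h1
    rw [h0'] at h1
    nlinarith [sq_nonneg (cross n m 0), sq_nonneg (cross n m 1)]
  rcases lt_or_gt_of_ne hne with h0 | h0
  · refine ⟨((1 : ℝ) / r) • cross n m, mem_Hyp_of_lor_neg e2_mem (hu 1 (by norm_num)) ?_, ?_, ?_⟩
    · rw [lor_smul_right]
      exact mul_neg_of_pos_of_neg (by positivity) h0
    · rw [lor_smul_left, o1, mul_zero]
    · rw [lor_smul_left, o2, mul_zero]
  · refine ⟨((-1 : ℝ) / r) • cross n m, mem_Hyp_of_lor_neg e2_mem (hu (-1) (by norm_num)) ?_, ?_, ?_⟩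
    · rw [lor_smul_right]
      exact mul_neg_of_neg_of_pos (div_neg_of_neg_of_pos (by norm_num) hrpos) h0
    · rw [lor_smul_left, o1, mul_zero]
    · rw [lor_smul_left, o2, mul_zero]

theorem simple_noncross' {Γ : Subgroup (SpecialLinearGroup (Fin 3) ℝ)} (hΓ : IsSurfaceGroup Γ)
    {y : V3 × V3} (hyU : y ∈ UT) (hy : IsSimpleClosed Γ y) {g : SpecialLinearGroup (Fin 3) ℝ}
    (hg : g ∈ Γ) : 1 ≤ |lor (nrm y) (g.1 *ᵥ nrm y)| := by
  by_contra hcon
  push Not at hcon
  have hgl := hΓ.lor_eq g hg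
  have hn1 := nrm_unit hyU
  have hm1 : lor (g.1 *ᵥ nrm y) (g.1 *ᵥ nrm y) = 1 := by rw [hgl, hn1]
  obtain ⟨x, hx, hxn, hxm⟩ := exists_meet hn1 hm1 hcon
  obtain ⟨t, ht⟩ := exists_flow_eq hyU hx hxn
  rw [← nrm_mact hgl] at hxm
  obtain ⟨s, hs⟩ := exists_flow_eq (mact_mem_UT hΓ hg hyU) hx hxm
  obtain ⟨T, hT, ⟨γ, hγ, hper⟩, hsim⟩ := hy
  have hst : (mact g (flow s y)).1 = (flow t y).1 := by rw [mact_flow, ← hs, ht]
  obtain ⟨k, hk⟩ := hsim s t ⟨g, hg, hst⟩
  have hkper := flow_int_period hper k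
  have htk : flow t y = mact (γ ^ k) (flow s y) := by
    rw [mact_flow, ← hkper, ← flow_add]
    congr 1; linarith
  have hfix : ((γ ^ k)⁻¹ * g).1 *ᵥ (flow s y).1 = (flow s y).1 := by
    have h1 : (mact ((γ ^ k)⁻¹ * g) (flow s y)).1 = (flow s y).1 := by
      rw [mact_mul]
      have h2 : (mact (γ ^ k)⁻¹ (mact g (flow s y))).1 = (mact (γ ^ k)⁻¹ (flow t y)).1 := by
        simp only [mact] at hst ⊢
        rw [hst]
      rw [h2, htk, ← mact_mul, inv_mul_cancel, mact_one]
    exact h1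
  have h1 := hΓ.free _ (Γ.mul_mem (Γ.inv_mem (Γ.zpow_mem hγ k)) hg) _ (flow_mem hyU s).1 hfix
  have h2 : g = γ ^ k := by
    have := inv_mul_eq_one.1 h1
    exact this.symm
  have h3 : g.1 *ᵥ nrm y = nrm y := by
    rw [← nrm_mact hgl, h2, ← hkper, nrm_flow]
  rw [h3, hn1] at hcon
  simp at hcon

/-- a simple closed geodesic does not cross its translates -/
theorem simple_noncross {Γ : Subgroup (SpecialLinearGroup (Fin 3) ℝ)} (hΓ : IsSurfaceGroup Γ)
    {y : V3 × V3} (hy : y ∈ F0 Γ) {g : SpecialLinearGroup (Fin 3) ℝ} (hg : g ∈ Γ) :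
    1 ≤ |lor (nrm y) (g.1 *ᵥ nrm y)| := by
  have hcl : IsClosed {y : V3 × V3 | 1 ≤ |lor (nrm y) (g.1 *ᵥ nrm y)|} :=
    isClosed_le continuous_const
      (continuous_lor continuous_nrm ((continuous_mulVec g.1).comp continuous_nrm)).abs
  exact closure_minimal (fun p hp => simple_noncross' hΓ hp.1 hp.2 hg) hcl hy

theorem F0_subset_UT (Γ : Subgroup (SpecialLinearGroup (Fin 3) ℝ)) : F0 Γ ⊆ UT :=
  closure_minimal (fun _ hp => hp.1) isClosed_UT

end SBA
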