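import Pool.Agent.Lib.MP_709218_gt.Tile
import Pool.Agent.Lib.MP_709218_gt.Lor2

/-! Right-angled reflection groups: word length and distances. -/

namespace SBA

open Real Set Filter Topology

variable {ι : Type}

/-- every element is a product of generators -/
theorem RA.exists_prod (R : RA ι) (w : R.W) : ∃ l : List ι, w = R.prod l ∧ l.length = R.len w := by
  obtain ⟨l, hl, rfl⟩ := R.cs.exists_isReduced w
  exact ⟨l, rfl, hl.symm⟩

namespace Mirrors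

variable {R : RA ι} (S : Mirrors R)

theorem finite_near [Finite ι] (r : ℝ) :
    {w : R.W | ∃ q ∈ S.Q, hd e2 (S.rep w q) ≤ r}.Finite := by
  obtain ⟨r0, _, hr0⟩ := S.Q_bdd
  apply (S.finite_orbit e2_mem S.ho (r + r0)).subset
  rintro w ⟨q, hq, hw⟩
  have h1 := hd_triangle e2_mem (S.rep_hyp w hq.1) (S.rep_hyp w S.ho)
  rw [S.hd_rep, hd_comm q] at h1
  have h2 := hr0 q hq
  change hd e2 (S.rep w S.o) ≤ r + r0
  linarith

theorem hd_le_len [Finite ι] :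
    ∃ C : ℝ, 0 ≤ C ∧ ∀ w : R.W, hd e2 (S.rep w e2) ≤ C * R.len w := by
  obtain ⟨C, hC⟩ := (Set.finite_range fun i => hd e2 (S.rep (R.gen i) e2)).bddAbove
  refine ⟨max C 0, le_max_right _ _, fun w => ?_⟩
  induction w using R.induction_descent with
  | one => rw [S.rep_one, hd_self e2_mem, R.len_one]; simp
  | mul i w hl ih =>
    have h1 := hd_triangle e2_mem (S.rep_hyp (R.gen i) e2_mem) (S.rep_hyp (R.gen i * w) e2_mem)
    rw [S.rep_mul, S.hd_rep] at h1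
    have h2 : hd e2 (S.rep (R.gen i) e2) ≤ C := hC ⟨i, rfl⟩
    have h3 := le_max_left C 0
    rw [hl, S.rep_mul]
    push_cast
    linarith

theorem exists_len_bound [Finite ι] : ∃ M : ℕ, ∀ v v' : R.W, ∀ x ∈ S.Q, ∀ y ∈ S.Q,
    hd (S.rep v x) (S.rep v' y) ≤ 1 → R.len (v⁻¹ * v') ≤ M := by
  obtain ⟨r0, _, hr0⟩ := S.Q_bdd
  obtain ⟨M, hM⟩ := ((S.finite_orbit S.ho S.ho (1 + 2 * r0)).image R.len).bddAbove
  refine ⟨M, fun v v' x hx y hy h => ?_⟩
  apply hM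
  refine ⟨_, ?_, rfl⟩
  change hd S.o (S.rep (v⁻¹ * v') S.o) ≤ 1 + 2 * r0
  have h0 : hd x (S.rep (v⁻¹ * v') y) ≤ 1 := by
    rw [← S.hd_rep v, ← S.rep_mul, mul_inv_cancel_left]; exact h
  have h1 := hd_triangle S.ho hx.1 (S.rep_hyp (v⁻¹ * v') S.ho)
  have h2 := hd_triangle hx.1 (S.rep_hyp (v⁻¹ * v') hy.1) (S.rep_hyp (v⁻¹ * v') S.ho)
  rw [S.hd_rep, hd_comm y] at h2
  have h3 := hr0 x hx
  have h4 := hr0 y hy
  linarith

theorem exists_len_bound' [Finite ι] : ∃ M : ℕ, ∀ n : ℕ, ∀ v v' : R.W, ∀ x ∈ S.Q, ∀ y ∈ S.Q,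
    hd (S.rep v x) (S.rep v' y) ≤ n → R.len (v⁻¹ * v') ≤ (n + 1) * M := by
  obtain ⟨M, hM⟩ := S.exists_len_bound
  refine ⟨M, fun n => ?_⟩
  induction n with
  | zero =>
    intro v v' x hx y hy h
    have := hM v v' x hx y hy (by push_cast at h; linarith)
    simpa using this
  | succ n ih =>
    intro v v' x hx y hy h
    have hx' := S.rep_hyp v hx.1
    have hy' := S.rep_hyp v' hy.1
    rcases le_or_gt (hd (S.rep v x) (S.rep v' y)) 1 with h1 | h1
    · have := hM v v' x hx y hy h1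
      nlinarith
    · obtain ⟨z, hz, hz1⟩ := exists_btw_dist hx' hy' (t := 1) zero_le_one h1.le
      obtain ⟨u, q, hq, rfl⟩ := S.cover hz.1
      have h2 := Btw.hd_add hx' hy' hz
      have h3 := hM v u x hx q hq hz1.le
      have h4 := ih u v' q hq y hy (by push_cast at h; linarith)
      have h5 := R.len_mul_le (v⁻¹ * u) (u⁻¹ * v')
      rw [mul_assoc, mul_inv_cancel_left] at h5
      calc R.len (v⁻¹ * v') ≤ M + (n + 1) * M := by omega
        _ = (n + 1 + 1) * M := by ring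

theorem len_le [Finite ι] :
    ∃ C : ℝ, 0 ≤ C ∧ ∀ w : R.W, (R.len w : ℝ) ≤ C * hd e2 (S.rep w e2) + C := by
  obtain ⟨M, hM⟩ := S.exists_len_bound'
  obtain ⟨v, q, hq, hv⟩ := S.cover e2_mem
  refine ⟨2 * R.len v + 2 * M, by positivity, fun w => ?_⟩
  have hn := hd_nonneg e2_mem (S.rep_hyp w e2_mem)
  set n := ⌈hd e2 (S.rep w e2)⌉₊ with hndef
  have h0 : hd e2 (S.rep w e2) ≤ n := Nat.le_ceil _
  have h0' : (n : ℝ) ≤ hd e2 (S.rep w e2) + 1 := (Nat.ceil_lt_add_one hn).le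
  have h1 := hM n v (w * v) q hq q hq (by
    have e : S.rep (w * v) q = S.rep w e2 := by rw [S.rep_mul, ← hv]
    rw [← hv, e]; exact h0)
  have h2 := R.len_mul_le v (v⁻¹ * (w * v) * v⁻¹)
  have h3 := R.len_mul_le (v⁻¹ * (w * v)) v⁻¹
  have e1 : v * (v⁻¹ * (w * v) * v⁻¹) = w := by group
  rw [e1] at h2
  rw [R.len_inv] at h3
  have h4 : R.len w ≤ 2 * R.len v + (n + 1) * M := by omega
  have h5 : (R.len w : ℝ) ≤ 2 * R.len v + (n + 1) * M := by exact_mod_cast h4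
  have hM0 : (0 : ℝ) ≤ M := Nat.cast_nonneg _
  have hv0 : (0 : ℝ) ≤ R.len v := Nat.cast_nonneg _
  nlinarith

end Mirrors

end SBA
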