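import Pool.Agent.Lib.MP_709218_gt.D3Rho
import Pool.Agent.Lib.MP_709218_gt.D3Coding2
import Pool.Agent.Lib.MP_709218_gt.D3Word
import Pool.Agent.Lib.MP_709218_gt.D3Soft
import Pool.Agent.Lib.MP_709218_gt.Tile2

/-! Finite time domination (`GoodOn`) from the coding of geodesics and `word_good`. -/

namespace SBA

open Matrix Set

namespace D3

/-- operator bound for the sup norm, real matrices -/
theorem exists_mulVec_boundR {d : ℕ} (A : Matrix (Fin d) (Fin d) ℝ) :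
    ∃ c : ℝ, 0 ≤ c ∧ ∀ v : Fin d → ℝ, ‖A *ᵥ v‖ ≤ c * ‖v‖ := by
  refine ⟨∑ i, ∑ j, ‖A i j‖, by positivity, fun v => ?_⟩
  rw [pi_norm_le_iff_of_nonneg (by positivity)]
  intro i
  calc ‖(A *ᵥ v) i‖ = ‖∑ j, A i j * v j‖ := rfl
    _ ≤ ∑ j, ‖A i j * v j‖ := norm_sum_le _ _
    _ ≤ ∑ j, ‖A i j‖ * ‖v‖ := by
        refine Finset.sum_le_sum fun j _ => ?_
        rw [norm_mul]
        exact mul_le_mul_of_nonneg_left (norm_le_pi_norm v j) (norm_nonneg _)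
    _ = (∑ j, ‖A i j‖) * ‖v‖ := by rw [Finset.sum_mul]
    _ ≤ (∑ i, ∑ j, ‖A i j‖) * ‖v‖ := by
        refine mul_le_mul_of_nonneg_right ?_ (norm_nonneg _)
        exact Finset.single_le_sum (f := fun i => ∑ j, ‖A i j‖)
          (fun i _ => Finset.sum_nonneg fun j _ => norm_nonneg _) (Finset.mem_univ i)

/-- the matrices `X v` of the elements `v` moving the base point by at most `R` are bounded -/
theorem exists_X_bound (R : ℝ) : ∃ B : ℝ, 1 ≤ B ∧ ∀ v : H.W, hd e2 (hex.rep v e2) ≤ R →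
    ∀ u : Fin 3 → ℝ, ‖X v *ᵥ u‖ ≤ B * ‖u‖ := by
  have hQ : e2 ∈ hex.Q := ⟨e2_mem, fun i => (hex.pos i).le⟩
  have hfin : {v : H.W | hd e2 (hex.rep v e2) ≤ R}.Finite :=
    (hex.finite_near R).subset fun v hv => ⟨e2, hQ, hv⟩
  choose c hc0 hc using fun v : H.W => exists_mulVec_boundR (X v)
  refine ⟨∑ v ∈ hfin.toFinset, c v + 1, ?_, ?_⟩
  · have : 0 ≤ ∑ v ∈ hfin.toFinset, c v := Finset.sum_nonneg fun v _ => hc0 v
    linarith
  · intro v hv u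
    refine (hc v u).trans (mul_le_mul_of_nonneg_right ?_ (norm_nonneg _))
    have := Finset.single_le_sum (f := c) (fun v _ => hc0 v)
      ((Set.Finite.mem_toFinset hfin).2 hv)
    linarith

variable {n : ℕ} [NeZero n]

/-- transport: an element of `Γ` near a frame -/
theorem frame_diff {r r' : ℝ} {p : V3} (hp : p ∈ Hyp) (u : (hexS n).K) (g : (hexS n).Γ)
    (hg : g.1 = (hexS n).j1 u) (h1 : hd (g.1.1 *ᵥ e2) p ≤ r) {w : H.W}
    (h2 : hd (hex.rep w e2) p ≤ r') :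
    hd e2 (hex.rep (u.1⁻¹ * w) e2) ≤ r + r' ∧ hd e2 (hex.rep (u.1⁻¹ * w)⁻¹ e2) ≤ r + r' := by
  have hu : g.1.1 *ᵥ e2 = hex.rep u.1 e2 := by
    rw [hg]; exact (hexS n).j1_mulVec u e2
  rw [hu] at h1
  have hm : ∀ a : H.W, hex.rep a e2 ∈ Hyp := fun a => (hex.rep_isIso a).hyp _ e2_mem
  have h3 : hd (hex.rep u.1 e2) (hex.rep w e2) ≤ r + r' := by
    refine (hd_triangle (hm _) hp (hm _)).trans ?_
    rw [hd_comm p]
    exact add_le_add h1 h2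
  have key : ∀ a b : H.W, hd e2 (hex.rep (a⁻¹ * b) e2) = hd (hex.rep a e2) (hex.rep b e2) := by
    intro a b
    have h5 := (hex.rep_isIso a).hd_eq e2 (hex.rep (a⁻¹ * b) e2)
    have h6 : hex.rep a (hex.rep (a⁻¹ * b) e2) = hex.rep b e2 := by
      rw [← Module.End.mul_apply, ← map_mul, mul_inv_cancel_left]
    rw [h6] at h5
    exact h5.symm
  refine ⟨by rw [key]; exact h3, ?_⟩
  rw [_root_.mul_inv_rev, inv_inv, key, hd_comm]
  exact h3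

/-- the matrices of `rhoR` near a frame of the coding -/
theorem frame_rho {r r' B : ℝ} (hBb : ∀ v : H.W, hd e2 (hex.rep v e2) ≤ r + r' →
      ∀ u : Fin 3 → ℝ, ‖X v *ᵥ u‖ ≤ B * ‖u‖)
    {w : ℕ → H.W} {x : ℕ → Letter} (hw : ∀ k, w (k + 1) = w k * H.gen (x k)) (k : ℕ)
    {p : V3} (hp : p ∈ Hyp) (hk : hd (hex.rep (w k) e2) p ≤ r') (g : (hexS n).Γ)
    (hg : hd (g.1.1 *ᵥ e2) p ≤ r) :
    ∃ v : H.W, (rhoR n g⁻¹).1 = X v * (NPi x k * X (w 0)⁻¹) ∧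
      (rhoR n g).1 = X (w 0) * NP x k * X v⁻¹ ∧
      (∀ u : Fin 3 → ℝ, ‖X v *ᵥ u‖ ≤ B * ‖u‖) ∧ ∀ u : Fin 3 → ℝ, ‖X v⁻¹ *ᵥ u‖ ≤ B * ‖u‖ := by
  obtain ⟨u, hu⟩ : ∃ u : (hexS n).K, (hexS n).j1 u = g.1 := g.2
  obtain ⟨h1, h2⟩ := frame_diff hp u g hu.symm hg hk
  have hgi : (g⁻¹).1 = (hexS n).j1 u⁻¹ := by
    rw [map_inv, hu]; rfl
  have e1 : (rhoR n g).1 = X u.1 := rhoR_spec n u g hu.symm
  have e2 : (rhoR n g⁻¹).1 = X (u.1)⁻¹ := rhoR_spec n u⁻¹ g⁻¹ hgi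
  refine ⟨u.1⁻¹ * w k, ?_, ?_, hBb _ h1, hBb _ h2⟩
  · rw [e2, ← X_inv_eq_NPi hw k, ← map_mul, mul_inv_cancel_right]
  · rw [e1, ← X_eq_NP hw k, ← map_mul, _root_.mul_inv_rev, inv_inv, mul_inv_cancel_left]

theorem exists_goodOn (r : ℝ) : ∃ C c : ℝ, 0 < c ∧ ∀ y ∈ (hexS n).NCset, ∀ T : ℝ, 0 < T →
    ∃ Q, GoodOn (rhoR n) C c r y (-T) T Q := by
  obtain ⟨κ, θ, hκ, hθ, hθ1, hW⟩ := word_good
  obtain ⟨L, r', hL, hr', hcod⟩ := coding n
  obtain ⟨B, hB, hBb⟩ := exists_X_bound (r + r')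
  have hlog : Real.log θ < 0 := Real.log_neg hθ hθ1
  have hθi : 1 ≤ θ⁻¹ := (one_le_inv₀ hθ).2 hθ1.le
  have hB0 : 0 ≤ B := zero_le_one.trans hB
  refine ⟨κ * B ^ 4 * θ⁻¹, -Real.log θ / L, div_pos (neg_pos.2 hlog) hL, ?_⟩
  intro y hy T hT
  obtain ⟨w, x, τ, hw, hok, hrun, hτ, hnear⟩ := hcod y hy (-T) T (by linarith)
  obtain ⟨Qt, hQ1, hQ2, hQ3, hQ4⟩ := hW x (τ T) hok hrun
  have hSX : X (w 0)⁻¹ * X (w 0) = 1 := X_inv_mul _
  have hXS : X (w 0) * X (w 0)⁻¹ = 1 := X_mul_inv _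
  have hyp : ∀ s, (flow s y).1 ∈ Hyp := fun s => (flow_mem hy.1 s).1
  refine ⟨X (w 0) * Qt * X (w 0)⁻¹, ?_, ?_, ?_, ?_⟩
  · calc X (w 0) * Qt * X (w 0)⁻¹ * (X (w 0) * Qt * X (w 0)⁻¹)
        = X (w 0) * Qt * (X (w 0)⁻¹ * X (w 0)) * Qt * X (w 0)⁻¹ := by
          simp only [Matrix.mul_assoc]
      _ = X (w 0) * (Qt * Qt) * X (w 0)⁻¹ := by
          rw [hSX, Matrix.mul_one]; simp only [Matrix.mul_assoc]
      _ = X (w 0) * Qt * X (w 0)⁻¹ := by rw [hQ1]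
  · rw [Matrix.trace_mul_comm, ← Matrix.mul_assoc, hSX, Matrix.one_mul, hQ2]
  · intro s hs1 hs2 g hg v
    obtain ⟨a, ha1, ha2, ha3, ha4⟩ := frame_rho hBb hw (τ s) (hyp s) (hnear s hs1 hs2) g hg
    have hsT : τ s ≤ τ T := (hτ s T hs1 hs2 le_rfl).1
    have e : (rhoR n g⁻¹).1 * (X (w 0) * Qt * X (w 0)⁻¹) * (rhoR n g).1 =
        X a * (NPi x (τ s) * Qt * NP x (τ s)) * X a⁻¹ := by
      rw [ha1, ha2]
      calc X a * (NPi x (τ s) * X (w 0)⁻¹) * (X (w 0) * Qt * X (w 0)⁻¹) *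
            (X (w 0) * NP x (τ s) * X a⁻¹)
          = X a * NPi x (τ s) * (X (w 0)⁻¹ * X (w 0)) * Qt * (X (w 0)⁻¹ * X (w 0)) *
              NP x (τ s) * X a⁻¹ := by simp only [Matrix.mul_assoc]
        _ = _ := by rw [hSX, Matrix.mul_one, Matrix.mul_one]; simp only [Matrix.mul_assoc]
    rw [e, ← Matrix.mulVec_mulVec, ← Matrix.mulVec_mulVec]
    calc ‖X a *ᵥ ((NPi x (τ s) * Qt * NP x (τ s)) *ᵥ (X a⁻¹ *ᵥ v))‖
        ≤ B * (κ * (B * ‖v‖)) := by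
          refine (ha3 _).trans (mul_le_mul_of_nonneg_left ?_ hB0)
          exact (hQ3 _ hsT _).trans (mul_le_mul_of_nonneg_left (ha4 v) hκ.le)
      _ = κ * B ^ 2 * 1 * ‖v‖ := by ring
      _ ≤ κ * B ^ 4 * θ⁻¹ * ‖v‖ := by
          refine mul_le_mul_of_nonneg_right ?_ (norm_nonneg _)
          refine mul_le_mul (mul_le_mul_of_nonneg_left ?_ hκ.le) hθi zero_le_one (by positivity)
          exact pow_le_pow_right₀ hB (by norm_num)
  · intro s t hs1 hst ht2 g h hg hh v u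
    obtain ⟨a, ha1, -, ha3, ha4⟩ :=
      frame_rho hBb hw (τ s) (hyp s) (hnear s hs1 (hst.trans ht2)) g hg
    obtain ⟨b, hb1, -, hb3, hb4⟩ :=
      frame_rho hBb hw (τ t) (hyp t) (hnear t (hs1.trans hst) ht2) h hh
    have htT : τ t ≤ τ T := (hτ t T (hs1.trans hst) ht2 le_rfl).1
    obtain ⟨hst', hlin⟩ := hτ s t hs1 hst ht2
    set i := τ s with hi
    set k := τ t with hk
    set S := X (w 0)⁻¹ with hS
    have f1 : ∀ (M N : Matrix (Fin 3) (Fin 3) ℝ), M * (N * S) * (X (w 0) * Qt * S) =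
        M * (N * Qt * S) := by
      intro M N
      calc M * (N * S) * (X (w 0) * Qt * S) = M * N * (S * X (w 0)) * Qt * S := by
            simp only [Matrix.mul_assoc]
        _ = _ := by rw [hSX, Matrix.mul_one]; simp only [Matrix.mul_assoc]
    have f2 : ∀ (M N : Matrix (Fin 3) (Fin 3) ℝ), M * (N * S) * (1 - X (w 0) * Qt * S) =
        M * (N * (1 - Qt) * S) := by
      intro M N
      rw [Matrix.mul_sub, f1, Matrix.mul_one, Matrix.mul_sub, Matrix.sub_mul, Matrix.mul_one,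
        Matrix.mul_sub]
    have g1 : ∀ (M N : Matrix (Fin 3) (Fin 3) ℝ) (v : Fin 3 → ℝ), (M * (N * S)) *ᵥ v =
        M *ᵥ (N *ᵥ (S *ᵥ v)) := by
      intro M N v
      rw [Matrix.mulVec_mulVec, Matrix.mulVec_mulVec]
      simp only [Matrix.mul_assoc]
    have inv1 : ∀ z : Fin 3 → ℝ, ‖z‖ ≤ B * ‖X a *ᵥ z‖ := by
      intro z
      have := ha4 (X a *ᵥ z)
      rwa [Matrix.mulVec_mulVec, X_inv_mul, Matrix.one_mulVec] at this
    have inv2 : ∀ z : Fin 3 → ℝ, ‖z‖ ≤ B * ‖X b *ᵥ z‖ := by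
      intro z
      have := hb4 (X b *ᵥ z)
      rwa [Matrix.mulVec_mulVec, X_inv_mul, Matrix.one_mulVec] at this
    rw [ha1, hb1, f1, f1, f2, f2, g1, g1, g1, g1]
    set a1 := (NPi x i * (1 - Qt)) *ᵥ (S *ᵥ v) with ha1d
    set b2 := (NPi x k * Qt) *ᵥ (S *ᵥ u) with hb2d
    set a2 := (NPi x i * Qt) *ᵥ (S *ᵥ u) with ha2d
    set b1 := (NPi x k * (1 - Qt)) *ᵥ (S *ᵥ v) with hb1d
    have hD : ‖a1‖ * ‖b2‖ ≤ κ * θ ^ (k - i) * (‖a2‖ * ‖b1‖) :=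
      hQ4 i k hst' htT (S *ᵥ v) (S *ᵥ u)
    have hpow : θ ^ (k - i) ≤ θ⁻¹ * Real.exp (-(-Real.log θ / L) * (t - s)) := by
      have h1 : θ ^ (k - i) = Real.exp (Real.log θ * ((k : ℝ) - i)) := by
        rw [← Nat.cast_sub hst', mul_comm, Real.exp_nat_mul, Real.exp_log hθ]
      have h2 : θ⁻¹ = Real.exp (-Real.log θ) := by rw [Real.exp_neg, Real.exp_log hθ]
      rw [h1, h2, ← Real.exp_add]
      refine Real.exp_le_exp.2 ?_
      have h3 := mul_le_mul_of_nonpos_left hlin hlog.le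
      have h4 : -Real.log θ + -(-Real.log θ / L) * (t - s) = Real.log θ * ((t - s) / L - 1) := by
        ring
      rw [h4]
      exact h3
    have hE := Real.exp_pos (-(-Real.log θ / L) * (t - s))
    calc ‖X a *ᵥ a1‖ * ‖X b *ᵥ b2‖
        ≤ (B * ‖a1‖) * (B * ‖b2‖) :=
          mul_le_mul (ha3 a1) (hb3 b2) (norm_nonneg _) (by positivity)
      _ = B ^ 2 * (‖a1‖ * ‖b2‖) := by ring
      _ ≤ B ^ 2 * (κ * θ ^ (k - i) * (‖a2‖ * ‖b1‖)) :=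
          mul_le_mul_of_nonneg_left hD (by positivity)
      _ ≤ B ^ 2 * (κ * (θ⁻¹ * Real.exp (-(-Real.log θ / L) * (t - s))) *
            ((B * ‖X a *ᵥ a2‖) * (B * ‖X b *ᵥ b1‖))) := by
          refine mul_le_mul_of_nonneg_left ?_ (by positivity)
          refine mul_le_mul (mul_le_mul_of_nonneg_left hpow hκ.le) ?_ (by positivity) (by positivity)
          exact mul_le_mul (inv1 a2) (inv2 b1) (norm_nonneg _) (by positivity)
      _ = κ * B ^ 4 * θ⁻¹ * Real.exp (-(-Real.log θ / L) * (t - s)) *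
            (‖X a *ᵥ a2‖ * ‖X b *ᵥ b1‖) := by ring

end D3

end SBA
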