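import Pool.Agent.Lib.MP_709218_gt.D3Base

/-! The integer certificates: 21 box cones, mapped strictly into each other by the words of the
automaton. -/

namespace SBA

namespace D3

open Letter

/-- integer vectors as triples -/
abbrev Tri := ℤ × ℤ × ℤ

/-- the action of a letter on an integer vector -/
def apL : Letter → Tri → Tri
  | r 0, (a, b, c) => (-a, b - a, c - 11 * a)
  | r 1, (a, b, c) => (a - 11 * b, -b, c - b)
  | r 2, (a, b, c) => (a - c, b - 11 * c, -c)
  | z 0, (a, b, c) => (-a - 6 * b + 34 * c, b, c)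
  | z 1, (a, b, c) => (a, 34 * a - b - 6 * c, c)
  | z 2, (a, b, c) => (a, b, -6 * a + 34 * b - c)

/-- the action of a word -/
def apW (l : List Letter) (v : Tri) : Tri := l.foldr apL v

/-- a box: main coordinate `m`, and bounds (in units of 1/10000) for `v (m+1) / v m` and
`v (m+2) / v m` -/
structure Box where
  m : Fin 3
  l1 : ℤ
  u1 : ℤ
  l2 : ℤ
  u2 : ℤ

/-- the box of an exit pair -/
def bx : Letter → Letter → Box
  | r i, r _ => ⟨i + 2, 796, 965, 712, 882⟩
  | r i, z _ => ⟨i + 2, 900, 918, 705, 1859⟩
  | z i, r j => if j = i then ⟨i, -369, 205, 230, 331⟩ else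
      if j = i + 1 then ⟨i, -222, 1263, 186, 902⟩ else ⟨i, -9475, -2273, -988, -171⟩
  | z i, z j => if j = i + 1 then ⟨i, -6315, 256, -824, 340⟩ else ⟨i, -34, 32, 280, 302⟩

/-- coordinates relative to a main coordinate -/
def mk3 (m : Fin 3) (x p q : ℤ) : Tri :=
  match m with
  | 0 => (x, p, q)
  | 1 => (q, x, p)
  | 2 => (p, q, x)

/-- coordinate functions -/
def gt3 (m : Fin 3) (v : Tri) : ℤ :=
  match m with
  | 0 => v.1
  | 1 => v.2.1
  | 2 => v.2.2

/-- vertices of a box -/
def vtx (b : Box) (i j : Bool) : Tri :=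
  mk3 b.m 10000 (if i then b.u1 else b.l1) (if j then b.u2 else b.l2)

/-- facet functionals of a box -/
def fct (b : Box) (i j : Bool) (v : Tri) : ℤ :=
  if i then
    (if j then b.u1 * gt3 b.m v - 10000 * gt3 (b.m + 1) v else 10000 * gt3 (b.m + 1) v - b.l1 * gt3 b.m v)
  else
    (if j then b.u2 * gt3 b.m v - 10000 * gt3 (b.m + 2) v else 10000 * gt3 (b.m + 2) v - b.l2 * gt3 b.m v)

/-- exit pairs: admissible, and not of the form `r i, r (i-1)` -/
def ex : Letter → Letter → Bool
  | r i, r j => decide (j = i + 1)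
  | r i, z j => decide (i = j)
  | z _, r _ => true
  | z i, z j => decide (i ≠ j)

/-- the sixteen facet values at the vertices -/
def vals (b b' : Box) (w : List Letter) : List ℤ :=
  [false, true].flatMap fun i => [false, true].flatMap fun j =>
    (let v := apW w (vtx b' i j)
     [fct b false false v, fct b false true v, fct b true false v, fct b true true v])

/-- certificate: the word `w` maps the cone of `b'` strictly into the cone of `b`, up to sign -/
def good (b b' : Box) (w : List Letter) : Bool :=
  ((vals b b' w).all fun t => decide (0 < t)) || ((vals b b' w).all fun t => decide (t < 0))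

/-- `r k, r (k-1), …` (`m` letters) -/
def seg : Fin 3 → ℕ → List Letter
  | _, 0 => []
  | k, m + 1 => r k :: seg (k + 2) m

/-- `k - m` -/
def dn : Fin 3 → ℕ → Fin 3
  | k, 0 => k
  | k, m + 1 => dn (k + 2) m

theorem chkZ : ∀ x : Letter, ∀ k : Fin 3, ex x (z k) = true → ∀ y : Letter, ex (z k) y = true →
    good (bx x (z k)) (bx (z k) y) [x] = true := by decide

set_option maxRecDepth 100000 in
theorem chkR : ∀ m : Fin 5, ∀ x : Letter, ∀ k : Fin 3, ex x (r k) = true → ∀ y : Letter,
    ex (r (dn k m)) y = true →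
    good (bx x (r k)) (bx (r (dn k m)) y) (x :: seg k m) = true := by decide

end D3

end SBA
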