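import Pool.Agent.Lib.MP_709218_gt.D3Base

/-! The first Betti number of a normal subgroup `K = ker π` of the hexagon reflection group,
`π : W → G` a surjection onto a finite group through which both parities factor:
`dim Hom(K, ℝ) = |G| / 2 + 2`. -/

namespace SBA

namespace D3

open Letter

/-- data of a finite quotient of the hexagon group -/
structure QData (G : Type) [Group G] where
  π : H.W →* G
  surj : Function.Surjective π
  sg : G →* ℤˣ
  sg_gen : ∀ x, sg (π (H.gen x)) = -1
  az : G →* ℤˣ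
  az_r : ∀ i, az (π (H.gen (r i))) = 1
  az_z : ∀ i, az (π (H.gen (z i))) = -1

namespace QData

variable {G : Type} [Group G] (D : QData G)

/-- image of a generator -/
noncomputable def p (x : Letter) : G := D.π (H.gen x)

theorem p_mul_self (x : Letter) : D.p x * D.p x = 1 := by
  rw [p, ← map_mul, H.gen_mul_self, map_one]

theorem p_comm {x y : Letter} (h : H.adj x y) : D.p x * D.p y = D.p y * D.p x := by
  rw [p, p, ← map_mul, H.gen_comm h, map_mul]

theorem mul_p_p (g : G) (x : Letter) : g * D.p x * D.p x = g := by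
  rw [mul_assoc, D.p_mul_self, mul_one]

/-- the real value of the sign character -/
noncomputable def s (g : G) : ℝ := ((D.sg g : ℤ) : ℝ)
/-- the real value of the `z`-parity character -/
noncomputable def u (g : G) : ℝ := ((D.az g : ℤ) : ℝ)

theorem s_mul (g h : G) : D.s (g * h) = D.s g * D.s h := by
  simp [s]

theorem u_mul (g h : G) : D.u (g * h) = D.u g * D.u h := by
  simp [u]

theorem s_sq (g : G) : D.s g * D.s g = 1 := by
  rw [s, ← Int.cast_mul, ← Units.val_mul]
  rcases Int.units_eq_one_or (D.sg g) with h | h <;> simp [h]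

theorem u_sq (g : G) : D.u g * D.u g = 1 := by
  rw [u, ← Int.cast_mul, ← Units.val_mul]
  rcases Int.units_eq_one_or (D.az g) with h | h <;> simp [h]

theorem s_p (x : Letter) : D.s (D.p x) = -1 := by simp [s, p, D.sg_gen]
theorem u_r (i : Fin 3) : D.u (D.p (r i)) = 1 := by simp [u, p, D.az_r]
theorem u_z (i : Fin 3) : D.u (D.p (z i)) = -1 := by simp [u, p, D.az_z]

/-- functions on `G` negated by right translation by a generator -/
def Mneg (x : Letter) : Submodule ℝ (G → ℝ) where
  carrier := {f | ∀ g, f (g * D.p x) = -f g}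
  add_mem' := by intro a b ha hb g; simp only [Pi.add_apply, ha g, hb g]; ring
  zero_mem' := by intro g; simp
  smul_mem' := by intro c a ha g; simp only [Pi.smul_apply, smul_eq_mul, ha g]; ring

theorem mem_Mneg {x : Letter} {f : G → ℝ} : f ∈ D.Mneg x ↔ ∀ g, f (g * D.p x) = -f g := Iff.rfl

/-- functions negated by two generators -/
def Mneg2 (x y : Letter) : Submodule ℝ (G → ℝ) := D.Mneg x ⊓ D.Mneg y

theorem mem_Mneg2 {x y : Letter} {f : G → ℝ} : f ∈ D.Mneg2 x y ↔
    (∀ g, f (g * D.p x) = -f g) ∧ ∀ g, f (g * D.p y) = -f g := Iff.rfl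

/-- splitting of an invariant space into two copies of its negative part -/
theorem finrank_split [Finite G] (E : Submodule ℝ (G → ℝ)) (x : Letter) (v : G → ℝ)
    (hv2 : ∀ g, v g * v g = 1) (hvx : ∀ g, v (g * D.p x) = -v g)
    (hE1 : ∀ f ∈ E, (fun g => f (g * D.p x)) ∈ E) (hE2 : ∀ f ∈ E, (fun g => v g * f g) ∈ E) :
    Module.finrank ℝ E = 2 * Module.finrank ℝ (E ⊓ D.Mneg x : Submodule ℝ (G → ℝ)) := by
  have e : E ≃ₗ[ℝ] (E ⊓ D.Mneg x : Submodule ℝ (G → ℝ)) × (E ⊓ D.Mneg x : Submodule ℝ (G → ℝ)) :=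
    { toFun := fun f => (⟨fun g => (f.1 g - f.1 (g * D.p x)) / 2, by
          refine ⟨?_, ?_⟩
          · have h1 := E.smul_mem (1 / 2 : ℝ) (E.sub_mem f.2 (hE1 _ f.2))
            have e1 : (fun g => (f.1 g - f.1 (g * D.p x)) / 2) =
                (1 / 2 : ℝ) • (f.1 - fun g => f.1 (g * D.p x)) := by
              funext g
              simp only [Pi.smul_apply, Pi.sub_apply, smul_eq_mul]; ring
            show _ ∈ E
            rw [e1]; exact h1
          · intro g
            simp only [D.mul_p_p]; ring⟩,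
        ⟨fun g => v g * ((f.1 g + f.1 (g * D.p x)) / 2), by
          refine ⟨?_, ?_⟩
          · have h1 := hE2 _ (E.smul_mem (1 / 2 : ℝ) (E.add_mem f.2 (hE1 _ f.2)))
            have e1 : (fun g => v g * ((f.1 g + f.1 (g * D.p x)) / 2)) =
                fun g => v g * ((1 / 2 : ℝ) • (f.1 + fun g => f.1 (g * D.p x))) g := by
              funext g
              simp only [Pi.smul_apply, Pi.add_apply, smul_eq_mul]; ring
            show _ ∈ E
            rw [e1]; exact h1
          · intro g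
            simp only [D.mul_p_p, hvx]; ring⟩)
      map_add' := by
        intro a b
        ext g
        · simp only [Submodule.coe_add, Pi.add_apply, Prod.fst_add]; ring
        · simp only [Submodule.coe_add, Pi.add_apply, Prod.snd_add]; ring
      map_smul' := by
        intro c a
        ext g
        · simp only [Submodule.coe_smul, Pi.smul_apply, smul_eq_mul, RingHom.id_apply,
            Prod.smul_fst]; ring
        · simp only [Submodule.coe_smul, Pi.smul_apply, smul_eq_mul, RingHom.id_apply,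
            Prod.smul_snd]; ring
      invFun := fun q => ⟨fun g => q.1.1 g + v g * q.2.1 g, E.add_mem q.1.2.1 (hE2 _ q.2.2.1)⟩
      left_inv := by
        intro f
        ext g
        have := hv2 g
        simp only
        linear_combination (f.1 g + f.1 (g * D.p x)) / 2 * this
      right_inv := by
        intro q
        have h1 : ∀ g, q.1.1 (g * D.p x) = -q.1.1 g := q.1.2.2
        have h2 : ∀ g, q.2.1 (g * D.p x) = -q.2.1 g := q.2.2.2
        ext g
        · simp only [h1, h2, hvx]; ring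
        · simp only [h1, h2, hvx]
          linear_combination (q.2.1 g) * hv2 g }
  rw [e.finrank_eq, Module.finrank_prod]
  ring

variable [Fintype G]

theorem finrank_Mneg (x : Letter) : 2 * Module.finrank ℝ (D.Mneg x) = Fintype.card G := by
  have h := D.finrank_split ⊤ x D.s D.s_sq (by intro g; rw [D.s_mul, D.s_p]; ring)
    (by intros; trivial) (by intros; trivial)
  rw [finrank_top, Module.finrank_fintype_fun_eq_card, top_inf_eq] at h
  exact h.symm

theorem finrank_Mneg2 {i k : Fin 3} (h : i ≠ k) :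
    4 * Module.finrank ℝ (D.Mneg2 (r i) (z k)) = Fintype.card G := by
  have h1 := D.finrank_split (D.Mneg (r i)) (z k) D.u D.u_sq
    (by intro g; rw [D.u_mul, D.u_z]; ring)
    (by
      intro f hf g
      have hc : g * D.p (r i) * D.p (z k) = g * D.p (z k) * D.p (r i) := by
        rw [mul_assoc, D.p_comm (x := r i) (y := z k) (by simp [H, adjB, h]), mul_assoc]
      simp only [hc, hf (g * D.p (z k))])
    (by
      intro f hf g
      simp only [D.u_mul, D.u_r, hf g]; ring)
  have h2 := D.finrank_Mneg (r i)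
  rw [Mneg2]
  omega

/-! ### the complex `A → B` -/

/-- first component of the six adjacent pairs -/
def pr : Fin 6 → Fin 3 := ![0, 1, 1, 2, 2, 0]
/-- second component of the six adjacent pairs -/
def pz : Fin 6 → Fin 3 := ![2, 2, 0, 0, 1, 1]

theorem pr_ne_pz (q : Fin 6) : pr q ≠ pz q := by
  fin_cases q <;> simp [pr, pz]

omit [Fintype G] in
theorem pq_comm (q : Fin 6) (g : G) :
    g * D.p (r (pr q)) * D.p (z (pz q)) = g * D.p (z (pz q)) * D.p (r (pr q)) := by
  rw [mul_assoc, D.p_comm (x := r (pr q)) (y := z (pz q)) (by simp [H, adjB, pr_ne_pz]), mul_assoc]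

/-- one-cochains -/
abbrev AA : Type := ∀ x : Letter, D.Mneg x
/-- two-cochains -/
abbrev BB : Type := ∀ q : Fin 6, D.Mneg2 (r (pr q)) (z (pz q))

omit [Fintype G] in
theorem a_neg (c : D.AA) (x : Letter) (g : G) : (c x).1 (g * D.p x) = -(c x).1 g := (c x).2 g

omit [Fintype G] in
theorem b_neg_r (e : D.BB) (q : Fin 6) (g : G) : (e q).1 (g * D.p (r (pr q))) = -(e q).1 g :=
  (e q).2.1 g

omit [Fintype G] in
theorem b_neg_z (e : D.BB) (q : Fin 6) (g : G) : (e q).1 (g * D.p (z (pz q))) = -(e q).1 g :=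
  (e q).2.2 g

/-- coboundary -/
noncomputable def dA : D.AA →ₗ[ℝ] D.BB where
  toFun c := fun q => ⟨fun g => (c (r (pr q))).1 g - (c (r (pr q))).1 (g * D.p (z (pz q)))
      - (c (z (pz q))).1 g + (c (z (pz q))).1 (g * D.p (r (pr q))), by
    refine ⟨?_, ?_⟩
    · intro g
      have h1 : (c (r (pr q))).1 (g * D.p (r (pr q)) * D.p (z (pz q))) =
          -(c (r (pr q))).1 (g * D.p (z (pz q))) := by rw [D.pq_comm, D.a_neg]
      simp only [h1, D.a_neg c (r (pr q)) g, D.mul_p_p]
      ring
    · intro g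
      have h1 : (c (z (pz q))).1 (g * D.p (z (pz q)) * D.p (r (pr q))) =
          -(c (z (pz q))).1 (g * D.p (r (pr q))) := by rw [← D.pq_comm, D.a_neg]
      simp only [h1, D.a_neg c (z (pz q)) g, D.mul_p_p]
      ring⟩
  map_add' := by
    intro a b; ext q g
    simp only [Pi.add_apply, Submodule.coe_add]; ring
  map_smul' := by
    intro t a; ext q g
    simp only [Pi.smul_apply, Submodule.coe_smul, smul_eq_mul, RingHom.id_apply]; ring

/-- adjoint of the coboundary -/
noncomputable def dB : D.BB →ₗ[ℝ] D.AA where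
  toFun e := fun x => match x with
    | r 0 => ⟨fun g => 2 * ((e 0).1 g + (e 5).1 g), by
        intro g
        have h1 := D.b_neg_r e 0 g
        have h2 := D.b_neg_r e 5 g
        change (e 0).1 (g * D.p (r 0)) = _ at h1
        change (e 5).1 (g * D.p (r 0)) = _ at h2
        simp only [h1, h2]; ring⟩
    | r 1 => ⟨fun g => 2 * ((e 1).1 g + (e 2).1 g), by
        intro g
        have h1 := D.b_neg_r e 1 g
        have h2 := D.b_neg_r e 2 g
        change (e 1).1 (g * D.p (r 1)) = _ at h1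
        change (e 2).1 (g * D.p (r 1)) = _ at h2
        simp only [h1, h2]; ring⟩
    | r 2 => ⟨fun g => 2 * ((e 3).1 g + (e 4).1 g), by
        intro g
        have h1 := D.b_neg_r e 3 g
        have h2 := D.b_neg_r e 4 g
        change (e 3).1 (g * D.p (r 2)) = _ at h1
        change (e 4).1 (g * D.p (r 2)) = _ at h2
        simp only [h1, h2]; ring⟩
    | z 0 => ⟨fun g => -2 * ((e 2).1 g + (e 3).1 g), by
        intro g
        have h1 := D.b_neg_z e 2 g
        have h2 := D.b_neg_z e 3 g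
        change (e 2).1 (g * D.p (z 0)) = _ at h1
        change (e 3).1 (g * D.p (z 0)) = _ at h2
        simp only [h1, h2]; ring⟩
    | z 1 => ⟨fun g => -2 * ((e 4).1 g + (e 5).1 g), by
        intro g
        have h1 := D.b_neg_z e 4 g
        have h2 := D.b_neg_z e 5 g
        change (e 4).1 (g * D.p (z 1)) = _ at h1
        change (e 5).1 (g * D.p (z 1)) = _ at h2
        simp only [h1, h2]; ring⟩
    | z 2 => ⟨fun g => -2 * ((e 0).1 g + (e 1).1 g), by
        intro g
        have h1 := D.b_neg_z e 0 g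
        have h2 := D.b_neg_z e 1 g
        change (e 0).1 (g * D.p (z 2)) = _ at h1
        change (e 1).1 (g * D.p (z 2)) = _ at h2
        simp only [h1, h2]; ring⟩
  map_add' := by
    intro a b; ext x g
    rcases x with i | i <;> fin_cases i <;>
      simp only [Pi.add_apply, Submodule.coe_add] <;> ring
  map_smul' := by
    intro t a; ext x g
    rcases x with i | i <;> fin_cases i <;>
      simp only [Pi.smul_apply, Submodule.coe_smul, smul_eq_mul, RingHom.id_apply] <;> ring

theorem sum_letter (f : Letter → ℝ) : ∑ x, f x =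
    f (r 0) + f (r 1) + f (r 2) + f (z 0) + f (z 1) + f (z 2) := by
  have e : (Finset.univ : Finset Letter) = {r 0, r 1, r 2, z 0, z 1, z 2} := by decide
  rw [e]
  rw [Finset.sum_insert (by decide), Finset.sum_insert (by decide), Finset.sum_insert (by decide),
    Finset.sum_insert (by decide), Finset.sum_insert (by decide), Finset.sum_singleton]
  ring

/-- reindexing a sum by right translation -/
theorem sum_shift (x : Letter) (f : G → ℝ) : ∑ g, f (g * D.p x) = ∑ g, f g :=
  Equiv.sum_comp (Equiv.mulRight (D.p x)) f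

theorem shift_pair (x : Letter) (f h : G → ℝ) (hh : ∀ g, h (g * D.p x) = -h g) :
    ∑ g, f (g * D.p x) * h g = -∑ g, f g * h g := by
  rw [← D.sum_shift x (fun g => f g * h g), ← Finset.sum_neg_distrib]
  apply Finset.sum_congr rfl
  intro g _
  rw [hh]; ring

theorem adjoint (c : D.AA) (e : D.BB) :
    ∑ q, ∑ g, (D.dA c q).1 g * (e q).1 g = ∑ x, ∑ g, (c x).1 g * (D.dB e x).1 g := by
  have key : ∀ q, ∑ g, (D.dA c q).1 g * (e q).1 g =
      2 * ∑ g, (c (r (pr q))).1 g * (e q).1 g - 2 * ∑ g, (c (z (pz q))).1 g * (e q).1 g := by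
    intro q
    have h1 := D.shift_pair (z (pz q)) (c (r (pr q))).1 (e q).1 (D.b_neg_z e q)
    have h2 := D.shift_pair (r (pr q)) (c (z (pz q))).1 (e q).1 (D.b_neg_r e q)
    have h3 : ∀ g, (D.dA c q).1 g * (e q).1 g =
        (c (r (pr q))).1 g * (e q).1 g - (c (r (pr q))).1 (g * D.p (z (pz q))) * (e q).1 g
        - (c (z (pz q))).1 g * (e q).1 g + (c (z (pz q))).1 (g * D.p (r (pr q))) * (e q).1 g := by
      intro g
      simp only [dA, LinearMap.coe_mk, AddHom.coe_mk]; ring
    rw [Finset.sum_congr rfl (fun g _ => h3 g), Finset.sum_add_distrib, Finset.sum_sub_distrib,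
      Finset.sum_sub_distrib, h1, h2]
    ring
  rw [Fin.sum_univ_six, sum_letter]
  have k0 : ∑ g, (D.dA c 0).1 g * (e 0).1 g =
      2 * ∑ g, (c (r 0)).1 g * (e 0).1 g - 2 * ∑ g, (c (z 2)).1 g * (e 0).1 g := key 0
  have k1 : ∑ g, (D.dA c 1).1 g * (e 1).1 g =
      2 * ∑ g, (c (r 1)).1 g * (e 1).1 g - 2 * ∑ g, (c (z 2)).1 g * (e 1).1 g := key 1
  have k2 : ∑ g, (D.dA c 2).1 g * (e 2).1 g =
      2 * ∑ g, (c (r 1)).1 g * (e 2).1 g - 2 * ∑ g, (c (z 0)).1 g * (e 2).1 g := key 2
  have k3 : ∑ g, (D.dA c 3).1 g * (e 3).1 g =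
      2 * ∑ g, (c (r 2)).1 g * (e 3).1 g - 2 * ∑ g, (c (z 0)).1 g * (e 3).1 g := key 3
  have k4 : ∑ g, (D.dA c 4).1 g * (e 4).1 g =
      2 * ∑ g, (c (r 2)).1 g * (e 4).1 g - 2 * ∑ g, (c (z 1)).1 g * (e 4).1 g := key 4
  have k5 : ∑ g, (D.dA c 5).1 g * (e 5).1 g =
      2 * ∑ g, (c (r 0)).1 g * (e 5).1 g - 2 * ∑ g, (c (z 1)).1 g * (e 5).1 g := key 5
  have hr0 : ∑ g, (c (r 0)).1 g * (D.dB e (r 0)).1 g =
      2 * ∑ g, (c (r 0)).1 g * (e 0).1 g + 2 * ∑ g, (c (r 0)).1 g * (e 5).1 g := by
    rw [Finset.mul_sum, Finset.mul_sum, ← Finset.sum_add_distrib]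
    apply Finset.sum_congr rfl; intro g _
    simp only [dB, LinearMap.coe_mk, AddHom.coe_mk]; ring
  have hr1 : ∑ g, (c (r 1)).1 g * (D.dB e (r 1)).1 g =
      2 * ∑ g, (c (r 1)).1 g * (e 1).1 g + 2 * ∑ g, (c (r 1)).1 g * (e 2).1 g := by
    rw [Finset.mul_sum, Finset.mul_sum, ← Finset.sum_add_distrib]
    apply Finset.sum_congr rfl; intro g _
    simp only [dB, LinearMap.coe_mk, AddHom.coe_mk]; ring
  have hr2 : ∑ g, (c (r 2)).1 g * (D.dB e (r 2)).1 g =
      2 * ∑ g, (c (r 2)).1 g * (e 3).1 g + 2 * ∑ g, (c (r 2)).1 g * (e 4).1 g := by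
    rw [Finset.mul_sum, Finset.mul_sum, ← Finset.sum_add_distrib]
    apply Finset.sum_congr rfl; intro g _
    simp only [dB, LinearMap.coe_mk, AddHom.coe_mk]; ring
  have hz0 : ∑ g, (c (z 0)).1 g * (D.dB e (z 0)).1 g =
      -2 * ∑ g, (c (z 0)).1 g * (e 2).1 g + -2 * ∑ g, (c (z 0)).1 g * (e 3).1 g := by
    rw [Finset.mul_sum, Finset.mul_sum, ← Finset.sum_add_distrib]
    apply Finset.sum_congr rfl; intro g _
    simp only [dB, LinearMap.coe_mk, AddHom.coe_mk]; ring
  have hz1 : ∑ g, (c (z 1)).1 g * (D.dB e (z 1)).1 g =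
      -2 * ∑ g, (c (z 1)).1 g * (e 4).1 g + -2 * ∑ g, (c (z 1)).1 g * (e 5).1 g := by
    rw [Finset.mul_sum, Finset.mul_sum, ← Finset.sum_add_distrib]
    apply Finset.sum_congr rfl; intro g _
    simp only [dB, LinearMap.coe_mk, AddHom.coe_mk]; ring
  have hz2 : ∑ g, (c (z 2)).1 g * (D.dB e (z 2)).1 g =
      -2 * ∑ g, (c (z 2)).1 g * (e 0).1 g + -2 * ∑ g, (c (z 2)).1 g * (e 1).1 g := by
    rw [Finset.mul_sum, Finset.mul_sum, ← Finset.sum_add_distrib]
    apply Finset.sum_congr rfl; intro g _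
    simp only [dB, LinearMap.coe_mk, AddHom.coe_mk]; ring
  rw [hr0, hr1, hr2, hz0, hz1, hz2, k0, k1, k2, k3, k4, k5]
  ring

theorem finrank_AA : Module.finrank ℝ D.AA = 3 * Fintype.card G := by
  have h1 : Module.finrank ℝ D.AA = ∑ x : Letter, Module.finrank ℝ (D.Mneg x) :=
    Module.finrank_pi_fintype ℝ
  have h2 : 2 * ∑ x : Letter, Module.finrank ℝ (D.Mneg x) = ∑ _x : Letter, Fintype.card G := by
    rw [Finset.mul_sum]
    exact Finset.sum_congr rfl fun x _ => D.finrank_Mneg x
  have h3 : ∑ _x : Letter, Fintype.card G = 6 * Fintype.card G := by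
    rw [Finset.sum_const, smul_eq_mul]
    congr 1
  omega

theorem finrank_BB : 2 * Module.finrank ℝ D.BB = 3 * Fintype.card G := by
  have h1 : Module.finrank ℝ D.BB = ∑ q : Fin 6, Module.finrank ℝ (D.Mneg2 (r (pr q)) (z (pz q))) :=
    Module.finrank_pi_fintype ℝ
  have h2 : 4 * ∑ q : Fin 6, Module.finrank ℝ (D.Mneg2 (r (pr q)) (z (pz q))) =
      ∑ _q : Fin 6, Fintype.card G := by
    rw [Finset.mul_sum]
    exact Finset.sum_congr rfl fun q _ => D.finrank_Mneg2 (pr_ne_pz q)
  have h3 : ∑ _q : Fin 6, Fintype.card G = 6 * Fintype.card G := by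
    rw [Finset.sum_const, smul_eq_mul]
    congr 1
  omega

omit [Fintype G] in
/-- a function negated by all generators is a multiple of the sign character -/
theorem eq_sign {f : G → ℝ} (h : ∀ x g, f (g * D.p x) = -f g) (g : G) : f g = D.s g * f 1 := by
  obtain ⟨w, rfl⟩ := D.surj g
  refine RA.induction_right (R := H) (P := fun w => f (D.π w) = D.s (D.π w) * f 1) ?_ ?_ w
  · simp [s]
  · intro w x ih
    have h1 := h x (D.π w)
    rw [p, ← map_mul] at h1
    have h2 : D.s (D.π (w * H.gen x)) = -D.s (D.π w) := by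
      rw [map_mul, D.s_mul]
      have := D.s_p x
      rw [p] at this
      rw [this]; ring
    rw [h1, h2, ih]; ring

omit [Fintype G] in
theorem ker_dB_neg {e : D.BB} (he : D.dB e = 0) :
    (∀ g, (e 1).1 g = -(e 0).1 g) ∧ (∀ g, (e 2).1 g = (e 0).1 g) ∧ (∀ g, (e 3).1 g = -(e 0).1 g) ∧
      (∀ g, (e 4).1 g = (e 0).1 g) ∧ (∀ g, (e 5).1 g = -(e 0).1 g) := by
  have hr1 : ∀ g, 2 * ((e 1).1 g + (e 2).1 g) = 0 := fun g =>
    congrFun (congrArg Subtype.val (congrFun he (r 1))) g
  have hr2 : ∀ g, 2 * ((e 3).1 g + (e 4).1 g) = 0 := fun g =>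
    congrFun (congrArg Subtype.val (congrFun he (r 2))) g
  have hz0 : ∀ g, -2 * ((e 2).1 g + (e 3).1 g) = 0 := fun g =>
    congrFun (congrArg Subtype.val (congrFun he (z 0))) g
  have hz1 : ∀ g, -2 * ((e 4).1 g + (e 5).1 g) = 0 := fun g =>
    congrFun (congrArg Subtype.val (congrFun he (z 1))) g
  have hz2 : ∀ g, -2 * ((e 0).1 g + (e 1).1 g) = 0 := fun g =>
    congrFun (congrArg Subtype.val (congrFun he (z 2))) g
  refine ⟨fun g => ?_, fun g => ?_, fun g => ?_, fun g => ?_, fun g => ?_⟩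
  · linarith [hz2 g]
  · linarith [hz2 g, hr1 g]
  · linarith [hz2 g, hr1 g, hz0 g]
  · linarith [hz2 g, hr1 g, hz0 g, hr2 g]
  · linarith [hz2 g, hr1 g, hz0 g, hr2 g, hz1 g]

omit [Fintype G] in
theorem ker_dB_all {e : D.BB} (he : D.dB e = 0) (x : Letter) (g : G) :
    (e 0).1 (g * D.p x) = -(e 0).1 g := by
  obtain ⟨h1, h2, h3, h4, h5⟩ := D.ker_dB_neg he
  rcases x with i | i
  · fin_cases i
    · exact D.b_neg_r e 0 g
    · have := D.b_neg_r e 1 g
      change (e 1).1 (g * D.p (r 1)) = _ at this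
      rw [h1, h1] at this
      change (e 0).1 (g * D.p (r 1)) = _
      linarith
    · have := D.b_neg_r e 3 g
      change (e 3).1 (g * D.p (r 2)) = _ at this
      rw [h3, h3] at this
      change (e 0).1 (g * D.p (r 2)) = _
      linarith
  · fin_cases i
    · have := D.b_neg_z e 2 g
      change (e 2).1 (g * D.p (z 0)) = _ at this
      rw [h2, h2] at this
      exact this
    · have := D.b_neg_z e 4 g
      change (e 4).1 (g * D.p (z 1)) = _ at this
      rw [h4, h4] at this
      exact this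
    · exact D.b_neg_z e 0 g

omit [Fintype G] in
theorem finrank_ker_dB : Module.finrank ℝ (LinearMap.ker D.dB) = 1 := by
  have hs : ∀ x g, D.s (g * D.p x) = -D.s g := by
    intro x g; rw [D.s_mul, D.s_p]; ring
  let e0 : D.BB := fun q => ⟨fun g => (if q = 0 ∨ q = 2 ∨ q = 4 then 1 else -1) * D.s g, by
    refine ⟨fun g => ?_, fun g => ?_⟩
    · simp only [hs]; ring
    · simp only [hs]; ring⟩
  have he0 : D.dB e0 = 0 := by
    funext x
    apply Subtype.ext
    funext g
    rcases x with i | i <;> fin_cases i <;>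
      simp [dB, e0]
  have key : ∀ e : LinearMap.ker D.dB, ∃ c : ℝ, c • (⟨e0, he0⟩ : LinearMap.ker D.dB) = e := by
    intro e
    refine ⟨(e.1 0).1 1, ?_⟩
    apply Subtype.ext
    have he : D.dB e.1 = 0 := e.2
    obtain ⟨h1, h2, h3, h4, h5⟩ := D.ker_dB_neg he
    have hE : ∀ g, (e.1 0).1 g = D.s g * (e.1 0).1 1 := fun g =>
      D.eq_sign (fun x g => D.ker_dB_all he x g) g
    funext q
    apply Subtype.ext
    funext g
    have h0 := hE g
    fin_cases q
    · simp [e0, h0]; ring
    · simp [e0, h1, h0]; ring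
    · simp [e0, h2, h0]; ring
    · simp [e0, h3, h0]; ring
    · simp [e0, h4, h0]; ring
    · simp [e0, h5, h0]; ring
  apply finrank_eq_one (⟨e0, he0⟩ : LinearMap.ker D.dB) _ key
  intro h
  have h1 := congrFun (congrArg Subtype.val (congrFun (congrArg Subtype.val h) 0)) 1
  simp [e0, s] at h1

theorem finrank_ker_dA :
    Module.finrank ℝ (LinearMap.ker D.dA) + Module.finrank ℝ D.BB = Module.finrank ℝ D.AA + 1 := by
  have r1 := LinearMap.finrank_range_add_finrank_ker D.dA
  have r2 := LinearMap.finrank_range_add_finrank_ker D.dB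
  have k := D.finrank_ker_dB
  have d1 : Disjoint (LinearMap.range D.dA) (LinearMap.ker D.dB) := by
    rw [Submodule.disjoint_def]
    rintro e ⟨c, rfl⟩ he
    have h := D.adjoint c (D.dA c)
    rw [LinearMap.mem_ker.1 he] at h
    simp only [Pi.zero_apply, ZeroMemClass.coe_zero, mul_zero, Finset.sum_const_zero] at h
    have h1 : ∀ q ∈ Finset.univ, ∑ g, (D.dA c q).1 g * (D.dA c q).1 g = 0 :=
      (Finset.sum_eq_zero_iff_of_nonneg (fun q _ => Finset.sum_nonneg fun g _ => mul_self_nonneg _)).1 h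
    funext q
    apply Subtype.ext
    funext g
    have h2 := (Finset.sum_eq_zero_iff_of_nonneg (fun g _ => mul_self_nonneg _)).1
      (h1 q (Finset.mem_univ _)) g (Finset.mem_univ _)
    exact mul_self_eq_zero.1 h2
  have d2 : Disjoint (LinearMap.range D.dB) (LinearMap.ker D.dA) := by
    rw [Submodule.disjoint_def]
    rintro c ⟨e, rfl⟩ hc
    have h := D.adjoint (D.dB e) e
    rw [LinearMap.mem_ker.1 hc] at h
    simp only [Pi.zero_apply, ZeroMemClass.coe_zero, zero_mul, Finset.sum_const_zero] at h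
    have h1 : ∀ x ∈ Finset.univ, ∑ g, (D.dB e x).1 g * (D.dB e x).1 g = 0 :=
      (Finset.sum_eq_zero_iff_of_nonneg (fun q _ => Finset.sum_nonneg fun g _ => mul_self_nonneg _)).1 h.symm
    funext x
    apply Subtype.ext
    funext g
    have h2 := (Finset.sum_eq_zero_iff_of_nonneg (fun g _ => mul_self_nonneg _)).1
      (h1 x (Finset.mem_univ _)) g (Finset.mem_univ _)
    exact mul_self_eq_zero.1 h2
  have l1 := Submodule.finrank_add_finrank_le_of_disjoint d1
  have l2 := Submodule.finrank_add_finrank_le_of_disjoint d2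
  omega

end QData

end D3

end SBA
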