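import Pool.Agent.Lib.MP_709218_gt.D3Genus

namespace SBA

namespace D3

open Letter

namespace QData

variable {G : Type} [Group G] (D : QData G)

/-! ### crossed homomorphisms -/

theorem rel {c : D.AA} (hc : D.dA c = 0) {i k : Fin 3} (h : i ≠ k) (g : G) :
    (c (r i)).1 g + (c (z k)).1 (g * D.p (r i)) = (c (z k)).1 g + (c (r i)).1 (g * D.p (z k)) := by
  have key : ∀ q : Fin 6, (c (r (pr q))).1 g - (c (r (pr q))).1 (g * D.p (z (pz q)))
      - (c (z (pz q))).1 g + (c (z (pz q))).1 (g * D.p (r (pr q))) = 0 := fun q =>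
    congrFun (congrArg Subtype.val (congrFun hc q)) g
  have h0 := key 0
  have h1 := key 1
  have h2 := key 2
  have h3 := key 3
  have h4 := key 4
  have h5 := key 5
  change (c (r 0)).1 g - (c (r 0)).1 (g * D.p (z 2)) - (c (z 2)).1 g +
    (c (z 2)).1 (g * D.p (r 0)) = 0 at h0
  change (c (r 1)).1 g - (c (r 1)).1 (g * D.p (z 2)) - (c (z 2)).1 g +
    (c (z 2)).1 (g * D.p (r 1)) = 0 at h1
  change (c (r 1)).1 g - (c (r 1)).1 (g * D.p (z 0)) - (c (z 0)).1 g +
    (c (z 0)).1 (g * D.p (r 1)) = 0 at h2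
  change (c (r 2)).1 g - (c (r 2)).1 (g * D.p (z 0)) - (c (z 0)).1 g +
    (c (z 0)).1 (g * D.p (r 2)) = 0 at h3
  change (c (r 2)).1 g - (c (r 2)).1 (g * D.p (z 1)) - (c (z 1)).1 g +
    (c (z 1)).1 (g * D.p (r 2)) = 0 at h4
  change (c (r 0)).1 g - (c (r 0)).1 (g * D.p (z 1)) - (c (z 1)).1 g +
    (c (z 1)).1 (g * D.p (r 0)) = 0 at h5
  fin_cases i <;> fin_cases k <;> simp at h ⊢ <;> linarith

/-- the affine map attached to a letter -/
noncomputable def aff (c : D.AA) (x : Letter) : Function.End (G → ℝ) :=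
  fun m g => (c x).1 g + m (g * D.p x)

/-- the affine action of the hexagon group attached to a cocycle -/
noncomputable def ch (c : LinearMap.ker D.dA) : H.W →* Function.End (G → ℝ) :=
  H.lift (D.aff c.1)
    (by
      intro x
      funext m g
      change (c.1 x).1 g + ((c.1 x).1 (g * D.p x) + m (g * D.p x * D.p x)) = m g
      rw [D.a_neg, D.mul_p_p]; ring)
    (by
      intro x y hxy
      have hc : D.dA c.1 = 0 := c.2
      have hpc : ∀ g, g * D.p x * D.p y = g * D.p y * D.p x := by
        intro g; rw [mul_assoc, D.p_comm hxy, mul_assoc]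
      funext m g
      change (c.1 x).1 g + ((c.1 y).1 (g * D.p x) + m (g * D.p x * D.p y)) =
        (c.1 y).1 g + ((c.1 x).1 (g * D.p y) + m (g * D.p y * D.p x))
      rw [hpc]
      rcases x with i | i <;> rcases y with j | j
      · simp [H, adjB] at hxy
      · have h : i ≠ j := by simpa [H, adjB] using hxy
        linarith [D.rel hc h g]
      · have h : j ≠ i := by
          have : i ≠ j := by simpa [H, adjB] using hxy
          exact this.symm
        linarith [D.rel hc h g]
      · simp [H, adjB] at hxy)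

theorem ch_gen (c : LinearMap.ker D.dA) (x : Letter) : D.ch c (H.gen x) = D.aff c.1 x :=
  H.lift_gen _ _ _ x

/-- value of the crossed homomorphism -/
noncomputable def cv (c : LinearMap.ker D.dA) (w : H.W) (g : G) : ℝ := D.ch c w 0 g

theorem ch_apply (c : LinearMap.ker D.dA) (w : H.W) : ∀ (m : G → ℝ) (g : G),
    D.ch c w m g = D.cv c w g + m (g * D.π w) := by
  refine RA.induction_left (R := H) (P := fun w => ∀ (m : G → ℝ) (g : G),
    D.ch c w m g = D.cv c w g + m (g * D.π w)) ?_ ?_ w
  · intro m g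
    simp only [cv, map_one, mul_one]
    change m g = (0 : G → ℝ) g + m g
    simp
  · intro x w ih m g
    have e : ∀ m, D.ch c (H.gen x * w) m g = (c.1 x).1 g + D.ch c w m (g * D.p x) := by
      intro m
      rw [map_mul, D.ch_gen]; rfl
    rw [cv, e m, e 0, ih m, ih 0, map_mul, ← mul_assoc]
    change _ = (c.1 x).1 g + (D.cv c w (g * D.p x) + 0) + m (g * D.p x * D.π w)
    ring

theorem cv_mul (c : LinearMap.ker D.dA) (w w' : H.W) (g : G) :
    D.cv c (w * w') g = D.cv c w g + D.cv c w' (g * D.π w) := by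
  have h := D.ch_apply c w (D.ch c w' 0) g
  rw [cv, map_mul]
  exact h

theorem cv_one (c : LinearMap.ker D.dA) (g : G) : D.cv c 1 g = 0 := by
  rw [cv, map_one]; rfl

theorem cv_gen (c : LinearMap.ker D.dA) (x : Letter) (g : G) :
    D.cv c (H.gen x) g = (c.1 x).1 g := by
  rw [cv, D.ch_gen]
  change (c.1 x).1 g + 0 = _
  rw [add_zero]

theorem cv_add (c c' : LinearMap.ker D.dA) (w : H.W) :
    ∀ g, D.cv (c + c') w g = D.cv c w g + D.cv c' w g := by
  refine RA.induction_right (R := H) (P := fun w => ∀ g,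
    D.cv (c + c') w g = D.cv c w g + D.cv c' w g) ?_ ?_ w
  · intro g; simp [cv_one]
  · intro w x ih g
    rw [cv_mul, cv_mul, cv_mul, ih, cv_gen, cv_gen, cv_gen]
    simp only [Submodule.coe_add, Pi.add_apply]; ring

theorem cv_smul (t : ℝ) (c : LinearMap.ker D.dA) (w : H.W) :
    ∀ g, D.cv (t • c) w g = t * D.cv c w g := by
  refine RA.induction_right (R := H) (P := fun w => ∀ g, D.cv (t • c) w g = t * D.cv c w g) ?_ ?_ w
  · intro g; simp [cv_one]
  · intro w x ih g
    rw [cv_mul, cv_mul, ih, cv_gen, cv_gen]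
    simp only [Submodule.coe_smul, Pi.smul_apply, smul_eq_mul]; ring

/-- restriction of cocycles to the kernel: Shapiro's lemma -/
noncomputable def Psi : LinearMap.ker D.dA →ₗ[ℝ] (Additive D.π.ker →+ ℝ) where
  toFun c := AddMonoidHom.mk' (fun k => D.cv c (Additive.toMul k).1 1) (by
    intro a b
    change D.cv c ((Additive.toMul a).1 * (Additive.toMul b).1) 1 = _
    rw [D.cv_mul]
    have : D.π (Additive.toMul a).1 = 1 := (Additive.toMul a).2
    rw [this, one_mul])
  map_add' c c' := by ext k; exact D.cv_add c c' _ 1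
  map_smul' t c := by ext k; exact D.cv_smul t c _ 1

theorem Psi_apply (c : LinearMap.ker D.dA) (k : D.π.ker) :
    D.Psi c (Additive.ofMul k) = D.cv c k.1 1 := rfl

/-- principal cocycles -/
noncomputable def prin : (G → ℝ) →ₗ[ℝ] LinearMap.ker D.dA where
  toFun h := ⟨fun x => ⟨fun g => h (g * D.p x) - h g, fun g => by
      simp only [D.mul_p_p]; ring⟩, by
    rw [LinearMap.mem_ker]
    funext q
    apply Subtype.ext
    funext g
    change (h (g * D.p (r (pr q))) - h g) - (h (g * D.p (z (pz q)) * D.p (r (pr q))) -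
        h (g * D.p (z (pz q)))) - (h (g * D.p (z (pz q))) - h g) +
        (h (g * D.p (r (pr q)) * D.p (z (pz q))) - h (g * D.p (r (pr q)))) = 0
    rw [D.pq_comm]; ring⟩
  map_add' a b := by
    apply Subtype.ext; funext x; apply Subtype.ext; funext g
    change (a + b) _ - (a + b) _ = (a _ - a _) + (b _ - b _)
    simp only [Pi.add_apply]; ring
  map_smul' t a := by
    apply Subtype.ext; funext x; apply Subtype.ext; funext g
    change (t • a) _ - (t • a) _ = t * (a _ - a _)
    simp only [Pi.smul_apply, smul_eq_mul]; ring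

theorem cv_prin (h : G → ℝ) (w : H.W) : ∀ g, D.cv (D.prin h) w g = h (g * D.π w) - h g := by
  refine RA.induction_right (R := H) (P := fun w => ∀ g,
    D.cv (D.prin h) w g = h (g * D.π w) - h g) ?_ ?_ w
  · intro g; simp [cv_one]
  · intro w x ih g
    rw [cv_mul, ih, cv_gen, map_mul, ← mul_assoc]
    change _ + (h (g * D.π w * D.p x) - h (g * D.π w)) = _
    change _ = h (g * D.π w * D.p x) - h g
    ring

theorem cv_inv (c : LinearMap.ker D.dA) (w : H.W) (g : G) :
    D.cv c w⁻¹ (g * D.π w) = -D.cv c w g := by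
  have h := D.cv_mul c w w⁻¹ g
  rw [mul_inv_cancel, cv_one] at h
  linarith

open Classical in
/-- a section of `π` with `1 ↦ 1` -/
noncomputable def sec (g : G) : H.W := if g = 1 then 1 else (D.surj g).choose

theorem π_sec (g : G) : D.π (D.sec g) = g := by
  unfold sec
  split_ifs with h
  · rw [h, map_one]
  · exact (D.surj g).choose_spec

theorem sec_one : D.sec 1 = 1 := by simp [sec]

theorem mem_ker_Psi {c : LinearMap.ker D.dA} (hc : D.Psi c = 0) : ∃ h, D.prin h = c := by
  refine ⟨fun g => D.cv c (D.sec g) 1, ?_⟩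
  apply Subtype.ext; funext x; apply Subtype.ext; funext g
  change D.cv c (D.sec (g * D.p x)) 1 - D.cv c (D.sec g) 1 = (c.1 x).1 g
  have hk : D.sec g * H.gen x * (D.sec (g * D.p x))⁻¹ ∈ D.π.ker := by
    rw [MonoidHom.mem_ker, map_mul, map_mul, map_inv, π_sec, π_sec]
    exact mul_inv_cancel _
  have h1 : D.cv c (D.sec g * H.gen x * (D.sec (g * D.p x))⁻¹) 1 = 0 :=
    DFunLike.congr_fun hc (Additive.ofMul ⟨_, hk⟩)
  have h2 : D.sec g * H.gen x = (D.sec g * H.gen x * (D.sec (g * D.p x))⁻¹) * D.sec (g * D.p x) := by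
    group
  have h3 : D.cv c (D.sec g * H.gen x) 1 = D.cv c (D.sec (g * D.p x)) 1 := by
    rw [h2, cv_mul, h1, zero_add, MonoidHom.mem_ker.1 hk, one_mul]
  rw [cv_mul, cv_gen, one_mul, π_sec] at h3
  linarith

theorem ker_Psi_eq : LinearMap.ker D.Psi = LinearMap.range D.prin := by
  ext c
  constructor
  · intro hc
    obtain ⟨h, hh⟩ := D.mem_ker_Psi (LinearMap.mem_ker.1 hc)
    exact ⟨h, hh⟩
  · rintro ⟨h, rfl⟩
    rw [LinearMap.mem_ker]
    ext k
    change D.cv (D.prin h) (Additive.toMul k).1 1 = 0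
    rw [cv_prin]
    have : D.π (Additive.toMul k).1 = 1 := (Additive.toMul k).2
    rw [this]; simp

/-- the cocycle of a homomorphism on the kernel -/
noncomputable def coc (φ : Additive D.π.ker →+ ℝ) (w : H.W) (g : G) : ℝ :=
  φ (Additive.ofMul ⟨D.sec g * w * (D.sec (g * D.π w))⁻¹, by
    rw [MonoidHom.mem_ker, map_mul, map_mul, map_inv, π_sec, π_sec]
    exact mul_inv_cancel _⟩)

theorem coc_mul (φ : Additive D.π.ker →+ ℝ) (w w' : H.W) (g : G) :
    D.coc φ (w * w') g = D.coc φ w g + D.coc φ w' (g * D.π w) := by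
  unfold coc
  rw [← map_add, ← ofMul_mul]
  congr 2
  apply Subtype.ext
  simp only [Subgroup.coe_mul, map_mul, ← mul_assoc]
  group

theorem coc_one (φ : Additive D.π.ker →+ ℝ) (g : G) : D.coc φ 1 g = 0 := by
  have := D.coc_mul φ 1 1 g
  simp only [mul_one, map_one] at this
  linarith

theorem Psi_surjective : Function.Surjective D.Psi := by
  intro φ
  let c : D.AA := fun x => ⟨fun g => D.coc φ (H.gen x) g, fun g => by
    have h := D.coc_mul φ (H.gen x) (H.gen x) g
    rw [H.gen_mul_self, coc_one] at h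
    change D.coc φ (H.gen x) (g * D.π (H.gen x)) = _
    linarith⟩
  have hc : D.dA c = 0 := by
    funext q
    apply Subtype.ext
    funext g
    change D.coc φ (H.gen (r (pr q))) g - D.coc φ (H.gen (r (pr q))) (g * D.π (H.gen (z (pz q))))
      - D.coc φ (H.gen (z (pz q))) g + D.coc φ (H.gen (z (pz q))) (g * D.π (H.gen (r (pr q)))) = 0
    have h1 := D.coc_mul φ (H.gen (r (pr q))) (H.gen (z (pz q))) g
    have h2 := D.coc_mul φ (H.gen (z (pz q))) (H.gen (r (pr q))) g
    rw [H.gen_comm (i := r (pr q)) (j := z (pz q)) (by simp [H, adjB, pr_ne_pz])] at h1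
    linarith
  refine ⟨⟨c, hc⟩, ?_⟩
  have key : ∀ w g, D.cv ⟨c, hc⟩ w g = D.coc φ w g := by
    intro w
    refine RA.induction_right (R := H) (P := fun w => ∀ g, D.cv ⟨c, hc⟩ w g = D.coc φ w g) ?_ ?_ w
    · intro g; rw [cv_one, coc_one]
    · intro w x ih g
      rw [cv_mul, coc_mul, ih, cv_gen]
  ext k
  change D.cv ⟨c, hc⟩ (Additive.toMul k).1 1 = φ k
  rw [key, coc]
  have hk : D.π (Additive.toMul k).1 = 1 := (Additive.toMul k).2
  congr 1
  apply Additive.toMul.injective
  apply Subtype.ext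
  simp [hk, sec_one]

theorem finrank_ker_prin : Module.finrank ℝ (LinearMap.ker D.prin) = 1 := by
  have h1 : D.prin (fun _ => 1) = 0 := by
    apply Subtype.ext; funext x; apply Subtype.ext; funext g
    change (1 : ℝ) - 1 = 0
    ring
  apply finrank_eq_one (⟨fun _ => 1, h1⟩ : LinearMap.ker D.prin)
  · intro h
    have := congrFun (congrArg Subtype.val h) 1
    simp at this
  · intro h
    refine ⟨h.1 1, ?_⟩
    apply Subtype.ext
    funext g
    obtain ⟨w, rfl⟩ := D.surj g
    have h2 := D.cv_prin h.1 w 1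
    have h3 : D.prin h.1 = 0 := h.2
    have h4 : D.cv (D.prin h.1) w 1 = 0 := by
      rw [h3]
      have := D.cv_smul 0 0 w 1
      simpa using this
    rw [h4, one_mul] at h2
    change h.1 1 * 1 = h.1 (D.π w)
    linarith

/-- **The first Betti number.** -/
theorem finrank_hom [Fintype G] :
    2 * Module.finrank ℝ (Additive D.π.ker →+ ℝ) = Fintype.card G + 4 := by
  have h1 := LinearMap.finrank_range_add_finrank_ker (K := ℝ) (V := LinearMap.ker D.dA)
    (V₂ := Additive D.π.ker →+ ℝ) D.Psi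
  rw [LinearMap.range_eq_top.2 D.Psi_surjective, finrank_top, D.ker_Psi_eq] at h1
  have h2 := LinearMap.finrank_range_add_finrank_ker (K := ℝ) (V := G → ℝ)
    (V₂ := LinearMap.ker D.dA) D.prin
  rw [D.finrank_ker_prin, Module.finrank_fintype_fun_eq_card] at h2
  have h3 := D.finrank_ker_dA
  have h4 := D.finrank_AA
  have h5 := D.finrank_BB
  omega

end QData

end D3

end SBA
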