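import Pool.Agent.Lib.MP_709218_gt.D3Hex
import Pool.Agent.Lib.MP_709218_gt.D3Genus2

/-! The first Betti number of the surface group `(hexS n).Γ` is `2 (n + 1)`. -/

namespace SBA

namespace D3

open Letter

/-- reflection or rotation -/
def dsign (n : ℕ) : DihedralGroup n →* ℤˣ where
  toFun d := match d with
    | DihedralGroup.r _ => 1
    | DihedralGroup.sr _ => -1
  map_one' := rfl
  map_mul' := by
    intro a b
    rcases a with a | a <;> rcases b with b | b <;> simp

theorem typ_z0 (n : ℕ) : typ n (H.gen (z 0)) = (-1, DihedralGroup.sr 0) := H.lift_gen _ _ _ _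

theorem typ_z1 (n : ℕ) : typ n (H.gen (z 1)) = (-1, DihedralGroup.sr 1) := H.lift_gen _ _ _ _

theorem typ_surjective (n : ℕ) [NeZero n] : Function.Surjective (typ n) := by
  have h1 : typ n (H.gen (z 0) * H.gen (z 1)) = (1, DihedralGroup.r 1) := by
    rw [map_mul, typ_z0, typ_z1]
    simp
  have hr : ∀ i : ZMod n, ∃ w, typ n w = (1, DihedralGroup.r i) := by
    intro i
    refine ⟨(H.gen (z 0) * H.gen (z 1)) ^ i.val, ?_⟩
    rw [map_pow, h1, Prod.pow_mk, DihedralGroup.r_one_pow, one_pow, ZMod.natCast_zmod_val]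
  have h2 : typ n (H.gen (r 0)) = (-1, 1) := typ_r n 0
  have h3 := typ_z0 n
  have hs : ∀ i : ZMod n, ∃ w, typ n w = (1, DihedralGroup.sr i) := by
    intro i
    obtain ⟨w, hw⟩ := hr i
    refine ⟨H.gen (r 0) * H.gen (z 0) * w, ?_⟩
    rw [map_mul, map_mul, hw, h2, h3]
    simp
  rintro ⟨ε, d⟩
  have h4 : ∃ w, typ n w = (1, d) := by
    rcases d with i | i
    · exact hr i
    · exact hs i
  obtain ⟨w, hw⟩ := h4
  rcases Int.units_eq_one_or ε with rfl | rfl
  · exact ⟨w, hw⟩
  · refine ⟨H.gen (r 0) * w, ?_⟩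
    rw [map_mul, hw, h2]; simp

/-- the quotient data -/
noncomputable def qd (n : ℕ) [NeZero n] : QData (ℤˣ × DihedralGroup n) where
  π := typ n
  surj := typ_surjective n
  sg := MonoidHom.fst _ _
  sg_gen := by
    intro x
    rcases x with i | i
    · rw [typ_r]; rfl
    · obtain ⟨k, hk⟩ := typ_z n i
      rw [hk]; rfl
  az := (dsign n).comp (MonoidHom.snd _ _)
  az_r := by intro i; rw [typ_r]; rfl
  az_z := by
    intro i
    obtain ⟨k, hk⟩ := typ_z n i
    rw [hk]; rfl

theorem finrank_typ (n : ℕ) [NeZero n] :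
    Module.finrank ℝ (Additive (typ n).ker →+ ℝ) = 2 * (n + 1) := by
  have h := (qd n).finrank_hom
  rw [Fintype.card_prod, DihedralGroup.card, Fintype.card_units_int] at h
  change 2 * Module.finrank ℝ (Additive (typ n).ker →+ ℝ) = 2 * (2 * n) + 4 at h
  omega

/-- isomorphic groups have the same first Betti number -/
noncomputable def homEquiv {A B : Type*} [Group A] [Group B] (e : A ≃* B) :
    (Additive B →+ ℝ) ≃ₗ[ℝ] (Additive A →+ ℝ) where
  toFun f := f.comp (MonoidHom.toAdditive e.toMonoidHom)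
  invFun f := f.comp (MonoidHom.toAdditive e.symm.toMonoidHom)
  map_add' _ _ := rfl
  map_smul' _ _ := rfl
  left_inv f := by
    ext x
    change f (Additive.ofMul (e (e.symm x))) = f (Additive.ofMul x)
    rw [e.apply_symm_apply]
  right_inv f := by
    ext x
    change f (Additive.ofMul (e.symm (e x))) = f (Additive.ofMul x)
    rw [e.symm_apply_apply]

/-- **The surface group `(hexS n).Γ` has first Betti number `2 (n + 1)`.** -/
theorem finrank_hexS (n : ℕ) [NeZero n] :
    Module.finrank ℝ (Additive (hexS n).Γ →+ ℝ) = 2 * (n + 1) := by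
  have e : (typ n).ker ≃* (hexS n).Γ := MonoidHom.ofInjective (hexS n).j1_injective
  rw [(homEquiv e).finrank_eq]
  exact finrank_typ n

end D3

end SBA
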