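import Pool.Agent.Lib.MP_709218_gt.Lor

/-! Right-angled reflection groups acting on the hyperbolic plane: the tiling. -/

namespace SBA

open Real Set Filter Topology

/-- A right-angled Coxeter graph: `adj i j` means that the generators `i` and `j` commute. -/
structure RA (ι : Type) where
  adj : ι → ι → Prop
  symm : ∀ i j, adj i j → adj j i
  irrefl : ∀ i, ¬ adj i i

namespace RA

variable {ι : Type} (R : RA ι)

open Classical in
/-- The Coxeter matrix. -/
noncomputable def M : CoxeterMatrix ι where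
  M := Matrix.of fun i j => if i = j then 1 else if R.adj i j then 2 else 0
  isSymm := by
    ext i j
    simp only [Matrix.transpose_apply, Matrix.of_apply, eq_comm (a := j) (b := i)]
    have : R.adj j i ↔ R.adj i j := ⟨R.symm j i, R.symm i j⟩
    simp only [this]
  diagonal := by intro i; simp
  off_diagonal := by intro i j h; simp only [Matrix.of_apply, h, if_false]; split_ifs <;> decide

open Classical in
theorem M_apply (i j : ι) : R.M i j = if i = j then 1 else if R.adj i j then 2 else 0 := rfl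

/-- The right-angled Coxeter group. -/
abbrev W := R.M.Group

/-- The Coxeter system. -/
noncomputable abbrev cs : CoxeterSystem R.M R.W := R.M.toCoxeterSystem

/-- The generators. -/
noncomputable def gen (i : ι) : R.W := R.cs.simple i

/-- Word length. -/
noncomputable def len (w : R.W) : ℕ := R.cs.length w

/-- Product of a word. -/
noncomputable def prod (l : List ι) : R.W := (l.map R.gen).prod

theorem gen_mul_self (i : ι) : R.gen i * R.gen i = 1 := R.cs.simple_mul_simple_self i

theorem gen_mul_cancel (i : ι) (w : R.W) : R.gen i * (R.gen i * w) = w := by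
  rw [← mul_assoc, gen_mul_self, one_mul]

theorem gen_inv (i : ι) : (R.gen i)⁻¹ = R.gen i := R.cs.inv_simple i

theorem gen_comm {i j : ι} (h : R.adj i j) : R.gen i * R.gen j = R.gen j * R.gen i := by
  have h1 := R.cs.simple_mul_simple_pow i j
  have hne : i ≠ j := by rintro rfl; exact R.irrefl i h
  rw [M_apply, if_neg hne, if_pos h, pow_two] at h1
  have h2 : R.gen i * R.gen j = (R.gen i * R.gen j)⁻¹ := by
    rw [eq_inv_iff_mul_eq_one]; exact h1
  rw [h2, mul_inv_rev, R.gen_inv, R.gen_inv]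

/-- lifting property for right-angled groups -/
theorem liftable {N : Type*} [Monoid N] (f : ι → N) (h1 : ∀ i, f i * f i = 1)
    (h2 : ∀ i j, R.adj i j → f i * f j = f j * f i) : R.M.IsLiftable f := by
  intro i j
  rw [M_apply]
  by_cases hij : i = j
  · subst hij; simp [h1]
  · by_cases ha : R.adj i j
    · rw [if_neg hij, if_pos ha, pow_two]
      calc f i * f j * (f i * f j) = f i * (f j * f i) * f j := by simp only [mul_assoc]
        _ = f i * (f i * f j) * f j := by rw [h2 i j ha]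
        _ = (f i * f i) * (f j * f j) := by simp only [mul_assoc]
        _ = 1 := by rw [h1, h1, one_mul]
    · rw [if_neg hij, if_neg ha, pow_zero]

/-- homomorphisms out of a right-angled Coxeter group -/
noncomputable def lift {N : Type*} [Monoid N] (f : ι → N) (h1 : ∀ i, f i * f i = 1)
    (h2 : ∀ i j, R.adj i j → f i * f j = f j * f i) : R.W →* N :=
  R.cs.lift ⟨f, R.liftable f h1 h2⟩

theorem lift_gen {N : Type*} [Monoid N] (f : ι → N) (h1 : ∀ i, f i * f i = 1)
    (h2 : ∀ i j, R.adj i j → f i * f j = f j * f i) (i : ι) :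
    R.lift f h1 h2 (R.gen i) = f i :=
  R.cs.lift_apply_simple (R.liftable f h1 h2) i

theorem len_one : R.len 1 = 0 := R.cs.length_one

theorem len_eq_zero {w : R.W} (h : R.len w = 0) : w = 1 := R.cs.length_eq_zero_iff.1 h

theorem len_inv (w : R.W) : R.len w⁻¹ = R.len w := R.cs.length_inv w

theorem len_mul_le (v w : R.W) : R.len (v * w) ≤ R.len v + R.len w := R.cs.length_mul_le v w

theorem len_gen_mul (i : ι) (w : R.W) :
    R.len (R.gen i * w) = R.len w + 1 ∨ R.len (R.gen i * w) + 1 = R.len w :=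
  R.cs.length_simple_mul w i

theorem len_mul_gen (i : ι) (w : R.W) :
    R.len (w * R.gen i) = R.len w + 1 ∨ R.len (w * R.gen i) + 1 = R.len w :=
  R.cs.length_mul_simple w i

theorem exists_descent {w : R.W} (hw : w ≠ 1) : ∃ i, R.len (R.gen i * w) < R.len w :=
  R.cs.exists_leftDescent_of_ne_one hw

theorem exists_descent_right {w : R.W} (hw : w ≠ 1) : ∃ i, R.len (w * R.gen i) < R.len w :=
  R.cs.exists_rightDescent_of_ne_one hw

theorem induction_left {P : R.W → Prop} (one : P 1) (mul : ∀ i w, P w → P (R.gen i * w)) (w : R.W) :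
    P w :=
  R.cs.simple_induction_left w one fun w i h => mul i w h

theorem induction_right {P : R.W → Prop} (one : P 1) (mul : ∀ w i, P w → P (w * R.gen i))
    (w : R.W) : P w :=
  R.cs.simple_induction_right w one fun w i h => mul w i h

/-- induction stripping a left descent -/
theorem induction_descent {P : R.W → Prop} (one : P 1)
    (mul : ∀ i w, R.len (R.gen i * w) = R.len w + 1 → P w → P (R.gen i * w)) (w : R.W) : P w := by
  induction hl : R.len w using Nat.strong_induction_on generalizing w with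
  | _ m IH =>
    by_cases hw : w = 1
    · rw [hw]; exact one
    obtain ⟨b, hb⟩ := R.exists_descent hw
    have h1 := R.len_gen_mul b w
    have h2 := mul b (R.gen b * w) (by rw [R.gen_mul_cancel]; omega) (IH _ (by omega) _ rfl)
    rwa [R.gen_mul_cancel] at h2

end RA

/-- A system of mirrors: unit spacelike vectors `n i` (inner normals of the sides of a compact
right-angled polygon). -/
structure Mirrors {ι : Type} (R : RA ι) where
  n : ι → V3
  o : V3
  ho : o ∈ Hyp
  unit : ∀ i, lor (n i) (n i) = 1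
  orth : ∀ i j, R.adj i j → lor (n i) (n j) = 0
  sep : ∀ i j, i ≠ j → ¬ R.adj i j → lor (n i) (n j) ≤ -1
  pos : ∀ i, 0 < lor o (n i)
  bdd : ∃ r : ℝ, ∀ x ∈ Hyp, (∀ i, 0 ≤ lor x (n i)) → x 2 ≤ r

set_option linter.unusedSectionVars false

namespace Mirrors

variable {ι : Type} {R : RA ι} (S : Mirrors R)

/-- The polygon. -/
def Q : Set V3 := {x | x ∈ Hyp ∧ ∀ i, 0 ≤ lor x (S.n i)}

theorem o_mem_Q : S.o ∈ S.Q := ⟨S.ho, fun i => (S.pos i).le⟩

theorem refl_comm {i j : ι} (h : R.adj i j) (x : V3) :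
    refl (S.n i) (refl (S.n j) x) = refl (S.n j) (refl (S.n i) x) := by
  have h1 := S.orth i j h
  have h2 : lor (S.n j) (S.n i) = 0 := by rw [lor_comm]; exact h1
  simp only [refl_apply, lor_sub_left, lor_smul_left, h1, h2]
  module

/-- The reflection representation. -/
noncomputable def rep : R.W →* (V3 →ₗ[ℝ] V3) :=
  R.lift (fun i => refl (S.n i)) (fun i => by ext x; simp [refl_refl (S.unit i)])
    (fun i j h => by
      apply LinearMap.ext
      intro x
      rw [Module.End.mul_apply, Module.End.mul_apply, S.refl_comm h])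

theorem rep_gen (i : ι) : S.rep (R.gen i) = refl (S.n i) := R.lift_gen _ _ _ i

theorem rep_mul (v w : R.W) (x : V3) : S.rep (v * w) x = S.rep v (S.rep w x) := by
  rw [map_mul, Module.End.mul_apply]

theorem rep_one (x : V3) : S.rep 1 x = x := by rw [map_one]; rfl

theorem rep_inv_rep (w : R.W) (x : V3) : S.rep w⁻¹ (S.rep w x) = x := by
  rw [← rep_mul, inv_mul_cancel, rep_one]

theorem rep_rep_inv (w : R.W) (x : V3) : S.rep w (S.rep w⁻¹ x) = x := by
  rw [← rep_mul, mul_inv_cancel, rep_one]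

theorem rep_isIso (w : R.W) : IsIso (S.rep w) := by
  induction w using R.induction_left with
  | one => rw [map_one]; exact IsIso.one
  | mul i w ih =>
    rw [map_mul]
    exact IsIso.mul (by rw [S.rep_gen]; exact refl_isIso (S.unit i)) ih

theorem lor_rep (w : R.W) (x y : V3) : lor (S.rep w x) (S.rep w y) = lor x y :=
  (S.rep_isIso w).lor_eq x y

theorem lor_rep_left (w : R.W) (x y : V3) : lor (S.rep w x) y = lor x (S.rep w⁻¹ y) := by
  rw [← S.lor_rep w x, rep_rep_inv]

theorem lor_rep_right (w : R.W) (x y : V3) : lor x (S.rep w y) = lor (S.rep w⁻¹ x) y := by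
  rw [lor_comm, lor_rep_left, lor_comm]

theorem rep_hyp (w : R.W) {x : V3} (hx : x ∈ Hyp) : S.rep w x ∈ Hyp := (S.rep_isIso w).hyp x hx

theorem rep_hyp_iff (w : R.W) {x : V3} : S.rep w x ∈ Hyp ↔ x ∈ Hyp :=
  ⟨fun h => by have := S.rep_hyp w⁻¹ h; rwa [rep_inv_rep] at this, S.rep_hyp w⟩

theorem hd_rep (w : R.W) (x y : V3) : hd (S.rep w x) (S.rep w y) = hd x y :=
  (S.rep_isIso w).hd_eq x y

theorem sum_nonneg {i j : ι} (hij : i ≠ j) (ha : ¬ R.adj i j) {y : V3} (hy : y ∈ Fut) :
    0 ≤ lor y (S.n i) + lor y (S.n j) :=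
  causal_sum (S.unit i) (S.unit j) (S.sep i j hij ha) S.ho (S.pos i).le (S.pos j).le hy

theorem sum_pos {i j : ι} (hij : i ≠ j) (ha : ¬ R.adj i j) {y : V3} (hy : y ∈ Hyp) :
    0 < lor y (S.n i) + lor y (S.n j) := by
  have hc : lor (S.n i + S.n j) (S.n i + S.n j) ≤ 0 := by
    simp only [lor_add_left, lor_add_right, S.unit]
    rw [lor_comm (S.n j)]
    linarith [S.sep i j hij ha]
  have h0 := S.pos i
  have h0' := S.pos j
  have hne : S.n i + S.n j ≠ 0 := by
    intro h
    have : lor S.o (S.n i + S.n j) = 0 := by rw [h]; simp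
    rw [lor_add_right] at this
    linarith
  rcases le_total 0 ((S.n i + S.n j) 2) with h | h
  · have hF : S.n i + S.n j ∈ Fut := ⟨hc, h⟩
    have := lor_hyp_fut_neg S.ho hF (fut_pos_of_ne hF hne)
    rw [lor_add_right] at this; linarith
  · have hF : -(S.n i + S.n j) ∈ Fut := by
      refine ⟨?_, by rw [Pi.neg_apply]; linarith⟩
      rw [lor_neg_left, lor_neg_right, neg_neg]; exact hc
    have := lor_hyp_fut_neg hy hF (fut_pos_of_ne hF (neg_ne_zero.2 hne))
    rw [lor_neg_right, lor_add_right] at this; linarith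

/-- Lemma L: if `s_i w` is longer than `w` then the tile `w Q` lies on the inner side of the
mirror `i`. -/
theorem nonneg_of_lt {w : R.W} {i : ι} (h : R.len w < R.len (R.gen i * w)) {x : V3}
    (hx : x ∈ S.Q) : 0 ≤ lor (S.rep w x) (S.n i) := by
  induction hl : R.len w using Nat.strong_induction_on generalizing w i with
  | _ m IH =>
    by_cases hw : w = 1
    · subst hw; rw [S.rep_one]; exact hx.2 i
    obtain ⟨b, hb⟩ := R.exists_descent hw
    have hbi : b ≠ i := by rintro rfl; omega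
    obtain ⟨w', rfl⟩ : ∃ w', w = R.gen b * w' := ⟨R.gen b * w, by rw [R.gen_mul_cancel]⟩
    rw [R.gen_mul_cancel] at hb
    have hy := IH _ (by omega) hb rfl
    rw [S.rep_mul, S.rep_gen, lor_refl_left (S.unit b), refl_apply, lor_sub_right, lor_smul_right]
    by_cases hadj : R.adj b i
    · have hin : R.len w' < R.len (R.gen i * w') := by
        by_contra hcon
        have h1 := R.len_gen_mul i w'
        have e : R.gen i * (R.gen b * w') = R.gen b * (R.gen i * w') := by
          rw [← mul_assoc, ← mul_assoc, R.gen_comm hadj]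
        rw [e] at h
        have h3 := R.len_gen_mul b (R.gen i * w')
        have h4 := R.len_gen_mul b w'
        omega
      have := IH _ (by omega) hin rfl
      rw [lor_comm (S.n i) (S.n b), S.orth b i hadj]
      simpa using this
    · have h1 := S.sum_nonneg hbi hadj (Hyp_sub_Fut (S.rep_hyp w' hx.1))
      have h2 : lor (S.n i) (S.n b) ≤ -1 := by
        rw [lor_comm]; exact S.sep b i hbi hadj
      nlinarith

theorem nonpos_of_lt {w : R.W} {i : ι} (h : R.len (R.gen i * w) < R.len w) {x : V3}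
    (hx : x ∈ S.Q) : lor (S.rep w x) (S.n i) ≤ 0 := by
  have h2 := S.nonneg_of_lt (w := R.gen i * w) (i := i) (by rw [R.gen_mul_cancel]; exact h) hx
  rw [S.rep_mul, S.rep_gen, lor_refl_left (S.unit i), refl_self (S.unit i), lor_neg_right] at h2
  linarith

theorem exists_nonpos {w : R.W} (hw : w ≠ 1) : ∃ i, ∀ x ∈ S.Q, lor (S.rep w x) (S.n i) ≤ 0 := by
  obtain ⟨b, hb⟩ := R.exists_descent hw
  exact ⟨b, fun x hx => S.nonpos_of_lt hb hx⟩

/-- at most two mirrors pass through a point -/
theorem two_mirrors {z : V3} (hz : z ∈ Hyp) {i j b : ι} (hi : lor z (S.n i) = 0)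
    (hj : lor z (S.n j) = 0) (hb : lor z (S.n b) = 0) (hij : i ≠ j) : b = i ∨ b = j := by
  by_contra hcon
  push Not at hcon
  have adj_of : ∀ {k l : ι}, k ≠ l → lor z (S.n k) = 0 → lor z (S.n l) = 0 → R.adj k l := by
    intro k l hkl hk hl
    by_contra hna
    have := S.sum_pos hkl hna hz
    linarith
  have h1 := S.orth _ _ (adj_of hij hi hj)
  have h2 := S.orth _ _ (adj_of hcon.1 hb hi)
  have h3 := S.orth _ _ (adj_of hcon.2 hb hj)
  have u1 := S.unit i
  have u2 := S.unit j
  have u3 := S.unit b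
  have hz1 := hz.1
  -- Gram determinant of four vectors in three-space vanishes
  generalize S.n i = a at *
  generalize S.n j = c at *
  generalize S.n b = e at *
  -- determinant of (z, a, c) squared is one, e is orthogonal to all three
  have key : (z 0 * (a 1 * c 2 - a 2 * c 1) - z 1 * (a 0 * c 2 - a 2 * c 0)
      + z 2 * (a 0 * c 1 - a 1 * c 0)) ^ 2 = 1 := by
    have : (z 0 * (a 1 * c 2 - a 2 * c 1) - z 1 * (a 0 * c 2 - a 2 * c 0)
      + z 2 * (a 0 * c 1 - a 1 * c 0)) ^ 2 =
      -(lor z z * (lor a a * lor c c - lor a c * lor a c)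
        - lor z a * (lor z a * lor c c - lor a c * lor z c)
        + lor z c * (lor z a * lor a c - lor a a * lor z c)) := by
      unfold lor; ring
    rw [this, hz1, u1, u2, h1, hi, hj]; norm_num
  have hne : e = 0 := by
    set D := z 0 * (a 1 * c 2 - a 2 * c 1) - z 1 * (a 0 * c 2 - a 2 * c 0)
      + z 2 * (a 0 * c 1 - a 1 * c 0) with hD
    have e0 : D * e 0 = 0 := by
      have : D * e 0 = lor z e * (a 1 * c 2 - a 2 * c 1) - lor e a * (z 1 * c 2 - z 2 * c 1)
        + lor e c * (z 1 * a 2 - z 2 * a 1) := by rw [hD]; unfold lor; ring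
      rw [this, hb, h2, h3]; ring
    have e1 : D * e 1 = 0 := by
      have : D * e 1 = -(lor z e * (a 0 * c 2 - a 2 * c 0)) + lor e a * (z 0 * c 2 - z 2 * c 0)
        - lor e c * (z 0 * a 2 - z 2 * a 0) := by rw [hD]; unfold lor; ring
      rw [this, hb, h2, h3]; ring
    have e2 : D * e 2 = 0 := by
      have : D * e 2 = -(lor z e * (a 0 * c 1 - a 1 * c 0)) + lor e a * (z 0 * c 1 - z 1 * c 0)
        - lor e c * (z 0 * a 1 - z 1 * a 0) := by rw [hD]; unfold lor; ring
      rw [this, hb, h2, h3]; ring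
    have hD0 : D ≠ 0 := by intro h; rw [h] at key; norm_num at key
    funext k
    fin_cases k
    · simpa [hD0] using e0
    · simpa [hD0] using e1
    · simpa [hD0] using e2
  rw [hne] at u3
  simp at u3

/-- two mirrors through a common point are adjacent -/
theorem adj_of_common {z : V3} (hz : z ∈ Hyp) {k l : ι} (hkl : k ≠ l) (hk : lor z (S.n k) = 0)
    (hl : lor z (S.n l) = 0) : R.adj k l := by
  by_contra hna
  have := S.sum_pos hkl hna hz
  linarith

/-- T2: an element moving a point of the polygon into the polygon fixes it, and is a product of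
at most two reflections in sides through the point. -/
theorem stab_explicit (w : R.W) {z : V3} (hz : z ∈ S.Q) (hw : S.rep w z ∈ S.Q) :
    S.rep w z = z ∧ (w = 1 ∨ (∃ i, lor z (S.n i) = 0 ∧ w = R.gen i) ∨
      ∃ i j, R.adj i j ∧ lor z (S.n i) = 0 ∧ lor z (S.n j) = 0 ∧ w = R.gen i * R.gen j) := by
  induction hl : R.len w using Nat.strong_induction_on generalizing w with
  | _ m IH =>
    by_cases hw1 : w = 1
    · subst hw1; exact ⟨S.rep_one z, Or.inl rfl⟩
    obtain ⟨b, hb⟩ := R.exists_descent hw1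
    obtain ⟨w', rfl⟩ : ∃ w', w = R.gen b * w' := ⟨R.gen b * w, by rw [R.gen_mul_cancel]⟩
    have h1 := S.nonpos_of_lt hb hz
    rw [R.gen_mul_cancel] at hb
    have h2 := hw.2 b
    have h3 : lor (S.rep (R.gen b * w') z) (S.n b) = 0 := le_antisymm h1 h2
    have h4 : S.rep w' z = S.rep (R.gen b * w') z := by
      have : S.rep w' z = S.rep (R.gen b) (S.rep (R.gen b * w') z) := by
        rw [← S.rep_mul, R.gen_mul_cancel]
      rw [this, S.rep_gen, refl_fix h3]
    have h5 : S.rep w' z ∈ S.Q := by rw [h4]; exact hw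
    obtain ⟨h6, h7⟩ := IH _ (by omega) w' h5 rfl
    have h8 : S.rep (R.gen b * w') z = z := by rw [← h4, h6]
    rw [h8] at h3
    refine ⟨h8, ?_⟩
    rcases h7 with rfl | ⟨i, hi, rfl⟩ | ⟨i, j, hij, hi, hj, rfl⟩
    · right; left; exact ⟨b, h3, by rw [mul_one]⟩
    · by_cases hbi : b = i
      · subst hbi; left; exact R.gen_mul_self b
      · right; right
        exact ⟨b, i, S.adj_of_common hz.1 hbi h3 hi, h3, hi, rfl⟩
    · have hne : i ≠ j := by rintro rfl; exact R.irrefl i hij
      rcases S.two_mirrors hz.1 hi hj h3 hne with rfl | rfl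
      · right; left; exact ⟨j, hj, by rw [R.gen_mul_cancel]⟩
      · right; left
        refine ⟨i, hi, ?_⟩
        rw [R.gen_comm hij, R.gen_mul_cancel]

/-- fold uniqueness -/
theorem stab {w : R.W} {x : V3} (hx : x ∈ S.Q) (hw : S.rep w x ∈ S.Q) :
    S.rep w x = x ∧ w ∈ Subgroup.closure {g : R.W | ∃ i, g = R.gen i ∧ lor x (S.n i) = 0} := by
  obtain ⟨h1, h2⟩ := S.stab_explicit w hx hw
  refine ⟨h1, ?_⟩
  rcases h2 with rfl | ⟨i, hi, rfl⟩ | ⟨i, j, -, hi, hj, rfl⟩
  · exact one_mem _
  · exact Subgroup.subset_closure ⟨i, rfl, hi⟩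
  · exact mul_mem (Subgroup.subset_closure ⟨i, rfl, hi⟩) (Subgroup.subset_closure ⟨j, rfl, hj⟩)

/-! ### the orbit of the base point -/

theorem exists_sep [Finite ι] : ∃ ε : ℝ, 0 < ε ∧ ∀ w : R.W, w ≠ 1 → 1 + ε ≤ -lor S.o (S.rep w S.o) := by
  set K : Set V3 := {x | x ∈ Hyp ∧ -lor S.o x ≤ 2} with hK
  set K' : Set V3 := K ∩ ⋃ i, {x | lor x (S.n i) ≤ 0} with hK'
  have hKc : IsCompact K := isCompact_ballN S.o S.ho 2
  have hK'c : IsCompact K' := by
    apply hKc.inter_right
    exact isClosed_iUnion_of_finite fun i =>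
      isClosed_le (continuous_lor continuous_id continuous_const) continuous_const
  have hcont : Continuous fun x => -lor S.o x := (continuous_lor continuous_const continuous_id).neg
  have hw : ∀ w : R.W, w ≠ 1 → ∃ i, lor (S.rep w S.o) (S.n i) ≤ 0 := by
    intro w hw
    obtain ⟨b, hb⟩ := S.exists_nonpos hw
    exact ⟨b, hb _ S.o_mem_Q⟩
  rcases K'.eq_empty_or_nonempty with h0 | hne
  · refine ⟨1, one_pos, fun w hw1 => ?_⟩
    obtain ⟨i, hi⟩ := hw w hw1
    by_contra hcon
    push Not at hcon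
    have : S.rep w S.o ∈ K' := ⟨⟨S.rep_hyp w S.ho, by linarith⟩, mem_iUnion.2 ⟨i, hi⟩⟩
    rw [h0] at this
    exact this
  · obtain ⟨m, hm, hmin⟩ := hK'c.exists_isMinOn hne hcont.continuousOn
    have h1 : 1 < -lor S.o m := by
      rcases (one_le_N S.ho hm.1.1).lt_or_eq with h | h
      · exact h
      · exfalso
        have e := eq_of_N_le_one S.ho hm.1.1 h.ge
        obtain ⟨i, hi⟩ := mem_iUnion.1 hm.2
        have hi' : lor m (S.n i) ≤ 0 := hi
        rw [← e] at hi'
        linarith [S.pos i]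
    refine ⟨min 1 (-lor S.o m - 1), lt_min one_pos (by linarith), fun w hw1 => ?_⟩
    obtain ⟨i, hi⟩ := hw w hw1
    by_cases h2 : -lor S.o (S.rep w S.o) ≤ 2
    · have h3 : S.rep w S.o ∈ K' := ⟨⟨S.rep_hyp w S.ho, h2⟩, mem_iUnion.2 ⟨i, hi⟩⟩
      have h4 : -lor S.o m ≤ -lor S.o (S.rep w S.o) := hmin h3
      linarith [min_le_right (1 : ℝ) (-lor S.o m - 1)]
    · linarith [min_le_left (1 : ℝ) (-lor S.o m - 1)]

theorem exists_seq_of_infinite {α : Type*} {s : Set α} (h : s.Infinite) :
    ∃ f : ℕ → α, Function.Injective f ∧ ∀ k, f k ∈ s :=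
  ⟨fun k => (h.natEmbedding s k).1, fun _ _ e => (h.natEmbedding s).injective (Subtype.ext e),
    fun k => (h.natEmbedding s k).2⟩

theorem finite_orbit0 [Finite ι] {x : V3} (hx : x ∈ Hyp) (r : ℝ) :
    {w : R.W | -lor x (S.rep w S.o) ≤ r}.Finite := by
  by_contra hinf
  obtain ⟨f, hinj, hf⟩ := exists_seq_of_infinite hinf
  obtain ⟨ε, hε, hsep⟩ := S.exists_sep
  have hmem : ∀ k, S.rep (f k) S.o ∈ {y : V3 | y ∈ Hyp ∧ -lor x y ≤ r} := fun k =>
    ⟨S.rep_hyp _ S.ho, hf k⟩
  obtain ⟨y, hy, φ, hφ, hlim⟩ := (isCompact_ballN x hx r).tendsto_subseq hmem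
  have hlim2 := hlim.comp (tendsto_add_atTop_nat 1)
  have hc : Continuous fun p : V3 × V3 => -lor p.1 p.2 :=
    (continuous_lor continuous_fst continuous_snd).neg
  have h1 := (hc.tendsto (y, y)).comp (hlim.prodMk_nhds hlim2)
  have e1 : -lor y y = 1 := by rw [hy.1.1, neg_neg]
  simp only [e1] at h1
  have h3 : ∀ k, 1 + ε ≤ -lor (S.rep (f (φ k)) S.o) (S.rep (f (φ (k + 1))) S.o) := by
    intro k
    rw [S.lor_rep_left, ← S.rep_mul]
    apply hsep
    intro h
    have h4 : f (φ (k + 1)) = f (φ k) := by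
      rw [inv_mul_eq_one] at h
      exact h.symm
    have h5 := hinj h4
    have h6 : φ k < φ (k + 1) := hφ (Nat.lt_succ_self k)
    omega
  have := ge_of_tendsto' h1 h3
  linarith

/-- T1: the tiles cover. -/
theorem exists_tile [Finite ι] {x : V3} (hx : x ∈ Hyp) : ∃ w : R.W, S.rep w⁻¹ x ∈ S.Q := by
  have hfin := S.finite_orbit0 hx (-lor x S.o)
  have hne : {w : R.W | -lor x (S.rep w S.o) ≤ -lor x S.o}.Nonempty :=
    ⟨1, by change -lor x (S.rep 1 S.o) ≤ _; rw [S.rep_one]⟩
  obtain ⟨w, hw, hmin⟩ := hfin.exists_minimalFor (fun w => -lor x (S.rep w S.o)) _ hne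
  have goal : ∀ i, 0 ≤ lor (S.rep w⁻¹ x) (S.n i) := by
   intro i
   have h1 : -lor x (S.rep w S.o) ≤ -lor x (S.rep (w * R.gen i) S.o) := by
    by_contra hcon
    push Not at hcon
    have h2 : w * R.gen i ∈ {w : R.W | -lor x (S.rep w S.o) ≤ -lor x S.o} :=
      le_trans hcon.le hw
    exact absurd (hmin h2 hcon.le) (not_le.2 hcon)
   rw [S.rep_mul, S.rep_gen, refl_apply, map_sub, map_smul, lor_sub_right, lor_smul_right] at h1
   have h3 := S.pos i
   rw [S.lor_rep_right w x (S.n i)] at h1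
   nlinarith
  exact ⟨w, S.rep_hyp _ hx, goal⟩

theorem cover [Finite ι] {x : V3} (hx : x ∈ Hyp) : ∃ w : R.W, ∃ z ∈ S.Q, x = S.rep w z := by
  obtain ⟨w, hw⟩ := S.exists_tile hx
  exact ⟨w, _, hw, (S.rep_rep_inv w x).symm⟩

/-- T4: the polygon is compact. -/
theorem isCompact_Q : IsCompact S.Q := by
  obtain ⟨b, hR⟩ := S.bdd
  apply Metric.isCompact_of_isClosed_isBounded
  · have : S.Q = Hyp ∩ ⋂ i, {x | 0 ≤ lor x (S.n i)} := by
      ext x
      simp only [mem_inter_iff, mem_iInter]
      exact Iff.rfl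
    rw [this]
    exact isClosed_Hyp'.inter (isClosed_iInter fun i =>
      isClosed_le continuous_const (continuous_lor continuous_id continuous_const))
  · rw [Metric.isBounded_iff_subset_closedBall 0]
    refine ⟨b, fun x hx => ?_⟩
    rw [mem_closedBall_zero_iff]
    exact (norm_le_x2 hx.1).trans (hR x hx.1 hx.2)

theorem Q_bdd : ∃ r, 0 ≤ r ∧ ∀ z ∈ S.Q, hd S.o z ≤ r :=
  compact_hd_bdd S.isCompact_Q (fun _ h => h.1) S.ho

/-- finiteness in terms of distances -/
theorem finite_orbit [Finite ι] {x y : V3} (hx : x ∈ Hyp) (hy : y ∈ Hyp) (r : ℝ) :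
    {w : R.W | hd x (S.rep w y) ≤ r}.Finite := by
  apply (S.finite_orbit0 hx (exp (r + hd y S.o))).subset
  intro w hw
  have hw' : hd x (S.rep w y) ≤ r := hw
  have h1 := hd_triangle hx (S.rep_hyp w hy) (S.rep_hyp w S.ho)
  rw [S.hd_rep] at h1
  exact (N_le_exp_hd hx (S.rep_hyp w S.ho)).trans (exp_le_exp.2 (by linarith))

/-- proper discontinuity -/
theorem proper [Finite ι] {K : Set V3} (hK : IsCompact K) (hKH : K ⊆ Hyp) :
    {w : R.W | ∃ x ∈ K, S.rep w x ∈ K}.Finite := by
  obtain ⟨r, hr0, hr⟩ := compact_hd_bdd hK hKH S.ho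
  apply (S.finite_orbit S.ho S.ho (2 * r)).subset
  rintro w ⟨x, hx, hwx⟩
  have h1 := hd_triangle S.ho (hKH hwx) (S.rep_hyp w S.ho)
  rw [S.hd_rep, hd_comm x] at h1
  have := hr _ hx
  have := hr _ hwx
  change hd S.o (S.rep w S.o) ≤ 2 * r
  linarith

/-- the representation is faithful -/
theorem rep_injective {w : R.W} (h : ∀ x ∈ Hyp, S.rep w x = x) : w = 1 := by
  by_contra hw
  obtain ⟨b, hb⟩ := S.exists_nonpos hw
  have := hb _ S.o_mem_Q
  rw [h _ S.ho] at this
  linarith [S.pos b]

end Mirrors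

end SBA
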