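import Pool.Agent.Lib.MP_709218_gt.Lor2
import Pool.Agent.Lib.MP_709218_gt.Tile

/-! The surface group of a compact right-angled polygon. -/

namespace SBA

open Matrix Set

variable {ι : Type}

/-- the sign homomorphism `gen i ↦ -1` -/
noncomputable def RA.sgn (R : RA ι) : R.W →* ℤˣ :=
  R.lift (fun _ => -1) (by intro i; simp) (fun _ _ _ => rfl)

theorem RA.sgn_gen (R : RA ι) (i : ι) : R.sgn (R.gen i) = -1 := R.lift_gen _ _ _ i

/-- determinant of a reflection -/
theorem det_refl {n : V3} (hn : lor n n = 1) : (LinearMap.toMatrix' (refl n)).det = -1 := by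
  rw [Matrix.det_fin_three]
  simp only [LinearMap.toMatrix'_apply, refl_apply, lor, Pi.sub_apply, Pi.smul_apply, smul_eq_mul,
    Pi.single_apply]
  unfold lor at hn
  simp only [Fin.isValue, if_true, if_false, Fin.reduceEq]
  linear_combination (-2) * hn

theorem det_rep {R : RA ι} (S : Mirrors R) (w : R.W) :
    (LinearMap.toMatrix' (S.rep w)).det = (((R.sgn w : ℤˣ) : ℤ) : ℝ) := by
  induction w using R.induction_left with
  | one =>
    rw [map_one S.rep, map_one R.sgn, LinearMap.toMatrix'_one]; simp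
  | mul i w ih =>
    rw [map_mul S.rep, map_mul R.sgn, LinearMap.toMatrix'_mul, Matrix.det_mul, ih, S.rep_gen,
      det_refl (S.unit i), R.sgn_gen]
    simp

/-- the normal of the image of a unit vector, up to sign -/
theorem nrm_pact {R : RA ι} (S : Mirrors R) (w : R.W) (y : V3 × V3) :
    nrm (pact (S.rep w) y) = (((R.sgn w : ℤˣ) : ℤ) : ℝ) • S.rep w (nrm y) := by
  have key : ∀ z, lor (nrm (pact (S.rep w) y)) (S.rep w z) =
      lor ((((R.sgn w : ℤˣ) : ℤ) : ℝ) • S.rep w (nrm y)) (S.rep w z) := by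
    intro z
    rw [lor_smul_left, S.lor_rep, ← det_rep S w]
    simp only [nrm, pact]
    rw [lor_cross, lor_cross]
    have : (Matrix.of ![S.rep w y.1, S.rep w y.2, S.rep w z] : Matrix (Fin 3) (Fin 3) ℝ) =
        (Matrix.of ![y.1, y.2, z]) * (LinearMap.toMatrix' (S.rep w))ᵀ := by
      have e : ∀ x, S.rep w x = (LinearMap.toMatrix' (S.rep w)) *ᵥ x := fun x =>
        (LinearMap.toMatrix'_mulVec _ _).symm
      rw [e y.1, e y.2, e z]
      generalize LinearMap.toMatrix' (S.rep w) = M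
      ext i j
      rw [Matrix.mul_apply]
      fin_cases i <;>
        simp [Matrix.mulVec, dotProduct, Matrix.transpose_apply, mul_comm]
    rw [this, Matrix.det_mul, Matrix.det_transpose, mul_comm]
  have : nrm (pact (S.rep w) y) - (((R.sgn w : ℤˣ) : ℤ) : ℝ) • S.rep w (nrm y) = 0 := by
    apply lor_nondeg
    intro x
    have h := key (S.rep w⁻¹ x)
    rw [S.rep_rep_inv] at h
    rw [lor_sub_left, h, sub_self]
  exact sub_eq_zero.1 this

theorem sgn_sq (R : RA ι) (w : R.W) :
    (((R.sgn w : ℤˣ) : ℤ) : ℝ) * (((R.sgn w : ℤˣ) : ℤ) : ℝ) = 1 := by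
  rw [← Int.cast_mul, ← Units.val_mul, Int.units_mul_self]
  simp

/-- A compact right-angled polygon with a finite index normal subgroup `K` of its reflection group
that is torsion free and orientation preserving. -/
structure Surf {ι : Type} (R : RA ι) where
  S : Mirrors R
  K : Subgroup R.W
  normal : K.Normal
  finIdx : K.FiniteIndex
  gen_notMem : ∀ i, R.gen i ∉ K
  pair_notMem : ∀ i j, R.adj i j → R.gen i * R.gen j ∉ K
  triangle_free : ∀ i j k, R.adj i j → R.adj j k → ¬ R.adj i k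
  sgn_K : ∀ w ∈ K, R.sgn w = 1

namespace Surf

variable {R : RA ι}

/-- the holonomy representation of the surface group -/
noncomputable def j1 (F : Surf R) : F.K →* SpecialLinearGroup (Fin 3) ℝ where
  toFun w := ⟨LinearMap.toMatrix' (F.S.rep w.1), by rw [det_rep, F.sgn_K w.1 w.2]; simp⟩
  map_one' := by
    apply Subtype.ext
    change LinearMap.toMatrix' (F.S.rep 1) = 1
    rw [map_one]; exact LinearMap.toMatrix'_one
  map_mul' u v := by
    apply Subtype.ext
    change LinearMap.toMatrix' (F.S.rep (u.1 * v.1)) =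
      LinearMap.toMatrix' (F.S.rep u.1) * LinearMap.toMatrix' (F.S.rep v.1)
    rw [map_mul, LinearMap.toMatrix'_mul]

theorem j1_mulVec (F : Surf R) (w : F.K) (x : V3) : (F.j1 w).1 *ᵥ x = F.S.rep w.1 x :=
  LinearMap.toMatrix'_mulVec _ _

theorem mact_j1 (F : Surf R) (w : F.K) (y : V3 × V3) :
    mact (F.j1 w) y = pact (F.S.rep w.1) y := by
  unfold mact pact
  rw [j1_mulVec, j1_mulVec]

theorem rep_injective [Finite ι] (F : Surf R) : Function.Injective F.S.rep := by
  intro u v h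
  have h1 : v⁻¹ * u = 1 := by
    apply F.S.rep_injective
    intro x _
    rw [F.S.rep_mul, h, F.S.rep_inv_rep]
  exact (inv_mul_eq_one.1 h1).symm

theorem j1_injective [Finite ι] (F : Surf R) : Function.Injective F.j1 := by
  intro u v h
  apply Subtype.ext
  apply F.rep_injective
  apply LinearMap.ext
  intro x
  rw [← j1_mulVec, ← j1_mulVec, h]

/-- the surface group -/
noncomputable def Γ (F : Surf R) : Subgroup (SpecialLinearGroup (Fin 3) ℝ) := F.j1.range

/-- the group `K` acts freely -/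
theorem free_rep [Finite ι] (F : Surf R) {w : R.W} (hw : w ∈ F.K) {x : V3} (hx : x ∈ Hyp)
    (h : F.S.rep w x = x) : w = 1 := by
  obtain ⟨v, z, hz, rfl⟩ := F.S.cover hx
  have h1 : F.S.rep (v⁻¹ * w * v) z = z := by
    rw [F.S.rep_mul, F.S.rep_mul, h, F.S.rep_inv_rep]
  have h2 : v⁻¹ * w * v ∈ F.K := by
    have := F.normal.conj_mem w hw v⁻¹
    rwa [inv_inv] at this
  obtain ⟨-, h3⟩ := F.S.stab_explicit (v⁻¹ * w * v) hz (by rw [h1]; exact hz)
  rcases h3 with h3 | ⟨i, -, h3⟩ | ⟨i, j, hij, -, -, h3⟩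
  · have : w = v * (v⁻¹ * w * v) * v⁻¹ := by group
    rw [this, h3]; simp
  · rw [h3] at h2; exact absurd h2 (F.gen_notMem i)
  · rw [h3] at h2; exact absurd h2 (F.pair_notMem i j hij)

theorem isSurfaceGroup [Finite ι] (F : Surf R) : IsSurfaceGroup F.Γ where
  lor_eq := by
    rintro g ⟨w, rfl⟩ x y
    rw [j1_mulVec, j1_mulVec, F.S.lor_rep]
  maps_hyp := by
    rintro g ⟨w, rfl⟩ x hx
    rw [j1_mulVec]; exact F.S.rep_hyp _ hx
  free := by
    rintro g ⟨w, rfl⟩ x hx h
    rw [j1_mulVec] at h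
    have h1 := F.free_rep w.2 hx h
    have h2 : w = 1 := Subtype.ext h1
    rw [h2, map_one]
  proper := by
    intro K hKH hK
    classical
    have hfin := F.S.proper hK hKH
    apply (hfin.image (fun w => if h : w ∈ F.K then F.j1 ⟨w, h⟩ else 1)).subset
    rintro g ⟨⟨w, rfl⟩, x, hx, hgx⟩
    refine ⟨w.1, ⟨x, hx, ?_⟩, ?_⟩
    · rwa [j1_mulVec] at hgx
    · simp only [w.2, dite_true]
  cocompact := by
    have := F.finIdx
    have := F.normal
    have hfin : Finite (R.W ⧸ F.K) := Subgroup.finite_quotient_of_finiteIndex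
    refine ⟨⋃ q : R.W ⧸ F.K, F.S.rep q.out '' F.S.Q, ?_, ?_, ?_⟩
    · intro x hx
      obtain ⟨q, z, hz, rfl⟩ := mem_iUnion.1 hx
      exact F.S.rep_hyp _ hz.1
    · apply isCompact_iUnion
      intro q
      exact F.S.isCompact_Q.image (LinearMap.continuous_of_finiteDimensional _)
    · intro x hx
      obtain ⟨v, z, hz, rfl⟩ := F.S.cover hx
      set r : R.W := (QuotientGroup.mk v : R.W ⧸ F.K).out with hr
      have h1 : r⁻¹ * v ∈ F.K := by
        rw [← QuotientGroup.eq]
        exact QuotientGroup.out_eq' _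
      have h2 : r * v⁻¹ ∈ F.K := by
        have h3 := F.K.inv_mem (F.normal.conj_mem _ h1 r)
        have h4 : (r * (r⁻¹ * v) * r⁻¹)⁻¹ = r * v⁻¹ := by group
        rwa [h4] at h3
      refine ⟨F.j1 ⟨r * v⁻¹, h2⟩, ⟨_, rfl⟩, ?_⟩
      rw [j1_mulVec]
      refine mem_iUnion.2 ⟨QuotientGroup.mk v, z, hz, ?_⟩
      rw [← hr, ← F.S.rep_mul, inv_mul_cancel_right]

/-- the set of vectors whose geodesic does not cross its translates by `K` -/
def NCset (F : Surf R) : Set (V3 × V3) :=
  {y | y ∈ UT ∧ ∀ w ∈ F.K, 1 ≤ |lor (nrm y) (F.S.rep w (nrm y))|}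

theorem NCset_flow (F : Surf R) {y : V3 × V3} (hy : y ∈ F.NCset) (t : ℝ) : flow t y ∈ F.NCset := by
  refine ⟨flow_mem hy.1 t, fun w hw => ?_⟩
  rw [nrm_flow]; exact hy.2 w hw

/-- invariance under the whole reflection group (`K` is normal) -/
theorem NCset_pact (F : Surf R) {y : V3 × V3} (hy : y ∈ F.NCset) (w : R.W) :
    pact (F.S.rep w) y ∈ F.NCset := by
  refine ⟨pact_mem (F.S.rep_isIso w) hy.1, fun u hu => ?_⟩
  have h1 : w⁻¹ * u * w ∈ F.K := by
    have := F.normal.conj_mem u hu w⁻¹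
    rwa [inv_inv] at this
  have h2 := hy.2 _ h1
  rw [nrm_pact, map_smul, lor_smul_left, lor_smul_right, ← mul_assoc, sgn_sq, one_mul,
    F.S.lor_rep_left, ← F.S.rep_mul, ← F.S.rep_mul]
  exact h2

theorem nrm_rev (y : V3 × V3) : nrm (rev y) = -nrm y := by
  funext i
  fin_cases i
  · simp only [nrm, cross, rev, Pi.neg_apply, Fin.zero_eta, Matrix.cons_val_zero]; ring
  · simp only [nrm, cross, rev, Pi.neg_apply, Fin.mk_one, Matrix.cons_val_one, Matrix.cons_val_zero]
    ring
  · simp only [nrm, cross, rev, Pi.neg_apply, Fin.reduceFinMk, Matrix.cons_val]; ring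

theorem NCset_rev (F : Surf R) {y : V3 × V3} (hy : y ∈ F.NCset) : rev y ∈ F.NCset := by
  refine ⟨rev_mem hy.1, fun w hw => ?_⟩
  rw [nrm_rev, map_neg, lor_neg_left, lor_neg_right, neg_neg]; exact hy.2 w hw

theorem NCset_mact (F : Surf R) {y : V3 × V3} (hy : y ∈ F.NCset)
    {g : SpecialLinearGroup (Fin 3) ℝ} (hg : g ∈ F.Γ) : mact g y ∈ F.NCset := by
  obtain ⟨w, rfl⟩ := hg
  rw [mact_j1]; exact F.NCset_pact hy _

theorem isClosed_NCset (F : Surf R) : IsClosed F.NCset := by
  have : F.NCset = UT ∩ ⋂ w : F.K, {y | 1 ≤ |lor (nrm y) (F.S.rep w.1 (nrm y))|} := by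
    ext y
    simp only [NCset, mem_inter_iff, mem_iInter, Subtype.forall]
    exact Iff.rfl
  rw [this]
  refine isClosed_UT.inter (isClosed_iInter fun w => ?_)
  exact isClosed_le continuous_const (continuous_lor continuous_nrm
    ((LinearMap.continuous_of_finiteDimensional _).comp continuous_nrm)).abs

theorem F0_subset_NCset [Finite ι] (F : Surf R) : F0 F.Γ ⊆ F.NCset := by
  intro y hy
  refine ⟨F0_subset_UT _ hy, fun w hw => ?_⟩
  have := simple_noncross F.isSurfaceGroup hy (g := F.j1 ⟨w, hw⟩) ⟨_, rfl⟩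
  rwa [j1_mulVec] at this

/-! ### a simple closed geodesic -/

section perp

/-- the elements of the infinite dihedral group generated by two mirrors -/
def Dih (R : RA ι) (a d : ι) (w : R.W) : Prop :=
  ∃ k : ℤ, w = (R.gen d * R.gen a) ^ k ∨ w = (R.gen d * R.gen a) ^ k * R.gen a

theorem semiconj (R : RA ι) (a d : ι) (k : ℤ) :
    R.gen a * (R.gen d * R.gen a) ^ k = (R.gen d * R.gen a) ^ (-k) * R.gen a := by
  have h : SemiconjBy (R.gen a) (R.gen d * R.gen a) (R.gen d * R.gen a)⁻¹ := by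
    unfold SemiconjBy
    rw [_root_.mul_inv_rev, R.gen_inv, R.gen_inv, mul_assoc]
  have := h.zpow_right k
  unfold SemiconjBy at this
  rw [this, _root_.inv_zpow, _root_.zpow_neg]

theorem Dih.one (R : RA ι) (a d : ι) : Dih R a d 1 := ⟨0, Or.inl (by simp)⟩

theorem Dih.gen_a (R : RA ι) (a d : ι) : Dih R a d (R.gen a) := ⟨0, Or.inr (by simp)⟩

theorem Dih.gen_d (R : RA ι) (a d : ι) : Dih R a d (R.gen d) :=
  ⟨1, Or.inr (by rw [zpow_one, mul_assoc, R.gen_mul_self, mul_one])⟩

theorem Dih.mul {R : RA ι} {a d : ι} {u v : R.W} (hu : Dih R a d u) (hv : Dih R a d v) :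
    Dih R a d (u * v) := by
  obtain ⟨k, rfl | rfl⟩ := hu <;> obtain ⟨l, rfl | rfl⟩ := hv
  · exact ⟨k + l, Or.inl (_root_.zpow_add _ _ _).symm⟩
  · exact ⟨k + l, Or.inr (by rw [_root_.zpow_add, mul_assoc])⟩
  · exact ⟨k + -l, Or.inr (by rw [mul_assoc, semiconj, _root_.zpow_add, mul_assoc])⟩
  · refine ⟨k + -l, Or.inl ?_⟩
    rw [mul_assoc, ← mul_assoc (R.gen a), semiconj, mul_assoc, R.gen_mul_self, mul_one,
      _root_.zpow_add]

theorem Dih.inv {R : RA ι} {a d : ι} {u : R.W} (hu : Dih R a d u) : Dih R a d u⁻¹ := by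
  obtain ⟨k, rfl | rfl⟩ := hu
  · exact ⟨-k, Or.inl (_root_.zpow_neg _ _).symm⟩
  · refine ⟨k, Or.inr ?_⟩
    rw [_root_.mul_inv_rev, R.gen_inv, ← _root_.zpow_neg, semiconj, neg_neg]

theorem sgn_zpow (R : RA ι) (a d : ι) (k : ℤ) : R.sgn ((R.gen d * R.gen a) ^ k) = 1 := by
  rw [map_zpow, map_mul, R.sgn_gen, R.sgn_gen]; simp

end perp

/-- A simple closed geodesic: two mirrors `a`, `d` whose common perpendicular stays inside the
polygon. -/
theorem F0_nonempty [Finite ι] (F : Surf R) (a d : ι) (had : a ≠ d)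
    (hna : ¬ R.adj a d) (hlt : lor (F.S.n a) (F.S.n d) < -1)
    (hK : ∃ m : ℕ, 0 < m ∧ (R.gen a * R.gen d) ^ m ∈ F.K)
    (hperp : ∀ x ∈ Hyp, (∃ s t : ℝ, x = s • F.S.n a + t • F.S.n d) → 0 ≤ lor x (F.S.n a) →
      0 ≤ lor x (F.S.n d) → ∀ i, i ≠ a → i ≠ d → 0 < lor x (F.S.n i)) :
    (F0 F.Γ).Nonempty := by
  classical
  set na := F.S.n a with hna_def
  set nd := F.S.n d with hnd_def
  have haa : lor na na = 1 := F.S.unit a
  have hdd : lor nd nd = 1 := F.S.unit d
  -- the distance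
  set D := Real.arcosh (-lor na nd) with hD
  have hcosh : Real.cosh D = -lor na nd := Real.cosh_arcosh (by linarith)
  have hDpos : 0 < D := Real.arcosh_pos (by linarith)
  have hsinh : 0 < Real.sinh D := Real.sinh_pos_iff.2 hDpos
  have hcs : Real.cosh D ^ 2 - Real.sinh D ^ 2 = 1 := Real.cosh_sq_sub_sinh_sq D
  have had' : lor na nd = -Real.cosh D := by rw [hcosh]; ring
  have hda' : lor nd na = -Real.cosh D := by rw [lor_comm]; exact had'
  -- the foot on the mirror `a`
  set p : V3 := (-(Real.sinh D)⁻¹) • (nd + Real.cosh D • na) with hp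
  have hpa : lor p na = 0 := by
    rw [hp, lor_smul_left, lor_add_left, lor_smul_left, haa, hda']; ring
  have hpd : lor p nd = Real.sinh D := by
    rw [hp, lor_smul_left, lor_add_left, lor_smul_left, hdd, had']
    field_simp
    linarith
  have hpp : lor p p = -1 := by
    have : lor p p = (-(Real.sinh D)⁻¹) * (lor p nd + Real.cosh D * lor p na) := by
      conv_lhs => rw [hp, lor_smul_left, ← hp, lor_add_left, lor_smul_left]
      rw [lor_comm nd p, lor_comm na p]
    rw [this, hpa, hpd]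
    field_simp
    ring
  have hpH : p ∈ Hyp := by
    apply mem_Hyp_of_lor_neg F.S.ho hpp
    rw [hp, lor_smul_right, lor_add_right, lor_smul_right]
    have h1 := F.S.pos a
    have h2 := F.S.pos d
    have h3 : 0 < lor F.S.o nd + Real.cosh D * lor F.S.o na := by
      have := Real.cosh_pos D
      positivity
    have h4 : 0 < (Real.sinh D)⁻¹ := inv_pos.2 hsinh
    nlinarith
  set y : V3 × V3 := (p, na) with hy
  have hyU : y ∈ UT := ⟨hpH, hpa, haa⟩
  -- the geodesic in terms of the two mirrors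
  have hya : ∀ t, lor (flow t y).1 na = Real.sinh t := by
    intro t
    simp only [flow, hy, lor_add_left, lor_smul_left, hpa, haa]; ring
  have hyd : ∀ t, lor (flow t y).1 nd = Real.sinh (D - t) := by
    intro t
    simp only [flow, hy, lor_add_left, lor_smul_left, hpd, had', Real.sinh_sub]; ring
  have hyspan : ∀ t, ∃ s u : ℝ, (flow t y).1 = s • na + u • nd := by
    intro t
    refine ⟨Real.cosh t * (-(Real.sinh D)⁻¹) * Real.cosh D + Real.sinh t,
      Real.cosh t * (-(Real.sinh D)⁻¹), ?_⟩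
    simp only [flow, hy, hp]
    module
  have hyQ : ∀ t, 0 ≤ t → t ≤ D → (flow t y).1 ∈ F.S.Q := by
    intro t h0 h1
    refine ⟨(flow_mem hyU t).1, fun i => ?_⟩
    by_cases hia : i = a
    · subst hia
      rw [hya]; exact Real.sinh_nonneg_iff.2 h0
    by_cases hid : i = d
    · subst hid
      rw [hyd]; exact Real.sinh_nonneg_iff.2 (by linarith)
    exact (hperp _ (flow_mem hyU t).1 (hyspan t) (by rw [hya]; exact Real.sinh_nonneg_iff.2 h0)
      (by rw [hyd]; exact Real.sinh_nonneg_iff.2 (by linarith)) i hia hid).le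
  have hflowinj : ∀ s t, (flow s y).1 = (flow t y).1 → s = t := by
    intro s t h
    have := congrArg (fun x => lor x na) h
    simp only [hya] at this
    exact Real.sinh_injective this
  -- the action of the dihedral group
  have hrev : ∀ (w : R.W) (z : V3 × V3), pact (F.S.rep w) (rev z) = rev (pact (F.S.rep w) z) := by
    intro w z
    simp only [pact, rev, map_neg]
  have hrr : ∀ z : V3 × V3, rev (rev z) = z := by
    intro z
    simp only [rev, neg_neg]
  have hPa : pact (F.S.rep (R.gen a)) y = rev y := by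
    simp only [pact, rev, hy, F.S.rep_gen]
    rw [← hna_def, refl_fix hpa, refl_self haa]
  have e3 : nd = (-Real.sinh D) • p - Real.cosh D • na := by
    rw [hp, smul_smul, neg_mul_neg, mul_inv_cancel₀ hsinh.ne', one_smul]
    module
  have hPd : pact (F.S.rep (R.gen d)) y = rev (flow (2 * D) y) := by
    simp only [pact, rev, hy, F.S.rep_gen, flow]
    rw [← hnd_def, refl_apply, refl_apply, hpd, had', Real.cosh_two_mul, Real.sinh_two_mul, e3]
    have h1 : Real.cosh D ^ 2 = 1 + Real.sinh D ^ 2 := by linarith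
    ext1
    · rw [h1]; module
    · rw [show Real.sinh D ^ 2 = Real.cosh D ^ 2 - 1 by linarith]; module
  have hpm : ∀ (u v : R.W) (z : V3 × V3),
      pact (F.S.rep (u * v)) z = pact (F.S.rep u) (pact (F.S.rep v) z) := by
    intro u v z
    simp only [pact, F.S.rep_mul]
  set τ : R.W := R.gen d * R.gen a with hτ
  have hPτ : pact (F.S.rep τ) y = flow (2 * D) y := by
    rw [hτ, hpm, hPa, hrev, hPd, hrr]
  have hPk : ∀ k : ℤ, pact (F.S.rep (τ ^ k)) y = flow (2 * D * k) y := by
    intro k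
    induction k using Int.induction_on with
    | zero =>
      simp only [zpow_zero, Int.cast_zero, mul_zero, flow_zero, pact, F.S.rep_one]
    | succ k ih =>
      rw [_root_.zpow_add_one, hpm, hPτ, pact_flow, ih, ← flow_add]
      congr 1; push_cast; ring
    | pred k ih =>
      have h1 : pact (F.S.rep (τ ^ (-(k : ℤ) - 1))) (flow (2 * D) y) =
          flow (2 * D * (-(k : ℤ) : ℤ)) y := by
        rw [← hPτ, ← hpm, _root_.zpow_sub_one, inv_mul_cancel_right, ih]
      rw [pact_flow] at h1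
      have h2 := congrArg (flow (-(2 * D))) h1
      rw [← flow_add, ← flow_add, neg_add_cancel, flow_zero] at h2
      rw [h2]
      congr 1; push_cast; ring
  have hact : ∀ (k : ℤ) (t : ℝ), F.S.rep (τ ^ k) (flow t y).1 = (flow (t + 2 * D * k) y).1 := by
    intro k t
    have h1 : pact (F.S.rep (τ ^ k)) (flow t y) = flow (t + 2 * D * k) y := by
      rw [pact_flow, hPk, flow_add]
    exact congrArg Prod.fst h1
  have hRa : ∀ t, F.S.rep (R.gen a) (flow t y).1 = (flow (-t) y).1 := by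
    intro t
    have h1 : pact (F.S.rep (R.gen a)) (flow t y) = rev (flow (-t) y) := by
      rw [pact_flow, hPa, flow_rev]
    exact congrArg Prod.fst h1
  -- reduction to the polygon
  have hred : ∀ s : ℝ, ∃ u, Dih R a d u ∧ ∃ s', 0 ≤ s' ∧ s' ≤ D ∧
      (flow s y).1 = F.S.rep u (flow s' y).1 := by
    intro s
    set k : ℤ := ⌊s / (2 * D)⌋ with hk
    have h1 : (k : ℝ) ≤ s / (2 * D) := Int.floor_le _
    have h2 : s / (2 * D) < k + 1 := Int.lt_floor_add_one _
    rw [le_div_iff₀ (by positivity)] at h1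
    rw [div_lt_iff₀ (by positivity)] at h2
    by_cases h3 : s - 2 * D * k ≤ D
    · refine ⟨τ ^ k, ⟨k, Or.inl rfl⟩, s - 2 * D * k, by linarith, h3, ?_⟩
      rw [hact]; congr 2; ring
    · push Not at h3
      refine ⟨τ ^ (k + 1) * R.gen a, ⟨k + 1, Or.inr rfl⟩, 2 * D - (s - 2 * D * k), by linarith,
        by linarith, ?_⟩
      rw [F.S.rep_mul, hRa, hact]; congr 2; push_cast; ring
  -- the stabiliser of the geodesic
  have hdih : ∀ w ∈ F.K, ∀ s t : ℝ, F.S.rep w (flow s y).1 = (flow t y).1 →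
      ∃ j : ℤ, w = τ ^ j ∧ t = s + 2 * D * j := by
    intro w hw s t hst
    obtain ⟨u, hu, s', hs0, hs1, hs⟩ := hred s
    obtain ⟨v, hv, t', ht0, ht1, ht⟩ := hred t
    have h1 : F.S.rep (v⁻¹ * w * u) (flow s' y).1 = (flow t' y).1 := by
      rw [F.S.rep_mul, F.S.rep_mul, ← hs, hst, ht, F.S.rep_inv_rep]
    obtain ⟨-, h2⟩ := F.S.stab_explicit _ (hyQ s' hs0 hs1) (by rw [h1]; exact hyQ t' ht0 ht1)
    have hi : ∀ i, lor (flow s' y).1 (F.S.n i) = 0 → Dih R a d (R.gen i) := by
      intro i hi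
      by_cases hia : i = a
      · subst hia; exact Dih.gen_a R _ _
      by_cases hid : i = d
      · subst hid; exact Dih.gen_d R _ _
      exfalso
      have := hperp _ (flow_mem hyU s').1 (hyspan s')
        (by rw [hya]; exact Real.sinh_nonneg_iff.2 hs0)
        (by rw [hyd]; exact Real.sinh_nonneg_iff.2 (by linarith)) i hia hid
      linarith
    have h3 : Dih R a d (v⁻¹ * w * u) := by
      rcases h2 with h2 | ⟨i, hi0, h2⟩ | ⟨i, j, -, hi0, hj0, h2⟩
      · rw [h2]; exact Dih.one R a d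
      · rw [h2]; exact hi i hi0
      · rw [h2]; exact (hi i hi0).mul (hi j hj0)
    have h4 : Dih R a d w := by
      have : w = v * (v⁻¹ * w * u) * u⁻¹ := by group
      rw [this]; exact (hv.mul h3).mul hu.inv
    obtain ⟨j, hj | hj⟩ := h4
    · refine ⟨j, hj, ?_⟩
      rw [hj, ← hτ, hact] at hst
      exact (hflowinj _ _ hst).symm
    · exfalso
      have h5 := F.sgn_K w hw
      rw [hj, map_mul, sgn_zpow, R.sgn_gen, one_mul] at h5
      exact absurd h5 (by decide)
  -- the minimal translation in `K`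
  have hinv : ∀ m : ℕ, (R.gen a * R.gen d) ^ m ∈ F.K ↔ τ ^ m ∈ F.K := by
    intro m
    have : (R.gen a * R.gen d) ^ m = (τ ^ m)⁻¹ := by
      rw [hτ, ← inv_pow, _root_.mul_inv_rev, R.gen_inv, R.gen_inv]
    rw [this, Subgroup.inv_mem_iff]
  simp only [hinv] at hK
  set m := Nat.find hK with hm
  obtain ⟨hm0, hmK⟩ := Nat.find_spec hK
  rw [← hm] at hm0 hmK
  have hmin : ∀ r : ℕ, r < m → ¬ (0 < r ∧ τ ^ r ∈ F.K) := fun r hr => Nat.find_min hK hr
  have hdvd : ∀ j : ℤ, τ ^ j ∈ F.K → (m : ℤ) ∣ j := by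
    intro j hj
    rw [Int.dvd_iff_emod_eq_zero]
    by_contra hne
    have hmpos : (0 : ℤ) < m := by exact_mod_cast hm0
    have h0 : 0 ≤ j % m := Int.emod_nonneg _ hmpos.ne'
    have h1 : j % m < m := Int.emod_lt_of_pos _ hmpos
    obtain ⟨r, hr⟩ := Int.eq_ofNat_of_zero_le h0
    apply hmin r (by omega)
    refine ⟨by omega, ?_⟩
    have h2 : τ ^ r = τ ^ j * (τ ^ m) ^ (-(j / m)) := by
      rw [← zpow_natCast τ r, ← hr, ← zpow_natCast τ m, ← _root_.zpow_mul,
        ← _root_.zpow_add]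
      congr 1
      have := Int.emod_add_mul_ediv j m
      linarith
    rw [h2]
    exact F.K.mul_mem hj (F.K.zpow_mem hmK _)
  refine ⟨y, subset_closure ⟨hyU, 2 * D * m, by positivity, ?_, ?_⟩⟩
  · refine ⟨F.j1 ⟨τ ^ m, hmK⟩, ⟨_, rfl⟩, ?_⟩
    rw [mact_j1]
    have := hPk m
    rw [zpow_natCast] at this
    rw [this]
    push_cast
    rfl
  · rintro s t ⟨g, ⟨w, rfl⟩, hg⟩
    rw [mact_j1] at hg
    obtain ⟨j, hj1, hj2⟩ := hdih w.1 w.2 s t hg
    obtain ⟨n, hn⟩ := hdvd j (by rw [← hj1]; exact w.2)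
    refine ⟨n, ?_⟩
    rw [hj2, hn]
    push_cast
    ring

end Surf

theorem KAnosovOn.mono {d : ℕ} {Γ : Subgroup (SpecialLinearGroup (Fin 3) ℝ)}
    {ρ : Γ →* SpecialLinearGroup (Fin d) ℂ} {k : ℕ} {Y Y' : Set (V3 × V3)} (h : Y ⊆ Y')
    (hA : KAnosovOn Γ ρ k Y') : KAnosovOn Γ ρ k Y := by
  obtain ⟨P, N, C, c, hc, h1, h2, h3, h4, h5, h6, h7, h8⟩ := hA
  exact ⟨P, N, C, c, hc, h1.mono h, fun y hy => h2 y (h hy), fun y hy => h3 y (h hy),
    fun y hy => h4 y (h hy), h5.mono (prod_mono h subset_rfl), fun y hy => h6 y (h hy),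
    fun y hy => h7 y (h hy), fun y hy => h8 y (h hy)⟩

end SBA
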