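import Pool.Agent.Lib.MP_709218_gt.D3Base
import Pool.Agent.Lib.MP_709218_gt.Surf

/-! The regular right-angled hexagon and the surface groups of genus `n + 1`. -/

namespace SBA

open Matrix Set

namespace D3

open Letter

/-- inner normals of the regular right-angled hexagon -/
noncomputable def hn : Letter → V3
  | r 0 => ![-√2, 0, -1]
  | r 1 => ![√2 / 2, -(√6 / 2), -1]
  | r 2 => ![√2 / 2, √6 / 2, -1]
  | z 0 => ![√2, 0, -1]
  | z 1 => ![-(√2 / 2), √6 / 2, -1]
  | z 2 => ![-(√2 / 2), -(√6 / 2), -1]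

theorem s2 : √2 * √2 = (2 : ℝ) := Real.mul_self_sqrt (by norm_num)
theorem s6 : √6 * √6 = (6 : ℝ) := Real.mul_self_sqrt (by norm_num)

/-- Gram matrix of the hexagon: `1` on the diagonal, `0` for adjacent sides, `-3` for opposite
sides and `-2` for the remaining pairs -/
theorem hn_gram (x y : Letter) : lor (hn x) (hn y) =
    if x = y then 1 else if adjB x y then 0 else
      match x, y with
      | r _, z _ => -3
      | z _, r _ => -3
      | _, _ => -2 := by
  have h2 := s2
  have h6 := s6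
  rcases x with i | i <;> rcases y with j | j <;> fin_cases i <;> fin_cases j <;>
    simp [hn, lor, adjB] <;> linarith

theorem sq3 {p q s t : ℝ} (hsum : p + q + s = 0) (hp : p ^ 2 ≤ t ^ 2) (hq : q ^ 2 ≤ t ^ 2)
    (hs : s ^ 2 ≤ t ^ 2) : p ^ 2 + q ^ 2 + s ^ 2 ≤ 2 * t ^ 2 := by
  rcases le_or_gt 0 (p * q) with h1 | h1
  · have : s = -(p + q) := by linarith
    rw [this] at hs ⊢
    nlinarith
  rcases le_or_gt 0 (q * s) with h2 | h2
  · have : p = -(q + s) := by linarith
    rw [this] at hp ⊢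
    nlinarith
  rcases le_or_gt 0 (p * s) with h3 | h3
  · have : q = -(p + s) := by linarith
    rw [this] at hq ⊢
    nlinarith
  · exfalso
    have h4 := mul_pos_of_neg_of_neg h1 h2
    have h5 : p * q * (q * s) = q ^ 2 * (p * s) := by ring
    rw [h5] at h4
    have h6 : q ^ 2 * (p * s) ≤ 0 := mul_nonpos_of_nonneg_of_nonpos (sq_nonneg q) h3.le
    linarith

/-- null vectors included: the hexagon lies in the disc of radius `√(2/3)` -/
theorem hex_bdd {v : V3} (h : ∀ x, 0 ≤ lor v (hn x)) : 3 * (v 0 ^ 2 + v 1 ^ 2) ≤ 2 * v 2 ^ 2 := by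
  have a0 := h (r 0)
  have a1 := h (r 1)
  have a2 := h (r 2)
  have b0 := h (z 0)
  have b1 := h (z 1)
  have b2 := h (z 2)
  simp only [hn, lor, Matrix.cons_val_zero, Matrix.cons_val_one, Matrix.cons_val] at a0 a1 a2 b0 b1 b2
  -- the three linear forms
  have hsum : √2 * v 0 + (-(√2 / 2) * v 0 + √6 / 2 * v 1) + (-(√2 / 2) * v 0 - √6 / 2 * v 1) = 0 := by
    ring
  have hsq : (√2 * v 0) ^ 2 + (-(√2 / 2) * v 0 + √6 / 2 * v 1) ^ 2 +
      (-(√2 / 2) * v 0 - √6 / 2 * v 1) ^ 2 = 3 * (v 0 ^ 2 + v 1 ^ 2) := by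
    have e1 : √2 ^ 2 = (2 : ℝ) := by rw [pow_two]; exact s2
    have e2 : √6 ^ 2 = (6 : ℝ) := by rw [pow_two]; exact s6
    ring_nf
    rw [e1, e2]; ring
  rw [← hsq]
  exact sq3 hsum (sq_le_sq' (by linarith) (by linarith)) (sq_le_sq' (by linarith) (by linarith))
    (sq_le_sq' (by linarith) (by linarith))

theorem unit_dir {v : V3} (hv : v ∈ Fut) {a b : ℝ} (hab : a ^ 2 + b ^ 2 = 2) :
    -(√2 * v 2) ≤ v 0 * a + v 1 * b := by
  obtain ⟨h1, h0⟩ := hv
  unfold lor at h1
  have : (v 0 * a + v 1 * b) ^ 2 ≤ (√2 * v 2) ^ 2 := by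
    have e1 : (√2 * v 2) ^ 2 = 2 * v 2 ^ 2 := by rw [mul_pow, pow_two (√2), s2]
    have e2 : (v 0 * a + v 1 * b) ^ 2 ≤ (v 0 ^ 2 + v 1 ^ 2) * (a ^ 2 + b ^ 2) := by
      nlinarith [sq_nonneg (v 0 * b - v 1 * a)]
    rw [hab] at e2
    rw [e1]
    linarith
  exact (abs_le_of_sq_le_sq' this (by positivity)).1

/-- quantitative separation -/
theorem hex_sep {x y : Letter} (hxy : x ≠ y) (ha : ¬ H.adj x y) {v : V3} (hv : v ∈ Fut) :
    (2 - √2) * v 2 ≤ lor v (hn x) + lor v (hn y) := by
  have e1 : √2 ^ 2 = (2 : ℝ) := by rw [pow_two]; exact s2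
  have e2 : √6 ^ 2 = (6 : ℝ) := by rw [pow_two]; exact s6
  have k0 := unit_dir hv (a := √2) (b := 0) (by rw [e1]; norm_num)
  have k0' := unit_dir hv (a := -√2) (b := 0) (by rw [neg_sq, e1]; norm_num)
  have k1 := unit_dir hv (a := √2 / 2) (b := √6 / 2) (by rw [div_pow, div_pow, e1, e2]; norm_num)
  have k2 := unit_dir hv (a := √2 / 2) (b := -(√6 / 2))
    (by rw [neg_sq, div_pow, div_pow, e1, e2]; norm_num)
  have k3 := unit_dir hv (a := -(√2 / 2)) (b := √6 / 2)
    (by rw [neg_sq, div_pow, div_pow, e1, e2]; norm_num)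
  have k4 := unit_dir hv (a := -(√2 / 2)) (b := -(√6 / 2))
    (by rw [neg_sq, neg_sq, div_pow, div_pow, e1, e2]; norm_num)
  have h0 := hv.2
  have hsv : 0 ≤ √2 * v 2 := by positivity
  change ¬ (adjB x y = true) at ha
  rcases x with i | i <;> rcases y with j | j <;> fin_cases i <;> fin_cases j <;>
    first
    | exact absurd rfl hxy
    | exact absurd rfl ha
    | (simp only [hn, lor, Matrix.cons_val_zero, Matrix.cons_val_one, Matrix.cons_val]; linarith)


/-- the mirrors -/
noncomputable def hex : Mirrors H where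
  n := hn
  o := e2
  ho := e2_mem
  unit := by intro i; rw [hn_gram]; simp
  orth := by
    intro i j h
    have h' : adjB i j = true := h
    rw [hn_gram, if_neg (by rintro rfl; exact H.irrefl i h), if_pos h']
  sep := by
    intro i j hij h
    have h' : ¬ (adjB i j = true) := h
    rw [hn_gram, if_neg hij, if_neg h']
    rcases i with i | i <;> rcases j with j | j <;> norm_num
  pos := by
    intro i
    rcases i with i | i <;> fin_cases i <;> simp [hn, lor, e2]
  bdd := by
    refine ⟨√3, fun x hx h => ?_⟩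
    have h1 := hex_bdd h
    have h2 := hx.1
    unfold lor at h2
    apply Real.le_sqrt_of_sq_le
    nlinarith

/-- the type homomorphism to `ℤˣ × D_n` -/
noncomputable def typ (n : ℕ) : H.W →* ℤˣ × DihedralGroup n :=
  H.lift (fun x => match x with
      | r _ => (-1, 1)
      | z 1 => (-1, DihedralGroup.sr 1)
      | z _ => (-1, DihedralGroup.sr 0))
    (by
      intro i
      rcases i with i | i
      · simp
      · fin_cases i <;> simp [Prod.mk_mul_mk])
    (by
      intro i j h
      rcases i with i | i <;> rcases j with j | j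
      · exact absurd h (by simp [H, adjB])
      · fin_cases j <;> simp
      · fin_cases i <;> simp
      · exact absurd h (by simp [H, adjB]))

theorem typ_r (n : ℕ) (i : Fin 3) : typ n (H.gen (r i)) = (-1, 1) := H.lift_gen _ _ _ _

theorem typ_z (n : ℕ) (i : Fin 3) : ∃ k, typ n (H.gen (z i)) = (-1, DihedralGroup.sr k) := by
  unfold typ
  rw [H.lift_gen]
  fin_cases i
  · exact ⟨0, rfl⟩
  · exact ⟨1, rfl⟩
  · exact ⟨0, rfl⟩

theorem typ_fst (n : ℕ) (w : H.W) : (typ n w).1 = H.sgn w := by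
  induction w using H.induction_left with
  | one => simp
  | mul i w ih =>
    rw [map_mul, map_mul, Prod.fst_mul, ih, H.sgn_gen]
    congr 1
    rcases i with i | i
    · rw [typ_r]
    · obtain ⟨k, hk⟩ := typ_z n i
      rw [hk]

/-- the closed surface of genus `n + 1` -/
noncomputable def hexS (n : ℕ) [NeZero n] : Surf H where
  S := hex
  K := (typ n).ker
  normal := inferInstance
  finIdx := by
    have : Finite (typ n).range := inferInstance
    infer_instance
  gen_notMem := by
    intro i h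
    rw [MonoidHom.mem_ker] at h
    have h1 := congrArg Prod.fst h
    rw [typ_fst, H.sgn_gen] at h1
    have h2 : (-1 : ℤˣ) = 1 := h1
    exact absurd h2 (by decide)
  pair_notMem := by
    intro i j hadj h
    rw [MonoidHom.mem_ker, map_mul] at h
    have h2 := congrArg Prod.snd h
    rcases i with i | i <;> rcases j with j | j
    · exact absurd hadj (by simp [H, adjB])
    · obtain ⟨k, hk⟩ := typ_z n j
      rw [typ_r, hk] at h2
      have h3 : DihedralGroup.sr k = (1 : DihedralGroup n) := by simpa using h2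
      rw [← DihedralGroup.r_zero] at h3
      cases h3
    · obtain ⟨k, hk⟩ := typ_z n i
      rw [typ_r, hk] at h2
      have h3 : DihedralGroup.sr k = (1 : DihedralGroup n) := by simpa using h2
      rw [← DihedralGroup.r_zero] at h3
      cases h3
    · exact absurd hadj (by simp [H, adjB])
  triangle_free := by
    intro i j k h1 h2 h3
    rcases i with i | i <;> rcases j with j | j <;> rcases k with k | k <;>
      simp_all [H, adjB]
  sgn_K := by
    intro w hw
    rw [MonoidHom.mem_ker] at hw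
    rw [← typ_fst n, hw]; rfl

/-- `K` contains `(r0 z0)²` -/
theorem nonempty_hK (n : ℕ) [NeZero n] :
    ∃ m : ℕ, 0 < m ∧ (H.gen (r 0) * H.gen (z 0)) ^ m ∈ (hexS n).K := by
  refine ⟨2, by norm_num, ?_⟩
  change _ ∈ (typ n).ker
  obtain ⟨k, hk⟩ := typ_z n 0
  rw [MonoidHom.mem_ker, map_pow, map_mul, typ_r, hk, pow_two]
  simp [Prod.mk_mul_mk]

theorem hexS_nonempty (n : ℕ) [NeZero n] : (F0 (hexS n).Γ).Nonempty := by
  refine (hexS n).F0_nonempty (r 0) (z 0) (by simp) ?_ ?_ (nonempty_hK n) ?_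
  · simp [H, adjB]
  · change lor (hn (r 0)) (hn (z 0)) < -1
    rw [hn_gram]; simp [adjB]
  · rintro x hx ⟨s, t, hst⟩ - - i hi1 hi2
    change 0 < lor x (hn i)
    have hst' : x = s • hn (r 0) + t • hn (z 0) := hst
    have h1 : x 1 = 0 := by rw [hst']; simp [hn]
    have h2 := hx.1
    have h3 := hx.2
    unfold lor at h2
    rw [h1] at h2
    have e1 : √2 ^ 2 = (2 : ℝ) := by rw [pow_two]; exact s2
    have h4 : (√2 / 2 * x 0) ^ 2 ≤ (x 2) ^ 2 := by
      rw [mul_pow, div_pow, e1]; nlinarith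
    have h5 := abs_le_of_sq_le_sq' h4 h3.le
    have h6 : (√2 / 2 * x 0) ^ 2 < (x 2) ^ 2 := by
      rw [mul_pow, div_pow, e1]; nlinarith
    have h7 := abs_lt_of_sq_lt_sq' h6 h3.le
    rcases i with i | i <;> fin_cases i
    · exact absurd rfl hi1
    · simp [hn, lor, h1]; linarith [h7.1]
    · simp [hn, lor, h1]; linarith [h7.1]
    · exact absurd rfl hi2
    · simp [hn, lor, h1]; linarith [h7.2]
    · simp [hn, lor, h1]; linarith [h7.2]

end D3

end SBA
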