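import Pool.Agent.Lib.MP_709218_gt.Split

/-! An equivariant continuous norm on the flat bundle (locally finite sum); no growth hypothesis. -/

namespace SBA

open Matrix Set Filter Topology

namespace D3

section

variable {Γ : Subgroup (SpecialLinearGroup (Fin 3) ℝ)}

/-- elements moving the base point by at most `R` -/
theorem finite_near (hΓ : IsSurfaceGroup Γ) (R : ℝ) :
    {g : Γ | hd e2 (g.1.1 *ᵥ e2) ≤ R}.Finite := by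
  rcases lt_or_ge R 0 with hR | hR
  · convert Set.finite_empty (α := Γ) using 1
    ext g
    simp only [mem_ofPred_eq, mem_empty_iff_false, iff_false, not_le]
    exact lt_of_lt_of_le hR (hd_nonneg e2_mem (hΓ.maps_hyp _ g.2 _ e2_mem))
  have h := hΓ.proper {x : V3 | x ∈ Hyp ∧ hd e2 x ≤ R} (fun x hx => hx.1) (isCompact_ball R)
  refine Set.Finite.of_finite_image (f := fun g : Γ => g.1) (h.subset ?_)
    (Subtype.val_injective.injOn)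
  rintro _ ⟨g, hg, rfl⟩
  refine ⟨g.2, e2, ⟨e2_mem, by rw [hd_self e2_mem]; exact hR⟩, ?_, hg⟩
  exact hΓ.maps_hyp _ g.2 _ e2_mem

/-- operator bound for the sup norm -/
theorem exists_mulVec_bound {d : ℕ} (A : Matrix (Fin d) (Fin d) ℂ) :
    ∃ c : ℝ, 0 ≤ c ∧ ∀ v : Fin d → ℂ, ‖A *ᵥ v‖ ≤ c * ‖v‖ := by
  refine ⟨∑ i, ∑ j, ‖A i j‖, by positivity, fun v => ?_⟩
  rw [pi_norm_le_iff_of_nonneg (by positivity)]
  intro i
  calc ‖(A *ᵥ v) i‖ = ‖∑ j, A i j * v j‖ := rfl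
    _ ≤ ∑ j, ‖A i j * v j‖ := norm_sum_le _ _
    _ ≤ ∑ j, ‖A i j‖ * ‖v‖ := by
        refine Finset.sum_le_sum fun j _ => ?_
        rw [norm_mul]
        exact mul_le_mul_of_nonneg_left (norm_le_pi_norm v j) (norm_nonneg _)
    _ = (∑ j, ‖A i j‖) * ‖v‖ := by rw [Finset.sum_mul]
    _ ≤ (∑ i, ∑ j, ‖A i j‖) * ‖v‖ := by
        refine mul_le_mul_of_nonneg_right ?_ (norm_nonneg _)
        exact Finset.single_le_sum (f := fun i => ∑ j, ‖A i j‖)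
          (fun i _ => Finset.sum_nonneg fun j _ => norm_nonneg _) (Finset.mem_univ i)

variable {d : ℕ} (ρ : Γ →* SpecialLinearGroup (Fin d) ℂ) (r : ℝ)

/-- a term of the norm -/
noncomputable def nterm (y : V3 × V3) (v : Fin d → ℂ) (g : Γ) : ℝ :=
  max 0 (r + 1 - hd (g.1.1 *ᵥ e2) y.1) * ‖(ρ g⁻¹).1 *ᵥ v‖

/-- the equivariant norm -/
noncomputable def nrmF (y : V3 × V3) (v : Fin d → ℂ) : ℝ := ∑ᶠ g : Γ, nterm ρ r y v g

theorem nterm_nonneg (y : V3 × V3) (v : Fin d → ℂ) (g : Γ) : 0 ≤ nterm ρ r y v g :=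
  mul_nonneg (le_max_left _ _) (norm_nonneg _)

theorem nterm_zero (hΓ : IsSurfaceGroup Γ) {y : V3 × V3} (hy : y.1 ∈ Hyp) {R : ℝ}
    (hR : hd e2 y.1 ≤ R) (v : Fin d → ℂ) {g : Γ} (hg : ¬ hd e2 (g.1.1 *ᵥ e2) ≤ R + r + 1) :
    nterm ρ r y v g = 0 := by
  have h1 := hd_triangle e2_mem hy (hΓ.maps_hyp _ g.2 _ e2_mem)
  rw [hd_comm y.1] at h1
  have h2 : r + 1 - hd (g.1.1 *ᵥ e2) y.1 ≤ 0 := by
    push Not at hg; linarith
  unfold nterm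
  rw [max_eq_left h2, zero_mul]

theorem nrmF_eq_sum (hΓ : IsSurfaceGroup Γ) {y : V3 × V3} (hy : y.1 ∈ Hyp) {R : ℝ}
    (hR : hd e2 y.1 ≤ R) (v : Fin d → ℂ) :
    nrmF ρ r y v = ∑ g ∈ (finite_near hΓ (R + r + 1)).toFinset, nterm ρ r y v g := by
  unfold nrmF
  apply finsum_eq_sum_of_support_subset
  intro g hg
  rw [Function.mem_support] at hg
  rw [Set.Finite.coe_toFinset]
  by_contra hcon
  exact hg (nterm_zero ρ r hΓ hy hR v hcon)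

theorem nrmF_nonneg (y : V3 × V3) (v : Fin d → ℂ) : 0 ≤ nrmF ρ r y v :=
  finsum_nonneg fun g => nterm_nonneg ρ r y v g

theorem nterm_le_nrmF (hΓ : IsSurfaceGroup Γ) {y : V3 × V3} (hy : y.1 ∈ Hyp) (v : Fin d → ℂ)
    (g : Γ) : nterm ρ r y v g ≤ nrmF ρ r y v := by
  by_cases hg : hd e2 (g.1.1 *ᵥ e2) ≤ hd e2 y.1 + r + 1
  · rw [nrmF_eq_sum ρ r hΓ hy le_rfl]
    exact Finset.single_le_sum (f := nterm ρ r y v) (fun g _ => nterm_nonneg ρ r y v g)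
      ((Set.Finite.mem_toFinset _).2 hg)
  · rw [nterm_zero ρ r hΓ hy le_rfl v hg]
    exact nrmF_nonneg ρ r y v

theorem le_nrmF (hΓ : IsSurfaceGroup Γ) {y : V3 × V3} (hy : y.1 ∈ Hyp) (v : Fin d → ℂ)
    (g : Γ) (hg : hd (g.1.1 *ᵥ e2) y.1 ≤ r) : ‖(ρ g⁻¹).1 *ᵥ v‖ ≤ nrmF ρ r y v := by
  refine le_trans ?_ (nterm_le_nrmF ρ r hΓ hy v g)
  have h1 : 1 ≤ max 0 (r + 1 - hd (g.1.1 *ᵥ e2) y.1) := le_max_of_le_right (by linarith)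
  unfold nterm
  exact le_mul_of_one_le_left (norm_nonneg _) h1

theorem nrmF_smul (hΓ : IsSurfaceGroup Γ) {y : V3 × V3} (hy : y.1 ∈ Hyp) (a : ℂ)
    (v : Fin d → ℂ) : nrmF ρ r y (a • v) = ‖a‖ * nrmF ρ r y v := by
  rw [nrmF_eq_sum ρ r hΓ hy le_rfl, nrmF_eq_sum ρ r hΓ hy le_rfl, Finset.mul_sum]
  refine Finset.sum_congr rfl fun g _ => ?_
  unfold nterm
  rw [Matrix.mulVec_smul, norm_smul]
  ring

theorem nrmF_add (hΓ : IsSurfaceGroup Γ) {y : V3 × V3} (hy : y.1 ∈ Hyp)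
    (v w : Fin d → ℂ) : nrmF ρ r y (v + w) ≤ nrmF ρ r y v + nrmF ρ r y w := by
  rw [nrmF_eq_sum ρ r hΓ hy le_rfl, nrmF_eq_sum ρ r hΓ hy le_rfl, nrmF_eq_sum ρ r hΓ hy le_rfl,
    ← Finset.sum_add_distrib]
  refine Finset.sum_le_sum fun g _ => ?_
  unfold nterm
  rw [Matrix.mulVec_add, ← mul_add]
  exact mul_le_mul_of_nonneg_left (norm_add_le _ _) (le_max_left _ _)

theorem nrmF_mact (hΓ : IsSurfaceGroup Γ) (y : V3 × V3) (h : Γ) (v : Fin d → ℂ) :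
    nrmF ρ r (mact h.1 y) ((ρ h).1 *ᵥ v) = nrmF ρ r y v := by
  unfold nrmF
  rw [← finsum_comp_equiv (Equiv.mulLeft h)
    (f := fun g : Γ => nterm ρ r (mact h.1 y) ((ρ h).1 *ᵥ v) g)]
  congr 1
  funext g
  have e1 : hd ((h * g : Γ).1.1 *ᵥ e2) (mact h.1 y).1 = hd (g.1.1 *ᵥ e2) y.1 := by
    have : (h * g : Γ).1.1 *ᵥ e2 = h.1.1 *ᵥ (g.1.1 *ᵥ e2) := by simp [Matrix.mulVec_mulVec]
    rw [this]
    show hd (h.1.1 *ᵥ (g.1.1 *ᵥ e2)) (h.1.1 *ᵥ y.1) = _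
    rw [hd_mulVec hΓ]
  have e2 : (ρ (h * g)⁻¹).1 *ᵥ ((ρ h).1 *ᵥ v) = (ρ g⁻¹).1 *ᵥ v := by
    rw [Matrix.mulVec_mulVec]
    congr 1
    have : (ρ (h * g)⁻¹) * ρ h = ρ g⁻¹ := by
      rw [← map_mul]; congr 1; group
    exact congrArg Subtype.val this
  show nterm ρ r (mact h.1 y) ((ρ h).1 *ᵥ v) (h * g) = nterm ρ r y v g
  unfold nterm
  rw [e1, e2]

/-- bound near the base point -/
theorem nrmF_le_base (hΓ : IsSurfaceGroup Γ) :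
    ∃ C : ℝ, 0 < C ∧ ∀ y : V3 × V3, y.1 ∈ Hyp → hd e2 y.1 ≤ r → ∀ v : Fin d → ℂ,
      nrmF ρ r y v ≤ C * ‖v‖ := by
  choose c hc0 hc using fun g : Γ => exists_mulVec_bound (ρ g⁻¹).1
  refine ⟨∑ g ∈ (finite_near hΓ (r + r + 1)).toFinset, |r + 1| * c g + 1, ?_, ?_⟩
  · have : 0 ≤ ∑ g ∈ (finite_near hΓ (r + r + 1)).toFinset, |r + 1| * c g :=
      Finset.sum_nonneg fun g _ => mul_nonneg (abs_nonneg _) (hc0 g)
    linarith
  · intro y hy hyr v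
    rw [nrmF_eq_sum ρ r hΓ hy hyr, add_mul, one_mul, Finset.sum_mul]
    refine le_trans (Finset.sum_le_sum fun g _ => ?_) (le_add_of_nonneg_right (norm_nonneg v))
    unfold nterm
    rw [mul_assoc]
    refine mul_le_mul ?_ (hc g v) (norm_nonneg _) (abs_nonneg _)
    refine max_le (abs_nonneg _) (le_trans ?_ (le_abs_self _))
    linarith [hd_nonneg (hΓ.maps_hyp _ g.2 _ e2_mem) hy]

theorem nrmF_continuousOn (hΓ : IsSurfaceGroup Γ) :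
    ContinuousOn (fun q : (V3 × V3) × (Fin d → ℂ) => nrmF ρ r q.1 q.2) (UT ×ˢ Set.univ) := by
  rintro ⟨y0, v0⟩ ⟨hy0, -⟩
  have hy0' : y0.1 ∈ Hyp := hy0.1
  have hdc : ∀ x ∈ Hyp, ContinuousOn (fun q : (V3 × V3) × (Fin d → ℂ) => hd x q.1.1)
      (UT ×ˢ Set.univ) := by
    intro x hx
    refine continuousOn_hd.comp (f := fun q : (V3 × V3) × (Fin d → ℂ) => (x, q.1.1)) ?_ ?_
    · exact (continuous_const.prodMk (continuous_fst.comp continuous_fst)).continuousOn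
    · rintro q ⟨hq, -⟩
      exact ⟨hx, hq.1⟩
  have hev : ∀ᶠ q : (V3 × V3) × (Fin d → ℂ) in 𝓝[UT ×ˢ Set.univ] (y0, v0),
      hd e2 q.1.1 < hd e2 y0.1 + 1 :=
    (hdc e2 e2_mem (y0, v0) ⟨hy0, trivial⟩).eventually_lt_const (by simp)
  have hsum : ContinuousWithinAt (fun q : (V3 × V3) × (Fin d → ℂ) =>
      ∑ g ∈ (finite_near hΓ (hd e2 y0.1 + 1 + r + 1)).toFinset, nterm ρ r q.1 q.2 g)
      (UT ×ˢ Set.univ) (y0, v0) := by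
    refine tendsto_finsetSum _ fun g _ => ?_
    unfold nterm
    have h1 : ContinuousOn (fun q : (V3 × V3) × (Fin d → ℂ) =>
        max 0 (r + 1 - hd (g.1.1 *ᵥ e2) q.1.1) * ‖(ρ g⁻¹).1 *ᵥ q.2‖) (UT ×ˢ Set.univ) := by
      refine ContinuousOn.mul ?_ ?_
      · exact ContinuousOn.sup continuousOn_const (continuousOn_const.sub
          (hdc _ (hΓ.maps_hyp _ g.2 _ e2_mem)))
      · refine (Continuous.norm ?_).continuousOn
        exact (Continuous.matrix_mulVec continuous_const continuous_snd)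
    exact h1 (y0, v0) ⟨hy0, trivial⟩
  refine hsum.congr_of_eventuallyEq ?_ ?_
  · filter_upwards [hev, self_mem_nhdsWithin] with q h1 h2
    exact nrmF_eq_sum ρ r hΓ h2.1.1 h1.le q.2
  · exact nrmF_eq_sum ρ r hΓ hy0' (by linarith) v0

end

/-- an equivariant continuous norm on the flat bundle exists (partition of unity) -/
theorem exists_norm {Γ : Subgroup (SpecialLinearGroup (Fin 3) ℝ)} (hΓ : IsSurfaceGroup Γ) {d : ℕ}
    (ρ : Γ →* SpecialLinearGroup (Fin d) ℂ) (r : ℝ)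
    (hr : ∀ x ∈ Hyp, ∃ g ∈ Γ, hd (g.1 *ᵥ e2) x ≤ r) :
    ∃ (N : V3 × V3 → (Fin d → ℂ) → ℝ) (C : ℝ), 0 < C ∧
      ContinuousOn (fun q : (V3 × V3) × (Fin d → ℂ) => N q.1 q.2) (UT ×ˢ Set.univ) ∧
      (∀ y ∈ UT, (∀ v, 0 ≤ N y v) ∧ (∀ v, N y v = 0 → v = 0) ∧
        (∀ (a : ℂ) v, N y (a • v) = ‖a‖ * N y v) ∧ (∀ v w, N y (v + w) ≤ N y v + N y w)) ∧
      (∀ y ∈ UT, ∀ (g : Γ) v, N (mact g.1 y) ((ρ g).1 *ᵥ v) = N y v) ∧
      (∀ y ∈ UT, ∀ g : Γ, hd (g.1.1 *ᵥ e2) y.1 ≤ r → ∀ v,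
        N y v ≤ C * ‖(ρ g⁻¹).1 *ᵥ v‖ ∧ ‖(ρ g⁻¹).1 *ᵥ v‖ ≤ C * N y v) := by
  obtain ⟨C, hC, hCb⟩ := nrmF_le_base ρ r hΓ
  refine ⟨nrmF ρ r, max C 1, lt_max_of_lt_left hC, nrmF_continuousOn ρ r hΓ, ?_, ?_, ?_⟩
  · intro y hy
    refine ⟨nrmF_nonneg ρ r y, fun v hv => ?_, nrmF_smul ρ r hΓ hy.1, nrmF_add ρ r hΓ hy.1⟩
    obtain ⟨g, hg, hgr⟩ := hr y.1 hy.1
    have h1 := le_nrmF ρ r hΓ hy.1 v ⟨g, hg⟩ hgr
    rw [hv] at h1
    have h2 : (ρ (⟨g, hg⟩ : Γ)⁻¹).1 *ᵥ v = 0 := norm_le_zero_iff.1 h1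
    have h3 : (ρ (⟨g, hg⟩ : Γ)).1 *ᵥ ((ρ (⟨g, hg⟩ : Γ)⁻¹).1 *ᵥ v) = v := by
      rw [Matrix.mulVec_mulVec]
      have : ρ (⟨g, hg⟩ : Γ) * ρ (⟨g, hg⟩ : Γ)⁻¹ = 1 := by rw [← map_mul, mul_inv_cancel, map_one]
      have h5 : (ρ (⟨g, hg⟩ : Γ)).1 * (ρ (⟨g, hg⟩ : Γ)⁻¹).1 = 1 := congrArg Subtype.val this
      rw [h5, Matrix.one_mulVec]
    rw [← h3, h2, Matrix.mulVec_zero]
  · intro y hy g v
    exact nrmF_mact ρ r hΓ y g v
  · intro y hy g hg v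
    have h1 := le_nrmF ρ r hΓ hy.1 v g hg
    constructor
    · have h2 := nrmF_mact ρ r hΓ y g⁻¹ v
      rw [← h2]
      have hy' : (mact (g⁻¹ : Γ).1 y).1 ∈ Hyp := hΓ.maps_hyp _ (g⁻¹ : Γ).2 _ hy.1
      have h3 : hd e2 (mact (g⁻¹ : Γ).1 y).1 ≤ r := by
        have h4 := hd_mulVec hΓ g⁻¹ (g.1.1 *ᵥ e2) y.1
        have h5 : (g⁻¹ : Γ).1.1 *ᵥ (g.1.1 *ᵥ e2) = e2 := by
          rw [Matrix.mulVec_mulVec]
          have : (g⁻¹ : Γ) * g = 1 := inv_mul_cancel g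
          have h6 : (g⁻¹ : Γ).1.1 * g.1.1 = 1 := congrArg (fun k : Γ => k.1.1) this
          rw [h6, Matrix.one_mulVec]
        rw [h5] at h4
        show hd e2 ((g⁻¹ : Γ).1.1 *ᵥ y.1) ≤ r
        rw [h4]; exact hg
      refine (hCb _ hy' h3 _).trans ?_
      exact mul_le_mul_of_nonneg_right (le_max_left _ _) (norm_nonneg _)
    · refine h1.trans ?_
      exact le_mul_of_one_le_left (nrmF_nonneg ρ r y v) (le_max_right _ _)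

end D3

end SBA
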