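import Pool.Agent.Lib.MP_709218_gt.D3Base
import Pool.Agent.Lib.MP_709218_gt.D3Cplx
import Pool.Agent.Lib.MP_709218_gt.D3Hex

/-! The representation of the surface group. -/

namespace SBA

open Matrix Set

namespace D3

/-- the determinant of the representation is the sign -/
theorem det_X (w : H.W) : (X w).det = ((H.sgn w : ℤˣ) : ℤ) := by
  induction w using H.induction_left with
  | one => simp
  | mul i w ih =>
    have h1 : H.sgn (H.gen i) = -1 := H.lift_gen _ _ _ i
    rw [map_mul, X_gen, Matrix.det_mul, XR_det, ih, map_mul, h1]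
    push_cast
    ring

/-- the representation of `K`, valued in the special linear group -/
noncomputable def XK (F : Surf H) : F.K →* SpecialLinearGroup (Fin 3) ℝ where
  toFun w := ⟨X w.1, by rw [det_X, F.sgn_K w.1 w.2]; simp⟩
  map_one' := by
    apply Subtype.ext
    simp
  map_mul' v w := by
    apply Subtype.ext
    simp [map_mul]

theorem exists_rho (F : Surf H) : ∃ ρ : F.Γ →* SpecialLinearGroup (Fin 3) ℝ,
    ∀ (w : F.K) (g : F.Γ), g.1 = F.j1 w → (ρ g).1 = X w.1 := by
  refine ⟨(XK F).comp (MonoidHom.ofInjective F.j1_injective).symm.toMonoidHom, fun w g h => ?_⟩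
  have hg : g = MonoidHom.ofInjective F.j1_injective w := by
    apply Subtype.ext
    rw [h]
    rfl
  rw [hg]
  change X ((MonoidHom.ofInjective F.j1_injective).symm
    (MonoidHom.ofInjective F.j1_injective w)).1 = X w.1
  rw [MulEquiv.symm_apply_apply]

variable (n : ℕ) [NeZero n]

theorem exists_rhoR : ∃ ρ : (hexS n).Γ →* SpecialLinearGroup (Fin 3) ℝ,
    ∀ (w : (hexS n).K) (g : (hexS n).Γ), g.1 = (hexS n).j1 w → (ρ g).1 = X w.1 := exists_rho (hexS n)

/-- the representation of the surface group -/
noncomputable def rhoR : (hexS n).Γ →* SpecialLinearGroup (Fin 3) ℝ := Classical.choose (exists_rhoR n)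

theorem rhoR_spec (w : (hexS n).K) (g : (hexS n).Γ) (h : g.1 = (hexS n).j1 w) : (rhoR n g).1 = X w.1 :=
  Classical.choose_spec (exists_rhoR n) w g h

end D3
end SBA
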