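import Pool.Agent.Lib.MP_709218_gt.D3Coding

/-! Times of the frames of the coding. -/

namespace SBA

open Matrix Set

namespace D3

open Letter

theorem hn_two (x : Letter) : hn x 2 = -1 := by
  cases x with
  | r i => fin_cases i <;> simp [hn]
  | z i => fin_cases i <;> simp [hn]

theorem hn_sq (x : Letter) : hn x 0 ^ 2 + hn x 1 ^ 2 = 2 := by
  have h := hn_unit x
  unfold lor at h
  rw [hn_two] at h
  linarith [h]

theorem lor_hn (v : V3) (x : Letter) : lor v (hn x) = v 0 * hn x 0 + v 1 * hn x 1 + v 2 := by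
  unfold lor
  rw [hn_two]
  ring

theorem refl_two (x : Letter) (v : V3) : (refl (hn x) v) 2 = v 2 + 2 * lor v (hn x) := by
  rw [refl_apply, Pi.sub_apply, Pi.smul_apply, hn_two, smul_eq_mul]
  ring

theorem sqrt_two_le : √2 ≤ 17 / 12 := by
  rw [Real.sqrt_le_left (by norm_num)]
  norm_num

theorem dot_hn_sq_le {v : V3} (x : Letter) :
    (v 0 * hn x 0 + v 1 * hn x 1) ^ 2 ≤ 2 * (v 0 ^ 2 + v 1 ^ 2) := by
  have h := hn_sq x
  have h1 : (v 0 * hn x 0 + v 1 * hn x 1) ^ 2 =
      (hn x 0 ^ 2 + hn x 1 ^ 2) * (v 0 ^ 2 + v 1 ^ 2) - (v 0 * hn x 1 - v 1 * hn x 0) ^ 2 := by ring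
  rw [h1, h]
  nlinarith [sq_nonneg (v 0 * hn x 1 - v 1 * hn x 0)]

theorem abs_dot_hn_le {v : V3} (hv : v ∈ Fut) (x : Letter) :
    |v 0 * hn x 0 + v 1 * hn x 1| ≤ 17 / 12 * v 2 := by
  have h1 := dot_hn_sq_le (v := v) x
  have h2 : v 0 ^ 2 + v 1 ^ 2 ≤ v 2 ^ 2 := by
    have := hv.1
    unfold lor at this
    nlinarith
  apply abs_le_of_sq_le_sq
  · nlinarith [sq_nonneg (v 2)]
  · have := hv.2
    positivity

theorem lor_hn_le {v : V3} (hv : v ∈ Fut) (x : Letter) : lor v (hn x) ≤ 5 / 2 * v 2 := by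
  have h := abs_le.1 (abs_dot_hn_le hv x)
  rw [lor_hn]
  have := hv.2
  linarith [h.2]

theorem le_lor_hn {v : V3} (hv : v ∈ Fut) (x : Letter) : -(5 / 12) * v 2 ≤ lor v (hn x) := by
  have h := abs_le.1 (abs_dot_hn_le hv x)
  rw [lor_hn]
  linarith [h.1]

section steps

variable {y : V3 × V3} {w : ℕ → H.W} {x : ℕ → Letter}

theorem Code.zp_succ (h : Code y w x) (k : ℕ) :
    zp y (w (k + 1)) = refl (hn (x k)) (zp y (w k)) := by rw [h.step, zp_step]

theorem Code.zm_succ (h : Code y w x) (k : ℕ) :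
    zm y (w (k + 1)) = refl (hn (x k)) (zm y (w k)) := by rw [h.step, zm_step]

theorem Code.a_lt (h : Code y w x) (k : ℕ) : zp y (w (k + 1)) 2 < zp y (w k) 2 := by
  rw [h.zp_succ, refl_two]
  linarith [(h.next k).1]

theorem Code.a_le (hy : y ∈ UT) (h : Code y w x) (k : ℕ) :
    zp y (w k) 2 ≤ 6 * zp y (w (k + 1)) 2 := by
  rw [h.zp_succ, refl_two]
  linarith [le_lor_hn (zp_fut hy (w k)).1 (x k)]

theorem Code.b_lt (h : Code y w x) (k : ℕ) : zm y (w k) 2 < zm y (w (k + 1)) 2 := by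
  rw [h.zm_succ, refl_two]
  linarith [h.back k]

theorem Code.b_le (hy : y ∈ UT) (h : Code y w x) (k : ℕ) :
    zm y (w (k + 1)) 2 ≤ 6 * zm y (w k) 2 := by
  rw [h.zm_succ, refl_two]
  linarith [lor_hn_le (zm_fut hy (w k)).1 (x k)]

theorem Code.ne (h : Code y w x) (k : ℕ) : x k ≠ x (k + 1) := by
  intro e
  have := h.ok k
  rw [← e] at this
  cases hx : x k with
  | r i => rw [hx] at this; simp [D3.ok] at this
  | z i => rw [hx] at this; simp [D3.ok] at this

/-- two consecutive transitions are not both adjacent -/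
theorem Code.not_adj (h : Code y w x) (k : ℕ) :
    ¬ H.adj (x k) (x (k + 1)) ∨ ¬ H.adj (x (k + 1)) (x (k + 2)) := by
  have h1 := h.ok k
  have h2 := h.ok (k + 1)
  cases hx : x k with
  | r i =>
    left
    cases hx' : x (k + 1) with
    | r j => exact not_adj_rr i j
    | z j =>
      rw [hx, hx'] at h1
      simp only [D3.ok, decide_eq_true_eq] at h1
      subst h1
      exact not_adj_rz i
  | z i =>
    cases hx' : x (k + 1) with
    | z j => left; exact not_adj_zz i j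
    | r j =>
      right
      cases hx'' : x (k + 2) with
      | r l => exact not_adj_rr j l
      | z l =>
        rw [hx', hx''] at h2
        simp only [D3.ok, decide_eq_true_eq] at h2
        subst h2
        exact not_adj_rz j

theorem Code.zm_neg (h : Code y w x) (k : ℕ) : lor (zm y (w (k + 1))) (hn (x k)) < 0 := by
  rw [h.zm_succ, refl_lor_self]
  linarith [h.back k]

theorem Code.b_two (hy : y ∈ UT) (h : Code y w x) (k : ℕ) (ha : ¬ H.adj (x k) (x (k + 1))) :
    2 * zm y (w (k + 1)) 2 ≤ zm y (w (k + 2)) 2 := by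
  have h1 := hex_sep (h.ne k) ha (zm_fut hy (w (k + 1))).1
  have h2 := h.zm_neg k
  have h3 := (zm_fut hy (w (k + 1))).2
  have h4 : zm y (w (k + 2)) 2 =
      zm y (w (k + 1)) 2 + 2 * lor (zm y (w (k + 1))) (hn (x (k + 1))) := by
    rw [show k + 2 = (k + 1) + 1 from rfl, h.zm_succ, refl_two]
  rw [h4]
  have h5 := mul_le_mul_of_nonneg_right sqrt_two_le h3.le
  nlinarith

theorem Code.b_three (hy : y ∈ UT) (h : Code y w x) (k : ℕ) :
    2 * zm y (w k) 2 ≤ zm y (w (k + 3)) 2 := by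
  rcases h.not_adj k with ha | ha
  · have h1 := h.b_two hy k ha
    have h2 := h.b_lt k
    have h3 := h.b_lt (k + 2)
    simp only [show k + 2 + 1 = k + 3 from rfl] at h3
    linarith
  · have h1 := h.b_two hy (k + 1) ha
    have h2 := h.b_lt k
    have h3 := h.b_lt (k + 1)
    simp only [show k + 1 + 2 = k + 3 from rfl, show k + 1 + 1 = k + 2 from rfl] at h1 h3
    linarith

end steps

/-- time of the frame `k` -/
noncomputable def tm (y : V3 × V3) (w : H.W) : ℝ := Real.log (zm y w 2 / zp y w 2) / 2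

theorem tm_mono {y : V3 × V3} (hy : y ∈ UT) {w : ℕ → H.W} {x : ℕ → Letter} (h : Code y w x) (k : ℕ) :
    tm y (w k) ≤ tm y (w (k + 1)) ∧ tm y (w (k + 1)) ≤ tm y (w k) + 2 := by
  have ha := (zp_fut hy (w k)).2
  have ha' := (zp_fut hy (w (k + 1))).2
  have hb := (zm_fut hy (w k)).2
  have hb' := (zm_fut hy (w (k + 1))).2
  have h1 := h.a_lt k
  have h2 := h.a_le hy k
  have h3 := h.b_lt k
  have h4 := h.b_le hy k
  unfold tm
  constructor
  · have : Real.log (zm y (w k) 2 / zp y (w k) 2) ≤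
        Real.log (zm y (w (k + 1)) 2 / zp y (w (k + 1)) 2) := by
      apply Real.log_le_log (by positivity)
      apply div_le_div₀ hb'.le h3.le ha' h1.le
    linarith
  · have h5 : zm y (w (k + 1)) 2 / zp y (w (k + 1)) 2 ≤ 36 * (zm y (w k) 2 / zp y (w k) 2) := by
      rw [div_le_iff₀ ha', mul_div_assoc', div_mul_eq_mul_div, le_div_iff₀ ha]
      calc zm y (w (k + 1)) 2 * zp y (w k) 2 ≤ (6 * zm y (w k) 2) * (6 * zp y (w (k + 1)) 2) := by
            apply mul_le_mul h4 h2 ha.le (by positivity)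
        _ = 36 * zm y (w k) 2 * zp y (w (k + 1)) 2 := by ring
    have h6 : Real.log (zm y (w (k + 1)) 2 / zp y (w (k + 1)) 2) ≤
        Real.log 36 + Real.log (zm y (w k) 2 / zp y (w k) 2) := by
      rw [← Real.log_mul (by norm_num) (by positivity)]
      exact Real.log_le_log (by positivity) h5
    have h7 : Real.log 36 ≤ 4 := by
      rw [Real.log_le_iff_le_exp (by norm_num)]
      have h8 := Real.exp_one_gt_d9
      have h9 : Real.exp 4 = Real.exp 1 ^ 4 := by rw [← Real.exp_nat_mul]; norm_num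
      rw [h9]
      calc (36 : ℝ) ≤ 2.7 ^ 4 := by norm_num
        _ ≤ Real.exp 1 ^ 4 := by
          apply pow_le_pow_left₀ (by norm_num)
          linarith
    linarith

theorem tm_tendsto {y : V3 × V3} (hy : y ∈ UT) {w : ℕ → H.W} {x : ℕ → Letter} (h : Code y w x) :
    Filter.Tendsto (fun k => tm y (w k)) Filter.atTop Filter.atTop := by
  have hmono : Monotone (fun k => tm y (w k)) := monotone_nat_of_le_succ fun k => (tm_mono hy h k).1
  apply Filter.tendsto_atTop_atTop_of_monotone hmono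
  have hb : ∀ k : ℕ, 2 ^ k * zm y (w 0) 2 ≤ zm y (w (3 * k)) 2 := by
    intro k
    induction k with
    | zero => simp
    | succ k ih =>
      have h1 := h.b_three hy (3 * k)
      rw [show 3 * (k + 1) = 3 * k + 3 from rfl, pow_succ]
      linarith
  have ha : ∀ k : ℕ, zp y (w k) 2 ≤ zp y (w 0) 2 := by
    intro k
    induction k with
    | zero => exact le_rfl
    | succ k ih => exact (h.a_lt k).le.trans ih
  intro b
  have ha0 := (zp_fut hy (w 0)).2
  have hb0 := (zm_fut hy (w 0)).2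
  obtain ⟨n, hn⟩ := pow_unbounded_of_one_lt (Real.exp (2 * b) * (zp y (w 0) 2 / zm y (w 0) 2))
    (one_lt_two)
  refine ⟨3 * n, ?_⟩
  have hak := (zp_fut hy (w (3 * n))).2
  have hbk := (zm_fut hy (w (3 * n))).2
  unfold tm
  rw [le_div_iff₀ (by norm_num), mul_comm, Real.le_log_iff_exp_le (by positivity),
    le_div_iff₀ hak]
  have h1 := ha (3 * n)
  have h2 := hb n
  calc Real.exp (2 * b) * zp y (w (3 * n)) 2 ≤ Real.exp (2 * b) * zp y (w 0) 2 := by gcongr
    _ = (Real.exp (2 * b) * (zp y (w 0) 2 / zm y (w 0) 2)) * zm y (w 0) 2 := by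
        field_simp
    _ ≤ 2 ^ n * zm y (w 0) 2 := by gcongr
    _ ≤ _ := h2

/-- the product of the heights is at least one -/
theorem one_le_ab {y : V3 × V3} (hy : y ∈ UT) (w : H.W) : 1 ≤ zm y w 2 * zp y w 2 := by
  have h1 : lor (zm y w) (zp y w) = -2 := by
    rw [zm, zp, (hex.rep_isIso w⁻¹).lor_eq]
    simp only [lor_add_right, lor_sub_left, hy.1.1, hy.2.1, hy.2.2, lor_comm y.2 y.1]
    norm_num
  have h2 := zp_null hy w
  have h3 := zm_null hy w
  have h4 := (zp_fut hy w).2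
  have h5 := (zm_fut hy w).2
  set u := zm y w
  set v := zp y w
  unfold lor at h1 h2 h3
  have h6 : (u 0 * v 0 + u 1 * v 1) ^ 2 ≤ (u 2 * v 2) ^ 2 := by
    have e1 : (u 2 * v 2) ^ 2 = (u 0 ^ 2 + u 1 ^ 2) * (v 0 ^ 2 + v 1 ^ 2) := by
      rw [mul_pow]
      have : u 2 ^ 2 = u 0 ^ 2 + u 1 ^ 2 := by linarith
      rw [this]
      have : v 2 ^ 2 = v 0 ^ 2 + v 1 ^ 2 := by linarith
      rw [this]
    rw [e1]
    nlinarith [sq_nonneg (u 0 * v 1 - u 1 * v 0)]
  have h7 := abs_le.1 (abs_le_of_sq_le_sq h6 (by positivity))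
  linarith [h7.1]

theorem ab_le_of_not_adj {y : V3 × V3} (hy : y ∈ UT) {w : ℕ → H.W} {x : ℕ → Letter}
    (h : Code y w x) (k : ℕ) (ha : ¬ H.adj (x k) (x (k + 1))) :
    zm y (w (k + 1)) 2 * zp y (w (k + 1)) 2 ≤ 24 := by
  have h1 : lor (zm y (w (k + 1))) (zp y (w (k + 1))) = -2 := by
    rw [zm, zp, (hex.rep_isIso _).lor_eq]
    simp only [lor_add_right, lor_sub_left, hy.1.1, hy.2.1, hy.2.2, lor_comm y.2 y.1]
    norm_num
  have h2 := zp_null hy (w (k + 1))
  have h3 := zm_null hy (w (k + 1))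
  have h4 := (zp_fut hy (w (k + 1)))
  have h5 := (zm_fut hy (w (k + 1)))
  have h6 := h.zm_neg k
  have h7 := (h.next (k + 1)).1
  have h8 := hex_sep (h.ne k) ha h4.1
  set u := zm y (w (k + 1))
  set v := zp y (w (k + 1))
  have hD : 7 / 12 * (v 2) ≤ lor v (hn (x k)) := by
    have h9 := mul_le_mul_of_nonneg_right sqrt_two_le h4.2.le
    nlinarith
  -- `D = v / v₂ - u / u₂`
  set d : V3 := fun i => v i * u 2 - u i * v 2 with hd
  have hd0 : lor d (hn (x k)) = u 2 * lor v (hn (x k)) - v 2 * lor u (hn (x k)) := by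
    simp only [lor, hd]; ring
  have hd1 := dot_hn_sq_le (v := d) (x k)
  have hd2 : d 2 = 0 := by simp only [hd]; ring
  have hd3 : d 0 * hn (x k) 0 + d 1 * hn (x k) 1 = lor d (hn (x k)) := by
    rw [lor_hn, hd2, add_zero]
  have hd4 : d 0 ^ 2 + d 1 ^ 2 = 4 * (u 2 * v 2) := by
    unfold lor at h1 h2 h3
    have e0 : d 0 = v 0 * u 2 - u 0 * v 2 := rfl
    have e1 : d 1 = v 1 * u 2 - u 1 * v 2 := rfl
    rw [e0, e1]
    linear_combination (u 2) ^ 2 * h2 + (v 2) ^ 2 * h3 - 2 * (u 2) * (v 2) * h1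
  rw [hd3, hd4] at hd1
  have hd5 : 7 / 12 * (u 2 * v 2) ≤ lor d (hn (x k)) := by
    rw [hd0]
    have e1 : u 2 * (7 / 12 * v 2) ≤ u 2 * lor v (hn (x k)) :=
      mul_le_mul_of_nonneg_left hD h5.2.le
    have e2 : v 2 * lor u (hn (x k)) ≤ 0 := mul_nonpos_of_nonneg_of_nonpos h4.2.le h6.le
    linarith
  have hp : 0 < u 2 * v 2 := mul_pos h5.2 h4.2
  have hd6 : (7 / 12 * (u 2 * v 2)) ^ 2 ≤ 8 * (u 2 * v 2) := by
    calc (7 / 12 * (u 2 * v 2)) ^ 2 ≤ lor d (hn (x k)) ^ 2 := by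
          apply pow_le_pow_left₀ (by positivity) hd5
      _ ≤ _ := by linarith
  by_contra hcon
  push Not at hcon
  nlinarith

theorem ab_le {y : V3 × V3} (hy : y ∈ UT) {w : ℕ → H.W} {x : ℕ → Letter}
    (h : Code y w x) (k : ℕ) : zm y (w (k + 1)) 2 * zp y (w (k + 1)) 2 ≤ 144 := by
  rcases h.not_adj k with ha | ha
  · linarith [ab_le_of_not_adj hy h k ha]
  · have h1 := ab_le_of_not_adj hy h (k + 1) ha
    have h2 := h.a_le hy (k + 1)
    have h3 := h.b_lt (k + 1)
    have h4 := (zp_fut hy (w (k + 1))).2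
    have h5 := (zm_fut hy (w (k + 1))).2
    have h6 := (zp_fut hy (w (k + 1 + 1))).2
    calc zm y (w (k + 1)) 2 * zp y (w (k + 1)) 2
        ≤ zm y (w (k + 1 + 1)) 2 * (6 * zp y (w (k + 1 + 1)) 2) := by
          apply mul_le_mul h3.le h2 h4.le (by linarith)
      _ = 6 * (zm y (w (k + 1 + 1)) 2 * zp y (w (k + 1 + 1)) 2) := by ring
      _ ≤ 144 := by linarith

theorem exp_tm {y : V3 × V3} (hy : y ∈ UT) (w : H.W) :
    Real.exp (tm y w) = √(zm y w 2 * zp y w 2) / zp y w 2 ∧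
    Real.exp (-tm y w) = √(zm y w 2 * zp y w 2) / zm y w 2 := by
  have ha := (zp_fut hy w).2
  have hb := (zm_fut hy w).2
  set a := zp y w 2
  set b := zm y w 2
  have h1 : Real.exp (tm y w) = √(b / a) := by
    rw [show tm y w = Real.log (b / a) / 2 from rfl, Real.exp_half, Real.exp_log (by positivity)]
  have h2 : √(b / a) = √(b * a) / a := by
    rw [Real.sqrt_eq_iff_mul_self_eq (by positivity) (by positivity), div_mul_div_comm,
      Real.mul_self_sqrt (by positivity)]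
    field_simp
  have h3 : Real.exp (-tm y w) = √(b * a) / b := by
    rw [Real.exp_neg, h1, h2]
    have h4 : 0 < √(b * a) := Real.sqrt_pos.2 (by positivity)
    rw [inv_div, div_eq_div_iff h4.ne' hb.ne', Real.mul_self_sqrt (by positivity)]
    ring
  exact ⟨h1.trans h2, h3⟩

theorem rep_flow_two (y : V3 × V3) (w : H.W) (t : ℝ) :
    (hex.rep w⁻¹ (flow t y).1) 2 =
      Real.exp t / 2 * zp y w 2 + Real.exp (-t) / 2 * zm y w 2 := by
  rw [flow_fst_eq, map_add, map_smul, map_smul]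
  rfl

theorem hd_tm_le {y : V3 × V3} (hy : y ∈ UT) (w : H.W) {C : ℝ} (hC : 0 ≤ C)
    (h : zm y w 2 * zp y w 2 ≤ C ^ 2) {r : ℝ} (hr : 2 * C ≤ r) :
    hd (hex.rep w e2) (flow (tm y w) y).1 ≤ r := by
  have hF : (flow (tm y w) y).1 ∈ Hyp := (flow_mem hy _).1
  have h0 : hd (hex.rep w e2) (flow (tm y w) y).1 =
      hd e2 (hex.rep w⁻¹ (flow (tm y w) y).1) := by
    conv_lhs => rw [← hex.rep_rep_inv w (flow (tm y w) y).1]
    rw [hex.hd_rep]
  have hr0 : 0 ≤ r := by linarith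
  rw [h0, hd_le_iff e2_mem (hex.rep_hyp _ hF) hr0, lor_e2, neg_neg, rep_flow_two]
  obtain ⟨e1, e3⟩ := exp_tm hy w
  have ha := (zp_fut hy w).2
  have hb := (zm_fut hy w).2
  rw [e1, e3]
  have h1 : √(zm y w 2 * zp y w 2) / zp y w 2 / 2 * zp y w 2 +
      √(zm y w 2 * zp y w 2) / zm y w 2 / 2 * zm y w 2 = √(zm y w 2 * zp y w 2) := by
    field_simp
    ring
  rw [h1]
  have h2 : √(zm y w 2 * zp y w 2) ≤ C := by
    rw [Real.sqrt_le_left hC]; exact h
  have h3 : r + 1 ≤ Real.exp r := Real.add_one_le_exp r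
  have h4 : Real.exp r / 2 ≤ Real.cosh r := by
    rw [Real.cosh_eq]
    have := Real.exp_pos (-r)
    linarith
  linarith

theorem code_near : ∃ r : ℝ, 0 < r ∧ ∀ (y : V3 × V3), y ∈ UT → ∀ (w : ℕ → H.W) (x : ℕ → Letter),
    Code y w x → ∀ (a : ℝ), (∃ q ∈ hex.Q, (flow a y).1 = hex.rep (w 0) q) →
      |tm y (w 0) - a| ≤ r ∧ ∀ k, hd (hex.rep (w k) e2) (flow (tm y (w k)) y).1 ≤ r := by
  refine ⟨24, by norm_num, ?_⟩
  rintro y hy w x h a ⟨q, hq, hqa⟩
  have ha := (zp_fut hy (w 0)).2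
  have hb := (zm_fut hy (w 0)).2
  -- the start point
  have hq2 : Real.exp a / 2 * zp y (w 0) 2 + Real.exp (-a) / 2 * zm y (w 0) 2 ≤ √3 := by
    rw [← rep_flow_two, hqa, hex.rep_inv_rep]
    have h1 := hex_bdd hq.2
    have h2 := hq.1.1
    have h3 := hq.1.2
    unfold lor at h2
    apply Real.le_sqrt_of_sq_le
    nlinarith
  have hs3 : √3 ≤ 2 := by rw [Real.sqrt_le_left (by norm_num)]; norm_num
  have hs3' : √3 ^ 2 = 3 := Real.sq_sqrt (by norm_num)
  set A := Real.exp a * zp y (w 0) 2 with hA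
  set B := Real.exp (-a) * zm y (w 0) 2 with hB
  have hApos : 0 < A := mul_pos (Real.exp_pos _) ha
  have hBpos : 0 < B := mul_pos (Real.exp_pos _) hb
  have hAB : A * B = zm y (w 0) 2 * zp y (w 0) 2 := by
    have : Real.exp a * Real.exp (-a) = 1 := by rw [← Real.exp_add]; simp
    calc A * B = (Real.exp a * Real.exp (-a)) * (zm y (w 0) 2 * zp y (w 0) 2) := by
          rw [hA, hB]; ring
      _ = _ := by rw [this, one_mul]
  have hsum : A + B ≤ 4 := by
    have : Real.exp a / 2 * zp y (w 0) 2 + Real.exp (-a) / 2 * zm y (w 0) 2 = (A + B) / 2 := by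
      rw [hA, hB]; ring
    rw [this] at hq2
    linarith
  have h1ab := one_le_ab hy (w 0)
  rw [← hAB] at h1ab
  constructor
  · have htm : tm y (w 0) - a = Real.log (B / A) / 2 := by
      have e1 : B / A = Real.exp (-a) / Real.exp a * (zm y (w 0) 2 / zp y (w 0) 2) := by
        rw [hA, hB]; field_simp
      rw [e1, Real.log_mul (by positivity) (by positivity),
        Real.log_div (Real.exp_pos _).ne' (Real.exp_pos _).ne', Real.log_exp, Real.log_exp]
      unfold tm
      ring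
    rw [htm]
    have hA4 : A ≤ 4 := by linarith
    have hB4 : B ≤ 4 := by linarith
    have hlow : 1 / 16 ≤ B / A := by
      rw [le_div_iff₀ hApos]
      nlinarith
    have hup : B / A ≤ 16 := by
      rw [div_le_iff₀ hApos]
      nlinarith
    have hdp : 0 < B / A := by positivity
    have l1 : Real.log (B / A) ≤ B / A - 1 := Real.log_le_sub_one_of_pos hdp
    have l2 : 1 - (B / A)⁻¹ ≤ Real.log (B / A) := Real.one_sub_inv_le_log_of_pos hdp
    have l3 : (B / A)⁻¹ ≤ 16 := by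
      rw [inv_le_comm₀ hdp (by norm_num)]
      linarith
    rw [abs_le]
    constructor <;> linarith
  · intro k
    cases k with
    | zero =>
      apply hd_tm_le hy (w 0) (C := 12) (by norm_num) _ (by norm_num)
      rw [← hAB]
      nlinarith [sq_nonneg (A - B)]
    | succ k =>
      apply hd_tm_le hy (w (k + 1)) (C := 12) (by norm_num) _ (by norm_num)
      have := ab_le hy h k
      norm_num
      linarith

end D3

end SBA
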