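import Mathlib

/-! Definitions for MP_709218_gt: closed hyperbolic surfaces in the hyperboloid model, the geodesic
flow, simple closed geodesics, the Birman-Series set, and k-Anosov representations in restriction
to a subflow. -/

namespace SBA

open Matrix

/-- Minkowski three-space. -/
abbrev V3 := Fin 3 → ℝ

/-- The Lorentz form of signature (2,1). -/
def lor (x y : V3) : ℝ := x 0 * y 0 + x 1 * y 1 - x 2 * y 2

/-- The hyperbolic plane (upper sheet of the hyperboloid). -/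
def Hyp : Set V3 := {x | lor x x = -1 ∧ 0 < x 2}

/-- The unit tangent bundle of the hyperbolic plane: pairs (point, unit tangent vector). -/
def UT : Set (V3 × V3) := {p | p.1 ∈ Hyp ∧ lor p.1 p.2 = 0 ∧ lor p.2 p.2 = 1}

/-- The geodesic flow. -/
noncomputable def flow (t : ℝ) (p : V3 × V3) : V3 × V3 :=
  (Real.cosh t • p.1 + Real.sinh t • p.2, Real.sinh t • p.1 + Real.cosh t • p.2)

/-- The action of a matrix on pairs of vectors. -/
def mact (g : SpecialLinearGroup (Fin 3) ℝ) (p : V3 × V3) : V3 × V3 :=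
  (g.1 *ᵥ p.1, g.1 *ᵥ p.2)

/-- `Γ` is the holonomy group of a closed oriented hyperbolic surface `Γ \ Hyp`: it consists of
orientation preserving isometries of the hyperbolic plane and acts freely, properly
discontinuously and cocompactly. -/
structure IsSurfaceGroup (Γ : Subgroup (SpecialLinearGroup (Fin 3) ℝ)) : Prop where
  lor_eq : ∀ g ∈ Γ, ∀ x y : V3, lor (g.1 *ᵥ x) (g.1 *ᵥ y) = lor x y
  maps_hyp : ∀ g ∈ Γ, ∀ x ∈ Hyp, g.1 *ᵥ x ∈ Hyp
  free : ∀ g ∈ Γ, ∀ x ∈ Hyp, g.1 *ᵥ x = x → g = 1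
  proper : ∀ K ⊆ Hyp, IsCompact K → {g | g ∈ Γ ∧ ∃ x ∈ K, g.1 *ᵥ x ∈ K}.Finite
  cocompact : ∃ K ⊆ Hyp, IsCompact K ∧ ∀ x ∈ Hyp, ∃ g ∈ Γ, g.1 *ᵥ x ∈ K

/-- The geodesic through the unit vector `p` projects to a simple closed geodesic of `Γ \ Hyp`:
it closes up after some time `T > 0`, and two of its points have the same image in the
surface only if their times differ by a multiple of `T`. -/
def IsSimpleClosed (Γ : Subgroup (SpecialLinearGroup (Fin 3) ℝ)) (p : V3 × V3) : Prop :=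
  ∃ T : ℝ, 0 < T ∧ (∃ g ∈ Γ, flow T p = mact g p) ∧
    ∀ s t : ℝ, (∃ g ∈ Γ, (mact g (flow s p)).1 = (flow t p).1) → ∃ n : ℤ, t - s = n * T

/-- The Birman-Series set: the closure of the union of all simple closed geodesics (lifted to the
unit tangent bundle of the hyperbolic plane). -/
def F0 (Γ : Subgroup (SpecialLinearGroup (Fin 3) ℝ)) : Set (V3 × V3) :=
  closure {p | p ∈ UT ∧ IsSimpleClosed Γ p}

/-- The representation `ρ` of `Γ` is `k`-Anosov in restriction to the subflow `Y`. The splitting of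
the trivial bundle over `Y` is given by the projections `P y` onto the fibres of the unstable
bundle along the fibres of the stable bundle, the norm by `N`. -/
def KAnosovOn {d : ℕ} (Γ : Subgroup (SpecialLinearGroup (Fin 3) ℝ))
    (ρ : Γ →* SpecialLinearGroup (Fin d) ℂ) (k : ℕ) (Y : Set (V3 × V3)) : Prop :=
  ∃ (P : V3 × V3 → Matrix (Fin d) (Fin d) ℂ) (N : V3 × V3 → (Fin d → ℂ) → ℝ) (C c : ℝ), 0 < c ∧
    -- a continuous splitting of rank `k`, invariant under the flow and under `Γ`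
    ContinuousOn P Y ∧
    (∀ y ∈ Y, P y * P y = P y ∧ (P y).rank = k) ∧
    (∀ y ∈ Y, ∀ t : ℝ, P (flow t y) = P y) ∧
    (∀ y ∈ Y, ∀ g : Γ, P (mact g.1 y) = (ρ g).1 * P y * ((ρ g)⁻¹).1) ∧
    -- a continuous norm on the flat bundle
    ContinuousOn (fun q : (V3 × V3) × (Fin d → ℂ) => N q.1 q.2) (Y ×ˢ Set.univ) ∧
    (∀ y ∈ Y, (∀ v, 0 ≤ N y v) ∧ (∀ v, N y v = 0 → v = 0) ∧
      (∀ (a : ℂ) v, N y (a • v) = ‖a‖ * N y v) ∧ (∀ v w, N y (v + w) ≤ N y v + N y w)) ∧
    (∀ y ∈ Y, ∀ (g : Γ) v, N (mact g.1 y) ((ρ g).1 *ᵥ v) = N y v) ∧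
    -- domination
    (∀ y ∈ Y, ∀ t : ℝ, 0 ≤ t → ∀ v w, P y *ᵥ v = 0 → P y *ᵥ w = w →
      N (flow t y) v * N y w ≤ C * Real.exp (-c * t) * (N (flow t y) w * N y v))

end SBA
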