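import Pool.Agent.Lib.MP_709218_gt.Defs

/-! Lorentzian geometry of the hyperboloid. -/

namespace SBA

open Matrix Real Set Filter Topology

theorem lor_comm (x y : V3) : lor x y = lor y x := by unfold lor; ring
theorem lor_add_left (x y z : V3) : lor (x + y) z = lor x z + lor y z := by
  unfold lor; simp only [Pi.add_apply]; ring
theorem lor_add_right (x y z : V3) : lor x (y + z) = lor x y + lor x z := by
  unfold lor; simp only [Pi.add_apply]; ring
theorem lor_sub_left (x y z : V3) : lor (x - y) z = lor x z - lor y z := by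
  unfold lor; simp only [Pi.sub_apply]; ring
theorem lor_sub_right (x y z : V3) : lor x (y - z) = lor x y - lor x z := by
  unfold lor; simp only [Pi.sub_apply]; ring
theorem lor_smul_left (a : ℝ) (x y : V3) : lor (a • x) y = a * lor x y := by
  unfold lor; simp only [Pi.smul_apply, smul_eq_mul]; ring
theorem lor_smul_right (a : ℝ) (x y : V3) : lor x (a • y) = a * lor x y := by
  unfold lor; simp only [Pi.smul_apply, smul_eq_mul]; ring
theorem lor_neg_left (x y : V3) : lor (-x) y = -lor x y := by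
  unfold lor; simp only [Pi.neg_apply]; ring
theorem lor_neg_right (x y : V3) : lor x (-y) = -lor x y := by
  unfold lor; simp only [Pi.neg_apply]; ring
@[simp] theorem lor_zero_left (x : V3) : lor 0 x = 0 := by simp [lor]
@[simp] theorem lor_zero_right (x : V3) : lor x 0 = 0 := by simp [lor]

theorem lor_sum_left {ι : Type*} (s : Finset ι) (f : ι → V3) (y : V3) :
    lor (∑ i ∈ s, f i) y = ∑ i ∈ s, lor (f i) y := by
  classical
  induction s using Finset.induction_on with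
  | empty => simp
  | insert a s ha ih => rw [Finset.sum_insert ha, Finset.sum_insert ha, lor_add_left, ih]

theorem continuous_lor {X : Type*} [TopologicalSpace X] {f g : X → V3} (hf : Continuous f)
    (hg : Continuous g) : Continuous fun x => lor (f x) (g x) := by
  unfold lor; fun_prop

theorem ContinuousOn.lor {X : Type*} [TopologicalSpace X] {f g : X → V3} {s : Set X}
    (hf : ContinuousOn f s) (hg : ContinuousOn g s) :
    ContinuousOn (fun x => SBA.lor (f x) (g x)) s := by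
  have : Continuous fun p : V3 × V3 => SBA.lor p.1 p.2 := continuous_lor continuous_fst continuous_snd
  exact this.comp_continuousOn (hf.prodMk hg)

theorem lor_nondeg {x : V3} (h : ∀ y, lor x y = 0) : x = 0 := by
  have h0 := h (fun i => if i = 0 then 1 else 0)
  have h1 := h (fun i => if i = 1 then 1 else 0)
  have h2 := h (fun i => if i = 2 then 1 else 0)
  simp [lor] at h0 h1 h2
  funext i; fin_cases i <;> simp [h0, h1, h2]

/-- Future causal vectors: `x₀² + x₁² ≤ x₂²`, `0 ≤ x₂`. -/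
def Fut : Set V3 := {x | lor x x ≤ 0 ∧ 0 ≤ x 2}

theorem Hyp_sub_Fut {x : V3} (h : x ∈ Hyp) : x ∈ Fut := ⟨by rw [h.1]; norm_num, h.2.le⟩

/-- Two future causal vectors have nonpositive product. -/
theorem lor_fut_nonpos {x y : V3} (hx : x ∈ Fut) (hy : y ∈ Fut) : lor x y ≤ 0 := by
  obtain ⟨hx1, hx2⟩ := hx
  obtain ⟨hy1, hy2⟩ := hy
  unfold lor at *
  have h1 : (x 0 * y 0 + x 1 * y 1) ^ 2 ≤ (x 2 * y 2) ^ 2 := by
    have e1 : x 0 * x 0 + x 1 * x 1 ≤ x 2 * x 2 := by linarith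
    have e2 : y 0 * y 0 + y 1 * y 1 ≤ y 2 * y 2 := by linarith
    have e3 : (x 0 * y 0 + x 1 * y 1) ^ 2 ≤ (x 0 * x 0 + x 1 * x 1) * (y 0 * y 0 + y 1 * y 1) := by
      nlinarith [sq_nonneg (x 0 * y 1 - x 1 * y 0)]
    have e4 : (x 0 * x 0 + x 1 * x 1) * (y 0 * y 0 + y 1 * y 1) ≤ (x 2 * x 2) * (y 2 * y 2) :=
      mul_le_mul e1 e2 (add_nonneg (mul_self_nonneg _) (mul_self_nonneg _)) (mul_self_nonneg _)
    calc _ ≤ _ := e3
      _ ≤ _ := e4
      _ = _ := by ring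
  have := abs_le_of_sq_le_sq' h1 (by positivity)
  linarith [this.2]

/-- Strict version: point of `Hyp` against nonzero future causal vector. -/
theorem lor_hyp_fut_neg {x y : V3} (hx : x ∈ Hyp) (hy : y ∈ Fut) (hy0 : 0 < y 2) : lor x y < 0 := by
  obtain ⟨hx1, hx2⟩ := hx
  obtain ⟨hy1, hy2⟩ := hy
  unfold lor at *
  have h1 : (x 0 * y 0 + x 1 * y 1) ^ 2 < (x 2 * y 2) ^ 2 := by
    have e1 : x 0 * x 0 + x 1 * x 1 = x 2 * x 2 - 1 := by linarith
    have e2 : y 0 * y 0 + y 1 * y 1 ≤ y 2 * y 2 := by linarith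
    have e3 : (x 0 * y 0 + x 1 * y 1) ^ 2 ≤ (x 0 * x 0 + x 1 * x 1) * (y 0 * y 0 + y 1 * y 1) := by
      nlinarith [sq_nonneg (x 0 * y 1 - x 1 * y 0)]
    have e5 : 0 ≤ x 0 * x 0 + x 1 * x 1 := add_nonneg (mul_self_nonneg _) (mul_self_nonneg _)
    have e4 : (x 0 * x 0 + x 1 * x 1) * (y 0 * y 0 + y 1 * y 1)
        ≤ (x 0 * x 0 + x 1 * x 1) * (y 2 * y 2) := mul_le_mul_of_nonneg_left e2 e5
    have e6 : (x 0 * x 0 + x 1 * x 1) * (y 2 * y 2) < (x 2 * x 2) * (y 2 * y 2) := by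
      apply mul_lt_mul_of_pos_right _ (by positivity)
      linarith
    calc _ ≤ _ := e3
      _ ≤ _ := e4
      _ < _ := e6
      _ = _ := by ring
  have := abs_lt_of_sq_lt_sq' h1 (by positivity)
  linarith [this.2]

theorem fut_pos_of_ne {x : V3} (hx : x ∈ Fut) (h0 : x ≠ 0) : 0 < x 2 := by
  rcases hx.2.lt_or_eq with h | h
  · exact h
  · exfalso
    apply h0
    have h1 := hx.1
    unfold lor at h1
    rw [← h] at h1
    have h2 : x 0 = 0 := by nlinarith [sq_nonneg (x 0), sq_nonneg (x 1)]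
    have h3 : x 1 = 0 := by nlinarith [sq_nonneg (x 0), sq_nonneg (x 1)]
    funext i; fin_cases i <;> simp [h2, h3, ← h]

/-- `-⟨x,y⟩ = cosh (distance)` is at least one. -/
theorem one_le_N {x y : V3} (hx : x ∈ Hyp) (hy : y ∈ Hyp) : 1 ≤ -lor x y := by
  have hn := lor_hyp_fut_neg hx (Hyp_sub_Fut hy) hy.2
  obtain ⟨hx1, hx2⟩ := hx
  obtain ⟨hy1, hy2⟩ := hy
  unfold lor at *
  by_contra hcon
  push Not at hcon
  have h1 : x 2 * y 2 < 1 + (x 0 * y 0 + x 1 * y 1) := by linarith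
  have h0 : 0 < x 2 * y 2 := by positivity
  have h2 : (x 2 * y 2) ^ 2 < (1 + (x 0 * y 0 + x 1 * y 1)) ^ 2 :=
    pow_lt_pow_left₀ h1 h0.le (by norm_num)
  have h3 : (x 2 * y 2) ^ 2 = (1 + (x 0 * x 0 + x 1 * x 1)) * (1 + (y 0 * y 0 + y 1 * y 1)) := by
    have e1 : x 2 * x 2 = 1 + (x 0 * x 0 + x 1 * x 1) := by linarith
    have e2 : y 2 * y 2 = 1 + (y 0 * y 0 + y 1 * y 1) := by linarith
    rw [← e1, ← e2]; ring
  rw [h3] at h2
  nlinarith [sq_nonneg (x 0 * y 1 - x 1 * y 0), sq_nonneg (x 0 - y 0), sq_nonneg (x 1 - y 1)]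

theorem eq_of_N_le_one {x y : V3} (hx : x ∈ Hyp) (hy : y ∈ Hyp) (h : -lor x y ≤ 1) : x = y := by
  have hN := one_le_N hx hy
  obtain ⟨hx1, hx2⟩ := hx
  obtain ⟨hy1, hy2⟩ := hy
  unfold lor at *
  -- x - y is orthogonal to x + y ... use squares
  have key : (x 0 - y 0) ^ 2 + (x 1 - y 1) ^ 2 ≤ (x 2 - y 2) ^ 2 := by nlinarith
  have e : (x 2 - y 2) ^ 2 * 1 ≤ 0 := by
    -- (x2 - y2)(x2+y2) = (x0-y0)(x0+y0) + (x1-y1)(x1+y1)
    have h2 : (x 2 - y 2) * (x 2 + y 2) = (x 0 - y 0) * (x 0 + y 0) + (x 1 - y 1) * (x 1 + y 1) := by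
      nlinarith
    have h3 : ((x 2 - y 2) * (x 2 + y 2)) ^ 2 ≤
        ((x 0 - y 0) ^ 2 + (x 1 - y 1) ^ 2) * ((x 0 + y 0) ^ 2 + (x 1 + y 1) ^ 2) := by
      rw [h2]
      nlinarith [sq_nonneg ((x 0 - y 0) * (x 1 + y 1) - (x 1 - y 1) * (x 0 + y 0))]
    have h4 : (x 0 + y 0) ^ 2 + (x 1 + y 1) ^ 2 ≤ (x 2 + y 2) ^ 2 - 4 := by nlinarith
    have h5 : 0 ≤ (x 0 + y 0) ^ 2 + (x 1 + y 1) ^ 2 := by positivity
    have h6 : ((x 0 - y 0) ^ 2 + (x 1 - y 1) ^ 2) * ((x 0 + y 0) ^ 2 + (x 1 + y 1) ^ 2)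
        ≤ (x 2 - y 2) ^ 2 * ((x 2 + y 2) ^ 2 - 4) :=
      mul_le_mul key h4 h5 (by positivity)
    nlinarith
  have e2 : x 2 = y 2 := by nlinarith [sq_nonneg (x 2 - y 2)]
  have e0 : (x 0 - y 0) ^ 2 + (x 1 - y 1) ^ 2 ≤ 0 := by rw [e2] at key; linarith [key]
  have e01 : x 0 = y 0 := by nlinarith [sq_nonneg (x 0 - y 0), sq_nonneg (x 1 - y 1)]
  have e11 : x 1 = y 1 := by nlinarith [sq_nonneg (x 0 - y 0), sq_nonneg (x 1 - y 1)]
  funext i; fin_cases i <;> simp [e2, e01, e11]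

/-- Gram determinant inequality for three points of the hyperbolic plane. -/
theorem gram3 (x y z : V3) (hx : lor x x = -1) (hy : lor y y = -1) (hz : lor z z = -1) :
    (-lor x z - (-lor x y) * (-lor y z)) ^ 2 ≤ ((-lor x y) ^ 2 - 1) * ((-lor y z) ^ 2 - 1) := by
  have hdet : 0 ≤ (x 0 * (y 1 * z 2 - y 2 * z 1) - x 1 * (y 0 * z 2 - y 2 * z 0)
      + x 2 * (y 0 * z 1 - y 1 * z 0)) ^ 2 := sq_nonneg _
  have key : (x 0 * (y 1 * z 2 - y 2 * z 1) - x 1 * (y 0 * z 2 - y 2 * z 0)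
      + x 2 * (y 0 * z 1 - y 1 * z 0)) ^ 2 =
      -(lor x x * (lor y y * lor z z - lor y z * lor y z)
        - lor x y * (lor x y * lor z z - lor y z * lor x z)
        + lor x z * (lor x y * lor y z - lor y y * lor x z)) := by
    unfold lor; ring
  rw [key, hx, hy, hz] at hdet
  nlinarith

/-- Hyperbolic distance. -/
noncomputable def hd (x y : V3) : ℝ := arcosh (-lor x y)

theorem hd_comm (x y : V3) : hd x y = hd y x := by unfold hd; rw [lor_comm]

theorem cosh_hd {x y : V3} (hx : x ∈ Hyp) (hy : y ∈ Hyp) : cosh (hd x y) = -lor x y :=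
  cosh_arcosh (one_le_N hx hy)

theorem hd_nonneg {x y : V3} (hx : x ∈ Hyp) (hy : y ∈ Hyp) : 0 ≤ hd x y :=
  arcosh_nonneg (one_le_N hx hy)

theorem hd_self {x : V3} (hx : x ∈ Hyp) : hd x x = 0 := by
  unfold hd; rw [hx.1]; simp

theorem hd_triangle {x y z : V3} (hx : x ∈ Hyp) (hy : y ∈ Hyp) (hz : z ∈ Hyp) :
    hd x z ≤ hd x y + hd y z := by
  have h1 := gram3 x y z hx.1 hy.1 hz.1
  rw [← cosh_hd hx hy, ← cosh_hd hy hz, ← cosh_hd hx hz] at h1
  have n1 := hd_nonneg hx hy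
  have n2 := hd_nonneg hy hz
  have n3 := hd_nonneg hx hz
  have e1 : cosh (hd x y) ^ 2 - 1 = sinh (hd x y) ^ 2 := by rw [cosh_sq]; ring
  have e2 : cosh (hd y z) ^ 2 - 1 = sinh (hd y z) ^ 2 := by rw [cosh_sq]; ring
  rw [e1, e2, ← mul_pow] at h1
  have s1 : 0 ≤ sinh (hd x y) := sinh_nonneg_iff.2 n1
  have s2 : 0 ≤ sinh (hd y z) := sinh_nonneg_iff.2 n2
  have h2 := abs_le_of_sq_le_sq' h1 (mul_nonneg s1 s2)
  have h3 : cosh (hd x z) ≤ cosh (hd x y + hd y z) := by rw [cosh_add]; linarith [h2.2]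
  rw [cosh_le_cosh, abs_of_nonneg n3, abs_of_nonneg (by linarith)] at h3
  exact h3

theorem exp_hd_le {x y : V3} (hx : x ∈ Hyp) (hy : y ∈ Hyp) : exp (hd x y) ≤ 2 * (-lor x y) := by
  rw [← cosh_hd hx hy, cosh_eq]; linarith [exp_pos (-hd x y)]

theorem N_le_exp_hd {x y : V3} (hx : x ∈ Hyp) (hy : y ∈ Hyp) : -lor x y ≤ exp (hd x y) := by
  rw [← cosh_hd hx hy, cosh_eq]
  have : exp (-hd x y) ≤ exp (hd x y) := exp_le_exp.2 (by linarith [hd_nonneg hx hy])
  linarith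

theorem hd_le_iff {x y : V3} (hx : x ∈ Hyp) (hy : y ∈ Hyp) {r : ℝ} (hr : 0 ≤ r) :
    hd x y ≤ r ↔ -lor x y ≤ cosh r := by
  rw [← cosh_hd hx hy, cosh_le_cosh, abs_of_nonneg (hd_nonneg hx hy), abs_of_nonneg hr]

theorem hd_eq_zero {x y : V3} (hx : x ∈ Hyp) (hy : y ∈ Hyp) (h : hd x y = 0) : x = y := by
  apply eq_of_N_le_one hx hy
  rw [← cosh_hd hx hy, h]; simp

/-- linear isometries of Minkowski space preserving the upper sheet -/
structure IsIso (A : V3 →ₗ[ℝ] V3) : Prop where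
  lor_eq : ∀ x y, lor (A x) (A y) = lor x y
  hyp : ∀ x ∈ Hyp, A x ∈ Hyp

theorem IsIso.one : IsIso 1 := ⟨fun _ _ => rfl, fun _ h => h⟩

theorem IsIso.mul {A B : V3 →ₗ[ℝ] V3} (hA : IsIso A) (hB : IsIso B) : IsIso (A * B) :=
  ⟨fun x y => by rw [Module.End.mul_apply, Module.End.mul_apply, hA.lor_eq, hB.lor_eq],
    fun x h => hA.hyp _ (hB.hyp x h)⟩

theorem IsIso.hd_eq {A : V3 →ₗ[ℝ] V3} (hA : IsIso A) (x y : V3) : hd (A x) (A y) = hd x y := by
  unfold hd; rw [hA.lor_eq]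

/-- The reflection in the plane orthogonal to `n`. -/
def refl (n : V3) : V3 →ₗ[ℝ] V3 where
  toFun x := x - (2 * lor x n) • n
  map_add' x y := by rw [lor_add_left]; module
  map_smul' a x := by rw [lor_smul_left]; simp only [RingHom.id_apply]; module

theorem refl_apply (n x : V3) : refl n x = x - (2 * lor x n) • n := rfl

theorem refl_refl {n : V3} (hn : lor n n = 1) (x : V3) : refl n (refl n x) = x := by
  rw [refl_apply, refl_apply, lor_sub_left, lor_smul_left, hn]; module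

theorem lor_refl {n : V3} (hn : lor n n = 1) (x y : V3) : lor (refl n x) (refl n y) = lor x y := by
  rw [refl_apply, refl_apply]
  simp only [lor_sub_left, lor_sub_right, lor_smul_left, lor_smul_right, hn]
  rw [lor_comm n y]; ring

theorem lor_refl_left {n : V3} (hn : lor n n = 1) (x y : V3) : lor (refl n x) y = lor x (refl n y) := by
  rw [← lor_refl hn x (refl n y), refl_refl hn]

theorem refl_fix {n x : V3} (h : lor x n = 0) : refl n x = x := by
  rw [refl_apply, h]; simp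

theorem refl_self {n : V3} (h : lor n n = 1) : refl n n = -n := by
  rw [refl_apply, h]; module

/-- A spacelike reflection preserves the upper sheet. -/
theorem refl_isIso {n : V3} (hn : lor n n = 1) : IsIso (refl n) := by
  refine ⟨lor_refl hn, fun x hx => ⟨by rw [lor_refl hn]; exact hx.1, ?_⟩⟩
  have h1 : lor (refl n x) (refl n x) = -1 := by rw [lor_refl hn]; exact hx.1
  have hx1 := hx.1
  have hx2 := hx.2
  -- show that  -⟨x, refl x⟩ ≥ 1 > 0, so refl x is in the same sheet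
  have h3 : lor x (refl n x) = -1 - 2 * (lor x n) ^ 2 := by
    rw [refl_apply, lor_sub_right, lor_smul_right, hx1]; ring
  by_contra hneg
  push Not at hneg
  have h4 : -(refl n x) ∈ Fut := by
    refine ⟨?_, by simpa using hneg⟩
    rw [lor_neg_left, lor_neg_right, h1]; norm_num
  have h5 := lor_fut_nonpos (Hyp_sub_Fut hx) h4
  rw [lor_neg_right, h3] at h5
  nlinarith [sq_nonneg (lor x n)]

/-- causal lemma: if two unit spacelike vectors satisfy `⟨a,b⟩ ≤ -1` then `a + b` is nonpositive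
against one sheet; we take the sign from one point. -/
theorem causal_sum {a b x0 : V3} (ha : lor a a = 1) (hb : lor b b = 1) (hab : lor a b ≤ -1)
    (h0 : x0 ∈ Hyp) (ha0 : 0 ≤ lor x0 a) (hb0 : 0 ≤ lor x0 b) {y : V3} (hy : y ∈ Fut) :
    0 ≤ lor y a + lor y b := by
  -- c = a + b has norm ≤ 0
  have hc : lor (a + b) (a + b) ≤ 0 := by
    simp only [lor_add_left, lor_add_right, ha, hb]; rw [lor_comm b a]; linarith
  rcases le_total 0 ((a + b) 2) with h | h
  · have hF : a + b ∈ Fut := ⟨hc, h⟩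
    rcases eq_or_ne (a + b) 0 with h0' | h0'
    · have : lor y a + lor y b = 0 := by rw [← lor_add_right, h0']; simp
      linarith
    · have := lor_hyp_fut_neg h0 hF (fut_pos_of_ne hF h0')
      rw [lor_add_right] at this; linarith
  · have hF : -(a + b) ∈ Fut := by
      refine ⟨?_, by rw [Pi.neg_apply]; linarith⟩
      rw [lor_neg_left, lor_neg_right, neg_neg]; exact hc
    have := lor_fut_nonpos hy hF
    rw [lor_neg_right, lor_add_right] at this; linarith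

/-! ### topology -/

theorem one_le_x2 {x : V3} (hx : x ∈ Hyp) : 1 ≤ x 2 := by
  obtain ⟨h1, h2⟩ := hx
  unfold lor at h1
  nlinarith [sq_nonneg (x 0), sq_nonneg (x 1)]

theorem isClosed_Hyp' : IsClosed Hyp := by
  have : Hyp = {x : V3 | lor x x = -1} ∩ {x : V3 | 1 ≤ x 2} := by
    ext x
    constructor
    · intro h; exact ⟨h.1, one_le_x2 h⟩
    · rintro ⟨h1, h2⟩
      have h2' : 1 ≤ x 2 := h2
      exact ⟨h1, by linarith⟩
  rw [this]
  exact (isClosed_eq (continuous_lor continuous_id continuous_id) continuous_const).inter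
    (isClosed_le continuous_const (continuous_apply 2))

theorem x2_le {x y : V3} (hx : x ∈ Hyp) (hy : y ∈ Hyp) : x 2 ≤ 2 * y 2 * (-lor y x) := by
  have hx1 := one_le_x2 hx
  have hy1 := one_le_x2 hy
  obtain ⟨hx1', hx2⟩ := hx
  obtain ⟨hy1', hy2⟩ := hy
  unfold lor at *
  set m := √(y 2 ^ 2 - 1) with hm
  have hm2 : m ^ 2 = y 2 ^ 2 - 1 := by rw [hm]; exact Real.sq_sqrt (by nlinarith)
  have hm0 : 0 ≤ m := Real.sqrt_nonneg _
  have hmy : m ≤ y 2 := by nlinarith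
  have hd : y 0 * x 0 + y 1 * x 1 ≤ m * x 2 := by
    apply (abs_le_of_sq_le_sq' _ (by positivity)).2
    have e1 : y 0 * y 0 + y 1 * y 1 = m ^ 2 := by rw [hm2]; linarith
    have e2 : x 0 * x 0 + x 1 * x 1 ≤ x 2 ^ 2 := by nlinarith
    calc (y 0 * x 0 + y 1 * x 1) ^ 2 ≤ (y 0 * y 0 + y 1 * y 1) * (x 0 * x 0 + x 1 * x 1) := by
          nlinarith [sq_nonneg (y 0 * x 1 - y 1 * x 0)]
      _ = m ^ 2 * (x 0 * x 0 + x 1 * x 1) := by rw [e1]
      _ ≤ m ^ 2 * x 2 ^ 2 := by gcongr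
      _ = (m * x 2) ^ 2 := by ring
  have h3 : (y 2 - m) * x 2 ≤ -(y 0 * x 0 + y 1 * x 1 - y 2 * x 2) := by linarith
  have h4 : 1 ≤ 2 * y 2 * (y 2 - m) := by nlinarith
  calc x 2 = 1 * x 2 := by ring
    _ ≤ 2 * y 2 * (y 2 - m) * x 2 := by gcongr
    _ = 2 * y 2 * ((y 2 - m) * x 2) := by ring
    _ ≤ _ := by gcongr

theorem abs_le_x2 {x : V3} (hx : x ∈ Hyp) (i : Fin 3) : |x i| ≤ x 2 := by
  obtain ⟨h1, h2⟩ := hx
  unfold lor at h1
  have e0 : |x 0| ≤ x 2 := abs_le_of_sq_le_sq (by nlinarith [sq_nonneg (x 1)]) h2.le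
  have e1 : |x 1| ≤ x 2 := abs_le_of_sq_le_sq (by nlinarith [sq_nonneg (x 0)]) h2.le
  fin_cases i
  · exact e0
  · exact e1
  · exact (abs_of_pos h2).le

theorem norm_le_x2 {x : V3} (hx : x ∈ Hyp) : ‖x‖ ≤ x 2 :=
  (pi_norm_le_iff_of_nonneg hx.2.le).2 fun i => by rw [Real.norm_eq_abs]; exact abs_le_x2 hx i

theorem isCompact_ballN (y : V3) (hy : y ∈ Hyp) (R : ℝ) :
    IsCompact {x : V3 | x ∈ Hyp ∧ -lor y x ≤ R} := by
  apply Metric.isCompact_of_isClosed_isBounded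
  · exact isClosed_Hyp'.inter
      (isClosed_le (continuous_lor continuous_const continuous_id).neg continuous_const)
  · rw [Metric.isBounded_iff_subset_closedBall 0]
    refine ⟨2 * y 2 * R, fun x hx => ?_⟩
    rw [mem_closedBall_zero_iff]
    calc ‖x‖ ≤ x 2 := norm_le_x2 hx.1
      _ ≤ 2 * y 2 * (-lor y x) := x2_le hx.1 hy
      _ ≤ _ := by
        have := hy.2
        have h2 := hx.2
        gcongr

theorem isCompact_hball (y : V3) (hy : y ∈ Hyp) (r : ℝ) :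
    IsCompact {x : V3 | x ∈ Hyp ∧ hd y x ≤ r} := by
  rcases le_or_gt 0 r with hr | hr
  · have : {x : V3 | x ∈ Hyp ∧ hd y x ≤ r} = {x : V3 | x ∈ Hyp ∧ -lor y x ≤ cosh r} := by
      ext x
      constructor
      · rintro ⟨h1, h2⟩; exact ⟨h1, (hd_le_iff hy h1 hr).1 h2⟩
      · rintro ⟨h1, h2⟩; exact ⟨h1, (hd_le_iff hy h1 hr).2 h2⟩
    rw [this]; exact isCompact_ballN y hy _
  · have : {x : V3 | x ∈ Hyp ∧ hd y x ≤ r} = ∅ := by
      ext x
      simp only [mem_ofPred_eq, mem_empty_iff_false, iff_false, not_and, not_le]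
      intro h; exact lt_of_lt_of_le hr (hd_nonneg hy h)
    rw [this]; exact isCompact_empty

theorem continuousOn_hd' : ContinuousOn (fun p : V3 × V3 => hd p.1 p.2) (Hyp ×ˢ Hyp) := by
  apply continuousOn_arcosh.comp (continuous_lor continuous_fst continuous_snd).neg.continuousOn
  intro p hp
  exact one_le_N hp.1 hp.2

/-- compact subsets of the hyperbolic plane are bounded -/
theorem compact_hd_bdd {K : Set V3} (hK : IsCompact K) (hKH : K ⊆ Hyp) {y : V3} (hy : y ∈ Hyp) :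
    ∃ r, 0 ≤ r ∧ ∀ x ∈ K, hd y x ≤ r := by
  have hc : ContinuousOn (fun x => hd y x) K := by
    have := continuousOn_hd'.comp (f := fun x : V3 => (y, x)) (s := K)
      (by fun_prop) (fun x hx => ⟨hy, hKH hx⟩)
    exact this
  obtain ⟨r, hr⟩ := (hK.image_of_continuousOn hc).bddAbove
  exact ⟨max r 0, le_max_right _ _, fun x hx => le_trans (hr ⟨x, hx, rfl⟩) (le_max_left _ _)⟩

end SBA
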