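import Mathlib
import Pool.Agent.Lib.MP_709218_gt.Defs
import Pool.Agent.Lib.MP_709218_gt.Lor
import Pool.Agent.Lib.MP_709218_gt.Lor2

/-! Limit.lean : coarse equivariant maps and limit points. -/

namespace SBA
open Matrix Set Filter Topology

/-! ### directions -/

/-- the direction of a point, normalised with third coordinate one -/
noncomputable def dirv (x : V3) : V3 := (x 2)⁻¹ • x

/-- squared euclidean distance of the first two coordinates -/
def Eu (u v : V3) : ℝ := (u 0 - v 0) ^ 2 + (u 1 - v 1) ^ 2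

theorem Eu_nonneg (u v : V3) : 0 ≤ Eu u v := by unfold Eu; positivity

theorem Eu_le (u v : V3) : Eu u v ≤ 2 * ‖u - v‖ ^ 2 := by
  have h0 : |u 0 - v 0| ≤ ‖u - v‖ := by
    have := norm_le_pi_norm (u - v) 0
    simpa using this
  have h1 : |u 1 - v 1| ≤ ‖u - v‖ := by
    have := norm_le_pi_norm (u - v) 1
    simpa using this
  have e0 : (u 0 - v 0) ^ 2 ≤ ‖u - v‖ ^ 2 := by
    rw [← sq_abs (u 0 - v 0)]; exact pow_le_pow_left₀ (abs_nonneg _) h0 2
  have e1 : (u 1 - v 1) ^ 2 ≤ ‖u - v‖ ^ 2 := by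
    rw [← sq_abs (u 1 - v 1)]; exact pow_le_pow_left₀ (abs_nonneg _) h1 2
  unfold Eu; linarith

theorem norm_sub_le_of_Eu {u v : V3} (h : u 2 = v 2) {r : ℝ} (hr : 0 ≤ r) (hE : Eu u v ≤ r ^ 2) :
    ‖u - v‖ ≤ r := by
  unfold Eu at hE
  refine (pi_norm_le_iff_of_nonneg hr).2 fun i => ?_
  rw [Pi.sub_apply, Real.norm_eq_abs]
  fin_cases i
  · simp only [Fin.zero_eta]
    refine abs_le_of_sq_le_sq ?_ hr
    nlinarith [sq_nonneg (u 1 - v 1)]
  · simp only [Fin.mk_one]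
    refine abs_le_of_sq_le_sq ?_ hr
    nlinarith [sq_nonneg (u 0 - v 0)]
  · simp only [Fin.reduceFinMk]
    rw [h, sub_self, abs_zero]; exact hr

theorem lor_e2_left (x : V3) : lor e2 x = -x 2 := by simp [lor, e2]

theorem dirv_two {x : V3} (h : 0 < x 2) : dirv x 2 = 1 := by
  simp [dirv, h.ne']

theorem two_eq_cosh {x : V3} (hx : x ∈ Hyp) : x 2 = Real.cosh (hd e2 x) := by
  rw [cosh_hd e2_mem hx, lor_e2_left, neg_neg]

theorem two_le_exp {x : V3} (hx : x ∈ Hyp) : x 2 ≤ Real.exp (hd e2 x) := by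
  have := N_le_exp_hd e2_mem hx
  rwa [lor_e2_left, neg_neg] at this

theorem exp_le_two {x : V3} (hx : x ∈ Hyp) : Real.exp (hd e2 x) ≤ 2 * x 2 := by
  have := exp_hd_le e2_mem hx
  rwa [lor_e2_left, neg_neg] at this

/-- Euclidean distance of directions and hyperbolic product -/
theorem lor_eq_dirv {x y : V3} (hx : x ∈ Hyp) (hy : y ∈ Hyp) :
    -lor x y = x 2 * y 2 / 2 * (Eu (dirv x) (dirv y) + (x 2)⁻¹ ^ 2 + (y 2)⁻¹ ^ 2) := by
  obtain ⟨hx1, hx2⟩ := hx
  obtain ⟨hy1, hy2⟩ := hy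
  unfold lor at hx1 hy1
  unfold Eu dirv lor
  simp only [Pi.smul_apply, smul_eq_mul]
  have e1 : x 0 ^ 2 + x 1 ^ 2 = x 2 ^ 2 - 1 := by linarith
  have e2' : y 0 ^ 2 + y 1 ^ 2 = y 2 ^ 2 - 1 := by linarith
  have h1 : (x 2)⁻¹ * x 2 = 1 := inv_mul_cancel₀ hx2.ne'
  have h2 : (y 2)⁻¹ * y 2 = 1 := inv_mul_cancel₀ hy2.ne'
  field_simp
  nlinarith [e1, e2']

theorem dirv_dist {x y : V3} (hx : x ∈ Hyp) (hy : y ∈ Hyp) :
    ‖dirv x - dirv y‖ ≤ 3 * Real.exp ((hd x y - hd e2 x - hd e2 y) / 2) := by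
  have hx2 := hx.2
  have hy2 := hy.2
  refine norm_sub_le_of_Eu (by rw [dirv_two hx2, dirv_two hy2]) (by positivity) ?_
  have h1 := lor_eq_dirv hx hy
  have h2 := N_le_exp_hd hx hy
  have h3 := exp_le_two hx
  have h4 := exp_le_two hy
  have hE : Eu (dirv x) (dirv y) * (x 2 * y 2) ≤ 2 * Real.exp (hd x y) := by
    have h5 : 0 ≤ x 2 * y 2 / 2 * ((x 2)⁻¹ ^ 2 + (y 2)⁻¹ ^ 2) := by positivity
    nlinarith
  have h6 : Real.exp (hd e2 x) * Real.exp (hd e2 y) ≤ 4 * (x 2 * y 2) := by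
    have := mul_le_mul h3 h4 (Real.exp_pos _).le (by positivity)
    nlinarith
  have h7 : (3 * Real.exp ((hd x y - hd e2 x - hd e2 y) / 2)) ^ 2
      = 9 * (Real.exp (hd x y) / (Real.exp (hd e2 x) * Real.exp (hd e2 y))) := by
    rw [mul_pow, ← Real.exp_nat_mul, ← Real.exp_add, ← Real.exp_sub]
    norm_num
    ring_nf
  rw [h7, ← mul_div_assoc, le_div_iff₀ (by positivity)]
  have hE0 := Eu_nonneg (dirv x) (dirv y)
  calc Eu (dirv x) (dirv y) * (Real.exp (hd e2 x) * Real.exp (hd e2 y))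
      ≤ Eu (dirv x) (dirv y) * (4 * (x 2 * y 2)) := by gcongr
    _ ≤ 4 * (2 * Real.exp (hd x y)) := by nlinarith
    _ ≤ 9 * Real.exp (hd x y) := by nlinarith [Real.exp_pos (hd x y)]

/-- null vectors normalised by the third coordinate -/
def NullN (ξ : V3) : Prop := lor ξ ξ = 0 ∧ ξ 2 = 1

theorem NullN.sq {ξ : V3} (h : NullN ξ) : ξ 0 ^ 2 + ξ 1 ^ 2 = 1 := by
  have h1 := h.1
  unfold lor at h1
  rw [h.2] at h1
  linarith

theorem NullN.lor_eq {ξ x : V3} (h : NullN ξ) (hx : x ∈ Hyp) :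
    -lor ξ x = x 2 / 2 * (Eu ξ (dirv x) + (x 2)⁻¹ ^ 2) := by
  have h1 := h.sq
  have h2 := h.2
  obtain ⟨hx1, hx2⟩ := hx
  unfold lor at hx1
  unfold Eu dirv lor
  simp only [Pi.smul_apply, smul_eq_mul, h2]
  have e1 : x 0 ^ 2 + x 1 ^ 2 = x 2 ^ 2 - 1 := by linarith
  field_simp
  nlinarith [e1, h1]

theorem NullN.lor_eq' {ξ η : V3} (h : NullN ξ) (h' : NullN η) : -lor ξ η = Eu ξ η / 2 := by
  have h1 := h.sq
  have h2 := h'.sq
  unfold Eu lor
  rw [h.2, h'.2]
  nlinarith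

theorem NullN.lower {ξ x : V3} (h : NullN ξ) (hx : x ∈ Hyp) :
    Real.exp (-hd e2 x) / 2 ≤ -lor ξ x := by
  rw [h.lor_eq hx]
  have hx2 := hx.2
  have h1 := two_le_exp hx
  have h2 : Real.exp (-hd e2 x) ≤ (x 2)⁻¹ := by
    rw [Real.exp_neg]
    exact inv_anti₀ hx2 h1
  have h3 : x 2 / 2 * (Eu ξ (dirv x) + (x 2)⁻¹ ^ 2) = x 2 / 2 * Eu ξ (dirv x) + (x 2)⁻¹ / 2 := by
    field_simp
  rw [h3]
  have := Eu_nonneg ξ (dirv x)
  have : 0 ≤ x 2 / 2 * Eu ξ (dirv x) := by positivity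
  linarith

theorem dirv_sq_le {x : V3} (hx : x ∈ Hyp) : dirv x 0 ^ 2 + dirv x 1 ^ 2 ≤ 1 := by
  obtain ⟨hx1, hx2⟩ := hx
  unfold lor at hx1
  unfold dirv
  simp only [Pi.smul_apply, smul_eq_mul]
  have e1 : x 0 ^ 2 + x 1 ^ 2 = x 2 ^ 2 - 1 := by linarith
  rw [mul_pow, mul_pow, ← mul_add, e1, inv_pow, inv_mul_le_iff₀ (by positivity)]
  linarith

theorem NullN.upper {ξ x : V3} (h : NullN ξ) (hx : x ∈ Hyp) :
    -lor ξ x ≤ 3 * Real.exp (hd e2 x) := by
  rw [h.lor_eq hx]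
  have hx2 := hx.2
  have h1 := two_le_exp hx
  have h4 : 1 ≤ x 2 := by rw [two_eq_cosh hx]; exact Real.one_le_cosh _
  have h5 := h.sq
  have h6 := dirv_sq_le hx
  have h7 : Eu ξ (dirv x) ≤ 4 := by
    unfold Eu
    nlinarith [sq_nonneg (ξ 0 + dirv x 0), sq_nonneg (ξ 1 + dirv x 1)]
  have h8 : (x 2)⁻¹ ^ 2 ≤ 1 := by
    have : (x 2)⁻¹ ≤ 1 := inv_le_one_of_one_le₀ h4
    have h0 : 0 ≤ (x 2)⁻¹ := by positivity
    nlinarith
  nlinarith [Eu_nonneg ξ (dirv x)]

/-- the Busemann function is Lipschitz -/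
theorem NullN.busemann {ξ z w : V3} (h : NullN ξ) (hz : z ∈ Hyp) (hw : w ∈ Hyp) :
    -lor ξ w ≤ 2 * (-lor z w) * (-lor ξ z) := by
  have hb : 0 < -lor ξ z := by
    have := h.lower hz
    have := Real.exp_pos (-hd e2 z)
    linarith
  have hN := one_le_N hz hw
  have hdet : 0 ≤ (ξ 0 * (z 1 * w 2 - z 2 * w 1) - ξ 1 * (z 0 * w 2 - z 2 * w 0)
      + ξ 2 * (z 0 * w 1 - z 1 * w 0)) ^ 2 := sq_nonneg _
  have key : (ξ 0 * (z 1 * w 2 - z 2 * w 1) - ξ 1 * (z 0 * w 2 - z 2 * w 0)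
      + ξ 2 * (z 0 * w 1 - z 1 * w 0)) ^ 2 =
      -(lor ξ ξ * (lor z z * lor w w - lor z w * lor z w)
        - lor ξ z * (lor ξ z * lor w w - lor z w * lor ξ w)
        + lor ξ w * (lor ξ z * lor z w - lor z z * lor ξ w)) := by
    unfold lor; ring
  rw [key, h.1, hz.1, hw.1] at hdet
  set a := -lor ξ w with ha
  set b := -lor ξ z with hb'
  set N := -lor z w with hN'
  have e1 : lor ξ w = -a := by rw [ha]; ring
  have e2' : lor ξ z = -b := by rw [hb']; ring
  have e3 : lor z w = -N := by rw [hN']; ring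
  rw [e1, e2', e3] at hdet
  have h1 : (a - b * N) ^ 2 ≤ b ^ 2 * (N ^ 2 - 1) := by nlinarith
  have h2 : (a - b * N) ^ 2 ≤ (b * N) ^ 2 := by nlinarith [sq_nonneg b]
  have h3 := abs_le_of_sq_le_sq' h2 (by positivity)
  nlinarith [h3.2]

theorem NullN.pos {ξ z : V3} (h : NullN ξ) (hz : z ∈ Hyp) : 0 < -lor ξ z := by
  have := h.lower hz
  have := Real.exp_pos (-hd e2 z)
  linarith

/-! ### quasi-geodesics -/

/-- quasi-geodesics starting at distance at most `B` from the base point -/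
structure QG (A B : ℝ) (f : ℝ → V3) : Prop where
  one_le : 1 ≤ A
  mem : ∀ t, f t ∈ Hyp
  upper : ∀ s t, hd (f s) (f t) ≤ A * |s - t| + A
  lower : ∀ s t, |s - t| ≤ A * hd (f s) (f t) + A
  start : hd e2 (f 0) ≤ B

section qg
variable {A B : ℝ} {f : ℝ → V3}

theorem QG.neg (h : QG A B f) : QG A B fun t => f (-t) := by
  refine ⟨h.one_le, fun t => h.mem _, fun s t => ?_, fun s t => ?_, by simpa using h.start⟩
  · have := h.upper (-s) (-t)
    rwa [neg_sub_neg, abs_sub_comm] at this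
  · have := h.lower (-s) (-t)
    rwa [neg_sub_neg, abs_sub_comm] at this

theorem QG.d_lower (h : QG A B f) (t : ℝ) : |t| / A - 1 - B ≤ hd e2 (f t) := by
  have hA := h.one_le
  have h1 := h.lower 0 t
  rw [zero_sub, abs_neg] at h1
  have h2 := hd_triangle (h.mem 0) e2_mem (h.mem t)
  rw [hd_comm (f 0) e2] at h2
  have h3 := h.start
  have h4 : |t| / A ≤ hd (f 0) (f t) + 1 := by
    rw [div_le_iff₀ (by linarith)]
    nlinarith
  linarith

theorem QG.d_upper (h : QG A B f) (t : ℝ) : hd e2 (f t) ≤ A * |t| + A + B := by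
  have h1 := h.upper 0 t
  rw [zero_sub, abs_neg] at h1
  have h2 := hd_triangle e2_mem (h.mem 0) (h.mem t)
  have h3 := h.start
  linarith

theorem QG.step (h : QG A B f) {s t : ℝ} (hst : |s - t| ≤ 1) :
    ‖dirv (f s) - dirv (f t)‖ ≤ 3 * Real.exp (A - (hd e2 (f s) + hd e2 (f t)) / 2) := by
  have hA := h.one_le
  refine (dirv_dist (h.mem s) (h.mem t)).trans ?_
  have h1 := h.upper s t
  gcongr
  nlinarith

/-- constant in the convergence estimate -/
noncomputable def qD (A B : ℝ) : ℝ := 3 * Real.exp (A + 1 + B) * ((1 - Real.exp (-(1 / A)))⁻¹ + 1)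

theorem QG.step' (h : QG A B f) {s t : ℝ} (hs : 0 ≤ s) (h1 : s ≤ t) (h2 : t ≤ s + 1) :
    ‖dirv (f s) - dirv (f t)‖ ≤ 3 * Real.exp (A + 1 + B) * Real.exp (-(s / A)) := by
  have hA := h.one_le
  refine (h.step (by rw [abs_le]; constructor <;> linarith)).trans ?_
  rw [mul_assoc, ← Real.exp_add]
  have h3 := h.d_lower s
  have h4 := h.d_lower t
  rw [abs_of_nonneg hs] at h3
  rw [abs_of_nonneg (hs.trans h1)] at h4
  have h5 : s / A ≤ t / A := by gcongr
  gcongr
  linarith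

theorem geom_aux {x : ℝ} (h0 : 0 ≤ x) (h1 : x < 1) (n : ℕ) :
    ∑ j ∈ Finset.range n, x ^ j ≤ (1 - x)⁻¹ := by
  have := (hasSum_geometric_of_lt_one h0 h1)
  exact sum_le_hasSum _ (fun i _ => pow_nonneg h0 i) this

theorem QG.steps (h : QG A B f) {s : ℝ} (hs : 0 ≤ s) (n : ℕ) :
    ‖dirv (f s) - dirv (f (s + n))‖ ≤
      3 * Real.exp (A + 1 + B) * Real.exp (-(s / A)) * ∑ j ∈ Finset.range n, Real.exp (-(1 / A)) ^ j := by
  have hA := h.one_le
  induction n with
  | zero => simp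
  | succ n ih =>
    rw [Finset.sum_range_succ, mul_add]
    have h1 := h.step' (s := s + n) (t := s + (n + 1 : ℕ)) (by positivity) (by push_cast; linarith)
      (by push_cast; linarith)
    have h2 : Real.exp (-((s + n) / A)) = Real.exp (-(s / A)) * Real.exp (-(1 / A)) ^ n := by
      rw [← Real.exp_nat_mul, ← Real.exp_add]
      congr 1
      field_simp
      ring
    rw [h2] at h1
    calc ‖dirv (f s) - dirv (f (s + (n + 1 : ℕ)))‖
        ≤ ‖dirv (f s) - dirv (f (s + n))‖ + ‖dirv (f (s + n)) - dirv (f (s + (n + 1 : ℕ)))‖ :=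
          norm_sub_le_norm_sub_add_norm_sub _ _ _
      _ ≤ _ := by linarith

theorem exp_neg_inv_lt_one (hA : 1 ≤ A) : Real.exp (-(1 / A)) < 1 := by
  rw [Real.exp_lt_one_iff]
  have : 0 < 1 / A := by positivity
  linarith

theorem QG.cauchy (h : QG A B f) {s t : ℝ} (hs : 0 ≤ s) (hst : s ≤ t) :
    ‖dirv (f s) - dirv (f t)‖ ≤ qD A B * Real.exp (-(s / A)) := by
  have hA := h.one_le
  set n : ℕ := ⌊t - s⌋₊ with hn
  have h1 : (n : ℝ) ≤ t - s := Nat.floor_le (by linarith)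
  have h2 : t - s < n + 1 := Nat.lt_floor_add_one _
  have h3 := h.steps hs n
  have h4 := h.step' (s := s + n) (t := t) (by positivity) (by linarith) (by linarith)
  have h5 := geom_aux (Real.exp_pos (-(1 / A))).le (exp_neg_inv_lt_one hA) n
  have h6 : Real.exp (-((s + n) / A)) ≤ Real.exp (-(s / A)) := by
    gcongr
    have : (0 : ℝ) ≤ n := Nat.cast_nonneg n
    linarith
  calc ‖dirv (f s) - dirv (f t)‖
      ≤ ‖dirv (f s) - dirv (f (s + n))‖ + ‖dirv (f (s + n)) - dirv (f t)‖ :=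
        norm_sub_le_norm_sub_add_norm_sub _ _ _
    _ ≤ 3 * Real.exp (A + 1 + B) * Real.exp (-(s / A)) * (1 - Real.exp (-(1 / A)))⁻¹ +
          3 * Real.exp (A + 1 + B) * Real.exp (-(s / A)) := by
        refine add_le_add (h3.trans ?_) (h4.trans ?_)
        · gcongr
        · gcongr
    _ = _ := by unfold qD; ring

theorem qD_nonneg (hA : 1 ≤ A) (B : ℝ) : 0 ≤ qD A B := by
  have := exp_neg_inv_lt_one hA
  have : 0 < 1 - Real.exp (-(1 / A)) := by linarith
  unfold qD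
  positivity

theorem tendsto_exp_neg_div (hA : 1 ≤ A) :
    Tendsto (fun s : ℝ => Real.exp (-(s / A))) atTop (𝓝 0) := by
  have h1 : Tendsto (fun s : ℝ => s / A) atTop atTop := tendsto_id.atTop_div_const (by linarith)
  exact Real.tendsto_exp_neg_atTop_nhds_zero.comp h1

/-- existence of the limit with rate -/
theorem QG.exists_lim (h : QG A B f) : ∃ ξ : V3, Tendsto (fun t => dirv (f t)) atTop (𝓝 ξ) ∧
    ∀ s, 0 ≤ s → ‖dirv (f s) - ξ‖ ≤ qD A B * Real.exp (-(s / A)) := by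
  have hA := h.one_le
  have hz : Tendsto (fun s : ℝ => qD A B * Real.exp (-(s / A))) atTop (𝓝 0) := by
    simpa using (tendsto_exp_neg_div hA).const_mul (qD A B)
  have hc : CauchySeq fun t => dirv (f t) := by
    rw [Metric.cauchySeq_iff]
    intro ε hε
    have h1 : ∀ᶠ s in atTop, qD A B * Real.exp (-(s / A)) < ε / 2 :=
      hz.eventually (gt_mem_nhds (by linarith))
    obtain ⟨N, hN0, hN⟩ := (h1.and (eventually_ge_atTop 0)).exists
    refine ⟨N, fun m hm n hn => ?_⟩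
    have e1 := h.cauchy hN hm
    have e2' := h.cauchy hN hn
    rw [dist_eq_norm]
    calc ‖dirv (f m) - dirv (f n)‖ ≤ ‖dirv (f m) - dirv (f N)‖ + ‖dirv (f N) - dirv (f n)‖ :=
          norm_sub_le_norm_sub_add_norm_sub _ _ _
      _ < ε := by rw [norm_sub_rev (dirv (f m))]; linarith
  obtain ⟨ξ, hξ⟩ := cauchySeq_tendsto_of_complete hc
  refine ⟨ξ, hξ, fun s hs => ?_⟩
  have h2 : Tendsto (fun t => ‖dirv (f s) - dirv (f t)‖) atTop (𝓝 ‖dirv (f s) - ξ‖) :=
    (hξ.const_sub _).norm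
  refine le_of_tendsto h2 ?_
  filter_upwards [eventually_ge_atTop s] with t ht
  exact h.cauchy hs ht

theorem QG.d_atTop (h : QG A B f) : Tendsto (fun t => hd e2 (f t)) atTop atTop := by
  have hA := h.one_le
  have h1 : Tendsto (fun t : ℝ => t / A - 1 - B) atTop atTop := by
    have : Tendsto (fun s : ℝ => s / A) atTop atTop := tendsto_id.atTop_div_const (by linarith)
    simpa [sub_eq_add_neg, add_assoc] using tendsto_atTop_add_const_right atTop (-1 + -B) this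
  refine tendsto_atTop_mono' atTop ?_ h1
  filter_upwards [eventually_ge_atTop 0] with t ht
  have := h.d_lower t
  rwa [abs_of_nonneg ht] at this

/-- the limit is a normalised null vector -/
theorem QG.nullN (h : QG A B f) {ξ : V3} (hξ : Tendsto (fun t => dirv (f t)) atTop (𝓝 ξ)) :
    NullN ξ := by
  constructor
  · have h1 : Tendsto (fun t => lor (dirv (f t)) (dirv (f t))) atTop (𝓝 (lor ξ ξ)) := by
      have hc : Continuous fun x : V3 => lor x x := continuous_lor continuous_id continuous_id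
      exact (hc.tendsto ξ).comp hξ
    have h2 : Tendsto (fun t => lor (dirv (f t)) (dirv (f t))) atTop (𝓝 0) := by
      have h3 : ∀ t, lor (dirv (f t)) (dirv (f t)) = -((f t 2)⁻¹ ^ 2) := by
        intro t
        unfold dirv
        rw [lor_smul_left, lor_smul_right, (h.mem t).1]
        ring
      have h4 : Tendsto (fun t => (f t 2)⁻¹) atTop (𝓝 0) := by
        refine tendsto_inv_atTop_zero.comp ?_
        have h5 : Tendsto (fun t => Real.exp (hd e2 (f t)) / 2) atTop atTop :=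
          (Real.tendsto_exp_atTop.comp h.d_atTop).atTop_div_const (by norm_num)
        refine tendsto_atTop_mono (fun t => ?_) h5
        have := exp_le_two (h.mem t)
        linarith
      simp only [h3]
      simpa using (h4.pow 2).neg
    exact tendsto_nhds_unique h1 h2
  · have h1 : Tendsto (fun t => dirv (f t) 2) atTop (𝓝 (ξ 2)) :=
      ((continuous_apply 2).tendsto ξ).comp hξ
    have h2 : Tendsto (fun t => dirv (f t) 2) atTop (𝓝 1) := by
      refine tendsto_const_nhds.congr fun t => ?_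
      rw [dirv_two (h.mem t).2]
    exact tendsto_nhds_unique h1 h2

/-! ### transversality -/

/-- last natural time at distance at most `R` -/
theorem QG.exists_last (h : QG A B f) {R : ℝ} (hR : B ≤ R) :
    ∃ k : ℕ, hd e2 (f k) ≤ R ∧ ∀ j : ℕ, k < j → R < hd e2 (f j) := by
  classical
  have hA := h.one_le
  set P : ℕ → Prop := fun k => hd e2 (f k) ≤ R with hP
  set M : ℕ := ⌈A * (R + 1 + B)⌉₊ with hM
  have hlarge : ∀ j : ℕ, M < j → R < hd e2 (f j) := by
    intro j hj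
    have h1 := h.d_lower j
    rw [Nat.abs_cast] at h1
    have h2 : A * (R + 1 + B) ≤ M := Nat.le_ceil _
    have h3 : (M : ℝ) < j := by exact_mod_cast hj
    have h4 : R + 1 + B < j / A := by
      rw [lt_div_iff₀ (by linarith)]
      linarith
    linarith
  refine ⟨Nat.findGreatest P M, ?_, fun j hj => ?_⟩
  · have : P (Nat.findGreatest P M) := by
      refine Nat.findGreatest_spec (P := P) (m := 0) (Nat.zero_le _) ?_
      simp only [hP, Nat.cast_zero]
      exact h.start.trans hR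
    exact this
  · by_cases hjM : j ≤ M
    · have := Nat.findGreatest_is_greatest hj hjM
      simp only [hP, not_le] at this
      exact this
    · exact hlarge j (by omega)

/-- constant in the tail estimate -/
noncomputable def qE (A B θ : ℝ) : ℝ :=
  3 * Real.exp (A + 2 * A + θ * (1 + B)) * (1 - Real.exp (-(θ / A)))⁻¹

theorem QG.tail (h : QG A B f) {R θ : ℝ} (h0 : 0 < θ) (h1 : θ ≤ 1) {k : ℕ}
    (hk1 : ∀ j : ℕ, k < j → R < hd e2 (f j)) (n : ℕ) :
    ‖dirv (f k) - dirv (f (k + n))‖ ≤ 3 * Real.exp (A + 2 * A + θ * (1 + B)) *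
      Real.exp (-((1 - θ) * R)) * ∑ j ∈ Finset.range n, Real.exp (-(θ / A)) ^ j := by
  have hA := h.one_le
  have hlow : ∀ j : ℕ, k ≤ j → R - 2 * A ≤ hd e2 (f j) := by
    intro j hj
    have e1 := hk1 (j + 1) (by omega)
    have e3 := h.upper j (j + 1 : ℕ)
    have e4 : |((j : ℕ) : ℝ) - ((j + 1 : ℕ) : ℝ)| = 1 := by push_cast; simp
    rw [e4] at e3
    have e5 := hd_triangle e2_mem (h.mem j) (h.mem (j + 1 : ℕ))
    linarith
  induction n with
  | zero => simp
  | succ n ih =>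
    rw [Finset.sum_range_succ, mul_add]
    have hstep := h.step (s := (k : ℝ) + n) (t := (k : ℝ) + (n + 1 : ℕ))
      (by push_cast; rw [abs_le]; constructor <;> linarith)
    have c1 : (k : ℝ) + n = ((k + n : ℕ) : ℝ) := by push_cast; ring
    have c2 : (k : ℝ) + (n + 1 : ℕ) = ((k + (n + 1) : ℕ) : ℝ) := by push_cast; ring
    have l1 := hlow (k + n) (by omega)
    have l2 := hlow (k + (n + 1)) (by omega)
    have l3 := h.d_lower ((k + n : ℕ) : ℝ)
    have l4 := h.d_lower ((k + (n + 1) : ℕ) : ℝ)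
    rw [Nat.abs_cast] at l3 l4
    have l5 : ((n : ℕ) : ℝ) / A ≤ ((k + n : ℕ) : ℝ) / A := by
      gcongr
      exact_mod_cast (by omega : n ≤ k + n)
    have l6 : ((n : ℕ) : ℝ) / A ≤ ((k + (n + 1) : ℕ) : ℝ) / A := by
      gcongr
      exact_mod_cast (by omega : n ≤ k + (n + 1))
    rw [c1, c2] at hstep
    have hexp : A - (hd e2 (f ((k + n : ℕ) : ℝ)) + hd e2 (f ((k + (n + 1) : ℕ) : ℝ))) / 2 ≤
        (A + 2 * A + θ * (1 + B)) + -((1 - θ) * R) + -(θ / A) * n := by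
      have m1 : (1 - θ) * (R - 2 * A) + θ * ((n : ℝ) / A - 1 - B) ≤ hd e2 (f ((k + n : ℕ) : ℝ)) := by
        have a1 : (1 - θ) * (R - 2 * A) ≤ (1 - θ) * hd e2 (f ((k + n : ℕ) : ℝ)) :=
          mul_le_mul_of_nonneg_left l1 (by linarith)
        have a2 : θ * ((n : ℝ) / A - 1 - B) ≤ θ * hd e2 (f ((k + n : ℕ) : ℝ)) :=
          mul_le_mul_of_nonneg_left (by linarith) h0.le
        linarith
      have m2 : (1 - θ) * (R - 2 * A) + θ * ((n : ℝ) / A - 1 - B) ≤
          hd e2 (f ((k + (n + 1) : ℕ) : ℝ)) := by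
        have a1 : (1 - θ) * (R - 2 * A) ≤ (1 - θ) * hd e2 (f ((k + (n + 1) : ℕ) : ℝ)) :=
          mul_le_mul_of_nonneg_left l2 (by linarith)
        have a2 : θ * ((n : ℝ) / A - 1 - B) ≤ θ * hd e2 (f ((k + (n + 1) : ℕ) : ℝ)) :=
          mul_le_mul_of_nonneg_left (by linarith) h0.le
        linarith
      have m3 : θ * ((n : ℝ) / A) = θ / A * n := by ring
      nlinarith
    have hfin : 3 * Real.exp (A - (hd e2 (f ((k + n : ℕ) : ℝ)) +
        hd e2 (f ((k + (n + 1) : ℕ) : ℝ))) / 2) ≤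
        3 * Real.exp (A + 2 * A + θ * (1 + B)) * Real.exp (-((1 - θ) * R)) *
          Real.exp (-(θ / A)) ^ n := by
      have e1 : Real.exp (-(θ / A)) ^ n = Real.exp (-(θ / A) * n) := by
        rw [← Real.exp_nat_mul]; congr 1; ring
      rw [e1, mul_assoc, mul_assoc, ← Real.exp_add, ← Real.exp_add]
      gcongr
      linarith
    rw [← c1, ← c2] at hstep hfin
    calc ‖dirv (f k) - dirv (f (k + (n + 1 : ℕ)))‖
        ≤ ‖dirv (f k) - dirv (f (k + n))‖ + ‖dirv (f (k + n)) - dirv (f (k + (n + 1 : ℕ)))‖ :=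
          norm_sub_le_norm_sub_add_norm_sub _ _ _
      _ ≤ _ := add_le_add ih (hstep.trans hfin)

theorem QG.tail_lim (h : QG A B f) {R θ : ℝ} (h0 : 0 < θ) (h1 : θ ≤ 1) {k : ℕ}
    (hk1 : ∀ j : ℕ, k < j → R < hd e2 (f j)) {ξ : V3}
    (hξ : Tendsto (fun t => dirv (f t)) atTop (𝓝 ξ)) :
    ‖dirv (f k) - ξ‖ ≤ qE A B θ * Real.exp (-((1 - θ) * R)) := by
  have hA := h.one_le
  have h2 : Tendsto (fun n : ℕ => ‖dirv (f k) - dirv (f (k + n))‖) atTop (𝓝 ‖dirv (f k) - ξ‖) := by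
    have h3 : Tendsto (fun n : ℕ => (k : ℝ) + n) atTop atTop :=
      tendsto_atTop_add_const_left atTop (k : ℝ) tendsto_natCast_atTop_atTop
    exact ((hξ.comp h3).const_sub _).norm
  refine le_of_tendsto' h2 fun n => (h.tail h0 h1 hk1 n).trans ?_
  have hx1 : Real.exp (-(θ / A)) < 1 := by
    rw [Real.exp_lt_one_iff]
    have : 0 < θ / A := by positivity
    linarith
  have h4 := geom_aux (Real.exp_pos (-(θ / A))).le hx1 n
  unfold qE
  calc 3 * Real.exp (A + 2 * A + θ * (1 + B)) *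
      Real.exp (-((1 - θ) * R)) * ∑ j ∈ Finset.range n, Real.exp (-(θ / A)) ^ j
      ≤ 3 * Real.exp (A + 2 * A + θ * (1 + B)) *
        Real.exp (-((1 - θ) * R)) * (1 - Real.exp (-(θ / A)))⁻¹ := by gcongr
    _ = _ := by ring

/-- uniform transversality -/
theorem exists_transverse (hA : 1 ≤ A) (B : ℝ) : ∃ δ : ℝ, 0 < δ ∧ ∀ f : ℝ → V3, QG A B f →
    ∀ ξ η : V3, Tendsto (fun t => dirv (f t)) atTop (𝓝 ξ) →
      Tendsto (fun t => dirv (f (-t))) atTop (𝓝 η) → δ < ‖ξ - η‖ := by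
  have hA0 : 0 < A := by linarith
  set θ : ℝ := 1 / (2 * A ^ 2) with hθ
  have hθ0 : 0 < θ := by positivity
  have hA2 : 1 ≤ A ^ 2 := by nlinarith
  have hθ1 : θ ≤ 1 := by
    rw [hθ, div_le_one (by positivity)]
    linarith
  set E := qE A B θ with hE
  have hE0 : 0 ≤ E := by
    have hx1 : Real.exp (-(θ / A)) < 1 := by
      rw [Real.exp_lt_one_iff]
      have : 0 < θ / A := by positivity
      linarith
    have : 0 < 1 - Real.exp (-(θ / A)) := by linarith
    rw [hE]; unfold qE; positivity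
  set G : ℝ := 2 * ((2 * E + 1) ^ 2 + 2 * Real.exp (2 * A)) with hG
  have hG1 : 0 < G := by positivity
  set B' : ℝ := |B| with hB'
  have hBB : B ≤ B' := le_abs_self B
  have hB0 : 0 ≤ B' := abs_nonneg B
  set R : ℝ := A ^ 2 * (|Real.log G| + 2) + 2 * (B' + 2 * A) with hR
  have hlogG : Real.log G ≤ |Real.log G| := le_abs_self _
  have hR0 : 0 ≤ R := by positivity
  have hRB : B ≤ R := by
    have : 0 ≤ A ^ 2 * (|Real.log G| + 2) := by positivity
    linarith
  refine ⟨Real.exp (-R), Real.exp_pos _, fun f h ξ η hξ hη => ?_⟩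
  by_contra hcon
  push Not at hcon
  obtain ⟨k, hk, hk'⟩ := h.exists_last hRB
  obtain ⟨l, hl, hl'⟩ := h.neg.exists_last hRB
  have t1 := h.tail_lim hθ0 hθ1 hk' hξ
  have t2 := h.neg.tail_lim hθ0 hθ1 hl' hη
  rw [← hE] at t1 t2
  set x := f k with hx
  set y := f (-(l : ℝ)) with hy
  have hxm : x ∈ Hyp := h.mem _
  have hym : y ∈ Hyp := h.mem _
  have t3 : ‖dirv x - dirv y‖ ≤ (2 * E + 1) * Real.exp (-((1 - θ) * R)) := by
    have e1 : Real.exp (-R) ≤ Real.exp (-((1 - θ) * R)) := by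
      gcongr
      nlinarith
    calc ‖dirv x - dirv y‖ = ‖(dirv x - ξ) + (ξ - η) + (η - dirv y)‖ := by congr 1; abel
      _ ≤ ‖dirv x - ξ‖ + ‖ξ - η‖ + ‖η - dirv y‖ := norm_add₃_le
      _ ≤ _ := by rw [norm_sub_rev η]; linarith
  have hup : x 2 ≤ Real.exp R := (two_le_exp hxm).trans (Real.exp_le_exp.2 hk)
  have hup' : y 2 ≤ Real.exp R := (two_le_exp hym).trans (Real.exp_le_exp.2 hl)
  -- lower bounds for the third coordinates
  have hlow : ∀ (g : ℝ → V3), QG A B g → ∀ k : ℕ, (∀ j : ℕ, k < j → R < hd e2 (g j)) →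
      R - 2 * A ≤ hd e2 (g k) ∧ R - B' - 2 * A ≤ A * k := by
    intro g hg k hk
    have e1 := hk (k + 1) (by omega)
    have e3 := hg.upper k (k + 1 : ℕ)
    have e4 : |((k : ℕ) : ℝ) - ((k + 1 : ℕ) : ℝ)| = 1 := by push_cast; simp
    rw [e4] at e3
    have e5 := hd_triangle e2_mem (hg.mem k) (hg.mem (k + 1 : ℕ))
    have e6 := hg.d_upper (k + 1 : ℕ)
    rw [Nat.abs_cast] at e6
    have e7 : A * ((k + 1 : ℕ) : ℝ) = A * k + A := by push_cast; ring
    constructor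
    · linarith
    · linarith
  obtain ⟨lx, kx⟩ := hlow f h k hk'
  obtain ⟨ly, ky⟩ := hlow _ h.neg l hl'
  have hxl : Real.exp (R - 2 * A) ≤ 2 * x 2 := (Real.exp_le_exp.2 lx).trans (exp_le_two hxm)
  have hyl : Real.exp (R - 2 * A) ≤ 2 * y 2 := (Real.exp_le_exp.2 ly).trans (exp_le_two hym)
  have hx2 := hxm.2
  have hy2 := hym.2
  have hratio : ∀ a b : ℝ, 0 < a → 0 < b → Real.exp (R - 2 * A) ≤ 2 * a → b ≤ Real.exp R →
      b * a⁻¹ ≤ 2 * Real.exp (2 * A) := by
    intro a b ha hb h1 h2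
    rw [mul_inv_le_iff₀ ha]
    calc b ≤ Real.exp R := h2
      _ = Real.exp (R - 2 * A) * Real.exp (2 * A) := by rw [← Real.exp_add]; congr 1; ring
      _ ≤ 2 * a * Real.exp (2 * A) := by gcongr
      _ = _ := by ring
  have r1 := hratio (x 2) (y 2) hx2 hy2 hxl hup'
  have r2 := hratio (y 2) (x 2) hy2 hx2 hyl hup
  have hN : -lor x y ≤ ((2 * E + 1) ^ 2 + 2 * Real.exp (2 * A)) * Real.exp (2 * θ * R) := by
    rw [lor_eq_dirv hxm hym]
    have e1 : x 2 * y 2 / 2 * (Eu (dirv x) (dirv y) + (x 2)⁻¹ ^ 2 + (y 2)⁻¹ ^ 2)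
        = x 2 * y 2 / 2 * Eu (dirv x) (dirv y) + (y 2 * (x 2)⁻¹ + x 2 * (y 2)⁻¹) / 2 := by
      field_simp
      ring
    rw [e1]
    have e2' : Eu (dirv x) (dirv y) ≤ 2 * ((2 * E + 1) * Real.exp (-((1 - θ) * R))) ^ 2 :=
      (Eu_le _ _).trans (by gcongr)
    have e3 : x 2 * y 2 ≤ Real.exp R * Real.exp R :=
      mul_le_mul hup hup' hy2.le (Real.exp_pos _).le
    have e4 : x 2 * y 2 / 2 * Eu (dirv x) (dirv y) ≤ (Real.exp R * Real.exp R) / 2 *
        (2 * ((2 * E + 1) * Real.exp (-((1 - θ) * R))) ^ 2) := by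
      have := Eu_nonneg (dirv x) (dirv y)
      gcongr
    have e5 : (Real.exp R * Real.exp R) / 2 * (2 * ((2 * E + 1) * Real.exp (-((1 - θ) * R))) ^ 2)
        = (2 * E + 1) ^ 2 * Real.exp (2 * θ * R) := by
      have : Real.exp (2 * θ * R) = Real.exp R * Real.exp R * (Real.exp (-((1 - θ) * R))) ^ 2 := by
        rw [← Real.exp_nat_mul, ← Real.exp_add, ← Real.exp_add]
        congr 1
        push_cast
        ring
      rw [this]; ring
    have e6 : 1 ≤ Real.exp (2 * θ * R) := Real.one_le_exp (by positivity)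
    have e7 : 2 * Real.exp (2 * A) ≤ 2 * Real.exp (2 * A) * Real.exp (2 * θ * R) :=
      le_mul_of_one_le_right (by positivity) e6
    have e8 : ((2 * E + 1) ^ 2 + 2 * Real.exp (2 * A)) * Real.exp (2 * θ * R)
        = (2 * E + 1) ^ 2 * Real.exp (2 * θ * R) + 2 * Real.exp (2 * A) * Real.exp (2 * θ * R) := by
      ring
    linarith
  have hexp := exp_hd_le hxm hym
  have hlast : Real.exp (hd x y) ≤ Real.exp (|Real.log G| + 2 * θ * R) := by
    calc Real.exp (hd x y) ≤ 2 * (-lor x y) := hexp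
      _ ≤ G * Real.exp (2 * θ * R) := by rw [hG]; linarith
      _ ≤ Real.exp (|Real.log G|) * Real.exp (2 * θ * R) := by
          gcongr
          calc G = Real.exp (Real.log G) := (Real.exp_log hG1).symm
            _ ≤ _ := Real.exp_le_exp.2 hlogG
      _ = _ := by rw [Real.exp_add]
  rw [Real.exp_le_exp] at hlast
  have hlo := h.lower k (-(l : ℝ))
  rw [sub_neg_eq_add, abs_of_nonneg (by positivity)] at hlo
  rw [← hx, ← hy] at hlo
  -- contradiction
  have hθA : 2 * θ * A ^ 2 = 1 := by rw [hθ]; field_simp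
  have f1 : A * ((k : ℝ) + l) ≤ A * (A * hd x y + A) := by gcongr
  have f2 : 2 * (R - B' - 2 * A) ≤ A ^ 2 * hd x y + A ^ 2 := by
    have g1 : A * (A * hd x y + A) = A ^ 2 * hd x y + A ^ 2 := by ring
    have g2 : A * ((k : ℝ) + l) = A * k + A * l := by ring
    linarith
  have f3 : A ^ 2 * hd x y ≤ A ^ 2 * (|Real.log G| + 2 * θ * R) := by gcongr
  have f4 : A ^ 2 * (|Real.log G| + 2 * θ * R) = A ^ 2 * |Real.log G| + R := by
    calc A ^ 2 * (|Real.log G| + 2 * θ * R) = A ^ 2 * |Real.log G| + 2 * θ * A ^ 2 * R := by ring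
      _ = _ := by rw [hθA, one_mul]
  have f5 : R = A ^ 2 * |Real.log G| + 2 * A ^ 2 + 2 * (B' + 2 * A) := by rw [hR]; ring
  linarith

end qg

/-! ### coarse equivariant maps -/

/-- `F` is a coarse quasi-isometry of `Hyp`, coarsely equivariant for two isometric actions of `G`,
the first of which is cocompact. -/
structure CoarseMap {G : Type} [Group G] (r1 r2 : G →* (V3 →ₗ[ℝ] V3)) (F : V3 → V3) (A : ℝ) :
    Prop where
  one_le : 1 ≤ A
  iso1 : ∀ g, IsIso (r1 g)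
  iso2 : ∀ g, IsIso (r2 g)
  maps : ∀ x ∈ Hyp, F x ∈ Hyp
  upper : ∀ x ∈ Hyp, ∀ y ∈ Hyp, hd (F x) (F y) ≤ A * hd x y + A
  lower : ∀ x ∈ Hyp, ∀ y ∈ Hyp, hd x y ≤ A * hd (F x) (F y) + A
  equiv : ∀ g, ∀ x ∈ Hyp, hd (F (r1 g x)) (r2 g (F x)) ≤ A
  cocompact : ∀ x ∈ Hyp, ∃ g, hd e2 (r1 g x) ≤ A
  base : hd e2 (F e2) ≤ A

/-- the limit point -/
noncomputable def xi (F : V3 → V3) (y : V3 × V3) : V3 :=
  limUnder atTop fun t : ℝ => dirv (F (flow t y).1)

section
variable {G : Type} [Group G] {r1 r2 : G →* (V3 →ₗ[ℝ] V3)} {F : V3 → V3} {A : ℝ}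

theorem CoarseMap.qg (h : CoarseMap r1 r2 F A) {y : V3 × V3} (hy : y ∈ UT) {r : ℝ}
    (hyr : hd e2 y.1 ≤ r) : QG A (A * r + 2 * A) fun t => F (flow t y).1 := by
  have hA := h.one_le
  have hm : ∀ t, (flow t y).1 ∈ Hyp := fun t => (flow_mem hy t).1
  refine ⟨hA, fun t => h.maps _ (hm t), fun s t => ?_, fun s t => ?_, ?_⟩
  · have := h.upper _ (hm s) _ (hm t)
    rwa [hd_flow hy] at this
  · have := h.lower _ (hm s) _ (hm t)
    rwa [hd_flow hy] at this
  · rw [flow_zero]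
    have h1 := hd_triangle e2_mem (h.maps _ e2_mem) (h.maps _ hy.1)
    have h2 := h.upper _ e2_mem _ hy.1
    have h3 := h.base
    nlinarith

theorem CoarseMap.tendsto (h : CoarseMap r1 r2 F A) {y : V3 × V3} (hy : y ∈ UT) :
    Tendsto (fun t => dirv (F (flow t y).1)) atTop (𝓝 (xi F y)) := by
  obtain ⟨ξ, hξ, -⟩ := (h.qg hy le_rfl).exists_lim
  exact tendsto_nhds_limUnder ⟨ξ, hξ⟩

theorem CoarseMap.rate (h : CoarseMap r1 r2 F A) {y : V3 × V3} (hy : y ∈ UT) {r : ℝ}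
    (hyr : hd e2 y.1 ≤ r) {s : ℝ} (hs : 0 ≤ s) :
    ‖dirv (F (flow s y).1) - xi F y‖ ≤ qD A (A * r + 2 * A) * Real.exp (-(s / A)) := by
  obtain ⟨ξ, hξ, hr⟩ := (h.qg hy hyr).exists_lim
  have : xi F y = ξ := tendsto_nhds_unique (h.tendsto hy) hξ
  rw [this]
  exact hr s hs

theorem CoarseMap.nullN (h : CoarseMap r1 r2 F A) {y : V3 × V3} (hy : y ∈ UT) :
    NullN (xi F y) := (h.qg hy le_rfl).nullN (h.tendsto hy)

theorem CoarseMap.xi_flow (h : CoarseMap r1 r2 F A) {y : V3 × V3} (hy : y ∈ UT) (t : ℝ) :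
    xi F (flow t y) = xi F y := by
  have h1 := h.tendsto (flow_mem hy t)
  have h2 : Tendsto (fun s => dirv (F (flow s (flow t y)).1)) atTop (𝓝 (xi F y)) := by
    have h3 := (h.tendsto hy).comp (tendsto_atTop_add_const_right atTop t tendsto_id)
    refine h3.congr fun s => ?_
    simp only [Function.comp_apply, id_eq]
    rw [flow_add]
  exact tendsto_nhds_unique h1 h2

theorem CoarseMap.flow_rev_fst (y : V3 × V3) (t : ℝ) : (flow t (rev y)).1 = (flow (-t) y).1 := by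
  rw [flow_rev]; rfl

theorem rev_rev (y : V3 × V3) : rev (rev y) = y := by
  unfold rev; simp

theorem CoarseMap.xi_equiv (h : CoarseMap r1 r2 F A) (g : G) {y : V3 × V3} (hy : y ∈ UT) :
    ∃ c : ℝ, 0 < c ∧ r2 g (xi F y) = c • xi F (pact (r1 g) y) := by
  have hA := h.one_le
  have hN := h.nullN hy
  have hpy : pact (r1 g) y ∈ UT := pact_mem (h.iso1 g) hy
  have hg1 : r2 g (r2 g⁻¹ e2) = e2 := by
    rw [← Module.End.mul_apply, ← map_mul, mul_inv_cancel, map_one]; rfl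
  have hpos : 0 < (r2 g (xi F y)) 2 := by
    have h1 : -lor e2 (r2 g (xi F y)) = (r2 g (xi F y)) 2 := by rw [lor_e2_left]; ring
    rw [← h1, ← hg1, (h.iso2 g).lor_eq, lor_comm]
    exact hN.pos ((h.iso2 g⁻¹).hyp _ e2_mem)
  refine ⟨(r2 g (xi F y)) 2, hpos, ?_⟩
  have hcont : Continuous (r2 g) := LinearMap.continuous_of_finiteDimensional _
  -- the directions of the images
  have h1 : Tendsto (fun t => dirv (r2 g (F (flow t y).1))) atTop (𝓝 (dirv (r2 g (xi F y)))) := by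
    have h2 : Tendsto (fun t => r2 g (dirv (F (flow t y).1))) atTop (𝓝 (r2 g (xi F y))) :=
      (hcont.tendsto _).comp (h.tendsto hy)
    have h3 : Tendsto (fun t => (r2 g (dirv (F (flow t y).1))) 2) atTop (𝓝 ((r2 g (xi F y)) 2)) :=
      ((continuous_apply 2).tendsto _).comp h2
    have h4 : Tendsto (fun t => dirv (r2 g (dirv (F (flow t y).1)))) atTop
        (𝓝 (dirv (r2 g (xi F y)))) := (h3.inv₀ hpos.ne').smul h2
    refine h4.congr fun t => ?_
    have hm : F (flow t y).1 ∈ Hyp := h.maps _ (flow_mem hy t).1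
    have hx2 := hm.2
    have e1 : r2 g (dirv (F (flow t y).1)) = (F (flow t y).1 2)⁻¹ • r2 g (F (flow t y).1) := by
      unfold dirv; rw [map_smul]
    rw [e1]
    have hm2 : 0 < (r2 g (F (flow t y).1)) 2 := ((h.iso2 g).hyp _ hm).2
    unfold dirv
    rw [Pi.smul_apply, smul_eq_mul, smul_smul]
    congr 1
    field_simp
  have h5 : Tendsto (fun t => dirv (F (flow t (pact (r1 g) y)).1)) atTop
      (𝓝 (xi F (pact (r1 g) y))) := h.tendsto hpy
  have h6 : Tendsto (fun t => ‖dirv (r2 g (F (flow t y).1)) - dirv (F (flow t (pact (r1 g) y)).1)‖)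
      atTop (𝓝 0) := by
    have h7 : Tendsto (fun t => 3 * Real.exp (A / 2 +
        -(hd e2 (F (flow t (pact (r1 g) y)).1) / 2))) atTop (𝓝 0) := by
      have h8 : Tendsto (fun t => hd e2 (F (flow t (pact (r1 g) y)).1) / 2) atTop atTop :=
        (h.qg hpy le_rfl).d_atTop.atTop_div_const (by norm_num)
      have h9 := (Real.tendsto_exp_neg_atTop_nhds_zero.comp h8).const_mul (3 * Real.exp (A / 2))
      rw [mul_zero] at h9
      refine h9.congr fun t => ?_
      simp only [Function.comp_apply]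
      rw [Real.exp_add]; ring
    refine squeeze_zero (fun t => norm_nonneg _) (fun t => ?_) h7
    have hm : F (flow t y).1 ∈ Hyp := h.maps _ (flow_mem hy t).1
    have hm' : F (flow t (pact (r1 g) y)).1 ∈ Hyp := h.maps _ (flow_mem hpy t).1
    refine (dirv_dist ((h.iso2 g).hyp _ hm) hm').trans ?_
    have e1 : (flow t (pact (r1 g) y)).1 = r1 g (flow t y).1 := by
      rw [← pact_flow]; rfl
    have e3 := h.equiv g _ (flow_mem hy t).1
    rw [hd_comm, ← e1] at e3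
    have e4 := hd_nonneg e2_mem ((h.iso2 g).hyp _ hm)
    gcongr
    linarith
  have h10 : dirv (r2 g (xi F y)) = xi F (pact (r1 g) y) := by
    have h11 : Tendsto (fun t => ‖dirv (r2 g (F (flow t y).1)) -
        dirv (F (flow t (pact (r1 g) y)).1)‖) atTop
        (𝓝 ‖dirv (r2 g (xi F y)) - xi F (pact (r1 g) y)‖) := (h1.sub h5).norm
    have h12 := tendsto_nhds_unique h11 h6
    exact sub_eq_zero.1 (norm_eq_zero.1 h12)
  rw [← h10]
  unfold dirv
  rw [smul_smul, mul_inv_cancel₀ hpos.ne', one_smul]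

theorem continuous_flow (t : ℝ) : Continuous (flow t) := by
  unfold flow; fun_prop

theorem CoarseMap.xi_cont (h : CoarseMap r1 r2 F A) : ContinuousOn (xi F) UT := by
  have hA := h.one_le
  intro y0 hy0
  rw [ContinuousWithinAt, Metric.tendsto_nhds]
  intro ε hε
  set r : ℝ := hd e2 y0.1 + 1 with hr
  set B : ℝ := A * r + 2 * A with hB
  set D : ℝ := 2 * qD A B + 3 * Real.exp (A + 1 + B) with hD
  have hz : Tendsto (fun s : ℝ => D * Real.exp (-(s / A))) atTop (𝓝 0) := by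
    simpa using (tendsto_exp_neg_div hA).const_mul D
  obtain ⟨T, hT, hT0⟩ := ((hz.eventually (gt_mem_nhds hε)).and (eventually_ge_atTop 0)).exists
  have hc1 : ContinuousOn (fun y : V3 × V3 => hd e2 y.1) UT := by
    have := continuousOn_hd.comp (s := UT) (f := fun y : V3 × V3 => (e2, y.1)) (by fun_prop)
      (fun y hy => ⟨e2_mem, hy.1⟩)
    exact this
  have hc2 : ContinuousOn (fun y : V3 × V3 => hd (flow T y).1 (flow T y0).1) UT := by
    have hcf := continuous_flow T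
    have := continuousOn_hd.comp (s := UT)
      (f := fun y : V3 × V3 => ((flow T y).1, (flow T y0).1))
      ((continuous_fst.comp hcf).prodMk continuous_const).continuousOn
      (fun y hy => ⟨(flow_mem hy T).1, (flow_mem hy0 T).1⟩)
    exact this
  have e1 : ∀ᶠ y in 𝓝[UT] y0, hd e2 y.1 < r :=
    (hc1 y0 hy0).eventually (gt_mem_nhds (by rw [hr]; linarith))
  have e2' : ∀ᶠ y in 𝓝[UT] y0, hd (flow T y).1 (flow T y0).1 < 1 :=
    (hc2 y0 hy0).eventually (gt_mem_nhds (by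
      show hd (flow T y0).1 (flow T y0).1 < 1
      rw [hd_self (flow_mem hy0 T).1]; norm_num))
  filter_upwards [e1, e2', self_mem_nhdsWithin] with y hy1 hy2 hy
  have q1 := h.qg hy hy1.le
  have q0 := h.qg hy0 (r := r) (by rw [hr]; linarith)
  have r1' := h.rate hy hy1.le hT0
  have r0' := h.rate hy0 (r := r) (by rw [hr]; linarith) hT0
  have m1 : F (flow T y).1 ∈ Hyp := q1.mem T
  have m0 : F (flow T y0).1 ∈ Hyp := q0.mem T
  have d1 := q1.d_lower T
  have d0 := q0.d_lower T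
  rw [abs_of_nonneg hT0] at d1 d0
  have hstep : ‖dirv (F (flow T y).1) - dirv (F (flow T y0).1)‖ ≤
      3 * Real.exp (A + 1 + B) * Real.exp (-(T / A)) := by
    refine (dirv_dist m1 m0).trans ?_
    have hu := h.upper _ (flow_mem hy T).1 _ (flow_mem hy0 T).1
    rw [mul_assoc, ← Real.exp_add]
    gcongr
    have : A * hd (flow T y).1 (flow T y0).1 ≤ A * 1 := by gcongr
    linarith
  rw [dist_eq_norm]
  calc ‖xi F y - xi F y0‖
      = ‖-(dirv (F (flow T y).1) - xi F y) + (dirv (F (flow T y).1) - dirv (F (flow T y0).1)) +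
          (dirv (F (flow T y0).1) - xi F y0)‖ := by congr 1; abel
    _ ≤ ‖-(dirv (F (flow T y).1) - xi F y)‖ + ‖dirv (F (flow T y).1) - dirv (F (flow T y0).1)‖ +
          ‖dirv (F (flow T y0).1) - xi F y0‖ := norm_add₃_le
    _ ≤ D * Real.exp (-(T / A)) := by
        rw [norm_neg, hD]
        linarith
    _ < ε := hT

theorem norm_sq_le_Eu {u v : V3} (h : u 2 = v 2) : ‖u - v‖ ^ 2 ≤ Eu u v := by
  have h0 := Eu_nonneg u v
  have h1 := norm_sub_le_of_Eu h (Real.sqrt_nonneg (Eu u v)) (by rw [Real.sq_sqrt h0])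
  calc ‖u - v‖ ^ 2 ≤ (Real.sqrt (Eu u v)) ^ 2 := pow_le_pow_left₀ (norm_nonneg _) h1 2
    _ = _ := Real.sq_sqrt h0

theorem CoarseMap.transverse (h : CoarseMap r1 r2 F A) (r : ℝ) : ∃ δ : ℝ, 0 < δ ∧
    ∀ y ∈ UT, hd e2 y.1 ≤ r → δ < ‖xi F y - xi F (rev y)‖ := by
  obtain ⟨δ, hδ, hd'⟩ := exists_transverse h.one_le (A * r + 2 * A)
  refine ⟨δ, hδ, fun y hy hyr => hd' _ (h.qg hy hyr) _ _ (h.tendsto hy) ?_⟩
  have := h.tendsto (rev_mem hy)
  refine this.congr fun t => ?_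
  rw [CoarseMap.flow_rev_fst]

/-- growth seen from the other end point -/
theorem CoarseMap.lower_rev (h : CoarseMap r1 r2 F A) (r : ℝ) : ∃ c : ℝ, 0 < c ∧
    ∀ y ∈ UT, hd e2 y.1 ≤ r → ∀ t : ℝ, 0 ≤ t →
      c * Real.exp (hd e2 (F (flow t y).1)) ≤ -lor (xi F (rev y)) (F (flow t y).1) := by
  have hA := h.one_le
  obtain ⟨δ, hδ, htr⟩ := h.transverse r
  set B : ℝ := A * r + 2 * A with hB
  have hz : Tendsto (fun s : ℝ => qD A B * Real.exp (-(s / A))) atTop (𝓝 0) := by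
    simpa using (tendsto_exp_neg_div hA).const_mul (qD A B)
  obtain ⟨T, hT⟩ := ((hz.eventually (gt_mem_nhds (by linarith : 0 < δ / 2))).and
    (eventually_ge_atTop 0)).exists_forall_of_atTop
  set D0 : ℝ := A * |T| + A + B with hD0
  refine ⟨min (δ ^ 2 / 16) (Real.exp (-2 * D0) / 2), by positivity, fun y hy hyr t ht => ?_⟩
  have q := h.qg hy hyr
  have hm : F (flow t y).1 ∈ Hyp := q.mem t
  have hN := h.nullN (rev_mem hy)
  have hN' := h.nullN hy
  rcases le_total T t with hTt | hTt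
  · obtain ⟨e1, -⟩ := hT t hTt
    have e3 := h.rate hy hyr ht
    have e4 := htr y hy hyr
    have e5 : δ / 2 ≤ ‖xi F (rev y) - dirv (F (flow t y).1)‖ := by
      have : ‖xi F y - xi F (rev y)‖ ≤ ‖xi F y - dirv (F (flow t y).1)‖ +
          ‖dirv (F (flow t y).1) - xi F (rev y)‖ := norm_sub_le_norm_sub_add_norm_sub _ _ _
      rw [norm_sub_rev (xi F y) (dirv _), norm_sub_rev (dirv _) (xi F (rev y))] at this
      linarith
    have e6 : (xi F (rev y)) 2 = (dirv (F (flow t y).1)) 2 := by rw [hN.2, dirv_two hm.2]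
    have e7 := norm_sq_le_Eu e6
    have e8 : (δ / 2) ^ 2 ≤ ‖xi F (rev y) - dirv (F (flow t y).1)‖ ^ 2 :=
      pow_le_pow_left₀ (by positivity) e5 2
    have e9 := exp_le_two hm
    rw [hN.lor_eq hm]
    have hx2 := hm.2
    calc min (δ ^ 2 / 16) (Real.exp (-2 * D0) / 2) * Real.exp (hd e2 (F (flow t y).1))
        ≤ δ ^ 2 / 16 * (2 * F (flow t y).1 2) := by
          gcongr
          exact min_le_left _ _
      _ = F (flow t y).1 2 / 2 * (δ / 2) ^ 2 := by ring
      _ ≤ _ := by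
          gcongr
          have : 0 ≤ ((F (flow t y).1 2)⁻¹) ^ 2 := by positivity
          linarith
  · have e1 := q.d_upper t
    have e3 : |t| ≤ |T| := by
      rw [abs_of_nonneg ht, abs_of_nonneg (ht.trans hTt)]; exact hTt
    have e4 : hd e2 (F (flow t y).1) ≤ D0 := by
      have : A * |t| ≤ A * |T| := by gcongr
      rw [hD0]
      linarith
    have e5 := hN.lower hm
    calc min (δ ^ 2 / 16) (Real.exp (-2 * D0) / 2) * Real.exp (hd e2 (F (flow t y).1))
        ≤ Real.exp (-2 * D0) / 2 * Real.exp (hd e2 (F (flow t y).1)) := by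
          gcongr
          exact min_le_right _ _
      _ = Real.exp (-2 * D0 + hd e2 (F (flow t y).1)) / 2 := by rw [Real.exp_add]; ring
      _ ≤ Real.exp (-hd e2 (F (flow t y).1)) / 2 := by
          gcongr
          linarith
      _ ≤ _ := e5

/-- growth seen from the end point itself -/
theorem CoarseMap.upper_fwd (h : CoarseMap r1 r2 F A) (r : ℝ) : ∃ C : ℝ, 0 < C ∧
    ∀ y ∈ UT, hd e2 y.1 ≤ r → ∀ t : ℝ, 0 ≤ t →
      -lor (xi F y) (F (flow t y).1) ≤ C * Real.exp (-hd e2 (F (flow t y).1)) := by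
  have hA := h.one_le
  obtain ⟨c, hc, hlow⟩ := h.lower_rev A
  set B0 : ℝ := A * r + 2 * A with hB0
  set B1 : ℝ := A * A + 3 * A with hB1
  set K : ℝ := 3 * Real.exp B0 * (2 * Real.exp A) / c * Real.exp (B0 + B1 + A) with hK
  have hK0 : 0 < K := by positivity
  refine ⟨K * (3 * Real.exp B1), by positivity, fun y hy hyr t ht => ?_⟩
  obtain ⟨g, hg⟩ := h.cocompact _ (flow_mem hy t).1
  have hy' : pact (r1 g) (flow t y) ∈ UT := pact_mem (h.iso1 g) (flow_mem hy t)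
  have hy'1 : hd e2 (pact (r1 g) (flow t y)).1 ≤ A := hg
  obtain ⟨s, hs, hxs⟩ := h.xi_equiv g (flow_mem hy t)
  rw [h.xi_flow hy] at hxs
  have hmt : F (flow t y).1 ∈ Hyp := h.maps _ (flow_mem hy t).1
  have hm0 : F y.1 ∈ Hyp := h.maps _ hy.1
  have hN' := h.nullN hy'
  have hN := h.nullN hy
  -- transport by `r2 g`
  have htr : ∀ x, -lor (xi F y) x = s * -lor (xi F (pact (r1 g) (flow t y))) (r2 g x) := by
    intro x
    rw [← (h.iso2 g).lor_eq, hxs, lor_smul_left]; ring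
  -- the point `r2 g (F x_t)` is close to `e2`
  have hzt : hd e2 (r2 g (F (flow t y).1)) ≤ B1 := by
    have hm1 : F (r1 g (flow t y).1) ∈ Hyp := h.maps _ ((h.iso1 g).hyp _ (flow_mem hy t).1)
    have a1 := hd_triangle e2_mem hm1 ((h.iso2 g).hyp _ hmt)
    have a2 := hd_triangle e2_mem (h.maps _ e2_mem) hm1
    have a3 := h.upper _ e2_mem _ ((h.iso1 g).hyp _ (flow_mem hy t).1)
    have a4 := h.equiv g _ (flow_mem hy t).1
    have a5 := h.base
    have a6 : A * hd e2 (r1 g (flow t y).1) ≤ A * A := by gcongr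
    rw [hB1]
    linarith
  -- the point `z = r2 g (F x_0)`
  set z := r2 g (F y.1) with hz
  have hzm : z ∈ Hyp := (h.iso2 g).hyp _ hm0
  have hrevpt : (flow t (rev (pact (r1 g) (flow t y)))).1 = r1 g y.1 := by
    rw [CoarseMap.flow_rev_fst, ← pact_flow, ← flow_add, neg_add_cancel, flow_zero]; rfl
  have hlow' := hlow _ (rev_mem hy') hy'1 t ht
  rw [rev_rev, hrevpt] at hlow'
  have hz'm : F (r1 g y.1) ∈ Hyp := h.maps _ ((h.iso1 g).hyp _ hy.1)
  have hzz : hd (F (r1 g y.1)) z ≤ A := h.equiv g _ hy.1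
  have hbus := hN'.busemann hzm hz'm
  have hNzz : -lor z (F (r1 g y.1)) ≤ Real.exp A := by
    rw [lor_comm]
    exact (N_le_exp_hd hz'm hzm).trans (Real.exp_le_exp.2 hzz)
  have hzpos := hN'.pos hzm
  have hb2 : c * Real.exp (hd e2 (F (r1 g y.1))) ≤
      2 * Real.exp A * -lor (xi F (pact (r1 g) (flow t y))) z := by
    refine hlow'.trans (hbus.trans ?_)
    gcongr
  -- lower bound of `hd e2 z'`
  have hd0 : hd e2 (F y.1) ≤ B0 := by
    have := (h.qg hy hyr).start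
    rwa [flow_zero] at this
  have hdz : hd e2 (F (flow t y).1) - B0 - B1 - A ≤ hd e2 (F (r1 g y.1)) := by
    have a1 := hd_triangle e2_mem hm0 hmt
    have a2 : hd (F y.1) (F (flow t y).1) = hd z (r2 g (F (flow t y).1)) :=
      ((h.iso2 g).hd_eq _ _).symm
    have a3 := hd_triangle hzm e2_mem ((h.iso2 g).hyp _ hmt)
    have a4 := hd_triangle e2_mem hz'm hzm
    rw [hd_comm z e2] at a3
    linarith
  have hup0 := hN.upper hm0
  rw [htr (F y.1)] at hup0
  have hs1 : s * (c * Real.exp (hd e2 (F (r1 g y.1)))) ≤ 3 * Real.exp B0 * (2 * Real.exp A) := by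
    calc s * (c * Real.exp (hd e2 (F (r1 g y.1))))
        ≤ s * (2 * Real.exp A * -lor (xi F (pact (r1 g) (flow t y))) z) := by gcongr
      _ = (s * -lor (xi F (pact (r1 g) (flow t y))) z) * (2 * Real.exp A) := by ring
      _ ≤ (3 * Real.exp (hd e2 (F y.1))) * (2 * Real.exp A) := by gcongr
      _ ≤ _ := by gcongr
  have hs2 : s ≤ K * Real.exp (-hd e2 (F (flow t y).1)) := by
    have a1 : Real.exp (hd e2 (F (flow t y).1) - B0 - B1 - A) ≤
        Real.exp (hd e2 (F (r1 g y.1))) := Real.exp_le_exp.2 hdz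
    have a2 : s * (c * Real.exp (hd e2 (F (flow t y).1) - B0 - B1 - A)) ≤
        3 * Real.exp B0 * (2 * Real.exp A) := by
      refine le_trans ?_ hs1
      gcongr
    have a3 : K * Real.exp (-hd e2 (F (flow t y).1)) = 3 * Real.exp B0 * (2 * Real.exp A) /
        (c * Real.exp (hd e2 (F (flow t y).1) - B0 - B1 - A)) := by
      have a4 : Real.exp (hd e2 (F (flow t y).1) - B0 - B1 - A) =
          Real.exp (hd e2 (F (flow t y).1)) * (Real.exp (B0 + B1 + A))⁻¹ := by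
        rw [← Real.exp_neg, ← Real.exp_add]; congr 1; ring
      rw [a4, hK, Real.exp_neg]
      field_simp
    rw [a3, le_div_iff₀ (by positivity)]
    exact a2
  have hupt := hN'.upper ((h.iso2 g).hyp _ hmt)
  rw [htr]
  calc s * -lor (xi F (pact (r1 g) (flow t y))) (r2 g (F (flow t y).1))
      ≤ s * (3 * Real.exp (hd e2 (r2 g (F (flow t y).1)))) := by gcongr
    _ ≤ (K * Real.exp (-hd e2 (F (flow t y).1))) * (3 * Real.exp B1) := by gcongr
    _ = _ := by ring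

/-- limit points: main output -/
theorem exists_limit (h : CoarseMap r1 r2 F A) :
    ∃ ξ : V3 × V3 → V3,
      (∀ y ∈ UT, lor (ξ y) (ξ y) = 0 ∧ (ξ y) 2 = 1) ∧
      (∀ y ∈ UT, ∀ t : ℝ, ξ (flow t y) = ξ y) ∧
      (∀ g, ∀ y ∈ UT, ∃ c : ℝ, 0 < c ∧ r2 g (ξ y) = c • ξ (pact (r1 g) y)) ∧
      ContinuousOn ξ UT ∧
      ∀ r : ℝ, ∃ C : ℝ, 0 < C ∧ ∀ y ∈ UT, hd e2 y.1 ≤ r →
        C⁻¹ ≤ -lor (ξ y) (ξ (rev y)) ∧
        ∀ t : ℝ, 0 ≤ t →
          -lor (ξ y) (F (flow t y).1) ≤ C * Real.exp (-hd e2 (F (flow t y).1)) ∧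
          C⁻¹ * Real.exp (-hd e2 (F (flow t y).1)) ≤ -lor (ξ y) (F (flow t y).1) ∧
          -lor (ξ (rev y)) (F (flow t y).1) ≤ C * Real.exp (hd e2 (F (flow t y).1)) ∧
          C⁻¹ * Real.exp (hd e2 (F (flow t y).1)) ≤ -lor (ξ (rev y)) (F (flow t y).1) := by
  refine ⟨xi F, fun y hy => h.nullN hy, fun y hy t => h.xi_flow hy t,
    fun g y hy => h.xi_equiv g hy, h.xi_cont, fun r => ?_⟩
  obtain ⟨δ, hδ, htr⟩ := h.transverse r
  obtain ⟨c, hc, hlow⟩ := h.lower_rev r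
  obtain ⟨C4, hC4, hup⟩ := h.upper_fwd r
  set C : ℝ := 2 / δ ^ 2 + 3 + 1 / c + C4 with hC
  have hC0 : 0 < C := by positivity
  have k1 : 2 / δ ^ 2 ≤ C := by
    have : 0 < 1 / c := by positivity
    rw [hC]; linarith
  have k2 : 3 ≤ C := by
    have : 0 < 1 / c := by positivity
    have : 0 < 2 / δ ^ 2 := by positivity
    rw [hC]; linarith
  have k3 : 1 / c ≤ C := by
    have : 0 < 2 / δ ^ 2 := by positivity
    rw [hC]; linarith
  have k4 : C4 ≤ C := by
    have : 0 < 1 / c := by positivity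
    have : 0 < 2 / δ ^ 2 := by positivity
    rw [hC]; linarith
  refine ⟨C, hC0, fun y hy hyr => ⟨?_, fun t ht => ⟨?_, ?_, ?_, ?_⟩⟩⟩
  · have hN := h.nullN hy
    have hN' := h.nullN (rev_mem hy)
    rw [hN.lor_eq' hN']
    have e1 := norm_sq_le_Eu (u := xi F y) (v := xi F (rev y)) (by rw [hN.2, hN'.2])
    have e3 := htr y hy hyr
    have e4 : δ ^ 2 ≤ ‖xi F y - xi F (rev y)‖ ^ 2 := pow_le_pow_left₀ hδ.le e3.le 2
    have e5 : C⁻¹ ≤ δ ^ 2 / 2 := by
      have := inv_anti₀ (by positivity : 0 < 2 / δ ^ 2) k1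
      rwa [inv_div] at this
    linarith
  · exact (hup y hy hyr t ht).trans (by gcongr)
  · have hm : F (flow t y).1 ∈ Hyp := h.maps _ (flow_mem hy t).1
    refine le_trans ?_ ((h.nullN hy).lower hm)
    have : C⁻¹ ≤ 1 / 2 := by
      rw [inv_le_comm₀ hC0 (by norm_num)]
      linarith
    calc C⁻¹ * Real.exp (-hd e2 (F (flow t y).1)) ≤ 1 / 2 * Real.exp (-hd e2 (F (flow t y).1)) := by
          gcongr
      _ = _ := by ring
  · have hm : F (flow t y).1 ∈ Hyp := h.maps _ (flow_mem hy t).1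
    exact ((h.nullN (rev_mem hy)).upper hm).trans (by gcongr)
  · refine le_trans ?_ (hlow y hy hyr t ht)
    have : C⁻¹ ≤ c := by
      rw [inv_le_comm₀ hC0 hc]
      rwa [one_div] at k3
    gcongr

end

end SBA
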