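import Mathlib
import Pool.Agent.Lib.MP_709218_gt.Lor2

/-! Right-angled octagons: four mirrors and four cuffs. -/

namespace SBA
open Matrix Set

/-- Right-angled octagon: four mirrors `r j` and four cuffs `c j` (cuff `j` between mirrors `j` and
`j + 1`); `ℓ j` is the length of cuff `j`, i.e. the distance of the mirrors `j`, `j + 1`. -/
structure Octagon where
  r : Fin 4 → V3
  c : Fin 4 → V3
  ℓ : Fin 4 → ℝ
  ℓ_pos : ∀ j, 0 < ℓ j
  r_unit : ∀ j, lor (r j) (r j) = 1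
  c_unit : ∀ j, lor (c j) (c j) = 1
  r_adj : ∀ j, lor (r j) (r (j + 1)) = -Real.cosh (ℓ j)
  r_opp : ∀ j, lor (r j) (r (j + 2)) ≤ -1
  cr0 : ∀ j, lor (c j) (r j) = 0
  cr1 : ∀ j, lor (c j) (r (j + 1)) = 0
  cr2 : ∀ j, lor (c j) (r (j + 2)) ≤ -1
  cr3 : ∀ j, lor (c j) (r (j + 3)) ≤ -1
  cc : ∀ j k, j ≠ k → lor (c j) (c k) ≤ -1
  r_pos : ∀ j, 0 < lor e2 (r j)
  c_pos : ∀ j, 0 < lor e2 (c j)
  noNull : ∀ x : V3, lor x x = 0 → 0 < x 2 → (∀ j, 0 ≤ lor x (r j)) → (∀ j, 0 ≤ lor x (c j)) → False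
  /-- the first three mirror normals span -/
  span : ∀ n : V3, ∃ p q s : ℝ, n = p • r 0 + q • r 1 + s • r 2

/-- the core of the polygon -/
def Octagon.core (O : Octagon) : Set V3 :=
  {x | x ∈ Hyp ∧ (∀ j, 0 ≤ lor x (O.r j)) ∧ ∀ j, 0 ≤ lor x (O.c j)}

/-- foot on mirror `j` of the common perpendicular of the mirrors `j`, `j + 1` -/
noncomputable def Octagon.F (O : Octagon) (j : Fin 4) : V3 :=
  -((Real.sinh (O.ℓ j))⁻¹ • (O.r (j + 1) + Real.cosh (O.ℓ j) • O.r j))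

/-- arclength parametrisation of cuff `j`, starting at mirror `j` -/
noncomputable def Octagon.γ (O : Octagon) (j : Fin 4) (s : ℝ) : V3 :=
  Real.cosh s • O.F j + Real.sinh s • O.r j

/-! ### bounded polygons -/

/-- Half planes without a common ideal point have bounded intersection. -/
theorem bdd_of_noNull {ι : Type} (v : ι → V3)
    (h : ∀ x : V3, lor x x = 0 → 0 < x 2 → (∀ i, 0 ≤ lor x (v i)) → False) :
    ∃ ρ : ℝ, ∀ x ∈ Hyp, (∀ i, 0 ≤ lor x (v i)) → x 2 ≤ ρ := by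
  classical
  set K : Set V3 := {y | y 2 = 1 ∧ lor y y ≤ 0 ∧ ∀ i, 0 ≤ lor y (v i)} with hK
  have hKc : IsCompact K := by
    apply Metric.isCompact_of_isClosed_isBounded
    · have e : K = {y : V3 | y 2 = 1} ∩ ({y : V3 | lor y y ≤ 0} ∩ ⋂ i, {y : V3 | 0 ≤ lor y (v i)}) := by
        ext y
        simp [hK]
      rw [e]
      refine (isClosed_eq (continuous_apply 2) continuous_const).inter
        ((isClosed_le (continuous_lor continuous_id continuous_id) continuous_const).inter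
          (isClosed_iInter fun i => isClosed_le continuous_const
            (continuous_lor continuous_id continuous_const)))
    · rw [Metric.isBounded_iff_subset_closedBall 0]
      refine ⟨1, fun y hy => ?_⟩
      obtain ⟨h2, h1, -⟩ := hy
      rw [mem_closedBall_zero_iff, pi_norm_le_iff_of_nonneg zero_le_one]
      unfold lor at h1
      rw [h2] at h1
      intro i
      rw [Real.norm_eq_abs]
      fin_cases i
      · show |y 0| ≤ 1
        exact abs_le_one_iff_mul_self_le_one.2 (by nlinarith [mul_self_nonneg (y 1)])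
      · show |y 1| ≤ 1
        exact abs_le_one_iff_mul_self_le_one.2 (by nlinarith [mul_self_nonneg (y 0)])
      · show |y 2| ≤ 1
        rw [h2]; simp
  rcases K.eq_empty_or_nonempty with hE | hN
  · refine ⟨0, fun x hx hi => ?_⟩
    exfalso
    have hx2 := hx.2
    have : (x 2)⁻¹ • x ∈ K := by
      refine ⟨?_, ?_, fun i => ?_⟩
      · simp [hx2.ne']
      · rw [lor_smul_left, lor_smul_right, hx.1]
        have : 0 < (x 2)⁻¹ := by positivity
        nlinarith [mul_pos this this]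
      · rw [lor_smul_left]
        exact mul_nonneg (by positivity) (hi i)
    rw [hE] at this
    exact this
  · obtain ⟨y0, hy0, hmin⟩ := hKc.exists_isMinOn hN
      ((continuous_lor continuous_id continuous_id).neg.continuousOn :
        ContinuousOn (fun y : V3 => -lor y y) K)
    set ε := -lor y0 y0 with hε
    have hεpos : 0 < ε := by
      rcases hy0.2.1.lt_or_eq with h1 | h1
      · rw [hε]; linarith
      · exact (h y0 h1 (by rw [hy0.1]; norm_num) hy0.2.2).elim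
    refine ⟨1 / ε, fun x hx hi => ?_⟩
    have hx2 := hx.2
    have hx1 := one_le_x2 hx
    have hxK : (x 2)⁻¹ • x ∈ K := by
      refine ⟨?_, ?_, fun i => ?_⟩
      · simp [hx2.ne']
      · rw [lor_smul_left, lor_smul_right, hx.1]
        have : 0 < (x 2)⁻¹ := by positivity
        nlinarith [mul_pos this this]
      · rw [lor_smul_left]
        exact mul_nonneg (by positivity) (hi i)
    have h3 : ε ≤ -lor ((x 2)⁻¹ • x) ((x 2)⁻¹ • x) := hmin hxK
    rw [lor_smul_left, lor_smul_right, hx.1] at h3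
    rw [le_div_iff₀ hεpos]
    have h4 : x 2 * ε ≤ x 2 * -((x 2)⁻¹ * ((x 2)⁻¹ * -1)) := by gcongr
    have h5 : x 2 * -((x 2)⁻¹ * ((x 2)⁻¹ * -1)) = (x 2)⁻¹ := by field_simp
    have h6 : (x 2)⁻¹ ≤ 1 := inv_le_one_of_one_le₀ hx1
    linarith

/-- bounded in the hyperbolic distance -/
theorem hd_bdd_of_noNull {ι : Type} (v : ι → V3)
    (h : ∀ x : V3, lor x x = 0 → 0 < x 2 → (∀ i, 0 ≤ lor x (v i)) → False) :
    ∃ ρ : ℝ, ∀ x ∈ Hyp, (∀ i, 0 ≤ lor x (v i)) → hd e2 x ≤ ρ := by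
  obtain ⟨ρ, hρ⟩ := bdd_of_noNull v h
  refine ⟨Real.arcosh (max ρ 1), fun x hx hi => ?_⟩
  rw [hd_le_iff e2_mem hx (Real.arcosh_nonneg (le_max_right _ _)),
    Real.cosh_arcosh (le_max_right _ _), lor_e2]
  have := hρ x hx hi
  simpa using Or.inl this

theorem Octagon.core_bdd (O : Octagon) : ∃ ρ : ℝ, ∀ x ∈ O.core, hd e2 x ≤ ρ := by
  obtain ⟨ρ, hρ⟩ := hd_bdd_of_noNull (ι := Fin 4 ⊕ Fin 4) (Sum.elim O.r O.c) (by
    intro x h0 h1 h2
    exact O.noNull x h0 h1 (fun j => h2 (Sum.inl j)) (fun j => h2 (Sum.inr j)))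
  refine ⟨ρ, fun x hx => hρ x hx.1 ?_⟩
  rintro (j | j)
  · exact hx.2.1 j
  · exact hx.2.2 j

/-! ### the non-crossing lemma -/

/-- two lines with a common point and a point of the first off the second -/
theorem abs_lor_lt_of_meet {z n n' a : V3} (hz : z ∈ Hyp) (hn : lor n n = 1) (hn' : lor n' n' = 1)
    (h1 : lor z n = 0) (h2 : lor z n' = 0) (h3 : lor a n = 0) (h4 : lor a n' ≠ 0) :
    |lor n n'| < 1 := by
  set c := lor n n' with hc
  set w := n' - c • n with hw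
  have hww : lor w w = 1 - c ^ 2 := by
    simp only [hw, lor_sub_left, lor_sub_right, lor_smul_left, lor_smul_right, hn, hn',
      lor_comm n' n, ← hc]
    ring
  have hzw : lor z w = 0 := by
    simp only [hw, lor_sub_right, lor_smul_right, h1, h2]; ring
  have hpos : 0 < lor w w := by
    by_contra hcon
    push Not at hcon
    have hw0 : w = 0 := by
      by_contra hne
      rcases le_total 0 (w 2) with h5 | h5
      · have := lor_hyp_fut_neg hz (y := w) ⟨hcon, h5⟩ (fut_pos_of_ne ⟨hcon, h5⟩ hne)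
        linarith
      · have hF : -w ∈ Fut := by
          refine ⟨?_, by rw [Pi.neg_apply]; linarith⟩
          rw [lor_neg_left, lor_neg_right, neg_neg]; exact hcon
        have := lor_hyp_fut_neg hz hF (fut_pos_of_ne hF (neg_ne_zero.2 hne))
        rw [lor_neg_right] at this
        linarith
    apply h4
    have : n' = c • n := by
      have := hw ▸ hw0
      exact sub_eq_zero.1 this
    rw [this, lor_smul_right, h3, mul_zero]
  rw [hww] at hpos
  rw [abs_lt]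
  constructor <;> nlinarith

/-- strictly opposite sides: the lines cross -/
theorem abs_lor_lt_of_sides {a b n n' : V3} (ha : a ∈ Hyp) (hb : b ∈ Hyp) (hn : lor n n = 1)
    (hn' : lor n' n' = 1) (h1 : lor a n = 0) (h2 : lor b n = 0) (h : lor a n' * lor b n' < 0) :
    |lor n n'| < 1 := by
  have ha0 : lor a n' ≠ 0 := by
    intro h0; rw [h0] at h; simp at h
  rcases lt_or_gt_of_ne ha0 with h3 | h3
  · have h4 : 0 ≤ lor b n' := by nlinarith
    obtain ⟨z, hz, hz0⟩ := exists_btw_zero hb ha h4 h3.le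
    obtain ⟨hzH, s, t, -, -, e⟩ := hz
    refine abs_lor_lt_of_meet hzH hn hn' ?_ hz0 h1 ha0
    rw [e, lor_add_left, lor_smul_left, lor_smul_left, h1, h2]; ring
  · have h4 : lor b n' ≤ 0 := by nlinarith
    obtain ⟨z, hz, hz0⟩ := exists_btw_zero ha hb h3.le h4
    obtain ⟨hzH, s, t, -, -, e⟩ := hz
    refine abs_lor_lt_of_meet hzH hn hn' ?_ hz0 h1 ha0
    rw [e, lor_add_left, lor_smul_left, lor_smul_left, h1, h2]; ring

theorem nc_aux {A B a1 b1 s g' p q b g p0 q0 s0 : ℝ} (hA : 0 < A) (hB : 0 < B) (ha1 : 0 < a1)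
    (hb1 : 0 < b1) (hs : 0 < s) (hg' : 0 < g') (hp : 0 < p) (hq : 0 < q) (hb : 0 < b) (hg : 0 < g)
    (e1 : p0 * a1 + q0 * b1 = 0) (e2 : p0 * (2 * s * A) + q0 * (-s) + s0 * (g' + 2 * s * B) = 0)
    (hne : ¬ (p0 = 0 ∧ q0 = 0 ∧ s0 = 0)) :
    (q0 * b + s0 * g) * (p0 * (p + 2 * q * A) + q0 * (-q) + s0 * (2 * q * B)) < 0 := by
  have hq0 : q0 ≠ 0 := by
    intro h0
    rw [h0] at e1 e2
    have : p0 = 0 := by
      have : p0 * a1 = 0 := by linarith
      rcases mul_eq_zero.1 this with h | h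
      · exact h
      · exact absurd h ha1.ne'
    rw [this] at e2
    have h2 : s0 * (g' + 2 * s * B) = 0 := by linarith
    have h3 : s0 = 0 := by
      rcases mul_eq_zero.1 h2 with h | h
      · exact h
      · exact absurd h (by positivity)
    exact hne ⟨this, h0, h3⟩
  -- normalise by `q0`
  set P := -(p0 / q0) with hP
  set S := s0 / q0 with hS
  have hp0 : p0 = -(P * q0) := by rw [hP]; field_simp
  have hs0 : s0 = S * q0 := by rw [hS]; field_simp
  have f1 : P * a1 = b1 := by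
    rw [hp0] at e1
    have : q0 * (b1 - P * a1) = 0 := by linear_combination e1
    rcases mul_eq_zero.1 this with h | h
    · exact absurd h hq0
    · linarith
  have f2 : S * (g' + 2 * s * B) = s + P * (2 * s * A) := by
    rw [hp0, hs0] at e2
    have : q0 * (S * (g' + 2 * s * B) - (s + P * (2 * s * A))) = 0 := by linear_combination e2
    rcases mul_eq_zero.1 this with h | h
    · exact absurd h hq0
    · linarith
  have hPpos : 0 < P := by
    by_contra hcon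
    push Not at hcon
    nlinarith
  have hSpos : 0 < S := by
    by_contra hcon
    push Not at hcon
    have h1 : S * (g' + 2 * s * B) ≤ 0 := mul_nonpos_of_nonpos_of_nonneg hcon (by positivity)
    have h2 : 0 < s + P * (2 * s * A) := by positivity
    linarith
  have g1 : 0 < b + S * g := by positivity
  have g2 : -(P * (p + 2 * q * A)) - q + S * (2 * q * B) < 0 := by
    -- `S * 2 s B < s (1 + 2 A P)`
    have h1 : S * (2 * B) < 1 + 2 * A * P := by
      have : s * (S * (2 * B)) < s * (1 + 2 * A * P) := by nlinarith [mul_pos hSpos hg']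
      exact lt_of_mul_lt_mul_left this hs.le
    have h2 : q * (S * (2 * B)) < q * (1 + 2 * A * P) := by gcongr
    nlinarith [mul_pos hPpos hp]
  have : (q0 * b + s0 * g) * (p0 * (p + 2 * q * A) + q0 * (-q) + s0 * (2 * q * B)) =
      q0 ^ 2 * ((b + S * g) * (-(P * (p + 2 * q * A)) - q + S * (2 * q * B))) := by
    rw [hp0, hs0]; ring
  rw [this]
  exact mul_neg_of_pos_of_neg (by positivity) (mul_neg_of_pos_of_neg g1 g2)

/-- non-crossing lemma -/
theorem Octagon.nc (O : Octagon) {a b a' b' n n' : V3} (ha : a ∈ Hyp) (hb : b ∈ Hyp) (ha' : a' ∈ Hyp)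
    (hb' : b' ∈ Hyp) (ha0 : lor a (O.r 0) = 0) (hb0 : lor b (O.r 2) = 0)
    (ha0' : lor a' (O.r 2) = 0) (hb0' : lor b' (O.r 0) = 0)
    (hn : lor n n = 1) (hn' : lor n' n' = 1) (h1 : lor a n = 0) (h2 : lor (refl (O.r 1) b) n = 0)
    (h3 : lor a' n' = 0) (h4 : lor (refl (O.r 1) b') n' = 0) : |lor n n'| < 1 := by
  have r01 : lor (O.r 0) (O.r 1) = -Real.cosh (O.ℓ 0) := O.r_adj 0
  have r12 : lor (O.r 1) (O.r 2) = -Real.cosh (O.ℓ 1) := O.r_adj 1
  have r02 : lor (O.r 0) (O.r 2) ≤ -1 := O.r_opp 0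
  have c0 : 1 ≤ Real.cosh (O.ℓ 0) := Real.one_le_cosh _
  have c1 : 1 ≤ Real.cosh (O.ℓ 1) := Real.one_le_cosh _
  have u0 := O.r_unit 0
  have u1 := O.r_unit 1
  have u2 := O.r_unit 2
  have p0 := O.r_pos 0
  have p1 := O.r_pos 1
  have p2 := O.r_pos 2
  have l01 : lor (O.r 0) (O.r 1) ≤ -1 := by rw [r01]; linarith
  have l21 : lor (O.r 2) (O.r 1) ≤ -1 := by rw [lor_comm, r12]; linarith
  have l20 : lor (O.r 2) (O.r 0) ≤ -1 := by rw [lor_comm]; exact r02
  -- positions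
  have a_b : 0 < lor a (O.r 1) := sep_pos e2_mem ha u0 u1 l01 p0 p1 ha0.le
  have a_g : 0 < lor a (O.r 2) := sep_pos e2_mem ha u0 u2 r02 p0 p2 ha0.le
  have b_p : 0 < lor b (O.r 0) := sep_pos e2_mem hb u2 u0 l20 p2 p0 hb0.le
  have b_q : 0 < lor b (O.r 1) := sep_pos e2_mem hb u2 u1 l21 p2 p1 hb0.le
  have a'_a : 0 < lor a' (O.r 0) := sep_pos e2_mem ha' u2 u0 l20 p2 p0 ha0'.le
  have a'_b : 0 < lor a' (O.r 1) := sep_pos e2_mem ha' u2 u1 l21 p2 p1 ha0'.le
  have b'_s : 0 < lor b' (O.r 1) := sep_pos e2_mem hb' u0 u1 l01 p0 p1 hb0'.le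
  have b'_g : 0 < lor b' (O.r 2) := sep_pos e2_mem hb' u0 u2 r02 p0 p2 hb0'.le
  obtain ⟨x0, y0, z0, e⟩ := O.span n'
  have r10 : lor (O.r 1) (O.r 0) = -Real.cosh (O.ℓ 0) := by rw [lor_comm, r01]
  have hne : ¬ (x0 = 0 ∧ y0 = 0 ∧ z0 = 0) := by
    rintro ⟨rfl, rfl, rfl⟩
    rw [e] at hn'
    simp at hn'
  have e1 : x0 * lor a' (O.r 0) + y0 * lor a' (O.r 1) = 0 := by
    rw [e] at h3
    simp only [lor_add_right, lor_smul_right, ha0'] at h3
    linarith
  have e2' : x0 * (2 * lor b' (O.r 1) * Real.cosh (O.ℓ 0)) + y0 * (-lor b' (O.r 1)) +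
      z0 * (lor b' (O.r 2) + 2 * lor b' (O.r 1) * Real.cosh (O.ℓ 1)) = 0 := by
    rw [e] at h4
    simp only [refl_apply, lor_add_right, lor_smul_right, lor_sub_left, lor_smul_left, hb0', r10,
      u1, r12] at h4
    linarith
  have hRb : refl (O.r 1) b ∈ Hyp := (refl_isIso u1).hyp b hb
  refine abs_lor_lt_of_sides ha hRb hn hn' h1 h2 ?_
  have ea : lor a n' = y0 * lor a (O.r 1) + z0 * lor a (O.r 2) := by
    rw [e]
    simp only [lor_add_right, lor_smul_right, ha0]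
    ring
  have eb : lor (refl (O.r 1) b) n' = x0 * (lor b (O.r 0) + 2 * lor b (O.r 1) * Real.cosh (O.ℓ 0)) +
      y0 * (-lor b (O.r 1)) + z0 * (2 * lor b (O.r 1) * Real.cosh (O.ℓ 1)) := by
    rw [e]
    simp only [refl_apply, lor_add_right, lor_smul_right, lor_sub_left, lor_smul_left, hb0, r10,
      u1, r12]
    ring
  rw [ea, eb]
  exact nc_aux (by linarith) (by linarith) a'_a a'_b b'_s b'_g b_p b_q a_b a_g e1 e2' hne

/-! ### the explicit octagon -/

/-- polynomial relations between the data of the octagon -/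
theorem noNull_aux {s T sa ca z u y : ℝ} (hs : 0 < s) (hT : 0 < T) (hsa : 0 < sa) (hca : 0 < ca)
    (hTs : T ^ 2 = 1 + s ^ 2) (hcs : ca ^ 2 = 1 + sa ^ 2)
    (hpos : 0 < s ^ 2 * ca ^ 2 + T ^ 2 * sa ^ 2 - T ^ 2 * ca ^ 2)
    (hz : 0 < z) (hu : 0 ≤ u) (hy : 0 ≤ y) (hn : u ^ 2 + y ^ 2 = z ^ 2) (h1 : T * u ≤ s * z)
    (h2 : ca * y ≤ sa * z) (h3 : s * ca * u + T * sa * y ≤ T * ca * z) : False := by
  have k1 : 0 ≤ ca * u * (s * z - T * u) := mul_nonneg (by positivity) (by linarith)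
  have k2 : 0 ≤ T * y * (sa * z - ca * y) := mul_nonneg (by positivity) (by linarith)
  have k3 : 0 ≤ z * (T * ca * z - s * ca * u - T * sa * y) := mul_nonneg hz.le (by linarith)
  have k4 : z * (T * ca * z - s * ca * u - T * sa * y) =
      -(ca * u * (s * z - T * u)) - T * y * (sa * z - ca * y) := by
    linear_combination (-T * ca) * hn
  have k5 : ca * u * (s * z - T * u) = 0 := by linarith
  have k6 : T * y * (sa * z - ca * y) = 0 := by linarith
  have hsT : s < T := by nlinarith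
  have hsc : sa < ca := by nlinarith
  rcases hu.lt_or_eq with hu | hu
  · rcases hy.lt_or_eq with hy | hy
    · have m1 : s * z = T * u := by
        rcases mul_eq_zero.1 k5 with h | h
        · exact absurd h (by positivity)
        · linarith
      have m2 : sa * z = ca * y := by
        rcases mul_eq_zero.1 k6 with h | h
        · exact absurd h (by positivity)
        · linarith
      have m3 : (s ^ 2 * ca ^ 2 + T ^ 2 * sa ^ 2 - T ^ 2 * ca ^ 2) * z ^ 2 = 0 := by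
        have e1 : (s * z) ^ 2 = (T * u) ^ 2 := by rw [m1]
        have e2 : (sa * z) ^ 2 = (ca * y) ^ 2 := by rw [m2]
        linear_combination ca ^ 2 * e1 + T ^ 2 * e2 + T ^ 2 * ca ^ 2 * hn
      have : 0 < (s ^ 2 * ca ^ 2 + T ^ 2 * sa ^ 2 - T ^ 2 * ca ^ 2) * z ^ 2 := by positivity
      linarith
    · have hzu : z = u := by
        rw [← hy] at hn
        nlinarith
      rw [hzu] at h1 hz
      nlinarith
  · have hzy : z = y := by
      rw [← hu] at hn
      nlinarith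
    rw [hzy] at h2 hz
    nlinarith

/-- the data of the octagon -/
structure OctData where
  (X U s T sa ca sb cb SX SU CX CU : ℝ)
  hX : 0 < X
  hU : 0 < U
  hSX : SX = Real.sinh X
  hSU : SU = Real.sinh U
  hCX : CX = Real.cosh X
  hCU : CU = Real.cosh U
  hs : 0 < s
  hT : 0 < T
  hTs : T ^ 2 = 1 + s ^ 2
  hsa : 0 < sa
  hca : 0 < ca
  hcs : ca ^ 2 = 1 + sa ^ 2
  hsb : 0 < sb
  hcb : 0 < cb
  hcsb : cb ^ 2 = 1 + sb ^ 2
  ea : s * sa = CX
  eb : s * sb = CU

namespace OctData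
variable (D : OctData)

theorem SX_pos : 0 < D.SX := by rw [D.hSX]; exact Real.sinh_pos_iff.2 D.hX
theorem SU_pos : 0 < D.SU := by rw [D.hSU]; exact Real.sinh_pos_iff.2 D.hU
theorem CX_gt : D.SX < D.CX := by
  rw [D.hSX, D.hCX]; exact Real.sinh_lt_cosh D.X
theorem CU_gt : D.SU < D.CU := by
  rw [D.hSU, D.hCU]; exact Real.sinh_lt_cosh D.U
theorem CX_sq : D.CX ^ 2 = D.SX ^ 2 + 1 := by rw [D.hSX, D.hCX, Real.cosh_sq]
theorem CU_sq : D.CU ^ 2 = D.SU ^ 2 + 1 := by rw [D.hSU, D.hCU, Real.cosh_sq]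
theorem CX_one : 1 ≤ D.CX := by rw [D.hCX]; exact Real.one_le_cosh _
theorem CU_one : 1 ≤ D.CU := by rw [D.hCU]; exact Real.one_le_cosh _
theorem T_gt : D.s < D.T := by
  have := D.hTs; have := D.hs; have := D.hT; nlinarith
theorem T_one : 1 < D.T := by
  have := D.hTs; have := D.hs; have := D.hT; nlinarith
theorem ca_gt : D.sa < D.ca := by
  have := D.hcs; have := D.hsa; have := D.hca; nlinarith
theorem ca_one : 1 < D.ca := by
  have := D.hcs; have := D.hsa; have := D.hca; nlinarith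
theorem cb_gt : D.sb < D.cb := by
  have := D.hcsb; have := D.hsb; have := D.hcb; nlinarith
theorem cb_one : 1 < D.cb := by
  have := D.hcsb; have := D.hsb; have := D.hcb; nlinarith
theorem keyX : D.s ^ 2 * D.ca ^ 2 + D.T ^ 2 * D.sa ^ 2 - D.T ^ 2 * D.ca ^ 2 = D.SX ^ 2 := by
  have h1 := D.hTs; have h2 := D.hcs; have h3 := D.ea; have h4 := D.CX_sq
  rw [h1, h2]
  rw [← h3] at h4
  linear_combination h4
theorem keyU : D.s ^ 2 * D.cb ^ 2 + D.T ^ 2 * D.sb ^ 2 - D.T ^ 2 * D.cb ^ 2 = D.SU ^ 2 := by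
  have h1 := D.hTs; have h2 := D.hcsb; have h3 := D.eb; have h4 := D.CU_sq
  rw [h1, h2]
  rw [← h3] at h4
  linear_combination h4

/-- mirrors -/
def r : Fin 4 → V3 :=
  ![![D.T, 0, -D.s], ![0, D.ca, -D.sa], ![-D.T, 0, -D.s], ![0, -D.cb, -D.sb]]

/-- cuffs -/
noncomputable def c : Fin 4 → V3 :=
  ![D.SX⁻¹ • ![D.s * D.ca, D.T * D.sa, -(D.T * D.ca)],
    D.SX⁻¹ • ![-(D.s * D.ca), D.T * D.sa, -(D.T * D.ca)],
    D.SU⁻¹ • ![-(D.s * D.cb), -(D.T * D.sb), -(D.T * D.cb)],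
    D.SU⁻¹ • ![D.s * D.cb, -(D.T * D.sb), -(D.T * D.cb)]]

theorem lor_vec (a b c x y z : ℝ) : lor ![a, b, c] ![x, y, z] = a * x + b * y - c * z := rfl

theorem lor_vecr (x : V3) (a b c : ℝ) : lor x ![a, b, c] = x 0 * a + x 1 * b - x 2 * c := rfl

/-- from a numerator bound to the bound for a normalised product -/
theorem le_neg_one_of {a S : ℝ} (hS : 0 < S) (h : S ≤ a) : S⁻¹ * -a ≤ -1 := by
  have h1 : S⁻¹ * S ≤ S⁻¹ * a := by gcongr
  rw [inv_mul_cancel₀ hS.ne'] at h1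
  linarith

theorem le_neg_one_of2 {a S S' : ℝ} (hS : 0 < S) (hS' : 0 < S') (h : S * S' ≤ a) :
    S⁻¹ * (S'⁻¹ * -a) ≤ -1 := by
  have := le_neg_one_of (mul_pos hS hS') h
  rw [mul_inv] at this
  linarith [this, mul_assoc S⁻¹ S'⁻¹ (-a)]

theorem cc01 : lor (D.c 0) (D.c 1) ≤ -1 := by
  have h : lor (D.c 0) (D.c 1) = D.SX⁻¹ * (D.SX⁻¹ *
      -(D.s ^ 2 * D.ca ^ 2 - D.T ^ 2 * D.sa ^ 2 + D.T ^ 2 * D.ca ^ 2)) := by
    show lor (_ • _) (_ • _) = _
    rw [lor_smul_left, lor_smul_right, lor_vec]; ring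
  rw [h]
  refine le_neg_one_of2 D.SX_pos D.SX_pos ?_
  have h1 := D.keyX; have h2 := D.hcs; have h3 := D.hT
  nlinarith [sq_nonneg D.T]

theorem cc23 : lor (D.c 2) (D.c 3) ≤ -1 := by
  have h : lor (D.c 2) (D.c 3) = D.SU⁻¹ * (D.SU⁻¹ *
      -(D.s ^ 2 * D.cb ^ 2 - D.T ^ 2 * D.sb ^ 2 + D.T ^ 2 * D.cb ^ 2)) := by
    show lor (_ • _) (_ • _) = _
    rw [lor_smul_left, lor_smul_right, lor_vec]; ring
  rw [h]
  refine le_neg_one_of2 D.SU_pos D.SU_pos ?_
  have h1 := D.keyU; have h2 := D.hcsb; have h3 := D.hT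
  nlinarith [sq_nonneg D.T]

theorem SXU_le : D.SX * D.SU ≤ D.s ^ 2 * (D.sa * D.sb) := by
  have h1 := D.ea; have h2 := D.eb; have h3 := D.CX_gt; have h4 := D.CU_gt
  have h5 := D.SX_pos; have h6 := D.SU_pos
  have h7 := D.CX_one
  calc D.SX * D.SU ≤ D.CX * D.CU := by gcongr
    _ = D.s ^ 2 * (D.sa * D.sb) := by rw [← h1, ← h2]; ring

/-- the products of cuffs on opposite sides -/
theorem far1 : D.SX * D.SU ≤
    D.s ^ 2 * (D.ca * D.cb) + D.T ^ 2 * (D.sa * D.sb) + D.T ^ 2 * (D.ca * D.cb) := by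
  have h := D.SXU_le
  have h1 := D.T_gt; have h2 := D.hs; have h3 := D.hsa; have h4 := D.hsb; have h5 := D.hca
  have h6 := D.hcb; have h7 := D.hT
  have h8 : D.s ^ 2 * (D.sa * D.sb) ≤ D.T ^ 2 * (D.sa * D.sb) := by gcongr
  have h9 : 0 ≤ D.s ^ 2 * (D.ca * D.cb) := by positivity
  have h10 : 0 ≤ D.T ^ 2 * (D.ca * D.cb) := by positivity
  linarith

theorem far2 : D.SX * D.SU ≤
    -(D.s ^ 2 * (D.ca * D.cb)) + D.T ^ 2 * (D.sa * D.sb) + D.T ^ 2 * (D.ca * D.cb) := by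
  have h := D.SXU_le
  have h1 := D.T_gt; have h2 := D.hs; have h3 := D.hsa; have h4 := D.hsb; have h5 := D.hca
  have h6 := D.hcb; have h7 := D.hT
  have h8 : D.s ^ 2 * (D.sa * D.sb) ≤ D.T ^ 2 * (D.sa * D.sb) := by gcongr
  have h9 : D.s ^ 2 * (D.ca * D.cb) ≤ D.T ^ 2 * (D.ca * D.cb) := by gcongr
  linarith

theorem cc02 : lor (D.c 0) (D.c 2) ≤ -1 := by
  have h : lor (D.c 0) (D.c 2) = D.SX⁻¹ * (D.SU⁻¹ *
      -(D.s ^ 2 * (D.ca * D.cb) + D.T ^ 2 * (D.sa * D.sb) + D.T ^ 2 * (D.ca * D.cb))) := by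
    show lor (_ • _) (_ • _) = _
    rw [lor_smul_left, lor_smul_right, lor_vec]; ring
  rw [h]
  exact le_neg_one_of2 D.SX_pos D.SU_pos D.far1

theorem cc13 : lor (D.c 1) (D.c 3) ≤ -1 := by
  have h : lor (D.c 1) (D.c 3) = D.SX⁻¹ * (D.SU⁻¹ *
      -(D.s ^ 2 * (D.ca * D.cb) + D.T ^ 2 * (D.sa * D.sb) + D.T ^ 2 * (D.ca * D.cb))) := by
    show lor (_ • _) (_ • _) = _
    rw [lor_smul_left, lor_smul_right, lor_vec]; ring
  rw [h]
  exact le_neg_one_of2 D.SX_pos D.SU_pos D.far1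

theorem cc03 : lor (D.c 0) (D.c 3) ≤ -1 := by
  have h : lor (D.c 0) (D.c 3) = D.SX⁻¹ * (D.SU⁻¹ *
      -(-(D.s ^ 2 * (D.ca * D.cb)) + D.T ^ 2 * (D.sa * D.sb) + D.T ^ 2 * (D.ca * D.cb))) := by
    show lor (_ • _) (_ • _) = _
    rw [lor_smul_left, lor_smul_right, lor_vec]; ring
  rw [h]
  exact le_neg_one_of2 D.SX_pos D.SU_pos D.far2

theorem cc12 : lor (D.c 1) (D.c 2) ≤ -1 := by
  have h : lor (D.c 1) (D.c 2) = D.SX⁻¹ * (D.SU⁻¹ *
      -(-(D.s ^ 2 * (D.ca * D.cb)) + D.T ^ 2 * (D.sa * D.sb) + D.T ^ 2 * (D.ca * D.cb))) := by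
    show lor (_ • _) (_ • _) = _
    rw [lor_smul_left, lor_smul_right, lor_vec]; ring
  rw [h]
  exact le_neg_one_of2 D.SX_pos D.SU_pos D.far2

theorem cc (j k : Fin 4) (hjk : j ≠ k) : lor (D.c j) (D.c k) ≤ -1 := by
  fin_cases j <;> fin_cases k
  · exact absurd rfl hjk
  · exact D.cc01
  · exact D.cc02
  · exact D.cc03
  · rw [lor_comm]; exact D.cc01
  · exact absurd rfl hjk
  · exact D.cc12
  · exact D.cc13
  · rw [lor_comm]; exact D.cc02
  · rw [lor_comm]; exact D.cc12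
  · exact absurd rfl hjk
  · exact D.cc23
  · rw [lor_comm]; exact D.cc03
  · rw [lor_comm]; exact D.cc13
  · rw [lor_comm]; exact D.cc23
  · exact absurd rfl hjk

theorem r_unit (j : Fin 4) : lor (D.r j) (D.r j) = 1 := by
  have h1 := D.hTs; have h2 := D.hcs; have h3 := D.hcsb
  fin_cases j
  · show lor ![_, _, _] ![_, _, _] = _
    rw [lor_vec]; linear_combination h1
  · show lor ![_, _, _] ![_, _, _] = _
    rw [lor_vec]; linear_combination h2
  · show lor ![_, _, _] ![_, _, _] = _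
    rw [lor_vec]; linear_combination h1
  · show lor ![_, _, _] ![_, _, _] = _
    rw [lor_vec]; linear_combination h3

theorem unit_of {N S : ℝ} (hS : 0 < S) (h : N = S ^ 2) : S⁻¹ * (S⁻¹ * N) = 1 := by
  rw [h]; field_simp

theorem c_unit (j : Fin 4) : lor (D.c j) (D.c j) = 1 := by
  have h1 := D.keyX; have h2 := D.keyU
  fin_cases j
  · show lor (_ • ![_, _, _]) (_ • ![_, _, _]) = _
    rw [lor_smul_left, lor_smul_right, lor_vec]
    exact unit_of D.SX_pos (by linear_combination h1)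
  · show lor (_ • ![_, _, _]) (_ • ![_, _, _]) = _
    rw [lor_smul_left, lor_smul_right, lor_vec]
    exact unit_of D.SX_pos (by linear_combination h1)
  · show lor (_ • ![_, _, _]) (_ • ![_, _, _]) = _
    rw [lor_smul_left, lor_smul_right, lor_vec]
    exact unit_of D.SU_pos (by linear_combination h2)
  · show lor (_ • ![_, _, _]) (_ • ![_, _, _]) = _
    rw [lor_smul_left, lor_smul_right, lor_vec]
    exact unit_of D.SU_pos (by linear_combination h2)

theorem r_adj (j : Fin 4) : lor (D.r j) (D.r (j + 1)) =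
    -Real.cosh ((![D.X, D.X, D.U, D.U] : Fin 4 → ℝ) j) := by
  have h1 := D.ea; have h2 := D.eb
  rw [D.hCX] at h1
  rw [D.hCU] at h2
  fin_cases j
  · show lor ![_, _, _] ![_, _, _] = -Real.cosh D.X
    rw [lor_vec]; linear_combination (-1) * h1
  · show lor ![_, _, _] ![_, _, _] = -Real.cosh D.X
    rw [lor_vec]; linear_combination (-1) * h1
  · show lor ![_, _, _] ![_, _, _] = -Real.cosh D.U
    rw [lor_vec]; linear_combination (-1) * h2
  · show lor ![_, _, _] ![_, _, _] = -Real.cosh D.U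
    rw [lor_vec]; linear_combination (-1) * h2

theorem r02 : lor (D.r 0) (D.r 2) = -(T D ^ 2 + s D ^ 2) := by
  show lor ![_, _, _] ![_, _, _] = _
  rw [lor_vec]; ring

theorem r13 : lor (D.r 1) (D.r 3) = -(D.sa * D.sb + D.ca * D.cb) := by
  show lor ![_, _, _] ![_, _, _] = _
  rw [lor_vec]; ring

theorem r02_le : lor (D.r 0) (D.r 2) ≤ -1 := by
  rw [D.r02]
  have := D.T_one; have := D.hs
  nlinarith [sq_nonneg D.s]

theorem r13_le : lor (D.r 1) (D.r 3) ≤ -1 := by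
  rw [D.r13]
  have h1 := D.ca_one; have h2 := D.cb_one; have h3 := D.hsa; have h4 := D.hsb
  nlinarith [mul_pos h3 h4]

theorem r_opp (j : Fin 4) : lor (D.r j) (D.r (j + 2)) ≤ -1 := by
  fin_cases j
  · exact D.r02_le
  · exact D.r13_le
  · rw [lor_comm]; exact D.r02_le
  · rw [lor_comm]; exact D.r13_le

theorem cr0 (j : Fin 4) : lor (D.c j) (D.r j) = 0 := by
  fin_cases j <;>
  · show lor (_ • ![_, _, _]) ![_, _, _] = _
    rw [lor_smul_left, lor_vec]; ring

theorem cr1 (j : Fin 4) : lor (D.c j) (D.r (j + 1)) = 0 := by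
  fin_cases j <;>
  · show lor (_ • ![_, _, _]) ![_, _, _] = _
    rw [lor_smul_left, lor_vec]; ring

theorem far3 : D.SX ≤ 2 * (D.s * D.T * D.ca) := by
  have h1 := D.ea; have h2 := D.ca_gt; have h3 := D.T_one; have h4 := D.CX_gt; have h5 := D.hs
  have h6 := D.hsa
  have h7 : D.CX ≤ D.s * D.ca := by rw [← h1]; gcongr
  have h8 : D.s * D.ca ≤ D.s * D.ca * D.T := le_mul_of_one_le_right (by
    have := D.hca; positivity) h3.le
  have h9 := D.SX_pos
  nlinarith

theorem far3' : D.SU ≤ 2 * (D.s * D.T * D.cb) := by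
  have h1 := D.eb; have h2 := D.cb_gt; have h3 := D.T_one; have h4 := D.CU_gt; have h5 := D.hs
  have h6 := D.hsb
  have h7 : D.CU ≤ D.s * D.cb := by rw [← h1]; gcongr
  have h8 : D.s * D.cb ≤ D.s * D.cb * D.T := le_mul_of_one_le_right (by
    have := D.hcb; positivity) h3.le
  have h9 := D.SU_pos
  nlinarith

theorem far4 : D.SX ≤ D.T * (D.sa * D.cb + D.ca * D.sb) := by
  have h1 := D.ea; have h2 := D.T_gt; have h3 := D.cb_one; have h4 := D.CX_gt; have h5 := D.hs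
  have h6 := D.hsa; have h7 := D.hT; have h8 := D.hca; have h9 := D.hsb
  have k1 : D.s * D.sa ≤ D.T * D.sa := by gcongr
  have k2 : D.T * D.sa ≤ D.T * D.sa * D.cb := le_mul_of_one_le_right (by positivity) h3.le
  have k3 : 0 ≤ D.T * (D.ca * D.sb) := by positivity
  nlinarith

theorem far4' : D.SU ≤ D.T * (D.sa * D.cb + D.ca * D.sb) := by
  have h1 := D.eb; have h2 := D.T_gt; have h3 := D.ca_one; have h4 := D.CU_gt; have h5 := D.hs
  have h6 := D.hsa; have h7 := D.hT; have h8 := D.hcb; have h9 := D.hsb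
  have k1 : D.s * D.sb ≤ D.T * D.sb := by gcongr
  have k2 : D.T * D.sb ≤ D.T * D.sb * D.ca := le_mul_of_one_le_right (by positivity) h3.le
  have k3 : 0 ≤ D.T * (D.sa * D.cb) := by positivity
  nlinarith

theorem cr2 (j : Fin 4) : lor (D.c j) (D.r (j + 2)) ≤ -1 := by
  fin_cases j
  · show lor (D.SX⁻¹ • ![_, _, _]) ![_, _, _] ≤ _
    rw [lor_smul_left, lor_vec]
    exact le_trans (le_of_eq (by ring)) (le_neg_one_of D.SX_pos D.far3)
  · show lor (D.SX⁻¹ • ![_, _, _]) ![_, _, _] ≤ _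
    rw [lor_smul_left, lor_vec]
    exact le_trans (le_of_eq (by ring)) (le_neg_one_of D.SX_pos D.far4)
  · show lor (D.SU⁻¹ • ![_, _, _]) ![_, _, _] ≤ _
    rw [lor_smul_left, lor_vec]
    exact le_trans (le_of_eq (by ring)) (le_neg_one_of D.SU_pos D.far3')
  · show lor (D.SU⁻¹ • ![_, _, _]) ![_, _, _] ≤ _
    rw [lor_smul_left, lor_vec]
    exact le_trans (le_of_eq (by ring)) (le_neg_one_of D.SU_pos D.far4')

theorem cr3 (j : Fin 4) : lor (D.c j) (D.r (j + 3)) ≤ -1 := by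
  fin_cases j
  · show lor (D.SX⁻¹ • ![_, _, _]) ![_, _, _] ≤ _
    rw [lor_smul_left, lor_vec]
    exact le_trans (le_of_eq (by ring)) (le_neg_one_of D.SX_pos D.far4)
  · show lor (D.SX⁻¹ • ![_, _, _]) ![_, _, _] ≤ _
    rw [lor_smul_left, lor_vec]
    exact le_trans (le_of_eq (by ring)) (le_neg_one_of D.SX_pos D.far3)
  · show lor (D.SU⁻¹ • ![_, _, _]) ![_, _, _] ≤ _
    rw [lor_smul_left, lor_vec]
    exact le_trans (le_of_eq (by ring)) (le_neg_one_of D.SU_pos D.far4')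
  · show lor (D.SU⁻¹ • ![_, _, _]) ![_, _, _] ≤ _
    rw [lor_smul_left, lor_vec]
    exact le_trans (le_of_eq (by ring)) (le_neg_one_of D.SU_pos D.far3')

theorem r_pos (j : Fin 4) : 0 < lor e2 (D.r j) := by
  have h1 := D.hs; have h2 := D.hsa; have h3 := D.hsb
  rw [lor_e2]
  fin_cases j
  · show 0 < -(-D.s); linarith
  · show 0 < -(-D.sa); linarith
  · show 0 < -(-D.s); linarith
  · show 0 < -(-D.sb); linarith

theorem c_pos (j : Fin 4) : 0 < lor e2 (D.c j) := by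
  have h1 := D.hT; have h2 := D.hca; have h3 := D.hcb; have h4 := D.SX_pos; have h5 := D.SU_pos
  rw [lor_e2]
  fin_cases j
  · show 0 < -(D.SX⁻¹ * -(D.T * D.ca))
    have : 0 < D.SX⁻¹ * (D.T * D.ca) := by positivity
    linarith
  · show 0 < -(D.SX⁻¹ * -(D.T * D.ca))
    have : 0 < D.SX⁻¹ * (D.T * D.ca) := by positivity
    linarith
  · show 0 < -(D.SU⁻¹ * -(D.T * D.cb))
    have : 0 < D.SU⁻¹ * (D.T * D.cb) := by positivity
    linarith
  · show 0 < -(D.SU⁻¹ * -(D.T * D.cb))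
    have : 0 < D.SU⁻¹ * (D.T * D.cb) := by positivity
    linarith

theorem nonneg_of_inv_mul {S a : ℝ} (hS : 0 < S) (h : 0 ≤ S⁻¹ * a) : 0 ≤ a := by
  by_contra hc
  push Not at hc
  have := mul_neg_of_pos_of_neg (inv_pos.2 hS) hc
  linarith

theorem noNull (x : V3) (h0 : lor x x = 0) (hx : 0 < x 2) (hr : ∀ j, 0 ≤ lor x (D.r j))
    (hc : ∀ j, 0 ≤ lor x (D.c j)) : False := by
  have a0 := hr 0
  have a1 := hr 1
  have a2 := hr 2
  have a3 := hr 3
  have b0 := hc 0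
  have b1 := hc 1
  have b2 := hc 2
  have b3 := hc 3
  have e0 : lor x (D.r 0) = D.T * x 0 + D.s * x 2 := by
    show lor x ![_, _, _] = _
    rw [lor_vecr]; ring
  have e1 : lor x (D.r 1) = D.ca * x 1 + D.sa * x 2 := by
    show lor x ![_, _, _] = _
    rw [lor_vecr]; ring
  have e2' : lor x (D.r 2) = -(D.T * x 0) + D.s * x 2 := by
    show lor x ![_, _, _] = _
    rw [lor_vecr]; ring
  have e3 : lor x (D.r 3) = -(D.cb * x 1) + D.sb * x 2 := by
    show lor x ![_, _, _] = _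
    rw [lor_vecr]; ring
  have f0 : lor x (D.c 0) = D.SX⁻¹ * (D.s * D.ca * x 0 + D.T * D.sa * x 1 + D.T * D.ca * x 2) := by
    show lor x (_ • ![_, _, _]) = _
    rw [lor_smul_right, lor_vecr]; ring
  have f1 : lor x (D.c 1) =
      D.SX⁻¹ * (-(D.s * D.ca * x 0) + D.T * D.sa * x 1 + D.T * D.ca * x 2) := by
    show lor x (_ • ![_, _, _]) = _
    rw [lor_smul_right, lor_vecr]; ring
  have f2 : lor x (D.c 2) =
      D.SU⁻¹ * (-(D.s * D.cb * x 0) - D.T * D.sb * x 1 + D.T * D.cb * x 2) := by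
    show lor x (_ • ![_, _, _]) = _
    rw [lor_smul_right, lor_vecr]; ring
  have f3 : lor x (D.c 3) =
      D.SU⁻¹ * (D.s * D.cb * x 0 - D.T * D.sb * x 1 + D.T * D.cb * x 2) := by
    show lor x (_ • ![_, _, _]) = _
    rw [lor_smul_right, lor_vecr]; ring
  rw [e0] at a0; rw [e1] at a1; rw [e2'] at a2; rw [e3] at a3
  rw [f0] at b0; rw [f1] at b1; rw [f2] at b2; rw [f3] at b3
  have b0 := nonneg_of_inv_mul D.SX_pos b0
  have b1 := nonneg_of_inv_mul D.SX_pos b1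
  have b2 := nonneg_of_inv_mul D.SU_pos b2
  have b3 := nonneg_of_inv_mul D.SU_pos b3
  have hs := D.hs; have hT := D.hT; have hsa := D.hsa; have hsb := D.hsb
  have hca := D.hca; have hcb := D.hcb
  have hSX := D.SX_pos; have hSU := D.SU_pos
  have hx0 : x 0 ^ 2 + x 1 ^ 2 = x 2 ^ 2 := by unfold lor at h0; linarith
  have q1 : D.T * |x 0| ≤ D.s * x 2 := by
    rcases abs_cases (x 0) with ⟨h, -⟩ | ⟨h, -⟩ <;> rw [h] <;> linarith
  rcases le_total (x 1) 0 with h | h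
  · refine noNull_aux (z := x 2) (u := |x 0|) (y := -x 1) hs hT hsa hca D.hTs D.hcs
      (by rw [D.keyX]; positivity) hx (abs_nonneg _) (by linarith)
      (by rw [sq_abs]; linarith) q1 (by linarith) ?_
    rcases abs_cases (x 0) with ⟨h, -⟩ | ⟨h, -⟩ <;> rw [h] <;> linarith
  · refine noNull_aux (z := x 2) (u := |x 0|) (y := x 1) hs hT hsb hcb D.hTs D.hcsb
      (by rw [D.keyU]; positivity) hx (abs_nonneg _) h
      (by rw [sq_abs]; linarith) q1 (by linarith) ?_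
    rcases abs_cases (x 0) with ⟨h, -⟩ | ⟨h, -⟩ <;> rw [h] <;> linarith

theorem span (n : V3) : ∃ p q s : ℝ, n = p • D.r 0 + q • D.r 1 + s • D.r 2 := by
  have hs := D.hs.ne'; have hT := D.hT.ne'; have hca := D.hca.ne'
  refine ⟨(n 0 / D.T - (n 2 + D.sa * (n 1 / D.ca)) / D.s) / 2, n 1 / D.ca,
    (-(n 0 / D.T) - (n 2 + D.sa * (n 1 / D.ca)) / D.s) / 2, ?_⟩
  have ex : n = ![n 0, n 1, n 2] := by funext i; fin_cases i <;> rfl
  show n = _ • ![D.T, 0, -D.s] + _ • ![0, D.ca, -D.sa] + _ • ![-D.T, 0, -D.s]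
  conv_lhs => rw [ex]
  funext i
  fin_cases i
  · simp; field_simp; ring
  · simp; field_simp
  · simp; field_simp; ring

theorem ℓ_pos (j : Fin 4) : 0 < (![D.X, D.X, D.U, D.U] : Fin 4 → ℝ) j := by
  have h1 := D.hX; have h2 := D.hU
  fin_cases j
  · exact h1
  · exact h1
  · exact h2
  · exact h2

/-- the octagon -/
noncomputable def oct : Octagon where
  r := D.r
  c := D.c
  ℓ := ![D.X, D.X, D.U, D.U]
  ℓ_pos := D.ℓ_pos
  r_unit := D.r_unit
  c_unit := D.c_unit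
  r_adj := D.r_adj
  r_opp := D.r_opp
  cr0 := D.cr0
  cr1 := D.cr1
  cr2 := D.cr2
  cr3 := D.cr3
  cc := D.cc
  r_pos := D.r_pos
  c_pos := D.c_pos
  noNull := D.noNull
  span := D.span

end OctData

/-- the data for given lengths -/
noncomputable def octData (X Z U : ℝ) (hX : 0 < X) (hZ : 0 < Z) (hU : 0 < U) : OctData where
  X := X
  U := U
  s := Real.sinh (Z / 2)
  T := Real.cosh (Z / 2)
  sa := Real.cosh X / Real.sinh (Z / 2)
  ca := Real.sqrt (1 + (Real.cosh X / Real.sinh (Z / 2)) ^ 2)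
  sb := Real.cosh U / Real.sinh (Z / 2)
  cb := Real.sqrt (1 + (Real.cosh U / Real.sinh (Z / 2)) ^ 2)
  SX := Real.sinh X
  SU := Real.sinh U
  CX := Real.cosh X
  CU := Real.cosh U
  hX := hX
  hU := hU
  hSX := rfl
  hSU := rfl
  hCX := rfl
  hCU := rfl
  hs := Real.sinh_pos_iff.2 (by linarith)
  hT := Real.cosh_pos _
  hTs := by rw [Real.cosh_sq]; ring
  hsa := div_pos (Real.cosh_pos _) (Real.sinh_pos_iff.2 (by linarith))
  hca := Real.sqrt_pos.2 (by positivity)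
  hcs := Real.sq_sqrt (by positivity)
  hsb := div_pos (Real.cosh_pos _) (Real.sinh_pos_iff.2 (by linarith))
  hcb := Real.sqrt_pos.2 (by positivity)
  hcsb := Real.sq_sqrt (by positivity)
  ea := mul_div_cancel₀ _ (Real.sinh_pos_iff.2 (by linarith)).ne'
  eb := mul_div_cancel₀ _ (Real.sinh_pos_iff.2 (by linarith)).ne'

/-- the explicit octagon with `d(r0,r2) = Z`, cuff lengths `X, X, U, U` -/
theorem exists_oct (X Z U : ℝ) (hX : 0 < X) (hZ : 0 < Z) (hU : 0 < U) :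
    ∃ O : Octagon, O.ℓ = ![X, X, U, U] ∧ lor (O.r 0) (O.r 2) = -Real.cosh Z ∧
      lor (O.r 1) (O.r 3) =
        -((Real.cosh X / Real.sinh (Z / 2)) * (Real.cosh U / Real.sinh (Z / 2)) +
          Real.sqrt (1 + (Real.cosh X / Real.sinh (Z / 2)) ^ 2) *
          Real.sqrt (1 + (Real.cosh U / Real.sinh (Z / 2)) ^ 2)) := by
  refine ⟨(octData X Z U hX hZ hU).oct, rfl, ?_, (octData X Z U hX hZ hU).r13⟩
  have h := (octData X Z U hX hZ hU).r02
  have e : Real.cosh Z = Real.cosh (Z / 2) ^ 2 + Real.sinh (Z / 2) ^ 2 := by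
    rw [← Real.cosh_two_mul]; ring_nf
  rw [e]
  exact h

/-! ### estimates for the two octagons -/

theorem cosh_mul_le {a b : ℝ} (ha : 0 ≤ a) (hb : 0 ≤ b) :
    Real.cosh a * Real.cosh b ≤ Real.cosh (a + b) := by
  rw [Real.cosh_add]
  have := mul_nonneg (Real.sinh_nonneg_iff.2 ha) (Real.sinh_nonneg_iff.2 hb)
  linarith

theorem le_sqrt_one_add {a : ℝ} : a ≤ Real.sqrt (1 + a ^ 2) :=
  Real.le_sqrt_of_sq_le (by linarith)

theorem sqrt_one_add_le {a : ℝ} (ha : 0 ≤ a) : Real.sqrt (1 + a ^ 2) ≤ 1 + a := by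
  rw [Real.sqrt_le_left (by linarith)]
  nlinarith

theorem low_prod {a b c : ℝ} (_ha : 0 ≤ a) (hb : 0 ≤ b) (h : c ≤ 2 * (a * b)) :
    c ≤ a * b + Real.sqrt (1 + a ^ 2) * Real.sqrt (1 + b ^ 2) := by
  have : a * b ≤ Real.sqrt (1 + a ^ 2) * Real.sqrt (1 + b ^ 2) :=
    mul_le_mul le_sqrt_one_add le_sqrt_one_add hb (Real.sqrt_nonneg _)
  linarith

theorem up_prod {a b : ℝ} (ha : 0 ≤ a) (ha1 : a ≤ 1) (hb : 0 ≤ b) :
    a * b + Real.sqrt (1 + a ^ 2) * Real.sqrt (1 + b ^ 2) ≤ 3 * b + 2 := by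
  have h1 : Real.sqrt (1 + a ^ 2) ≤ 2 := le_trans (sqrt_one_add_le ha) (by linarith)
  have h2 : Real.sqrt (1 + a ^ 2) * Real.sqrt (1 + b ^ 2) ≤ 2 * (1 + b) :=
    mul_le_mul h1 (sqrt_one_add_le hb) (Real.sqrt_nonneg _) (by norm_num)
  nlinarith

theorem sinh_ge {y : ℝ} (hy : 1 ≤ y) : Real.exp y / 4 ≤ Real.sinh y := by
  rw [Real.sinh_eq]
  have h1 : 2 ≤ Real.exp y := by linarith [Real.add_one_le_exp y]
  have h2 : Real.exp (-y) ≤ 1 := Real.exp_le_one_iff.2 (by linarith)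
  linarith

theorem cosh_le_exp {y : ℝ} (hy : 0 ≤ y) : Real.cosh y ≤ Real.exp y := by
  rw [Real.cosh_eq]
  have : Real.exp (-y) ≤ Real.exp y := Real.exp_le_exp.2 (by linarith)
  linarith

theorem half_exp_le_cosh (y : ℝ) : Real.exp y / 2 ≤ Real.cosh y := by
  rw [Real.cosh_eq]
  linarith [Real.exp_pos (-y)]

theorem est1 {X : ℝ} (hX : 100 ≤ X) : Real.cosh (9 * X) ≤
    2 * ((Real.cosh X / Real.sinh X) * (Real.cosh (10 * X) / Real.sinh X)) := by
  have hs : 0 < Real.sinh X := Real.sinh_pos_iff.2 (by linarith)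
  have h1 : Real.cosh (9 * X) * Real.cosh X ≤ Real.cosh (10 * X) := by
    have := cosh_mul_le (a := 9 * X) (b := X) (by linarith) (by linarith)
    rwa [show 9 * X + X = 10 * X by ring] at this
  have h2 : Real.sinh X ^ 2 ≤ Real.cosh X ^ 2 := by rw [Real.cosh_sq]; linarith
  have h3 : 2 * ((Real.cosh X / Real.sinh X) * (Real.cosh (10 * X) / Real.sinh X)) =
      2 * (Real.cosh X * Real.cosh (10 * X)) / Real.sinh X ^ 2 := by
    field_simp
  rw [h3, le_div_iff₀ (by positivity)]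
  have hc : 0 < Real.cosh X := Real.cosh_pos _
  have hc9 : 0 < Real.cosh (9 * X) := Real.cosh_pos _
  have hc10 : 0 < Real.cosh (10 * X) := Real.cosh_pos _
  calc Real.cosh (9 * X) * Real.sinh X ^ 2 ≤ Real.cosh (9 * X) * Real.cosh X ^ 2 := by gcongr
    _ = (Real.cosh (9 * X) * Real.cosh X) * Real.cosh X := by ring
    _ ≤ Real.cosh (10 * X) * Real.cosh X := by gcongr
    _ ≤ 2 * (Real.cosh X * Real.cosh (10 * X)) := by nlinarith [mul_pos hc hc10]

theorem est2 {X : ℝ} (hX : 100 ≤ X) : Real.cosh (8 * X) ≤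
    2 * ((Real.cosh X / Real.sinh (3 * X / 2)) * (Real.cosh (10 * X) / Real.sinh (3 * X / 2))) := by
  have hs : 0 < Real.sinh (3 * X / 2) := Real.sinh_pos_iff.2 (by linarith)
  have h1 : Real.cosh (8 * X) * Real.cosh (3 * X / 2) ≤ Real.cosh (8 * X + 3 * X / 2) :=
    cosh_mul_le (by linarith) (by linarith)
  have h1' : Real.cosh (8 * X + 3 * X / 2) * Real.cosh (3 * X / 2) ≤ Real.cosh (11 * X) := by
    have := cosh_mul_le (a := 8 * X + 3 * X / 2) (b := 3 * X / 2) (by linarith) (by linarith)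
    rwa [show 8 * X + 3 * X / 2 + 3 * X / 2 = 11 * X by ring] at this
  have h2 : Real.sinh (3 * X / 2) ^ 2 ≤ Real.cosh (3 * X / 2) ^ 2 := by
    rw [Real.cosh_sq]; linarith
  have h3 : 2 * ((Real.cosh X / Real.sinh (3 * X / 2)) *
      (Real.cosh (10 * X) / Real.sinh (3 * X / 2))) =
      2 * (Real.cosh X * Real.cosh (10 * X)) / Real.sinh (3 * X / 2) ^ 2 := by
    field_simp
  rw [h3, le_div_iff₀ (by positivity)]
  have hc : 0 < Real.cosh (3 * X / 2) := Real.cosh_pos _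
  have hc8 : 0 < Real.cosh (8 * X) := Real.cosh_pos _
  have h4 : Real.cosh (11 * X) ≤ 2 * (Real.cosh X * Real.cosh (10 * X)) := by
    have e1 : Real.cosh (11 * X) = Real.cosh X * Real.cosh (10 * X) +
        Real.sinh X * Real.sinh (10 * X) := by
      rw [← Real.cosh_add]; ring_nf
    have e2 : Real.sinh X * Real.sinh (10 * X) ≤ Real.cosh X * Real.cosh (10 * X) :=
      mul_le_mul (Real.sinh_lt_cosh _).le (Real.sinh_lt_cosh _).le
        (Real.sinh_nonneg_iff.2 (by linarith)) (Real.cosh_pos _).le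
    linarith
  calc Real.cosh (8 * X) * Real.sinh (3 * X / 2) ^ 2
      ≤ Real.cosh (8 * X) * Real.cosh (3 * X / 2) ^ 2 := by gcongr
    _ = (Real.cosh (8 * X) * Real.cosh (3 * X / 2)) * Real.cosh (3 * X / 2) := by ring
    _ ≤ Real.cosh (8 * X + 3 * X / 2) * Real.cosh (3 * X / 2) := by gcongr
    _ ≤ Real.cosh (11 * X) := h1'
    _ ≤ _ := h4

theorem est3 {X : ℝ} (hX : 100 ≤ X) : Real.cosh X / Real.sinh (3 * X / 2) ≤ 1 ∧
    3 * (Real.cosh (10 * X) / Real.sinh (3 * X / 2)) + 2 ≤ Real.cosh (9 * X) := by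
  have hs : 0 < Real.sinh (3 * X / 2) := Real.sinh_pos_iff.2 (by linarith)
  have h1 : Real.exp (3 * X / 2) / 4 ≤ Real.sinh (3 * X / 2) := sinh_ge (by linarith)
  have hE : 51 ≤ Real.exp (X / 2) := by linarith [Real.add_one_le_exp (X / 2)]
  have h0 : 0 < Real.exp (3 * X / 2) := Real.exp_pos _
  constructor
  · rw [div_le_one hs]
    have h2 : Real.cosh X ≤ Real.exp X := cosh_le_exp (by linarith)
    have h3 : Real.exp (3 * X / 2) = Real.exp X * Real.exp (X / 2) := by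
      rw [← Real.exp_add]; ring_nf
    have h4 := Real.exp_pos X
    nlinarith
  · have h2 : Real.cosh (10 * X) ≤ Real.exp (10 * X) := cosh_le_exp (by linarith)
    have h3 : Real.exp (10 * X) = Real.exp (17 * X / 2) * Real.exp (3 * X / 2) := by
      rw [← Real.exp_add]; ring_nf
    have h4 : Real.cosh (10 * X) / Real.sinh (3 * X / 2) ≤ 4 * Real.exp (17 * X / 2) := by
      rw [div_le_iff₀ hs]
      have h5 := Real.exp_pos (17 * X / 2)
      nlinarith
    have h5 : Real.exp (9 * X) = Real.exp (17 * X / 2) * Real.exp (X / 2) := by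
      rw [← Real.exp_add]; ring_nf
    have h6 := half_exp_le_cosh (9 * X)
    have h7 : 1 ≤ Real.exp (17 * X / 2) := Real.one_le_exp (by linarith)
    have h8 : Real.exp (17 * X / 2) * 51 ≤ Real.exp (9 * X) := by rw [h5]; gcongr
    -- `12 E + 2 ≤ 51 E / 2`
    linarith

/-- the two octagons of the construction -/
theorem exists_octs (X : ℝ) (hX : 100 ≤ X) : ∃ O1 O2 : Octagon,
    O1.ℓ = ![X, X, 10 * X, 10 * X] ∧ O2.ℓ = ![X, X, 10 * X, 10 * X] ∧
    lor (O1.r 0) (O1.r 2) = -Real.cosh (2 * X) ∧ lor (O2.r 0) (O2.r 2) = -Real.cosh (3 * X) ∧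
    lor (O1.r 1) (O1.r 3) ≤ -Real.cosh (9 * X) ∧
    lor (O2.r 1) (O2.r 3) ≤ -Real.cosh (8 * X) ∧ -Real.cosh (9 * X) ≤ lor (O2.r 1) (O2.r 3) := by
  obtain ⟨O1, hℓ1, h02, h13⟩ := exists_oct X (2 * X) (10 * X) (by linarith) (by linarith)
    (by linarith)
  obtain ⟨O2, hℓ2, k02, k13⟩ := exists_oct X (3 * X) (10 * X) (by linarith) (by linarith)
    (by linarith)
  have e : 2 * X / 2 = X := by ring
  rw [e] at h13
  have hs : 0 < Real.sinh X := Real.sinh_pos_iff.2 (by linarith)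
  have hs' : 0 < Real.sinh (3 * X / 2) := Real.sinh_pos_iff.2 (by linarith)
  have n1 : 0 ≤ Real.cosh X / Real.sinh X := (div_pos (Real.cosh_pos _) hs).le
  have n2 : 0 ≤ Real.cosh (10 * X) / Real.sinh X := (div_pos (Real.cosh_pos _) hs).le
  have n3 : 0 ≤ Real.cosh X / Real.sinh (3 * X / 2) := (div_pos (Real.cosh_pos _) hs').le
  have n4 : 0 ≤ Real.cosh (10 * X) / Real.sinh (3 * X / 2) := (div_pos (Real.cosh_pos _) hs').le
  refine ⟨O1, O2, hℓ1, hℓ2, h02, k02, ?_, ?_, ?_⟩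
  · rw [h13]
    exact neg_le_neg (low_prod n1 n2 (est1 hX))
  · rw [k13]
    exact neg_le_neg (low_prod n3 n4 (est2 hX))
  · rw [k13]
    exact neg_le_neg (le_trans (up_prod n3 (est3 hX).1 n4) (est3 hX).2)

end SBA
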