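import Pool.Agent.Lib.MP_709218_gt.Lor2

/-! From dominated lines to `KAnosovOn` (module Split of MP_709218_gt). -/

namespace SBA

open Matrix Real Set Filter Topology

section rank

variable {d : ℕ}

theorem mrank_add_le (A B : Matrix (Fin d) (Fin d) ℂ) : (A + B).rank ≤ A.rank + B.rank := by
  unfold Matrix.rank
  refine le_trans (Submodule.finrank_mono ?_)
    (Submodule.finrank_add_le_finrank_add_finrank A.mulVecLin.range B.mulVecLin.range)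
  rintro _ ⟨v, rfl⟩
  rw [Matrix.mulVecLin_add, LinearMap.add_apply]
  exact Submodule.add_mem_sup ⟨v, rfl⟩ ⟨v, rfl⟩

theorem mrank_sum_le (P : Fin d → Matrix (Fin d) (Fin d) ℂ) (hP : ∀ i, (P i).rank = 1)
    (s : Finset (Fin d)) : (∑ i ∈ s, P i).rank ≤ s.card := by
  classical
  induction s using Finset.induction_on with
  | empty => simp
  | insert a s ha ih =>
    rw [Finset.sum_insert ha, Finset.card_insert_of_notMem ha]
    refine (mrank_add_le _ _).trans ?_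
    rw [hP a]
    omega

theorem mrank_sum (P : Fin d → Matrix (Fin d) (Fin d) ℂ) (hP : ∀ i, (P i).rank = 1)
    (h1 : ∑ i, P i = 1) (s : Finset (Fin d)) : (∑ i ∈ s, P i).rank = s.card := by
  classical
  refine le_antisymm (mrank_sum_le P hP s) ?_
  have h2 := mrank_add_le (∑ i ∈ s, P i) (∑ i ∈ sᶜ, P i)
  rw [Finset.sum_add_sum_compl, h1, Matrix.rank_one, Fintype.card_fin] at h2
  have h3 := mrank_sum_le P hP sᶜ
  rw [Finset.card_compl, Fintype.card_fin] at h3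
  have h4 : s.card ≤ d := by simpa using Finset.card_le_univ s
  omega

end rank

section act

variable {Γ : Subgroup (SpecialLinearGroup (Fin 3) ℝ)}

theorem hd_mulVec (hΓ : IsSurfaceGroup Γ) (g : Γ) (x y : V3) :
    hd (g.1.1 *ᵥ x) (g.1.1 *ᵥ y) = hd x y := by
  unfold hd
  rw [hΓ.lor_eq g.1 g.2]

end act

section norm

variable {d : ℕ} {Γ : Subgroup (SpecialLinearGroup (Fin 3) ℝ)}

/-- the equivariant norm -/
noncomputable def nrmG (ρ : Γ →* SpecialLinearGroup (Fin d) ℂ) (L : ℝ) (y : V3 × V3)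
    (v : Fin d → ℂ) : ℝ :=
  ⨆ g : Γ, exp (-L * hd e2 (g.1.1 *ᵥ y.1)) * ‖(ρ g).1 *ᵥ v‖

variable (hΓ : IsSurfaceGroup Γ) {ρ : Γ →* SpecialLinearGroup (Fin d) ℂ} {L : ℝ} (hL : 0 ≤ L)
  (hρ : ∀ g : Γ, ∀ v : Fin d → ℂ,
      ‖(ρ g).1 *ᵥ v‖ ≤ L * Real.exp (L * hd e2 (g.1.1 *ᵥ e2)) * ‖v‖)

include hΓ hL hρ

theorem nrmG_term_le {y : V3 × V3} (hy : y.1 ∈ Hyp) (v : Fin d → ℂ) (g : Γ) :
    exp (-L * hd e2 (g.1.1 *ᵥ y.1)) * ‖(ρ g).1 *ᵥ v‖ ≤ L * exp (L * hd e2 y.1) * ‖v‖ := by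
  have h1 := hρ g v
  have h2 : hd e2 (g.1.1 *ᵥ e2) ≤ hd e2 (g.1.1 *ᵥ y.1) + hd e2 y.1 := by
    have := hd_triangle e2_mem (hΓ.maps_hyp g.1 g.2 _ hy) (hΓ.maps_hyp g.1 g.2 _ e2_mem)
    rwa [hd_mulVec hΓ, hd_comm y.1] at this
  have h3 : exp (L * hd e2 (g.1.1 *ᵥ e2)) ≤
      exp (L * hd e2 (g.1.1 *ᵥ y.1)) * exp (L * hd e2 y.1) := by
    rw [← exp_add]
    exact exp_le_exp.2 (by nlinarith)
  have h4 : exp (-L * hd e2 (g.1.1 *ᵥ y.1)) * exp (L * hd e2 (g.1.1 *ᵥ y.1)) = 1 := by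
    rw [← exp_add]; simp
  calc exp (-L * hd e2 (g.1.1 *ᵥ y.1)) * ‖(ρ g).1 *ᵥ v‖
      ≤ exp (-L * hd e2 (g.1.1 *ᵥ y.1)) * (L * (exp (L * hd e2 (g.1.1 *ᵥ y.1)) *
          exp (L * hd e2 y.1)) * ‖v‖) := by
        refine mul_le_mul_of_nonneg_left (h1.trans ?_) (exp_pos _).le
        gcongr
    _ = (exp (-L * hd e2 (g.1.1 *ᵥ y.1)) * exp (L * hd e2 (g.1.1 *ᵥ y.1))) *
          (L * exp (L * hd e2 y.1) * ‖v‖) := by ring
    _ = L * exp (L * hd e2 y.1) * ‖v‖ := by rw [h4, one_mul]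

theorem nrmG_bdd {y : V3 × V3} (hy : y.1 ∈ Hyp) (v : Fin d → ℂ) :
    BddAbove (range fun g : Γ => exp (-L * hd e2 (g.1.1 *ᵥ y.1)) * ‖(ρ g).1 *ᵥ v‖) :=
  ⟨_, by rintro _ ⟨g, rfl⟩; exact nrmG_term_le hΓ hL hρ hy v g⟩

theorem le_nrmG {y : V3 × V3} (hy : y.1 ∈ Hyp) (v : Fin d → ℂ) (g : Γ) :
    exp (-L * hd e2 (g.1.1 *ᵥ y.1)) * ‖(ρ g).1 *ᵥ v‖ ≤ nrmG ρ L y v :=
  le_ciSup (nrmG_bdd hΓ hL hρ hy v) g

theorem nrmG_le {y : V3 × V3} (hy : y.1 ∈ Hyp) (v : Fin d → ℂ) :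
    nrmG ρ L y v ≤ L * exp (L * hd e2 y.1) * ‖v‖ :=
  ciSup_le fun g => nrmG_term_le hΓ hL hρ hy v g

theorem exp_mul_le_nrmG {y : V3 × V3} (hy : y.1 ∈ Hyp) (v : Fin d → ℂ) :
    exp (-L * hd e2 y.1) * ‖v‖ ≤ nrmG ρ L y v := by
  have := le_nrmG hΓ hL hρ hy v 1
  simpa using this

theorem nrmG_nonneg {y : V3 × V3} (hy : y.1 ∈ Hyp) (v : Fin d → ℂ) : 0 ≤ nrmG ρ L y v :=
  le_trans (by positivity) (exp_mul_le_nrmG hΓ hL hρ hy v)

theorem eq_zero_of_nrmG {y : V3 × V3} (hy : y.1 ∈ Hyp) {v : Fin d → ℂ} (h : nrmG ρ L y v = 0) :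
    v = 0 := by
  have h1 := exp_mul_le_nrmG hΓ hL hρ hy v
  rw [h] at h1
  have h2 : 0 < exp (-L * hd e2 y.1) := exp_pos _
  have h3 : ‖v‖ ≤ 0 := by
    by_contra hc
    push Not at hc
    exact absurd (mul_pos h2 hc) (by linarith)
  exact norm_le_zero_iff.1 h3

theorem nrmG_add {y : V3 × V3} (hy : y.1 ∈ Hyp) (v w : Fin d → ℂ) :
    nrmG ρ L y (v + w) ≤ nrmG ρ L y v + nrmG ρ L y w := by
  refine ciSup_le fun g => ?_
  rw [Matrix.mulVec_add]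
  calc exp (-L * hd e2 (g.1.1 *ᵥ y.1)) * ‖(ρ g).1 *ᵥ v + (ρ g).1 *ᵥ w‖
      ≤ exp (-L * hd e2 (g.1.1 *ᵥ y.1)) * (‖(ρ g).1 *ᵥ v‖ + ‖(ρ g).1 *ᵥ w‖) :=
        mul_le_mul_of_nonneg_left (norm_add_le _ _) (exp_pos _).le
    _ = exp (-L * hd e2 (g.1.1 *ᵥ y.1)) * ‖(ρ g).1 *ᵥ v‖ +
          exp (-L * hd e2 (g.1.1 *ᵥ y.1)) * ‖(ρ g).1 *ᵥ w‖ := by ring
    _ ≤ _ := add_le_add (le_nrmG hΓ hL hρ hy v g) (le_nrmG hΓ hL hρ hy w g)

omit hΓ hL hρ in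
theorem nrmG_smul (y : V3 × V3) (a : ℂ) (v : Fin d → ℂ) :
    nrmG ρ L y (a • v) = ‖a‖ * nrmG ρ L y v := by
  unfold nrmG
  rw [Real.mul_iSup_of_nonneg (norm_nonneg a)]
  congr 1
  funext g
  rw [Matrix.mulVec_smul, norm_smul]
  ring

omit hΓ hL hρ in
theorem nrmG_mact (y : V3 × V3) (h : Γ) (v : Fin d → ℂ) :
    nrmG ρ L (mact h.1 y) ((ρ h).1 *ᵥ v) = nrmG ρ L y v := by
  unfold nrmG
  rw [← (Equiv.mulRight h).iSup_comp (g := fun g : Γ =>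
    exp (-L * hd e2 (g.1.1 *ᵥ y.1)) * ‖(ρ g).1 *ᵥ v‖)]
  congr 1
  funext g
  have e1 : ((Equiv.mulRight h) g).1.1 *ᵥ y.1 = g.1.1 *ᵥ (mact h.1 y).1 := by
    simp [mact, Matrix.mulVec_mulVec]
  have e2 : (ρ ((Equiv.mulRight h) g)).1 *ᵥ v = (ρ g).1 *ᵥ ((ρ h).1 *ᵥ v) := by
    simp [Matrix.mulVec_mulVec]
  rw [e1, e2]

theorem nrmG_lip {y y' : V3 × V3} (hy : y.1 ∈ Hyp) (hy' : y'.1 ∈ Hyp) (v : Fin d → ℂ) :
    nrmG ρ L y' v ≤ exp (L * hd y.1 y'.1) * nrmG ρ L y v := by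
  refine ciSup_le fun g => ?_
  have h1 := hd_triangle e2_mem (hΓ.maps_hyp g.1 g.2 _ hy') (hΓ.maps_hyp g.1 g.2 _ hy)
  rw [hd_mulVec hΓ, hd_comm y'.1] at h1
  have h2 : exp (-L * hd e2 (g.1.1 *ᵥ y'.1)) ≤
      exp (L * hd y.1 y'.1) * exp (-L * hd e2 (g.1.1 *ᵥ y.1)) := by
    rw [← exp_add]
    exact exp_le_exp.2 (by nlinarith)
  calc exp (-L * hd e2 (g.1.1 *ᵥ y'.1)) * ‖(ρ g).1 *ᵥ v‖
      ≤ exp (L * hd y.1 y'.1) * exp (-L * hd e2 (g.1.1 *ᵥ y.1)) * ‖(ρ g).1 *ᵥ v‖ :=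
        mul_le_mul_of_nonneg_right h2 (norm_nonneg _)
    _ = exp (L * hd y.1 y'.1) * (exp (-L * hd e2 (g.1.1 *ᵥ y.1)) * ‖(ρ g).1 *ᵥ v‖) := by ring
    _ ≤ _ := mul_le_mul_of_nonneg_left (le_nrmG hΓ hL hρ hy v g) (exp_pos _).le

omit hΓ hL hρ in
theorem tendsto_hd_self {Y : Set (V3 × V3)} (hY : Y ⊆ UT) {y0 : V3 × V3} (hy0 : y0 ∈ Y) :
    Tendsto (fun y : V3 × V3 => hd y0.1 y.1) (𝓝[Y] y0) (𝓝 0) := by
  have h1 : ContinuousOn (fun y : V3 × V3 => hd y0.1 y.1) Y := by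
    unfold hd
    refine continuousOn_arcosh.comp (Continuous.continuousOn ?_) ?_
    · exact (continuous_lor continuous_const continuous_fst).neg
    · intro y hy
      exact one_le_N (hY hy0).1 (hY hy).1
  have h2 := h1 y0 hy0
  have h3 : hd y0.1 y0.1 = 0 := hd_self (hY hy0).1
  simpa [ContinuousWithinAt, h3] using h2

theorem nrmG_continuousOn {Y : Set (V3 × V3)} (hY : Y ⊆ UT) :
    ContinuousOn (fun q : (V3 × V3) × (Fin d → ℂ) => nrmG ρ L q.1 q.2) (Y ×ˢ Set.univ) := by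
  rintro ⟨y0, v0⟩ ⟨hy0, -⟩
  have hy0' : y0.1 ∈ Hyp := (hY hy0).1
  have hfst : Tendsto (fun q : (V3 × V3) × (Fin d → ℂ) => q.1) (𝓝[Y ×ˢ Set.univ] (y0, v0))
      (𝓝[Y] y0) := by
    refine tendsto_nhdsWithin_iff.2 ⟨?_, ?_⟩
    · exact (continuous_fst.tendsto (y0, v0)).mono_left nhdsWithin_le_nhds
    · filter_upwards [self_mem_nhdsWithin] with q hq using hq.1
  have hδ : Tendsto (fun q : (V3 × V3) × (Fin d → ℂ) => hd y0.1 q.1.1)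
      (𝓝[Y ×ˢ Set.univ] (y0, v0)) (𝓝 0) := (tendsto_hd_self hY hy0).comp hfst
  have hv : Tendsto (fun q : (V3 × V3) × (Fin d → ℂ) => ‖q.2 - v0‖)
      (𝓝[Y ×ˢ Set.univ] (y0, v0)) (𝓝 0) := by
    have h1 : Continuous fun q : (V3 × V3) × (Fin d → ℂ) => ‖q.2 - v0‖ := by fun_prop
    have h2 := (h1.tendsto (y0, v0)).mono_left (nhdsWithin_le_nhds (s := Y ×ˢ Set.univ))
    simpa using h2
  set B : (V3 × V3) × (Fin d → ℂ) → ℝ := fun q =>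
    L * exp (L * (hd e2 y0.1 + hd y0.1 q.1.1)) with hB
  have hBt : Tendsto B (𝓝[Y ×ˢ Set.univ] (y0, v0)) (𝓝 (L * exp (L * (hd e2 y0.1 + 0)))) :=
    ((Real.continuous_exp.tendsto _).comp ((hδ.const_add _).const_mul L)).const_mul L
  have key : ∀ q ∈ Y ×ˢ (Set.univ : Set (Fin d → ℂ)), ∀ w, nrmG ρ L q.1 w ≤ B q * ‖w‖ := by
    intro q hq w
    have hq' : q.1.1 ∈ Hyp := (hY hq.1).1
    refine (nrmG_le hΓ hL hρ hq' w).trans ?_
    refine mul_le_mul_of_nonneg_right (mul_le_mul_of_nonneg_left (exp_le_exp.2 ?_) hL)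
      (norm_nonneg _)
    exact mul_le_mul_of_nonneg_left (hd_triangle e2_mem hy0' hq') hL
  have lower : ∀ᶠ q in 𝓝[Y ×ˢ Set.univ] (y0, v0),
      exp (-(L * hd y0.1 q.1.1)) * nrmG ρ L y0 v0 - B q * ‖q.2 - v0‖ ≤ nrmG ρ L q.1 q.2 := by
    filter_upwards [self_mem_nhdsWithin] with q hq
    have hq' : q.1.1 ∈ Hyp := (hY hq.1).1
    have h1 := nrmG_add hΓ hL hρ hq' q.2 (v0 - q.2)
    rw [add_sub_cancel] at h1
    have h2 := key q hq (v0 - q.2)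
    rw [norm_sub_rev] at h2
    have h3 := nrmG_lip hΓ hL hρ hq' hy0' v0
    rw [hd_comm] at h3
    have h4 : exp (-(L * hd y0.1 q.1.1)) * nrmG ρ L y0 v0 ≤ nrmG ρ L q.1 v0 := by
      have := mul_le_mul_of_nonneg_left h3 (exp_pos (-(L * hd y0.1 q.1.1))).le
      rwa [← mul_assoc, ← exp_add, neg_add_cancel, exp_zero, one_mul] at this
    linarith
  have upper : ∀ᶠ q in 𝓝[Y ×ˢ Set.univ] (y0, v0),
      nrmG ρ L q.1 q.2 ≤ exp (L * hd y0.1 q.1.1) * nrmG ρ L y0 v0 + B q * ‖q.2 - v0‖ := by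
    filter_upwards [self_mem_nhdsWithin] with q hq
    have hq' : q.1.1 ∈ Hyp := (hY hq.1).1
    have h1 := nrmG_add hΓ hL hρ hq' v0 (q.2 - v0)
    rw [add_sub_cancel] at h1
    have h2 := key q hq (q.2 - v0)
    have h3 := nrmG_lip hΓ hL hρ hy0' hq' v0
    linarith
  have lt : Tendsto (fun q : (V3 × V3) × (Fin d → ℂ) =>
      exp (-(L * hd y0.1 q.1.1)) * nrmG ρ L y0 v0 - B q * ‖q.2 - v0‖)
      (𝓝[Y ×ˢ Set.univ] (y0, v0)) (𝓝 (nrmG ρ L y0 v0)) := by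
    have h1 := ((Real.continuous_exp.tendsto _).comp (hδ.const_mul L).neg).mul_const
      (nrmG ρ L y0 v0)
    have h2 := h1.sub (hBt.mul hv)
    simpa using h2
  have ut : Tendsto (fun q : (V3 × V3) × (Fin d → ℂ) =>
      exp (L * hd y0.1 q.1.1) * nrmG ρ L y0 v0 + B q * ‖q.2 - v0‖)
      (𝓝[Y ×ˢ Set.univ] (y0, v0)) (𝓝 (nrmG ρ L y0 v0)) := by
    have h1 := ((Real.continuous_exp.tendsto _).comp (hδ.const_mul L)).mul_const
      (nrmG ρ L y0 v0)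
    have h2 := h1.add (hBt.mul hv)
    simpa using h2
  exact tendsto_of_tendsto_of_tendsto_of_le_of_le' lt ut lower upper

/-- comparison of the norm with the norm at the base point -/
theorem nrmG_comp {y : V3 × V3} (hy : y.1 ∈ Hyp) {r : ℝ} (g : Γ)
    (hg : hd e2 (g.1.1 *ᵥ y.1) ≤ r) (v : Fin d → ℂ) :
    ‖(ρ g).1 *ᵥ v‖ ≤ exp (L * r) * nrmG ρ L y v ∧
      nrmG ρ L y v ≤ L * exp (L * r) * ‖(ρ g).1 *ᵥ v‖ := by
  constructor
  · have h1 := le_nrmG hΓ hL hρ hy v g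
    have h2 : exp (-(L * r)) ≤ exp (-L * hd e2 (g.1.1 *ᵥ y.1)) := exp_le_exp.2 (by nlinarith)
    have h3 : exp (-(L * r)) * ‖(ρ g).1 *ᵥ v‖ ≤ nrmG ρ L y v :=
      (mul_le_mul_of_nonneg_right h2 (norm_nonneg _)).trans h1
    have h4 := mul_le_mul_of_nonneg_left h3 (exp_pos (L * r)).le
    rwa [← mul_assoc, ← exp_add, add_neg_cancel, exp_zero, one_mul] at h4
  · rw [← nrmG_mact y g v]
    have hy' : (mact g.1 y).1 ∈ Hyp := hΓ.maps_hyp g.1 g.2 _ hy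
    refine (nrmG_le hΓ hL hρ hy' _).trans ?_
    refine mul_le_mul_of_nonneg_right (mul_le_mul_of_nonneg_left (exp_le_exp.2 ?_) hL)
      (norm_nonneg _)
    exact mul_le_mul_of_nonneg_left hg hL

end norm

section main

variable {d : ℕ} {Γ : Subgroup (SpecialLinearGroup (Fin 3) ℝ)}

/-- From rank one projections with dominated growth rates to `KAnosovOn`.
`gr i g` is the logarithmic growth rate of line `i` along the segment brought back by `g`. -/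
theorem kAnosov_of_lines (hΓ : IsSurfaceGroup Γ) (ρ : Γ →* SpecialLinearGroup (Fin d) ℂ)
    (Y : Set (V3 × V3))
    (hY : Y ⊆ UT) (hYf : ∀ y ∈ Y, ∀ t : ℝ, flow t y ∈ Y)
    (hYg : ∀ y ∈ Y, ∀ g ∈ Γ, mact g y ∈ Y)
    (P : Fin d → V3 × V3 → Matrix (Fin d) (Fin d) ℂ)
    (hP1 : ∀ i, ∀ y ∈ Y, P i y * P i y = P i y)
    (hP2 : ∀ i j, i ≠ j → ∀ y ∈ Y, P i y * P j y = 0)
    (hP3 : ∀ y ∈ Y, ∑ i, P i y = 1)
    (hP4 : ∀ i, ∀ y ∈ Y, (P i y).rank = 1)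
    (hPc : ∀ i, ContinuousOn (P i) Y)
    (hPf : ∀ i, ∀ y ∈ Y, ∀ t : ℝ, P i (flow t y) = P i y)
    (hPe : ∀ i, ∀ y ∈ Y, ∀ g : Γ, P i (mact g.1 y) = (ρ g).1 * P i y * ((ρ g)⁻¹).1)
    (r : ℝ) (hr : ∀ x ∈ Hyp, ∃ g ∈ Γ, hd e2 (g.1 *ᵥ x) ≤ r)
    (hρ : ∃ L : ℝ, ∀ g : Γ, ∀ v : Fin d → ℂ,
      ‖(ρ g).1 *ᵥ v‖ ≤ L * Real.exp (L * hd e2 (g.1.1 *ᵥ e2)) * ‖v‖)
    (hPb : ∃ L : ℝ, ∀ i, ∀ y ∈ Y, hd e2 y.1 ≤ r → ∀ v, ‖P i y *ᵥ v‖ ≤ L * ‖v‖)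
    (gr : Fin d → Γ → ℝ)
    (C : ℝ)
    (hg : ∀ i, ∀ y ∈ Y, hd e2 y.1 ≤ r → ∀ t : ℝ, 0 ≤ t → ∀ g : Γ,
      hd e2 (g.1.1 *ᵥ (flow t y).1) ≤ r → ∀ v, P i y *ᵥ v = v →
        ‖(ρ g).1 *ᵥ v‖ ≤ C * Real.exp (gr i g) * ‖v‖ ∧
        Real.exp (gr i g) * ‖v‖ ≤ C * ‖(ρ g).1 *ᵥ v‖)
    (η : ℝ) (hη : 0 < η)
    (hgap : ∀ i j, i < j → ∀ y ∈ Y, hd e2 y.1 ≤ r → ∀ t : ℝ, 0 ≤ t → ∀ g : Γ,
      hd e2 (g.1.1 *ᵥ (flow t y).1) ≤ r → gr j g ≤ gr i g - η * t + C) :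
    ∀ k : ℕ, 1 ≤ k → k ≤ d - 1 → KAnosovOn Γ ρ k Y := by
  classical
  intro k _ hkd
  obtain ⟨L0, hL0⟩ := hρ
  obtain ⟨M0, hM0⟩ := hPb
  set L : ℝ := |L0| with hLdef
  have hL : 0 ≤ L := abs_nonneg _
  have hρ' : ∀ g : Γ, ∀ v : Fin d → ℂ,
      ‖(ρ g).1 *ᵥ v‖ ≤ L * Real.exp (L * hd e2 (g.1.1 *ᵥ e2)) * ‖v‖ := by
    intro g v
    have h0 : 0 ≤ hd e2 (g.1.1 *ᵥ e2) := hd_nonneg e2_mem (hΓ.maps_hyp _ g.2 _ e2_mem)
    refine (hL0 g v).trans ?_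
    have : L0 ≤ L := le_abs_self _
    gcongr
  set M : ℝ := |M0| with hMdef
  have hM : 0 ≤ M := abs_nonneg _
  have hPM : ∀ i, ∀ y ∈ Y, hd e2 y.1 ≤ r → ∀ v, ‖P i y *ᵥ v‖ ≤ M * ‖v‖ := fun i y hy h v =>
    (hM0 i y hy h v).trans (mul_le_mul_of_nonneg_right (le_abs_self _) (norm_nonneg _))
  set D : ℝ := |C| with hDdef
  have hD : 0 ≤ D := abs_nonneg _
  have hCD : C ≤ D := le_abs_self _
  set S : Finset (Fin d) := Finset.univ.filter fun i => i.1 < k with hS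
  have hSm : ∀ i, i ∈ S ↔ i.1 < k := fun i => by simp [hS]
  set Q : V3 × V3 → Matrix (Fin d) (Fin d) ℂ := fun y => ∑ i ∈ S, P i y with hQ
  have hPQ : ∀ i, ∀ y ∈ Y, P i y * Q y = if i ∈ S then P i y else 0 := by
    intro i y hy
    rw [hQ]
    simp only [Finset.mul_sum]
    split_ifs with h
    · rw [Finset.sum_eq_single i (fun j _ hj => hP2 i j (Ne.symm hj) y hy)
        (fun h' => absurd h h'), hP1 i y hy]
    · exact Finset.sum_eq_zero fun j hj => hP2 i j (fun e => h (e ▸ hj)) y hy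
  have hQQ : ∀ y ∈ Y, Q y * Q y = Q y := by
    intro y hy
    conv_lhs => rw [show Q y * Q y = ∑ i ∈ S, P i y * Q y by rw [← Finset.sum_mul]]
    exact Finset.sum_congr rfl fun i hi => by rw [hPQ i y hy, if_pos hi]
  have hcard : S.card = k := by
    rw [hS, Fin.card_filter_val_lt]
    omega
  have hQe : ∀ y ∈ Y, ∀ g : Γ, Q (mact g.1 y) = (ρ g).1 * Q y * ((ρ g)⁻¹).1 := by
    intro y hy g
    rw [hQ]
    simp only [Finset.mul_sum, Finset.sum_mul]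
    exact Finset.sum_congr rfl fun i _ => hPe i y hy g
  have hQf : ∀ y ∈ Y, ∀ t : ℝ, Q (flow t y) = Q y := fun y hy t =>
    Finset.sum_congr rfl fun i _ => hPf i y hy t
  -- vectors
  have hinv : ∀ (g : Γ) (v : Fin d → ℂ), ((ρ g)⁻¹).1 *ᵥ ((ρ g).1 *ᵥ v) = v := by
    intro g v
    have h1 : ((ρ g)⁻¹).1 * (ρ g).1 = 1 := congrArg Subtype.val (inv_mul_cancel (ρ g))
    rw [Matrix.mulVec_mulVec, h1, Matrix.one_mulVec]
  have hPv : ∀ i, ∀ y ∈ Y, ∀ (g : Γ) (v : Fin d → ℂ),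
      P i (mact g.1 y) *ᵥ ((ρ g).1 *ᵥ v) = (ρ g).1 *ᵥ (P i y *ᵥ v) := by
    intro i y hy g v
    rw [hPe i y hy g, ← Matrix.mulVec_mulVec, hinv, ← Matrix.mulVec_mulVec]
  have hQv : ∀ y ∈ Y, ∀ (g : Γ) (v : Fin d → ℂ),
      Q (mact g.1 y) *ᵥ ((ρ g).1 *ᵥ v) = (ρ g).1 *ᵥ (Q y *ᵥ v) := by
    intro y hy g v
    rw [hQe y hy g, ← Matrix.mulVec_mulVec, hinv, ← Matrix.mulVec_mulVec]
  have hsum : ∀ y ∈ Y, ∀ v : Fin d → ℂ, v = ∑ i, P i y *ᵥ v := by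
    intro y hy v
    rw [← Matrix.sum_mulVec, hP3 y hy, Matrix.one_mulVec]
  -- the key estimate near the base point
  have key : ∀ y ∈ Y, hd e2 y.1 ≤ r → ∀ t : ℝ, 0 ≤ t → ∀ g : Γ,
      hd e2 (g.1.1 *ᵥ (flow t y).1) ≤ r → ∀ v w, Q y *ᵥ v = 0 → Q y *ᵥ w = w →
      ‖(ρ g).1 *ᵥ v‖ * ‖w‖ ≤
        (d * d * (D * M) ^ 2 * exp D) * exp (-η * t) * (‖(ρ g).1 *ᵥ w‖ * ‖v‖) := by
    intro y hy hyr t ht g hgr v w hv hw
    have hfy := hYf y hy t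
    have hPv0 : ∀ i ∈ S, P i y *ᵥ v = 0 := by
      intro i hi
      have := hPQ i y hy
      rw [if_pos hi] at this
      rw [← this, ← Matrix.mulVec_mulVec, hv, Matrix.mulVec_zero]
    have hPw0 : ∀ i, i ∉ S → P i y *ᵥ w = 0 := by
      intro i hi
      have := hPQ i y hy
      rw [if_neg hi] at this
      rw [← hw, Matrix.mulVec_mulVec, this, Matrix.zero_mulVec]
    have hidem : ∀ (i : Fin d) (u : Fin d → ℂ), P i y *ᵥ (P i y *ᵥ u) = P i y *ᵥ u := by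
      intro i u
      rw [Matrix.mulVec_mulVec, hP1 i y hy]
    have h1 : ‖(ρ g).1 *ᵥ v‖ ≤ ∑ j ∈ Sᶜ, D * exp (gr j g) * (M * ‖v‖) := by
      have e1 : (ρ g).1 *ᵥ v = ∑ j ∈ Sᶜ, (ρ g).1 *ᵥ (P j y *ᵥ v) := by
        conv_lhs => rw [hsum y hy v]
        rw [Matrix.mulVec_sum, ← Finset.sum_add_sum_compl S, Finset.sum_eq_zero, zero_add]
        intro i hi
        rw [hPv0 i hi, Matrix.mulVec_zero]
      rw [e1]
      refine (norm_sum_le _ _).trans (Finset.sum_le_sum fun j _ => ?_)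
      refine ((hg j y hy hyr t ht g hgr _ (hidem j v)).1).trans ?_
      have h2 := hPM j y hy hyr v
      have : 0 ≤ exp (gr j g) := (exp_pos _).le
      gcongr
    have h2 : ‖w‖ ≤ ∑ i ∈ S, ‖P i y *ᵥ w‖ := by
      have e1 : w = ∑ i ∈ S, P i y *ᵥ w := by
        conv_lhs => rw [hsum y hy w]
        rw [← Finset.sum_add_sum_compl S]
        rw [Finset.sum_eq_zero (s := Sᶜ), add_zero]
        intro i hi
        exact hPw0 i (Finset.mem_compl.1 hi)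
      conv_lhs => rw [e1]
      exact norm_sum_le _ _
    have h3 : ∀ i, exp (gr i g) * ‖P i y *ᵥ w‖ ≤ D * (M * ‖(ρ g).1 *ᵥ w‖) := by
      intro i
      refine ((hg i y hy hyr t ht g hgr _ (hidem i w)).2).trans ?_
      have e1 : (ρ g).1 *ᵥ (P i y *ᵥ w) = P i (mact g.1 (flow t y)) *ᵥ ((ρ g).1 *ᵥ w) := by
        rw [hPv i _ hfy, hPf i y hy t]
      have e2 := hPM i (mact g.1 (flow t y)) (hYg _ hfy _ g.2) hgr ((ρ g).1 *ᵥ w)
      rw [← e1] at e2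
      gcongr
    calc ‖(ρ g).1 *ᵥ v‖ * ‖w‖
        ≤ (∑ j ∈ Sᶜ, D * exp (gr j g) * (M * ‖v‖)) * ∑ i ∈ S, ‖P i y *ᵥ w‖ := by
          refine mul_le_mul h1 h2 (norm_nonneg _) ?_
          exact Finset.sum_nonneg fun j _ => by positivity
      _ = ∑ j ∈ Sᶜ, ∑ i ∈ S, D * M * ‖v‖ * (exp (gr j g) * ‖P i y *ᵥ w‖) := by
          rw [Finset.sum_mul_sum]
          exact Finset.sum_congr rfl fun j _ => Finset.sum_congr rfl fun i _ => by ring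
      _ ≤ ∑ j ∈ Sᶜ, ∑ i ∈ S, (D * M) ^ 2 * exp D * exp (-η * t) *
            (‖(ρ g).1 *ᵥ w‖ * ‖v‖) := by
          refine Finset.sum_le_sum fun j hj => Finset.sum_le_sum fun i hi => ?_
          have hij : i < j := by
            have hi' := (hSm i).1 hi
            have hj' : ¬ j.1 < k := fun h => (Finset.mem_compl.1 hj) ((hSm j).2 h)
            exact Fin.lt_def.2 (by omega)
          have e1 := hgap i j hij y hy hyr t ht g hgr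
          have e2 : exp (gr j g) ≤ exp D * exp (-η * t) * exp (gr i g) := by
            rw [← exp_add, ← exp_add]
            exact exp_le_exp.2 (by linarith)
          calc D * M * ‖v‖ * (exp (gr j g) * ‖P i y *ᵥ w‖)
              ≤ D * M * ‖v‖ * (exp D * exp (-η * t) * exp (gr i g) * ‖P i y *ᵥ w‖) := by
                gcongr
            _ = D * M * ‖v‖ * (exp D * exp (-η * t)) * (exp (gr i g) * ‖P i y *ᵥ w‖) := by ring
            _ ≤ D * M * ‖v‖ * (exp D * exp (-η * t)) * (D * (M * ‖(ρ g).1 *ᵥ w‖)) :=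
                mul_le_mul_of_nonneg_left (h3 i) (by positivity)
            _ = _ := by ring
      _ = (Sᶜ.card * S.card : ℝ) * ((D * M) ^ 2 * exp D * exp (-η * t) *
            (‖(ρ g).1 *ᵥ w‖ * ‖v‖)) := by
          simp only [Finset.sum_const, nsmul_eq_mul]
          ring
      _ ≤ (d * d : ℝ) * ((D * M) ^ 2 * exp D * exp (-η * t) *
            (‖(ρ g).1 *ᵥ w‖ * ‖v‖)) := by
          have c1 : (Sᶜ.card : ℝ) ≤ d := by
            have := Finset.card_le_univ Sᶜ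
            rw [Fintype.card_fin] at this
            exact_mod_cast this
          have c2 : (S.card : ℝ) ≤ d := by
            have := Finset.card_le_univ S
            rw [Fintype.card_fin] at this
            exact_mod_cast this
          have c3 : 0 ≤ (D * M) ^ 2 * exp D * exp (-η * t) * (‖(ρ g).1 *ᵥ w‖ * ‖v‖) := by
            positivity
          gcongr
      _ = _ := by ring
  refine ⟨Q, nrmG ρ L, (L * exp (L * r)) ^ 2 * (d * d * (D * M) ^ 2 * exp D) * exp (L * r) ^ 2,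
    η, hη, ?_, ?_, hQf, hQe, nrmG_continuousOn hΓ hL hρ' hY, ?_, ?_, ?_⟩
  · exact continuousOn_finsetSum _ fun i _ => hPc i
  · intro y hy
    refine ⟨hQQ y hy, ?_⟩
    rw [← hcard]
    exact mrank_sum (fun i => P i y) (fun i => hP4 i y hy) (hP3 y hy) S
  · intro y hy
    have hy' := (hY hy).1
    exact ⟨fun v => nrmG_nonneg hΓ hL hρ' hy' v, fun v h => eq_zero_of_nrmG hΓ hL hρ' hy' h,
      fun a v => nrmG_smul y a v, fun v w => nrmG_add hΓ hL hρ' hy' v w⟩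
  · intro y _ g v
    exact nrmG_mact y g v
  · intro y hy t ht v w hv hw
    obtain ⟨g0, hg0, hg0r⟩ := hr y.1 (hY hy).1
    set g0' : Γ := ⟨g0, hg0⟩ with hg0'
    set y0 := mact g0 y with hy0
    have hy0Y : y0 ∈ Y := hYg y hy g0 hg0
    obtain ⟨g, hgΓ, hgr⟩ := hr (flow t y0).1 (hY (hYf y0 hy0Y t)).1
    set g' : Γ := ⟨g, hgΓ⟩ with hg'
    set v0 := (ρ g0').1 *ᵥ v with hv0
    set w0 := (ρ g0').1 *ᵥ w with hw0
    have hv0' : Q y0 *ᵥ v0 = 0 := by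
      have := hQv y hy g0' v
      rw [hv, Matrix.mulVec_zero] at this
      exact this
    have hw0' : Q y0 *ᵥ w0 = w0 := by
      have := hQv y hy g0' w
      rw [hw] at this
      exact this
    have e1 : ∀ u : Fin d → ℂ, nrmG ρ L (flow t y) u =
        nrmG ρ L (flow t y0) ((ρ g0').1 *ᵥ u) := by
      intro u
      rw [hy0, ← mact_flow]
      exact (nrmG_mact (flow t y) g0' u).symm
    have e2 : ∀ u : Fin d → ℂ, nrmG ρ L y u = nrmG ρ L y0 ((ρ g0').1 *ᵥ u) := fun u =>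
      (nrmG_mact y g0' u).symm
    rw [e1 v, e1 w, e2 v, e2 w]
    have hy0H := (hY hy0Y).1
    have hf0H := (hY (hYf y0 hy0Y t)).1
    have hone : ∀ x : V3, (1 : Γ).1.1 *ᵥ x = x := by intro x; simp
    have hone' : ∀ u : Fin d → ℂ, (ρ 1).1 *ᵥ u = u := by intro u; simp
    have k1 := key y0 hy0Y hg0r t ht g' hgr v0 w0 hv0' hw0'
    have a1 := (nrmG_comp hΓ hL hρ' hf0H g' hgr v0).2
    have a2 := (nrmG_comp hΓ hL hρ' hf0H g' hgr w0).1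
    have a3 := (nrmG_comp hΓ hL hρ' hy0H (r := r) 1 (by rw [hone]; exact hg0r) w0).2
    have a4 := (nrmG_comp hΓ hL hρ' hy0H (r := r) 1 (by rw [hone]; exact hg0r) v0).1
    rw [hone'] at a3 a4
    have n1 := nrmG_nonneg hΓ hL hρ' hf0H v0
    have n2 := nrmG_nonneg hΓ hL hρ' hy0H w0
    have n3 := nrmG_nonneg hΓ hL hρ' hf0H w0
    have n4 := nrmG_nonneg hΓ hL hρ' hy0H v0
    calc nrmG ρ L (flow t y0) v0 * nrmG ρ L y0 w0
        ≤ (L * exp (L * r) * ‖(ρ g').1 *ᵥ v0‖) * (L * exp (L * r) * ‖w0‖) :=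
          mul_le_mul a1 a3 n2 (by positivity)
      _ = (L * exp (L * r)) ^ 2 * (‖(ρ g').1 *ᵥ v0‖ * ‖w0‖) := by ring
      _ ≤ (L * exp (L * r)) ^ 2 * ((d * d * (D * M) ^ 2 * exp D) * exp (-η * t) *
            (‖(ρ g').1 *ᵥ w0‖ * ‖v0‖)) := mul_le_mul_of_nonneg_left k1 (by positivity)
      _ ≤ (L * exp (L * r)) ^ 2 * ((d * d * (D * M) ^ 2 * exp D) * exp (-η * t) *
            ((exp (L * r) * nrmG ρ L (flow t y0) w0) * (exp (L * r) * nrmG ρ L y0 v0))) := by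
          refine mul_le_mul_of_nonneg_left (mul_le_mul_of_nonneg_left ?_ (by positivity))
            (by positivity)
          exact mul_le_mul a2 a4 (norm_nonneg _) (by positivity)
      _ = _ := by ring

end main

end SBA
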