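import Pool.Agent.Lib.MP_709218_gt.Tile
import Pool.Agent.Lib.MP_709218_gt.Lor2

/-! First exit from the polygon along a segment, equivariant Lipschitz extension. -/

namespace SBA

open Real Set Filter Topology

variable {ι : Type}

namespace Mirrors

variable {R : RA ι}

theorem firstExit [Finite ι] (S : Mirrors R) {x y : V3} (hx : x ∈ S.Q) (hy : y ∈ Hyp)
    (hyQ : y ∉ S.Q) :
    ∃ z ∈ S.Q, Btw x z y ∧ ∃ i, lor z (S.n i) = 0 ∧ lor y (S.n i) < 0 := by
  have hne : {i : ι | lor y (S.n i) < 0}.Nonempty := by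
    by_contra hcon
    rw [Set.not_nonempty_iff_eq_empty, Set.eq_empty_iff_forall_notMem] at hcon
    exact hyQ ⟨hy, fun i => not_lt.1 (hcon i)⟩
  obtain ⟨i, hi, hmin⟩ := Set.exists_min_image {i : ι | lor y (S.n i) < 0}
    (fun i => lor x (S.n i) / (-lor y (S.n i))) (Set.toFinite _) hne
  have hi' : lor y (S.n i) < 0 := hi
  obtain ⟨z, hz, hz0⟩ := exists_btw_zero hx.1 hy (hx.2 i) hi'.le
  refine ⟨z, ⟨hz.1, ?_⟩, hz, i, hz0, hi'⟩
  intro j
  obtain ⟨hzH, a, b, ha, hb, hzab⟩ := hz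
  have hα := hx.2 i
  have hβ : 0 < -lor y (S.n i) := by linarith
  have h1 : a * lor x (S.n i) + b * lor y (S.n i) = 0 := by
    rw [hzab, lor_add_left, lor_smul_left, lor_smul_left] at hz0; exact hz0
  have hb' : b = a * (lor x (S.n i) / (-lor y (S.n i))) := by
    rw [← mul_div_assoc, eq_div_iff hβ.ne']; linarith
  rw [hzab, lor_add_left, lor_smul_left, lor_smul_left]
  rcases le_or_gt 0 (lor y (S.n j)) with h | h
  · exact add_nonneg (mul_nonneg ha (hx.2 j)) (mul_nonneg hb h)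
  · have h2 : lor x (S.n i) / (-lor y (S.n i)) ≤ lor x (S.n j) / (-lor y (S.n j)) := hmin j h
    have hβj : 0 < -lor y (S.n j) := by linarith
    rw [le_div_iff₀ hβj] at h2
    have h3 : a * lor x (S.n j) + b * lor y (S.n j) =
        a * (lor x (S.n j) - lor x (S.n i) / (-lor y (S.n i)) * (-lor y (S.n j))) := by
      rw [hb']; ring
    rw [h3]
    exact mul_nonneg ha (by linarith)

/-- equivariant Lipschitz extension: `G` on the polygon, `A` an action by isometries on `ℝ` -/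
theorem equivLip_aux [Finite ι] (S : Mirrors R) (A : R.W →* (ℝ ≃ᵢ ℝ)) (G : V3 → ℝ)
    (K : ℝ)
    (hG : ∀ x ∈ S.Q, ∀ y ∈ S.Q, |G x - G y| ≤ K * hd x y)
    (hfix : ∀ i, ∀ z ∈ S.Q, lor z (S.n i) = 0 → A (R.gen i) (G z) = G z)
    (y : V3) (hy : y ∈ S.Q) (n : ℕ) : ∀ (v : R.W), R.len v = n → ∀ x ∈ S.Q,
    |G x - A v (G y)| ≤ K * hd x (S.rep v y) := by
  induction n using Nat.strong_induction_on with
  | _ n IH =>
    intro v hv x hx
    by_cases hQ : S.rep v y ∈ S.Q
    · obtain ⟨h1, h2⟩ := S.stab_explicit v hy hQ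
      have h3 : A v (G y) = G y := by
        rcases h2 with rfl | ⟨i, hi, rfl⟩ | ⟨i, j, _, hi, hj, rfl⟩
        · rw [map_one]; rfl
        · exact hfix i y hy hi
        · rw [map_mul, IsometryEquiv.mul_apply, hfix j y hy hj, hfix i y hy hi]
      rw [h1, h3]
      exact hG x hx y hy
    · have hYH : S.rep v y ∈ Hyp := S.rep_hyp v hy.1
      obtain ⟨z, hzQ, hz, i, hz0, hneg⟩ := S.firstExit hx hYH hQ
      have hlen : R.len (R.gen i * v) + 1 = R.len v := by
        rcases R.len_gen_mul i v with h | h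
        · have := S.nonneg_of_lt (w := v) (i := i) (by omega) hy
          linarith
        · exact h
      have h1 := IH (R.len (R.gen i * v)) (by omega) (R.gen i * v) rfl z hzQ
      have h2 : hd z (S.rep (R.gen i * v) y) = hd z (S.rep v y) := by
        have h3 : z = S.rep (R.gen i) z := by rw [S.rep_gen, refl_fix hz0]
        rw [S.rep_mul]
        conv_lhs => rw [h3]
        rw [S.hd_rep]
      have h3 : |G z - A (R.gen i * v) (G y)| = |G z - A v (G y)| := by
        have h4 : A (R.gen i) (G z) = G z := hfix i z hzQ hz0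
        rw [map_mul, IsometryEquiv.mul_apply]
        conv_lhs => rw [← h4]
        rw [← Real.dist_eq, ← Real.dist_eq, (A (R.gen i)).dist_eq]
      rw [h2, h3] at h1
      have h5 := hG x hx z hzQ
      have h6 := hz.hd_add hx.1 hYH
      calc |G x - A v (G y)| = |(G x - G z) + (G z - A v (G y))| := by ring_nf
        _ ≤ |G x - G z| + |G z - A v (G y)| := abs_add_le _ _
        _ ≤ K * hd x z + K * hd z (S.rep v y) := add_le_add h5 h1
        _ = K * hd x (S.rep v y) := by rw [h6]; ring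

/-- equivariant Lipschitz extension: `G` on the polygon, `A` an action by isometries on `ℝ` -/
theorem equivLip [Finite ι] (S : Mirrors R) (A : R.W →* (ℝ ≃ᵢ ℝ)) (G : V3 → ℝ)
    (K : ℝ) (hK : 0 ≤ K)
    (hG : ∀ x ∈ S.Q, ∀ y ∈ S.Q, |G x - G y| ≤ K * hd x y)
    (hfix : ∀ i, ∀ z ∈ S.Q, lor z (S.n i) = 0 → A (R.gen i) (G z) = G z)
    {x y : V3} (hx : x ∈ S.Q) (hy : y ∈ S.Q) (w w' : R.W) :
    |A w (G x) - A w' (G y)| ≤ K * hd (S.rep w x) (S.rep w' y) := by
  have h1 := equivLip_aux S A G K hG hfix y hy _ (w⁻¹ * w') rfl x hx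
  have h2 : hd x (S.rep (w⁻¹ * w') y) = hd (S.rep w x) (S.rep w' y) := by
    rw [← S.hd_rep w, ← S.rep_mul, mul_inv_cancel_left]
  have h3 : |G x - A (w⁻¹ * w') (G y)| = |A w (G x) - A w' (G y)| := by
    rw [← Real.dist_eq, ← (A w).dist_eq, Real.dist_eq, ← IsometryEquiv.mul_apply, ← map_mul,
      mul_inv_cancel_left]
  rw [← h2, ← h3]
  exact h1

end Mirrors

end SBA
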